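import Mathlib
import Pool.Agent.H499R2.Dens15

set_option autoImplicit false

namespace Pool.Agent.TH913.MK

open Pool.Agent.H499R2

noncomputable section

/-- irrationality of a cone at the scale of the cone itself -/
def Ir (H : ℕ) (k : List Bool) : Prop :=
  ∀ d : ℤ × ℤ, d ≠ 0 → nm d ≤ 3 * (H : ℝ) ^ 3 → 12 * (H : ℝ) ^ 3 * dl (desc root k) < |ell (desc root k) d|

/-- approximate linearity -/
lemma F_lin1 {H : ℕ} {k l : List Bool} (h : k <+: l) (hl : sz l ≤ H) :
    |FF l - ell (desc root k) (zz l)| ≤ 2 * H * dl (desc root k) := by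
  have hv := valid_root.desc k
  obtain ⟨h1, h2⟩ := F_closed k l (inC_of_prefix h)
  have hl' : (sz l : ℝ) ≤ H := by exact_mod_cast hl
  have h7 := dl_pos hv
  have h6 : 2 * dl (desc root k) * sz l ≤ 2 * H * dl (desc root k) := by nlinarith
  rw [abs_le]; constructor
  · linarith
  · have : 0 ≤ 2 * (H : ℝ) * dl (desc root k) := by positivity
    linarith

/-- basic hypotheses on a relation between two cones -/
structure Hy (H ρ : ℕ) (k k' : List Bool) (R : List Bool → List Bool → Prop) : Prop where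
  hs : (10 : ℝ) ^ 20 * H ^ 20 ≤ 4 ^ ρ
  hρ : 2 ≤ ρ
  hp : ρ ≤ (desc root k).p
  hq : ρ ≤ (desc root k).q
  hp' : ρ ≤ (desc root k').p
  hq' : ρ ≤ (desc root k').q
  irr : Ir H k
  irr' : Ir H k'
  rel : ∀ l l', R l l' → k <+: l ∧ k' <+: l' ∧ sz l ≤ H ∧ sz l' ≤ H ∧ FF l' = FF l

lemma Hy.symm {H ρ : ℕ} {k k' : List Bool} {R : List Bool → List Bool → Prop} (h : Hy H ρ k k' R) :
    Hy H ρ k' k (fun a b => R b a) :=
  ⟨h.hs, h.hρ, h.hp', h.hq', h.hp, h.hq, h.irr', h.irr, fun l l' hr => by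
    obtain ⟨h1, h2, h3, h4, h5⟩ := h.rel _ _ hr
    exact ⟨h2, h1, h4, h3, h5.symm⟩⟩

lemma Hy.inj {H ρ : ℕ} {k k' : List Bool} {R : List Bool → List Bool → Prop} (h : Hy H ρ k k' R)
    {a b c : List Bool} (h1 : R a c) (h2 : R b c) : a = b := by
  by_contra hne
  obtain ⟨p1, p2, p3, p4, p5⟩ := h.rel _ _ h1
  obtain ⟨q1, q2, q3, q4, q5⟩ := h.rel _ _ h2
  have l1 := F_lin1 p1 p3
  have l2 := F_lin1 q1 q3
  have hd : zz a - zz b ≠ 0 := by
    intro h0; exact hne (zz_inj (sub_eq_zero.mp h0))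
  have hH : 1 ≤ H := by have := pt_pos a; unfold sz at p3; omega
  have hH1 : (1 : ℝ) ≤ H := by exact_mod_cast hH
  have hH3 : (H : ℝ) ≤ H ^ 3 := by
    calc (H : ℝ) = H ^ 1 := (pow_one _).symm
      _ ≤ H ^ 3 := pow_le_pow_right₀ hH1 (by norm_num)
  have hn : nm (zz a - zz b) ≤ 3 * H ^ 3 := by
    have e1 := nm_sub (zz a) (zz b)
    rw [nm_zz, nm_zz] at e1
    have ra : (sz a : ℝ) ≤ H := by exact_mod_cast p3
    have rb : (sz b : ℝ) ≤ H := by exact_mod_cast q3
    linarith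
  have h3 := h.irr _ hd hn
  rw [ell_sub] at h3
  have hdl := dl_pos (valid_root.desc k)
  have h4 : |ell (desc root k) (zz a) - ell (desc root k) (zz b)| ≤ 4 * H * dl (desc root k) := by
    have e : ell (desc root k) (zz a) - ell (desc root k) (zz b) =
      (FF b - ell (desc root k) (zz b)) - (FF a - ell (desc root k) (zz a)) := by
      rw [← p5, ← q5]; ring
    rw [e]
    exact (abs_sub _ _).trans (by linarith)
  have h5 : 4 * (H : ℝ) * dl (desc root k) ≤ 12 * H ^ 3 * dl (desc root k) := by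
    apply mul_le_mul_of_nonneg_right _ hdl.le
    linarith
  linarith

lemma MM_comp (u1 u2 u1' u2' t : ℤ × ℤ) :
    MM u1' u2' u1 u2 (MM u1 u2 u1' u2' t) = (dt u1 u2 * dt u1' u2') • t := by
  rw [MM_apply, MM_apply]
  unfold dt
  apply Prod.ext
  · simp only [Prod.smul_fst, smul_eq_mul]; ring
  · simp only [Prod.smul_snd, smul_eq_mul]; ring

/-- both systems, when the second cone is the coarser one -/
theorem Hy.sys {H ρ : ℕ} {k k' : List Bool} {R : List Bool → List Bool → Prop} (h : Hy H ρ k k' R)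
    (hdl : dl (desc root k) ≤ dl (desc root k'))
    {a b a' b' : List Bool} (ha : R a a') (hb : R b b') (hab : a ≠ b) :
    Sys H ρ (dt (zz a) (zz b)) (dt (zz a') (zz b')) (MM (zz a) (zz b) (zz a') (zz b')) k k' R ∧
    Sys H ρ (dt (zz a') (zz b')) (dt (zz a) (zz b)) (MM (zz a') (zz b') (zz a) (zz b)) k' k (fun x y => R y x) := by
  obtain ⟨p1, p2, p3, p4, p5⟩ := h.rel _ _ ha
  obtain ⟨q1, q2, q3, q4, q5⟩ := h.rel _ _ hb
  have hab' : a' ≠ b' := by
    intro h0
    rw [← h0] at hb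
    exact hab (h.inj ha hb)
  have hH : 1 ≤ H := by have := pt_pos a; unfold sz at p3; omega
  have hH1 : (1 : ℝ) ≤ H := by exact_mod_cast hH
  have hn0 : dt (zz a) (zz b) ≠ 0 := fun h0 => hab (dt_zero h0)
  have hn0' : dt (zz a') (zz b') ≠ 0 := fun h0 => hab' (dt_zero h0)
  have key : ∀ l l', R l l' → MM (zz a) (zz b) (zz a') (zz b') (zz l) = dt (zz a) (zz b) • zz l' := by
    intro l l' hl
    obtain ⟨r1, r2, r3, r4, r5⟩ := h.rel _ _ hl
    set n := dt (zz a) (zz b) with hn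
    set M := MM (zz a) (zz b) (zz a') (zz b') with hM
    by_contra hne
    have hd : n • zz l' - M (zz l) ≠ 0 := fun h0 => hne (sub_eq_zero.mp h0).symm
    have hnb : |(n : ℝ)| ≤ (H : ℝ) ^ 2 := dt_bd_zz p3 q3
    have nl : nm (zz l) ≤ H := by rw [nm_zz]; exact_mod_cast r3
    have nl' : nm (zz l') ≤ H := by rw [nm_zz]; exact_mod_cast r4
    have hnm : nm (n • zz l' - M (zz l)) ≤ 3 * H ^ 3 := by
      have e1 := nm_sub (n • zz l') (M (zz l))
      rw [nm_smul] at e1
      have e2 := MM_bd a b a' b' H p3 q3 p4 q4 (zz l)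
      have e3 : |(n : ℝ)| * nm (zz l') ≤ H ^ 2 * H := mul_le_mul hnb nl' (nm_nonneg _) (by positivity)
      have e4 : 2 * (H : ℝ) ^ 2 * nm (zz l) ≤ 2 * H ^ 2 * H := mul_le_mul_of_nonneg_left nl (by positivity)
      calc nm (n • zz l' - M (zz l)) ≤ H ^ 2 * H + 2 * H ^ 2 * H := by linarith
        _ = 3 * H ^ 3 := by ring
    have h3 := h.irr' _ hd hnm
    set f := ell (desc root k) with hf
    set f' := ell (desc root k') with hf'
    have c1 : |(dt (zz l) (zz b) : ℝ)| ≤ (H : ℝ) ^ 2 := dt_bd_zz r3 q3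
    have c2 : |(dt (zz a) (zz l) : ℝ)| ≤ (H : ℝ) ^ 2 := dt_bd_zz p3 r3
    -- values
    set ε : ℝ := 2 * H * dl (desc root k') with hε
    have hdlp := dl_pos (valid_root.desc k')
    have hε0 : 0 ≤ ε := by positivity
    have hε1 : 2 * H * dl (desc root k) ≤ ε := mul_le_mul_of_nonneg_left hdl (by positivity)
    have fl := F_lin1 r1 r3
    have fa := F_lin1 p1 p3
    have fb := F_lin1 q1 q3
    have fl' := F_lin1 r2 r4
    have fa' := F_lin1 p2 p4
    have fb' := F_lin1 q2 q4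
    rw [← hε] at fl' fa' fb'
    rw [← hf] at fl fa fb
    rw [← hf'] at fl' fa' fb'
    rw [r5] at fl'
    rw [p5] at fa'
    rw [q5] at fb'
    have dl' : |f' (zz l') - f (zz l)| ≤ 2 * ε := by
      have : f' (zz l') - f (zz l) = (FF l - f (zz l)) - (FF l - f' (zz l')) := by ring
      rw [this]; exact (abs_sub _ _).trans (by linarith)
    have da' : |f' (zz a') - f (zz a)| ≤ 2 * ε := by
      have : f' (zz a') - f (zz a) = (FF a - f (zz a)) - (FF a - f' (zz a')) := by ring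
      rw [this]; exact (abs_sub _ _).trans (by linarith)
    have db' : |f' (zz b') - f (zz b)| ≤ 2 * ε := by
      have : f' (zz b') - f (zz b) = (FF b - f (zz b)) - (FF b - f' (zz b')) := by ring
      rw [this]; exact (abs_sub _ _).trans (by linarith)
    have pl := ell_pluck (desc root k) (zz a) (zz b) (zz l)
    rw [← hf, ← hn] at pl
    have eM : f' (M (zz l)) = (dt (zz l) (zz b) : ℝ) * f' (zz a') + (dt (zz a) (zz l) : ℝ) * f' (zz b') := by
      rw [hf', hM, MM_apply]; unfold ell cu cv; push_cast; ring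
    have e1 : f' (n • zz l' - M (zz l)) = n * (f' (zz l') - f (zz l)) -
        (dt (zz l) (zz b) : ℝ) * (f' (zz a') - f (zz a)) - (dt (zz a) (zz l) : ℝ) * (f' (zz b') - f (zz b)) := by
      rw [hf', ell_sub, ell_smul, ← hf', eM]
      linear_combination -pl
    have e2 : |f' (n • zz l' - M (zz l))| ≤ 3 * (H ^ 2 * (2 * ε)) := by
      rw [e1]
      refine (abs_sub _ _).trans ?_
      have g1 := abs_sub ((n : ℝ) * (f' (zz l') - f (zz l))) ((dt (zz l) (zz b) : ℝ) * (f' (zz a') - f (zz a)))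
      have g2 : |(n : ℝ) * (f' (zz l') - f (zz l))| ≤ H ^ 2 * (2 * ε) := by
        rw [abs_mul]; exact mul_le_mul hnb dl' (abs_nonneg _) (by positivity)
      have g3 : |(dt (zz l) (zz b) : ℝ) * (f' (zz a') - f (zz a))| ≤ H ^ 2 * (2 * ε) := by
        rw [abs_mul]; exact mul_le_mul c1 da' (abs_nonneg _) (by positivity)
      have g4 : |(dt (zz a) (zz l) : ℝ) * (f' (zz b') - f (zz b))| ≤ H ^ 2 * (2 * ε) := by
        rw [abs_mul]; exact mul_le_mul c2 db' (abs_nonneg _) (by positivity)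
      linarith
    have e3 : 3 * ((H : ℝ) ^ 2 * (2 * ε)) = 12 * H ^ 3 * dl (desc root k') := by rw [hε]; ring
    linarith
  refine ⟨⟨⟨hn0, hn0', dt_bd_zz p3 q3, dt_bd_zz p4 q4,
    MM_dd _ _ _ _, MM_bd a b a' b' H p3 q3 p4 q4⟩, h.hs, h.hρ, h.hp, h.hq, h.hp', h.hq', ?_⟩,
    ⟨⟨hn0', hn0, dt_bd_zz p4 q4, dt_bd_zz p3 q3,
    MM_dd _ _ _ _, MM_bd a' b' a b H p4 q4 p3 q3⟩, h.hs, h.hρ, h.hp', h.hq', h.hp, h.hq, ?_⟩⟩
  · intro l l' hl
    obtain ⟨r1, r2, r3, r4, r5⟩ := h.rel _ _ hl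
    exact ⟨r1, r2, r3, r4, r5, key l l' hl⟩
  · intro l' l hl
    obtain ⟨r1, r2, r3, r4, r5⟩ := h.rel _ _ hl
    refine ⟨r2, r1, r4, r3, r5.symm, ?_⟩
    have e1 := key l l' hl
    have e2 := congrArg (MM (zz a') (zz b') (zz a) (zz b)) e1
    rw [MM_comp, map_zsmul] at e2
    set n := dt (zz a) (zz b)
    set n' := dt (zz a') (zz b')
    set w := MM (zz a') (zz b') (zz a) (zz b) (zz l')
    apply Prod.ext
    · have e3 := congrArg Prod.fst e2
      simp only [Prod.smul_fst, smul_eq_mul] at e3 ⊢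
      apply mul_left_cancel₀ hn0
      rw [← e3]; ring
    · have e3 := congrArg Prod.snd e2
      simp only [Prod.smul_snd, smul_eq_mul] at e3 ⊢
      apply mul_left_cancel₀ hn0
      rw [← e3]; ring

/-- The dichotomy: one of the two sides has no branching edge. -/
theorem Hy.dich {H ρ : ℕ} {k k' : List Bool} {R : List Bool → List Bool → Prop} (h : Hy H ρ k k' R)
    (hne : ∀ l l', R l l' → l ≠ l')
    {i i' : List Bool} {b b' : Bool} (hki : k <+: i) (hki' : k' <+: i')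
    (hB : Br R i) (hB1 : Br R (i ++ [b]))
    (hB' : Br (fun a b => R b a) i') (hB1' : Br (fun a b => R b a) (i' ++ [b'])) : False := by
  have hB0 := hB
  obtain ⟨⟨a1, a1', a2, a2', hane, ra1, ra2, -, -⟩, -⟩ := hB0
  rcases le_total (dl (desc root k)) (dl (desc root k')) with hdl | hdl
  · obtain ⟨S, S'⟩ := h.sys hdl ra1 ra2 hane
    exact rigid S S' hne hki hki' hB hB1 hB' hB1'
  · have hane' : a1' ≠ a2' := by
      intro h0
      rw [← h0] at ra2
      exact hane (h.inj ra1 ra2)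
    obtain ⟨S, S'⟩ := h.symm.sys (a := a1') (b := a2') (a' := a1) (b' := a2) hdl ra1 ra2 hane'
    exact rigid S' S hne hki hki' hB hB1 hB' hB1'

end

end Pool.Agent.TH913.MK
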