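import Mathlib
import Pool.Agent.TH913.MK.A

set_option autoImplicit false

namespace Pool.Agent.TH913.MK

open Pool.Agent.H499R2

noncomputable section

lemma PS_step {p q : ℝ} (hp : 1 ≤ p) (hq : 1 ≤ q) :
    PS p (p + q) + 1 / (3 * ((p + q) * Real.sqrt (p + q))) ≤ PS p q := by
  have hp0 : 0 < p := by linarith
  have hq0 : 0 < q := by linarith
  have hs0 : 0 < p + q := by linarith
  unfold PS
  set u := Real.sqrt (p + q) with hu
  set v := Real.sqrt (p + (p + q)) with hv
  have hu0 : 0 < u := Real.sqrt_pos.mpr hs0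
  have hv0 : 0 < v := Real.sqrt_pos.mpr (by linarith)
  have hu2 : u ^ 2 = p + q := Real.sq_sqrt hs0.le
  have hv2 : v ^ 2 = p + (p + q) := Real.sq_sqrt (by linarith)
  have huv : u * v ≤ (u ^ 2 + v ^ 2) / 2 := by nlinarith [sq_nonneg (u - v)]
  rw [hu2, hv2] at huv
  rw [div_add_div _ _ (by positivity) (by positivity), div_le_div_iff₀ (by positivity) (by positivity)]
  have key : 3 * q * (u * v) ≤ 3 * (p + q) ^ 2 - p * q := by
    have : 3 * q * (u * v) ≤ 3 * q * ((p + q + (p + (p + q))) / 2) := mul_le_mul_of_nonneg_left huv (by positivity)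
    nlinarith
  have h3 : (v * (3 * ((p + q) * u)) + p * (p + q) * 1) * (p * q) =
      p * (p + q) * (3 * q * (u * v) + p * q) := by ring
  have h4 : u * (p * (p + q) * (3 * ((p + q) * u))) = p * (p + q) * (3 * (p + q) * u ^ 2) := by ring
  rw [h3, h4, hu2]
  apply mul_le_mul_of_nonneg_left _ (by positivity)
  nlinarith

lemma PS_step' {p q : ℝ} (hp : 1 ≤ p) (hq : 1 ≤ q) :
    PS (p + q) q + 1 / (3 * ((p + q) * Real.sqrt (p + q))) ≤ PS p q := by
  have h := PS_step hq hp
  rw [PS_comm q (q + p), PS_comm q p, add_comm q p] at h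
  exact h

lemma PS_half' {p q : ℝ} (hp : 1 ≤ p) (hq : 1 ≤ q) :
    PS p (2 * p + q) + p / (8 * ((p + q) ^ 2 * Real.sqrt (p + q))) ≤ Real.sqrt (p + q) / (p * (p + q)) := by
  have hp0 : 0 < p := by linarith
  have hq0 : 0 < q := by linarith
  have hs0 : 0 < p + q := by linarith
  unfold PS
  set u := Real.sqrt (p + q) with hu
  set w := Real.sqrt (p + (2 * p + q)) with hw
  have hu0 : 0 < u := Real.sqrt_pos.mpr hs0
  have hw0 : 0 < w := Real.sqrt_pos.mpr (by linarith)
  have hu2 : u ^ 2 = p + q := Real.sq_sqrt hs0.le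
  have hw2 : w ^ 2 = p + (2 * p + q) := Real.sq_sqrt (by linarith)
  set x := 2 * p + q with hx
  have hx0 : 0 < x := by rw [hx]; linarith
  have hpx : p ≤ x := by rw [hx]; linarith
  have hpp : p ^ 2 / (2 * x) ≤ x := by
    rw [div_le_iff₀ (by positivity)]; nlinarith
  have huw : u * w ≤ x - p ^ 2 / (2 * x) := by
    have h1 : (u * w) ^ 2 ≤ (x - p ^ 2 / (2 * x)) ^ 2 := by
      have e1 : (u * w) ^ 2 = x ^ 2 - p ^ 2 := by
        rw [mul_pow, hu2, hw2, hx]; ring
      have e2 : (x - p ^ 2 / (2 * x)) ^ 2 = x ^ 2 - p ^ 2 + (p ^ 2 / (2 * x)) ^ 2 := by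
        field_simp; ring
      rw [e1, e2]
      have : 0 ≤ (p ^ 2 / (2 * x)) ^ 2 := by positivity
      linarith
    exact le_of_sq_le_sq h1 (by linarith)
  have hx2 : x ≤ 2 * (p + q) := by rw [hx]; linarith
  have h5 : p ^ 2 * x / (8 * (p + q) ^ 2) ≤ p ^ 2 / (2 * x) := by
    rw [div_le_div_iff₀ (by positivity) (by positivity)]
    have : x * x ≤ 4 * (p + q) ^ 2 := by nlinarith
    have h6 : 0 ≤ 2 * p ^ 2 := by positivity
    nlinarith [mul_le_mul_of_nonneg_left this h6]
  have h7 : u * w + p ^ 2 * x / (8 * (p + q) ^ 2) ≤ x := by linarith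
  -- multiply out
  have h8 : w / (p * x) + p / (8 * ((p + q) ^ 2 * u)) = (u * w + p ^ 2 * x / (8 * (p + q) ^ 2)) / (p * x * u) := by
    field_simp
  have h9 : u / (p * (p + q)) = x / (p * x * u) := by
    rw [← hu2]; field_simp
  rw [h8, h9]
  exact div_le_div_of_nonneg_right h7 (by positivity)

lemma PS_split' {p q : ℝ} (hp : 1 ≤ p) (hq : 1 ≤ q) :
    PS p (2 * p + q) + PS (2 * q + p) q + 1 / (8 * ((p + q) * Real.sqrt (p + q))) ≤ PS p q := by
  have h1 := PS_half' hp hq
  have h2 := PS_half' hq hp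
  rw [PS_comm q, add_comm q p] at h2
  have hp0 : 0 < p := by linarith
  have hq0 : 0 < q := by linarith
  have hs0 : 0 < p + q := by linarith
  have hu0 : 0 < Real.sqrt (p + q) := Real.sqrt_pos.mpr hs0
  have h3 : Real.sqrt (p + q) / (p * (p + q)) + Real.sqrt (p + q) / (q * (p + q)) = PS p q := by
    unfold PS
    have : p + q ≠ 0 := by linarith
    field_simp
    ring
  have h4 : p / (8 * ((p + q) ^ 2 * Real.sqrt (p + q))) + q / (8 * ((p + q) ^ 2 * Real.sqrt (p + q))) =
      1 / (8 * ((p + q) * Real.sqrt (p + q))) := by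
    field_simp
  linarith

/-- the constant of the pruning bound -/
def AA (H : ℕ) : ℝ := 40 * (H * Real.sqrt H)

lemma AA_nonneg (H : ℕ) : 0 ≤ AA H := by unfold AA; positivity

lemma AA_mul {H : ℕ} {s : ℝ} (hs : 0 < s) (hsH : s ≤ H) : 40 ≤ AA H * (1 / (s * Real.sqrt s)) := by
  unfold AA
  have h1 : Real.sqrt s ≤ Real.sqrt H := Real.sqrt_le_sqrt hsH
  have h0 : 0 < Real.sqrt s := Real.sqrt_pos.mpr hs
  have h2 : s * Real.sqrt s ≤ H * Real.sqrt H := mul_le_mul hsH h1 h0.le (by positivity)
  rw [mul_one_div, le_div_iff₀ (by positivity)]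
  linarith

lemma pq_real (i : List Bool) : (1 : ℝ) ≤ (desc root i).p ∧ (1 : ℝ) ≤ (desc root i).q := by
  have hv := valid_root.desc i
  exact ⟨by exact_mod_cast hv.p1, by exact_mod_cast hv.q1⟩

lemma PW_step (i : List Bool) (b : Bool) {H : ℕ} (hi : sz i ≤ H) :
    AA H * PW (i ++ [b]) + 2 ≤ AA H * PW i := by
  obtain ⟨hp, hq⟩ := pq_real i
  have hs : ((desc root i).p : ℝ) + (desc root i).q ≤ H := by
    have := sz_pq i
    exact_mod_cast (show (desc root i).p + (desc root i).q ≤ H by omega)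
  have hA := AA_mul (by linarith : (0 : ℝ) < (desc root i).p + (desc root i).q) hs
  have hstep : PW (i ++ [b]) + 1 / (3 * ((((desc root i).p : ℝ) + (desc root i).q) *
      Real.sqrt ((desc root i).p + (desc root i).q))) ≤ PW i := by
    unfold PW
    rw [desc_snoc]
    cases b
    · have := PS_step' hp hq
      show PS (((desc root i).p + (desc root i).q : ℕ) : ℝ) ((desc root i).q : ℝ) + _ ≤ _
      push_cast
      exact this
    · have := PS_step hp hq
      show PS ((desc root i).p : ℝ) (((desc root i).p + (desc root i).q : ℕ) : ℝ) + _ ≤ _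
      push_cast
      exact this
  have h2 := mul_le_mul_of_nonneg_left hstep (AA_nonneg H)
  have h3 : AA H * (1 / (3 * ((((desc root i).p : ℝ) + (desc root i).q) *
      Real.sqrt ((desc root i).p + (desc root i).q)))) =
      AA H * (1 / ((((desc root i).p : ℝ) + (desc root i).q) * Real.sqrt ((desc root i).p + (desc root i).q))) / 3 := by
    field_simp
  rw [mul_add, h3] at h2
  linarith

lemma cnt_zero {X : Finset (List Bool)} {H : ℕ} (hX : ∀ l ∈ X, sz l ≤ H) {i : List Bool} (hi : H < sz i) :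
    cnt X i = 0 := by
  unfold cnt
  rw [Finset.card_eq_zero, Finset.filter_eq_empty_iff]
  intro l hl h
  have := sz_prefix h
  have := hX l hl
  omega

theorem prune2_ind (X : Finset (List Bool)) (H : ℕ) (hX : ∀ l ∈ X, sz l ≤ H) (k : List Bool)
    (hnb : ∀ i b, k <+: i → ¬ (BrF X i ∧ BrF X (i ++ [b]))) (n : ℕ) :
    ∀ i, k <+: i → H + 1 ≤ sz i + n → (cnt X i : ℝ) ≤ AA H * PW i := by
  have hA := AA_nonneg H
  have hPW : ∀ i, 0 ≤ PW i := by
    intro i
    unfold PW PS; positivity
  have leaf : ∀ i, H + 1 ≤ sz i → (cnt X i : ℝ) ≤ AA H * PW i := by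
    intro i hi
    rw [cnt_zero hX (by omega)]
    have := mul_nonneg hA (hPW i)
    simpa using this
  induction n with
  | zero => intro i _ hi; exact leaf i (by omega)
  | succ n ih =>
    intro i hki hi
    by_cases hbig : H + 1 ≤ sz i
    · exact leaf i hbig
    · have hiH : sz i ≤ H := by omega
      by_cases hbr : BrF X i
      · have h1 : ¬ BrF X (i ++ [true]) := fun h => hnb i true hki ⟨hbr, h⟩
        have h2 : ¬ BrF X (i ++ [false]) := fun h => hnb i false hki ⟨hbr, h⟩
        obtain ⟨b1, hb1⟩ := nonbr X _ h1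
        obtain ⟨b2, hb2⟩ := nonbr X _ h2
        have hk1 : k <+: i ++ [true] ++ [b1] := (hki.trans (List.prefix_append _ _)).trans (List.prefix_append _ _)
        have hk2 : k <+: i ++ [false] ++ [b2] := (hki.trans (List.prefix_append _ _)).trans (List.prefix_append _ _)
        have s1 := (sz_child i true).1
        have s2 := (sz_child i false).1
        have s3 := (sz_child (i ++ [true]) b1).1
        have s4 := (sz_child (i ++ [false]) b2).1
        have g1 := ih (i ++ [true] ++ [b1]) hk1 (by omega)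
        have g2 := ih (i ++ [false] ++ [b2]) hk2 (by omega)
        have w1 := PW_left i b1
        have w2 := PW_right i b2
        obtain ⟨hp, hq⟩ := pq_real i
        have w3 := PS_split' hp hq
        have hc := cnt_rec X i
        have hle1 : (if i ∈ X then 1 else 0) ≤ 1 := by split_ifs <;> omega
        have hc' : cnt X i ≤ 5 + cnt X (i ++ [true] ++ [b1]) + cnt X (i ++ [false] ++ [b2]) := by omega
        have hc'' : (cnt X i : ℝ) ≤ 5 + cnt X (i ++ [true] ++ [b1]) + cnt X (i ++ [false] ++ [b2]) := by exact_mod_cast hc'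
        have hs : ((desc root i).p : ℝ) + (desc root i).q ≤ H := by
          have := sz_pq i
          exact_mod_cast (show (desc root i).p + (desc root i).q ≤ H by omega)
        have hAm := AA_mul (by linarith : (0 : ℝ) < (desc root i).p + (desc root i).q) hs
        have w4 : AA H * (PW (i ++ [true] ++ [b1]) + PW (i ++ [false] ++ [b2]) +
            1 / (8 * ((((desc root i).p : ℝ) + (desc root i).q) * Real.sqrt ((desc root i).p + (desc root i).q)))) ≤
            AA H * PW i := by
          apply mul_le_mul_of_nonneg_left _ hA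
          unfold PW at *
          linarith
        have h3 : AA H * (1 / (8 * ((((desc root i).p : ℝ) + (desc root i).q) *
            Real.sqrt ((desc root i).p + (desc root i).q)))) =
            AA H * (1 / ((((desc root i).p : ℝ) + (desc root i).q) * Real.sqrt ((desc root i).p + (desc root i).q))) / 8 := by
          field_simp
        rw [mul_add, mul_add, h3] at w4
        linarith
      · obtain ⟨b, hb⟩ := nonbr X i hbr
        have hk1 : k <+: i ++ [b] := hki.trans (List.prefix_append _ _)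
        have s1 := (sz_child i b).1
        have g1 := ih (i ++ [b]) hk1 (by omega)
        have w1 := PW_step i b hiH
        have hb' : (cnt X i : ℝ) ≤ 2 + cnt X (i ++ [b]) := by exact_mod_cast hb
        linarith

theorem prune2 (X : Finset (List Bool)) (H : ℕ) (hX : ∀ l ∈ X, sz l ≤ H) (k : List Bool)
    (hk : ∀ l ∈ X, k <+: l)
    (hnb : ∀ i b, k <+: i → ¬ (BrF X i ∧ BrF X (i ++ [b]))) :
    (X.card : ℝ) ≤ AA H * PW k := by
  have h1 := prune2_ind X H hX k hnb (H + 1) k (List.prefix_refl k) (by omega)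
  have h2 : cnt X k = X.card := by
    unfold cnt; rw [Finset.filter_true_of_mem hk]
  rwa [h2] at h1

lemma PW_nonneg (i : List Bool) : 0 ≤ PW i := by unfold PW PS; positivity

theorem pair_bound1 (X : Finset (List Bool)) (φ : List Bool → List Bool) (H ρ : ℕ) (k k' : List Bool)
    (h : Hy H ρ k k' (fun l l' => l ∈ X ∧ l' = φ l)) (hne : ∀ l ∈ X, φ l ≠ l) :
    (X.card : ℝ) ≤ AA H * (PW k + PW k') := by
  by_contra hcon
  rw [mul_add] at hcon
  have n1 := mul_nonneg (AA_nonneg H) (PW_nonneg k)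
  have n2 := mul_nonneg (AA_nonneg H) (PW_nonneg k')
  set R : List Bool → List Bool → Prop := fun l l' => l ∈ X ∧ l' = φ l with hR
  have hinj : ∀ a ∈ X, ∀ b ∈ X, φ a = φ b → a = b := by
    intro a ha b hb hab
    exact h.inj (a := a) (b := b) (c := φ a) ⟨ha, rfl⟩ ⟨hb, hab⟩
  have e1 : ∃ i b, k <+: i ∧ BrF X i ∧ BrF X (i ++ [b]) := by
    by_contra hno
    push Not at hno
    apply hcon
    have := prune2 X H (fun l hl => (h.rel l (φ l) ⟨hl, rfl⟩).2.2.1) k (fun l hl => (h.rel l (φ l) ⟨hl, rfl⟩).1)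
      (by rintro i b hki ⟨h1, h2⟩; exact hno i b hki h1 h2)
    linarith
  have e2 : ∃ i b, k' <+: i ∧ BrF (X.image φ) i ∧ BrF (X.image φ) (i ++ [b]) := by
    by_contra hno
    push Not at hno
    apply hcon
    have hcard : (X.image φ).card = X.card := Finset.card_image_of_injOn (fun a ha b hb hab => hinj a ha b hb hab)
    rw [← hcard]
    have := prune2 (X.image φ) H (by
        intro l hl
        obtain ⟨a, ha, rfl⟩ := Finset.mem_image.mp hl
        exact (h.rel a (φ a) ⟨ha, rfl⟩).2.2.2.1) k' (by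
        intro l hl
        obtain ⟨a, ha, rfl⟩ := Finset.mem_image.mp hl
        exact (h.rel a (φ a) ⟨ha, rfl⟩).2.1)
      (by rintro i b hki ⟨h1, h2⟩; exact hno i b hki h1 h2)
    linarith
  obtain ⟨i, b, hki, hB, hB1⟩ := e1
  obtain ⟨i', b', hki', hB', hB1'⟩ := e2
  have g1 : ∀ l ∈ X, ∃ l', R l l' := fun l hl => ⟨φ l, hl, rfl⟩
  have g2 : ∀ l ∈ X.image φ, ∃ l', (fun a b => R b a) l l' := by
    intro l hl
    obtain ⟨a, ha, rfl⟩ := Finset.mem_image.mp hl
    exact ⟨a, ha, rfl⟩
  refine h.dich ?_ hki hki' (Br_of_BrF g1 hB) (Br_of_BrF g1 hB1) (Br_of_BrF g2 hB') (Br_of_BrF g2 hB1')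
  rintro l l' ⟨h1, h2⟩ h3
  exact hne l h1 (by rw [← h2, ← h3])

end

end Pool.Agent.TH913.MK
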