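import Mathlib
import Pool.Agent.TH913.MK.B

set_option autoImplicit false

namespace Pool.Agent.TH913.MK

open Pool.Agent.H499R2

noncomputable section

/-- rational cone: a small integral vector is almost killed, relative to the scale of the cone -/
def Rt (H : ℕ) (i : List Bool) : Prop :=
  ∃ d : ℤ × ℤ, d ≠ 0 ∧ nm d ≤ 3 * (H : ℝ) ^ 3 ∧ |ell (desc root i) d| ≤ 16 * (H : ℝ) ^ 4 * dl (desc root i)

lemma Ir_of_not_Rt {H : ℕ} (hH : 1 ≤ H) {i : List Bool} (h : ¬ Rt H i) : Ir H i := by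
  intro d hd hn
  by_contra hcon
  push Not at hcon
  apply h
  refine ⟨d, hd, hn, hcon.trans ?_⟩
  have hH1 : (1 : ℝ) ≤ H := by exact_mod_cast hH
  have h34 : (H : ℝ) ^ 3 ≤ H ^ 4 := pow_le_pow_right₀ hH1 (by norm_num)
  have h0 : (0 : ℝ) < H ^ 3 := by positivity
  apply mul_le_mul_of_nonneg_right _ (dl_pos (valid_root.desc i)).le
  linarith

lemma dl_le_X {ρ : ℕ} {i : List Bool} (hB : Big ρ i) : dl (desc root i) ≤ 16 / 16 ^ ρ := by
  have h3 := dl_size (valid_root.desc i)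
  have h4 : (16 : ℝ) ^ ρ ≤ 4 ^ ((desc root i).p + (desc root i).q) := by
    calc (16 : ℝ) ^ ρ = 4 ^ (ρ + ρ) := by rw [← two_mul, pow_mul]; norm_num
      _ ≤ _ := pow_le_pow_right₀ (by norm_num) (by unfold Big at hB; omega)
  exact h3.trans (div_le_div_of_nonneg_left (by norm_num) (by positivity) h4)

lemma X_small {H ρ : ℕ} (hs : (10 : ℝ) ^ 20 * H ^ 20 ≤ 4 ^ ρ) (hH : 1 ≤ H) :
    10 ^ 18 * (H : ℝ) ^ 20 * (16 / 16 ^ ρ) ≤ 1 := by
  have hH1 : (1 : ℝ) ≤ H := by exact_mod_cast hH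
  have h1 : (4 : ℝ) ^ ρ ≤ 16 ^ ρ := pow_le_pow_left₀ (by norm_num) (by norm_num) _
  rw [mul_div_assoc', div_le_one (by positivity)]
  have h2 : (0 : ℝ) < H ^ 20 := by positivity
  linarith

lemma Rt_wit {H ρ : ℕ} (hs : (10 : ℝ) ^ 20 * H ^ 20 ≤ 4 ^ ρ) (hH : 1 ≤ H) {i : List Bool} (hB : Big ρ i)
    (h : Rt H i) : ∃ d : ℤ × ℤ, d ≠ 0 ∧ Q4 d ∧ nm d ≤ 3 * (H : ℝ) ^ 3 ∧
      |ell (desc root i) d| ≤ 16 * (H : ℝ) ^ 4 * dl (desc root i) := by
  have hH1 : (1 : ℝ) ≤ H := by exact_mod_cast hH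
  have h1 := X_small hs hH
  have h2 := dl_le_X hB
  have h420 : (H : ℝ) ^ 4 ≤ H ^ 20 := pow_le_pow_right₀ hH1 (by norm_num)
  have hX : (0 : ℝ) < 16 / 16 ^ ρ := by positivity
  apply rat_wit (D := 3 * (H : ℝ) ^ 3) (η := 16 * (H : ℝ) ^ 4 * dl (desc root i))
  · have h4 : (0 : ℝ) < H ^ 4 := by positivity
    have h5 : 16 * (H : ℝ) ^ 4 * dl (desc root i) ≤ 16 * (H : ℝ) ^ 4 * (16 / 16 ^ ρ) :=
      mul_le_mul_of_nonneg_left h2 (by positivity)
    have h6 : (H : ℝ) ^ 4 * (16 / 16 ^ ρ) ≤ H ^ 20 * (16 / 16 ^ ρ) := mul_le_mul_of_nonneg_right h420 hX.le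
    linarith
  · unfold Irr
    push Not
    exact h

lemma ell_var1 {k l : List Bool} (h : k <+: l) {d : ℤ × ℤ} (hd : Q4 d) :
    |ell (desc root k) d - ell (desc root l) d| ≤ sz k * nm d * dl (desc root k) := by
  obtain ⟨t, rfl⟩ := h
  have hv := valid_root.desc k
  have s1 := sandwich hv hd t
  have s2 := sandwich hv hd []
  have w := width hv hd
  rw [desc_append]
  have e : desc (desc root k) [] = desc root k := rfl
  rw [e] at s2
  have hsz := sz_pq k
  have h7 : (((desc root k).p : ℝ) + (desc root k).q) = sz k := by exact_mod_cast hsz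
  rw [h7] at w
  rw [nm_Q4 hd]
  rw [abs_le]
  constructor <;> linarith [s1.1, s1.2, s2.1, s2.2]

lemma dl_child (i : List Bool) (b : Bool) : dl (desc root (i ++ [b])) ≤ dl (desc root i) / 4 := by
  rw [desc_snoc]
  cases b
  · exact dl_rt (valid_root.desc i)
  · exact dl_lf (valid_root.desc i)

lemma Big_child {ρ : ℕ} {i : List Bool} (h : Big ρ i) (b : Bool) : Big ρ (i ++ [b]) := by
  have := pq_prefix (List.prefix_append i [b])
  exact ⟨h.1.trans this.1, h.2.trans this.2⟩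

lemma Big_prefix {ρ : ℕ} {i j : List Bool} (h : Big ρ i) (hij : i <+: j) : Big ρ j := by
  have := pq_prefix hij
  exact ⟨h.1.trans this.1, h.2.trans this.2⟩

lemma Rt_parent {H ρ : ℕ} (hs : (10 : ℝ) ^ 20 * H ^ 20 ≤ 4 ^ ρ) (hH : 1 ≤ H) {i : List Bool} {b : Bool}
    (hB : Big ρ i) (hsz : sz i ≤ H) (h : Rt H (i ++ [b])) : Rt H i := by
  obtain ⟨d, hd0, hdQ, hdn, hde⟩ := Rt_wit hs hH (Big_child hB b) h
  refine ⟨d, hd0, hdn, ?_⟩
  have hv := ell_var1 (List.prefix_append i [b]) hdQ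
  have hc := dl_child i b
  have hdl := dl_pos (valid_root.desc i)
  have hH1 : (1 : ℝ) ≤ H := by exact_mod_cast hH
  have hszr : (sz i : ℝ) ≤ H := by exact_mod_cast hsz
  have h1 : (sz i : ℝ) * nm d * dl (desc root i) ≤ 3 * (H : ℝ) ^ 4 * dl (desc root i) := by
    apply mul_le_mul_of_nonneg_right _ hdl.le
    calc (sz i : ℝ) * nm d ≤ H * (3 * (H : ℝ) ^ 3) := mul_le_mul hszr hdn (nm_nonneg _) (by positivity)
      _ = 3 * (H : ℝ) ^ 4 := by ring
  have h2 : 16 * (H : ℝ) ^ 4 * dl (desc root (i ++ [b])) ≤ 4 * (H : ℝ) ^ 4 * dl (desc root i) := by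
    calc 16 * (H : ℝ) ^ 4 * dl (desc root (i ++ [b])) ≤ 16 * (H : ℝ) ^ 4 * (dl (desc root i) / 4) :=
          mul_le_mul_of_nonneg_left hc (by positivity)
      _ = _ := by ring
  have h3 : |ell (desc root i) d| ≤ |ell (desc root i) d - ell (desc root (i ++ [b])) d| +
      |ell (desc root (i ++ [b])) d| := by
    have : ell (desc root i) d = (ell (desc root i) d - ell (desc root (i ++ [b])) d) + ell (desc root (i ++ [b])) d := by ring
    calc |ell (desc root i) d| = |(ell (desc root i) d - ell (desc root (i ++ [b])) d) + ell (desc root (i ++ [b])) d| := by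
          rw [← this]
      _ ≤ _ := abs_add_le _ _
  have h4 : 0 ≤ (H : ℝ) ^ 4 * dl (desc root i) := by positivity
  linarith

lemma Rt_prefix {H ρ : ℕ} (hs : (10 : ℝ) ^ 20 * H ^ 20 ≤ 4 ^ ρ) (hH : 1 ≤ H) {i j : List Bool}
    (hB : Big ρ i) (hij : i <+: j) (hsz : sz j ≤ H) (h : Rt H j) : Rt H i := by
  obtain ⟨t, rfl⟩ := hij
  induction t using List.reverseRecOn with
  | nil => simpa using h
  | append_singleton t b ih =>
    rw [← List.append_assoc] at h hsz
    have h1 := sz_prefix (List.prefix_append (i ++ t) [b])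
    exact ih (by omega) (Rt_parent hs hH (Big_prefix hB (List.prefix_append i t)) (by omega) h)

/-- two rational witnesses on different sides -/
lemma rat_split1 {j k1 k1' : List Bool} (h1 : j ++ [true] <+: k1) (h1' : j ++ [false] <+: k1') {D η η' : ℝ}
    {d d' : ℤ × ℤ} (hd : Q4 d) (hd' : Q4 d') (h0 : d ≠ 0) (h0' : d' ≠ 0)
    (nd : nm d ≤ D) (nd' : nm d' ≤ D) (e1 : |ell (desc root k1) d| ≤ η) (e1' : |ell (desc root k1') d'| ≤ η')
    (hpar : dt d d' = 0) : jp (desc root j) ≤ D * η + D * η' := by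
  have hv := valid_root.desc j
  have lpos : ∀ d : ℤ × ℤ, Q4 d → d ≠ 0 → 1 ≤ len d := by
    intro d hd h0
    by_contra hcon
    apply h0
    unfold len at hcon
    have a1 := hd.1
    have a2 := hd.2
    apply Prod.ext
    · show d.1 = 0; omega
    · show d.2 = 0; omega
  have l1 := lpos d hd h0
  have l2 := lpos d' hd' h0'
  have hee : len d' • d = len d • d' := by
    unfold dt at hpar
    unfold len
    apply Prod.ext
    · simp only [Prod.smul_fst, smul_eq_mul]; linear_combination -hpar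
    · simp only [Prod.smul_snd, smul_eq_mul]; linear_combination -hpar
  set e := len d' • d with he
  have heQ : Q4 e := by
    constructor
    · rw [he]; simp only [Prod.smul_fst, smul_eq_mul]; exact mul_nonneg (by omega) hd.1
    · rw [he]; simp only [Prod.smul_snd, smul_eq_mul]; exact mul_nonpos_of_nonneg_of_nonpos (by omega) hd.2
  have he0 : e ≠ 0 := by
    intro h
    apply h0
    have e3 : len d' * d.1 = 0 := congrArg Prod.fst h
    have e4 : len d' * d.2 = 0 := congrArg Prod.snd h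
    apply Prod.ext
    · rcases mul_eq_zero.mp e3 with h | h
      · omega
      · exact h
    · rcases mul_eq_zero.mp e4 with h | h
      · omega
      · exact h
  rw [nm_Q4 hd] at nd
  rw [nm_Q4 hd'] at nd'
  have f1 : |ell (desc root k1) e| ≤ D * η := by
    rw [he, ell_smul, abs_mul]
    have : |(len d' : ℝ)| ≤ D := by
      rw [abs_of_nonneg (by exact_mod_cast (by omega : 0 ≤ len d'))]; exact nd'
    exact mul_le_mul this e1 (abs_nonneg _) ((abs_nonneg _).trans this)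
  have f2 : |ell (desc root k1') e| ≤ D * η' := by
    rw [hee, ell_smul, abs_mul]
    have : |(len d : ℝ)| ≤ D := by
      rw [abs_of_nonneg (by exact_mod_cast (by omega : 0 ≤ len d))]; exact nd
    exact mul_le_mul this e1' (abs_nonneg _) ((abs_nonneg _).trans this)
  have hl : desc root (j ++ [true]) = lf (desc root j) := desc_snoc _ _ _
  have hr : desc root (j ++ [false]) = rt (desc root j) := desc_snoc _ _ _
  obtain ⟨t, rfl⟩ := h1
  obtain ⟨t', rfl⟩ := h1'
  rw [desc_append, hl] at f1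
  rw [desc_append, hr] at f2
  have s1 := (sandwich hv.lf heQ t).1
  have s2 := (sandwich hv.rt heQ t').2
  have hj := ell_jump hv e
  have c1 := cu_nonneg hv heQ
  have c2 := cv_nonpos hv heQ
  have c3 : 1 ≤ cu (desc root j) e - cv (desc root j) e := by
    by_contra hcon
    obtain ⟨g1, g2⟩ := coord hv e
    have z1 : cu (desc root j) e = 0 := by omega
    have z2 : cv (desc root j) e = 0 := by omega
    rw [z1, z2] at g1 g2
    apply he0
    apply Prod.ext
    · rw [g1]; simp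
    · rw [g2]; simp
  have c3' : (1 : ℝ) ≤ (cu (desc root j) e : ℝ) - cv (desc root j) e := by exact_mod_cast c3
  have hjp0 := jp_nonneg hv
  have h8 : jp (desc root j) ≤ ((cu (desc root j) e : ℝ) - cv (desc root j) e) * jp (desc root j) :=
    le_mul_of_one_le_left hjp0 c3'
  have f1' := (abs_le.mp f1).2
  have f2' := (abs_le.mp f2).1
  linarith

lemma dl_jp (j : List Bool) : dl (desc root j) ≤ 81 / 4 * jp (desc root j) ∧ 0 < jp (desc root j) := by
  have hv := valid_root.desc j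
  have hc := hv.mt.c_one
  have h1 := dl_c hv
  have h2 : 4 / (9 * ((desc root j).c : ℝ) ^ 2) ≤ jp (desc root j) := jump_lower _ hc
  have hc0 : (0 : ℝ) < (desc root j).c := by linarith
  have h3 : 9 / ((desc root j).c : ℝ) ^ 2 = 81 / 4 * (4 / (9 * ((desc root j).c : ℝ) ^ 2)) := by
    field_simp
    norm_num
  have h4 : (0 : ℝ) < 4 / (9 * ((desc root j).c : ℝ) ^ 2) := by positivity
  constructor
  · rw [h3] at h1; linarith
  · linarith

/-- at most one child of a node is rational -/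
theorem not_both {H ρ : ℕ} (hs : (10 : ℝ) ^ 20 * H ^ 20 ≤ 4 ^ ρ) (hH : 1 ≤ H) {j : List Bool}
    (hB : Big ρ j) (hsz : sz j ≤ H) (h1 : Rt H (j ++ [true])) (h2 : Rt H (j ++ [false])) : False := by
  have hH1 : (1 : ℝ) ≤ H := by exact_mod_cast hH
  obtain ⟨d, hd0, hdQ, hdn, hde⟩ := Rt_wit hs hH (Big_child hB true) h1
  obtain ⟨d', hd0', hdQ', hdn', hde'⟩ := Rt_wit hs hH (Big_child hB false) h2
  have hX := X_small hs hH
  have hX0 : (0 : ℝ) < 16 / 16 ^ ρ := by positivity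
  have hdl := dl_pos (valid_root.desc j)
  have hdlX := dl_le_X hB
  have ct := dl_child j true
  have cf := dl_child j false
  have h4 : (0 : ℝ) < H ^ 4 := by positivity
  have b1 : 16 * (H : ℝ) ^ 4 * dl (desc root (j ++ [true])) ≤ 16 * (H : ℝ) ^ 4 * (16 / 16 ^ ρ) :=
    mul_le_mul_of_nonneg_left (by linarith) (by positivity)
  have b2 : 16 * (H : ℝ) ^ 4 * dl (desc root (j ++ [false])) ≤ 16 * (H : ℝ) ^ 4 * (16 / 16 ^ ρ) :=
    mul_le_mul_of_nonneg_left (by linarith) (by positivity)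
  have hpar := parallel (List.prefix_append j [true]) (List.prefix_append j [false]) hB hsz hdQ hdQ' hdn hdn'
    (hde.trans b1) (hde'.trans b2) (by
      have e : 2 * (H : ℝ) * (3 * (H : ℝ) ^ 3) * (16 * (H : ℝ) ^ 4 * (16 / 16 ^ ρ) + H * (3 * (H : ℝ) ^ 3) * (16 / 16 ^ ρ)) =
        114 * ((H : ℝ) ^ 8 * (16 / 16 ^ ρ)) := by ring
      rw [e]
      have h8 : (H : ℝ) ^ 8 * (16 / 16 ^ ρ) ≤ H ^ 20 * (16 / 16 ^ ρ) :=
        mul_le_mul_of_nonneg_right (pow_le_pow_right₀ hH1 (by norm_num)) hX0.le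
      linarith)
  have hsp := rat_split1 (List.prefix_refl _) (List.prefix_refl _) hdQ hdQ' hd0 hd0' hdn hdn' hde hde' hpar
  have hv := valid_root.desc j
  have et : dl (desc root (j ++ [true])) ≤ dl (desc root j) / 4 ^ ρ := by
    rw [desc_snoc]; exact dl_lf_le hv ρ hB.1
  have ef : dl (desc root (j ++ [false])) ≤ dl (desc root j) / 4 ^ ρ := by
    rw [desc_snoc]; exact dl_rt_le hv ρ hB.2
  obtain ⟨hj1, hj2⟩ := dl_jp j
  have hY : (0 : ℝ) < 4 ^ ρ := by positivity
  have h7 : (0 : ℝ) < H ^ 7 := by positivity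
  have g1 : jp (desc root j) ≤ 96 * (H : ℝ) ^ 7 * (dl (desc root j) / 4 ^ ρ) := by
    refine hsp.trans ?_
    have k1 : 3 * (H : ℝ) ^ 3 * (16 * (H : ℝ) ^ 4 * dl (desc root (j ++ [true]))) ≤
        48 * (H : ℝ) ^ 7 * (dl (desc root j) / 4 ^ ρ) := by
      calc 3 * (H : ℝ) ^ 3 * (16 * (H : ℝ) ^ 4 * dl (desc root (j ++ [true]))) =
          48 * (H : ℝ) ^ 7 * dl (desc root (j ++ [true])) := by ring
        _ ≤ _ := mul_le_mul_of_nonneg_left et (by positivity)
    have k2 : 3 * (H : ℝ) ^ 3 * (16 * (H : ℝ) ^ 4 * dl (desc root (j ++ [false]))) ≤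
        48 * (H : ℝ) ^ 7 * (dl (desc root j) / 4 ^ ρ) := by
      calc 3 * (H : ℝ) ^ 3 * (16 * (H : ℝ) ^ 4 * dl (desc root (j ++ [false]))) =
          48 * (H : ℝ) ^ 7 * dl (desc root (j ++ [false])) := by ring
        _ ≤ _ := mul_le_mul_of_nonneg_left ef (by positivity)
    linarith
  have g2 : 96 * (H : ℝ) ^ 7 * (dl (desc root j) / 4 ^ ρ) ≤ 1944 * (H : ℝ) ^ 7 / 4 ^ ρ * jp (desc root j) := by
    calc 96 * (H : ℝ) ^ 7 * (dl (desc root j) / 4 ^ ρ) ≤ 96 * (H : ℝ) ^ 7 * ((81 / 4 * jp (desc root j)) / 4 ^ ρ) := by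
          apply mul_le_mul_of_nonneg_left _ (by positivity)
          exact div_le_div_of_nonneg_right hj1 hY.le
      _ = _ := by ring
  have g3 : 1944 * (H : ℝ) ^ 7 / 4 ^ ρ < 1 := by
    rw [div_lt_one hY]
    have h720 : (H : ℝ) ^ 7 ≤ H ^ 20 := pow_le_pow_right₀ hH1 (by norm_num)
    linarith
  have g4 : 1944 * (H : ℝ) ^ 7 / 4 ^ ρ * jp (desc root j) < 1 * jp (desc root j) :=
    mul_lt_mul_of_pos_right g3 hj2
  linarith

end

end Pool.Agent.TH913.MK
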