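import Mathlib
import Pool.Agent.TH913.MK.C

set_option autoImplicit false

namespace Pool.Agent.TH913.MK

open Pool.Agent.H499R2

noncomputable section

/-! ### a second potential -/

/-- potential of a rational cone -/
def Psi (p q : ℝ) : ℝ := 10 / (min p q * Real.sqrt (p + q))

lemma Psi_comm (p q : ℝ) : Psi p q = Psi q p := by unfold Psi; rw [min_comm, add_comm]

lemma PS_le_Psi {p q : ℝ} (hp : 1 ≤ p) (hq : 1 ≤ q) : PS p q ≤ Psi p q := by
  wlog h : p ≤ q generalizing p q with Hw
  · rw [PS_comm, Psi_comm]; exact Hw hq hp (not_le.mp h).le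
  have hp0 : 0 < p := by linarith
  have hq0 : 0 < q := by linarith
  unfold PS Psi
  rw [min_eq_left h]
  set u := Real.sqrt (p + q) with hu
  have hu0 : 0 < u := Real.sqrt_pos.mpr (by linarith)
  have hu2 : u * u = p + q := Real.mul_self_sqrt (by linarith)
  rw [div_le_div_iff₀ (by positivity) (by positivity)]
  calc u * (p * u) = p * (u * u) := by ring
    _ = p * (p + q) := by rw [hu2]
    _ ≤ 10 * (p * q) := by nlinarith

lemma Psi_left {p q : ℝ} (hp : 1 ≤ p) (hq : 1 ≤ q) : Psi p (p + q) + PS (p + q) q ≤ Psi p q := by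
  have hp0 : 0 < p := by linarith
  have hq0 : 0 < q := by linarith
  have e1 : min p (p + q) = p := min_eq_left (by linarith)
  unfold Psi PS
  rw [e1]
  set u := Real.sqrt (p + q) with hu
  set v := Real.sqrt (p + (p + q)) with hv
  set w := Real.sqrt (p + q + q) with hw
  have hu0 : 0 < u := Real.sqrt_pos.mpr (by linarith)
  have hv0 : 0 < v := Real.sqrt_pos.mpr (by linarith)
  have hw0 : 0 < w := Real.sqrt_pos.mpr (by linarith)
  have hu2 : u ^ 2 = p + q := Real.sq_sqrt (by linarith)
  have hv2 : v ^ 2 = p + (p + q) := Real.sq_sqrt (by linarith)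
  have hw2 : w ^ 2 = p + q + q := Real.sq_sqrt (by linarith)
  rcases le_total q p with h | h
  · -- q ≤ p
    rw [min_eq_right h]
    have v1 : 6 / 5 * u ≤ v := by
      apply le_of_sq_le_sq _ hv0.le
      rw [mul_pow, hu2, hv2]; linarith
    have w1 : w ≤ 5 / 4 * u := by
      apply le_of_sq_le_sq _ (by positivity)
      rw [mul_pow, hu2, hw2]; linarith
    have a1 : 10 / (p * v) ≤ 25 / 3 / (q * u) := by
      rw [div_le_div_iff₀ (by positivity) (by positivity)]
      have : q * (6 / 5 * u) ≤ p * v := mul_le_mul h v1 (by positivity) hp0.le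
      linarith
    have a2 : w / ((p + q) * q) ≤ 5 / 4 / (q * u) := by
      rw [div_le_div_iff₀ (by positivity) (by positivity), ← hu2]
      calc w * (q * u) ≤ (5 / 4 * u) * (q * u) := mul_le_mul_of_nonneg_right w1 (by positivity)
        _ = 5 / 4 * (u ^ 2 * q) := by ring
    have a3 : 25 / 3 / (q * u) + 5 / 4 / (q * u) ≤ 10 / (q * u) := by
      rw [← add_div]
      exact div_le_div_of_nonneg_right (by norm_num) (by positivity)
    linarith
  · -- p ≤ q
    rw [min_eq_left h]
    have v1 : v ≤ 5 / 4 * u := by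
      apply le_of_sq_le_sq _ (by positivity)
      rw [mul_pow, hu2, hv2]; linarith
    have w1 : w ≤ 3 / 2 * u := by
      apply le_of_sq_le_sq _ (by positivity)
      rw [mul_pow, hu2, hw2]; linarith
    have uv : u ≤ v := Real.sqrt_le_sqrt (by linarith)
    have a1 : 10 / (p * v) + 3 / (u ^ 3) ≤ 10 / (p * u) := by
      rw [div_add_div _ _ (by positivity) (by positivity), div_le_div_iff₀ (by positivity) (by positivity)]
      -- (10 u^3 + 3 p v) p u ≤ 10 p v u^3
      have key : 3 * p * v * u ≤ 10 * u ^ 3 * (v - u) := by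
        have e2 : p = (v - u) * (v + u) := by nlinarith
        have e3 : (v + u) * v * 3 ≤ 10 * u ^ 2 := by nlinarith
        have e4 : 0 ≤ v - u := by linarith
        calc 3 * p * v * u = ((v + u) * v * 3) * ((v - u) * u) := by
              rw [show 3 * p * v * u = 3 * ((v - u) * (v + u)) * v * u by rw [← e2]]; ring
          _ ≤ (10 * u ^ 2) * ((v - u) * u) := mul_le_mul_of_nonneg_right e3 (by positivity)
          _ = _ := by ring
      have := mul_le_mul_of_nonneg_left key hp0.le
      nlinarith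
    have a2 : w / ((p + q) * q) ≤ 3 / u ^ 3 := by
      rw [div_le_div_iff₀ (by positivity) (by positivity), ← hu2]
      have hq2 : u ^ 2 ≤ 2 * q := by rw [hu2]; linarith
      calc w * u ^ 3 ≤ (3 / 2 * u) * u ^ 3 := mul_le_mul_of_nonneg_right w1 (by positivity)
        _ = 3 / 2 * u ^ 2 * u ^ 2 := by ring
        _ ≤ 3 / 2 * u ^ 2 * (2 * q) := mul_le_mul_of_nonneg_left hq2 (by positivity)
        _ = 3 * (u ^ 2 * q) := by ring
    linarith

lemma Psi_right {p q : ℝ} (hp : 1 ≤ p) (hq : 1 ≤ q) : Psi (p + q) q + PS p (p + q) ≤ Psi p q := by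
  have h := Psi_left hq hp
  rw [Psi_comm q (q + p), PS_comm (q + p) p, Psi_comm q p, add_comm q p] at h
  exact h

/-- potential of a word -/
def PP (i : List Bool) : ℝ := Psi (desc root i).p (desc root i).q

lemma PP_nonneg (i : List Bool) : 0 ≤ PP i := by
  unfold PP Psi
  have : (0 : ℝ) ≤ min ((desc root i).p : ℝ) (desc root i).q := le_min (by positivity) (by positivity)
  positivity

lemma PW_le_PP (i : List Bool) : PW i ≤ PP i := by
  obtain ⟨hp, hq⟩ := pq_real i
  exact PS_le_Psi hp hq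

lemma PP_true (i : List Bool) : PP (i ++ [true]) + PW (i ++ [false]) ≤ PP i := by
  obtain ⟨hp, hq⟩ := pq_real i
  have h := Psi_left hp hq
  unfold PP PW
  rw [desc_snoc, desc_snoc]
  show Psi ((desc root i).p : ℝ) (((desc root i).p + (desc root i).q : ℕ) : ℝ) +
    PS (((desc root i).p + (desc root i).q : ℕ) : ℝ) ((desc root i).q : ℝ) ≤ _
  push_cast
  exact h

lemma PP_false (i : List Bool) : PP (i ++ [false]) + PW (i ++ [true]) ≤ PP i := by
  obtain ⟨hp, hq⟩ := pq_real i
  have h := Psi_right hp hq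
  unfold PP PW
  rw [desc_snoc, desc_snoc]
  show Psi (((desc root i).p + (desc root i).q : ℕ) : ℝ) ((desc root i).q : ℝ) +
    PS ((desc root i).p : ℝ) (((desc root i).p + (desc root i).q : ℕ) : ℝ) ≤ _
  push_cast
  exact h

/-! ### sums over words below a word -/

/-- sum of a weight over the words of `X` below `i` -/
def sm (X : Finset (List Bool)) (w : List Bool → ℝ) (i : List Bool) : ℝ := ∑ l ∈ X.filter (fun l => i <+: l), w l

lemma sm_rec (X : Finset (List Bool)) (w : List Bool → ℝ) (i : List Bool) :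
    sm X w i = (if i ∈ X then w i else 0) + sm X w (i ++ [true]) + sm X w (i ++ [false]) := by
  have e : ∀ j, sm X w j = ∑ l ∈ X, w l * ((if j <+: l then 1 else 0 : ℕ) : ℝ) := by
    intro j
    unfold sm
    rw [Finset.sum_filter]
    apply Finset.sum_congr rfl
    intro l _
    split_ifs <;> simp
  rw [e, e, e, Finset.sum_congr rfl (fun l _ => by rw [prefix_cases i l])]
  push_cast
  simp only [mul_add, Finset.sum_add_distrib]
  congr 2
  simp

lemma sm_one (X : Finset (List Bool)) (i : List Bool) : sm X (fun _ => 1) i = cnt X i := by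
  unfold sm cnt; simp

/-- the first irrational cone on a branch -/
def Kp (H ρ : ℕ) (k : List Bool) : Prop :=
  Big ρ k ∧ ¬ Rt H k ∧ ∀ i b, k = i ++ [b] → Big ρ i → Rt H i

lemma Kp_exists {H ρ : ℕ} (l : List Bool) (hB : Big ρ l) (h : ¬ Rt H l) : ∃ k, k <+: l ∧ Kp H ρ k := by
  induction l using List.reverseRecOn with
  | nil =>
    refine ⟨[], List.prefix_refl _, hB, h, ?_⟩
    intro i b hib
    simp at hib
  | append_singleton j b ih =>
    by_cases hj : Big ρ j ∧ ¬ Rt H j
    · obtain ⟨k, hk, hK⟩ := ih hj.1 hj.2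
      exact ⟨k, hk.trans (List.prefix_append _ _), hK⟩
    · refine ⟨j ++ [b], List.prefix_refl _, hB, h, ?_⟩
      intro i b' hib hBi
      have e := (List.append_inj' hib rfl).1
      by_contra hR
      apply hj
      rw [e]
      exact ⟨hBi, hR⟩

/-- below an irrational cone there is nothing new -/
lemma Kp_below {H ρ : ℕ} (hs : (10 : ℝ) ^ 20 * H ^ 20 ≤ 4 ^ ρ) (hH : 1 ≤ H) {i k : List Bool} (hB : Big ρ i)
    (hR : ¬ Rt H i) (hk : Kp H ρ k) (hsz : sz k ≤ H) (hik : i <+: k) : k = i := by
  obtain ⟨t, rfl⟩ := hik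
  rcases List.eq_nil_or_concat t with h | ⟨t', b, h⟩
  · rw [h, List.append_nil]
  · exfalso
    have e : i ++ t = (i ++ t') ++ [b] := by rw [h, List.append_assoc]; simp
    have hB' := Big_prefix hB (List.prefix_append i t')
    have h1 := hk.2.2 (i ++ t') b e hB'
    have h2 : sz (i ++ t') ≤ H := by
      have := sz_prefix (List.prefix_append (i ++ t') [b])
      rw [← e] at this
      omega
    exact hR (Rt_prefix hs hH hB (List.prefix_append i t') h2 h1)

open scoped Classical in
/-- the good cones of size at most `σ` -/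
def KS (H ρ σ : ℕ) : Finset (List Bool) := (SW σ).filter (fun k => Kp H ρ k)

lemma mem_KS {H ρ σ : ℕ} {k : List Bool} : k ∈ KS H ρ σ ↔ sz k ≤ σ ∧ Kp H ρ k := by
  classical
  unfold KS; rw [Finset.mem_filter, mem_SW]

lemma sm_irr {H ρ σ : ℕ} (hs : (10 : ℝ) ^ 20 * H ^ 20 ≤ 4 ^ ρ) (hH : 1 ≤ H) (hσ : σ ≤ H) {i : List Bool}
    (hB : Big ρ i) (hR : ¬ Rt H i) {w : List Bool → ℝ} (hw : ∀ l, 0 ≤ w l) : sm (KS H ρ σ) w i ≤ w i := by
  classical
  unfold sm
  have hsub : (KS H ρ σ).filter (fun l => i <+: l) ⊆ {i} := by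
    intro k hk
    rw [Finset.mem_filter, mem_KS] at hk
    rw [Finset.mem_singleton]
    exact Kp_below hs hH hB hR hk.1.2 (hk.1.1.trans hσ) hk.2
  calc ∑ l ∈ (KS H ρ σ).filter (fun l => i <+: l), w l ≤ ∑ l ∈ {i}, w l :=
        Finset.sum_le_sum_of_subset_of_nonneg hsub (fun l _ _ => hw l)
    _ = w i := by simp

lemma sm_big {H ρ σ : ℕ} {i : List Bool} (hi : σ < sz i) (w : List Bool → ℝ) : sm (KS H ρ σ) w i = 0 := by
  unfold sm
  have : (KS H ρ σ).filter (fun l => i <+: l) = ∅ := by
    rw [Finset.filter_eq_empty_iff]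
    intro l hl h
    have := sz_prefix h
    have := (mem_KS.mp hl).1
    omega
  rw [this, Finset.sum_empty]

lemma PW_sum_ind {H ρ σ : ℕ} (hs : (10 : ℝ) ^ 20 * H ^ 20 ≤ 4 ^ ρ) (hH : 1 ≤ H) (hσ : σ ≤ H) (n : ℕ) :
    ∀ i, Big ρ i → Rt H i → σ + 1 ≤ sz i + n → sm (KS H ρ σ) PW i ≤ PP i := by
  induction n with
  | zero =>
    intro i _ _ hi
    rw [sm_big (by omega)]; exact PP_nonneg i
  | succ n ih =>
    intro i hB hR hi
    by_cases hbig : σ < sz i
    · rw [sm_big hbig]; exact PP_nonneg i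
    · have hnot : i ∉ KS H ρ σ := fun h => (mem_KS.mp h).2.2.1 hR
      rw [sm_rec, if_neg hnot]
      have st := (sz_child i true).1
      have sf := (sz_child i false).1
      have it : sm (KS H ρ σ) PW (i ++ [true]) ≤ PP (i ++ [true]) := by
        by_cases h : Rt H (i ++ [true])
        · exact ih _ (Big_child hB _) h (by omega)
        · exact (sm_irr hs hH hσ (Big_child hB _) h PW_nonneg).trans (PW_le_PP _)
      have jf : sm (KS H ρ σ) PW (i ++ [false]) ≤ PP (i ++ [false]) := by
        by_cases h : Rt H (i ++ [false])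
        · exact ih _ (Big_child hB _) h (by omega)
        · exact (sm_irr hs hH hσ (Big_child hB _) h PW_nonneg).trans (PW_le_PP _)
      by_cases h : Rt H (i ++ [true])
      · have h2 : ¬ Rt H (i ++ [false]) := fun h3 => not_both hs hH hB (by omega) h h3
        have := sm_irr hs hH hσ (Big_child hB false) h2 PW_nonneg
        have := PP_true i
        linarith
      · have := sm_irr hs hH hσ (Big_child hB true) h PW_nonneg
        have := PP_false i
        linarith

lemma sz_true (i : List Bool) : sz (i ++ [true]) = sz i + (desc root i).p := by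
  rw [← sz_pq, ← sz_pq, desc_snoc]
  show (desc root i).p + ((desc root i).p + (desc root i).q) = _
  omega

lemma sz_false (i : List Bool) : sz (i ++ [false]) = sz i + (desc root i).q := by
  rw [← sz_pq, ← sz_pq, desc_snoc]
  show ((desc root i).p + (desc root i).q) + (desc root i).q = _
  omega

lemma cnt_irr {H ρ σ : ℕ} (hs : (10 : ℝ) ^ 20 * H ^ 20 ≤ 4 ^ ρ) (hH : 1 ≤ H) (hσ : σ ≤ H) {i : List Bool}
    (hB : Big ρ i) (hR : ¬ Rt H i) : cnt (KS H ρ σ) i ≤ 1 := by
  have h := sm_irr hs hH hσ hB hR (w := fun _ => 1) (fun _ => by norm_num)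
  rw [sm_one] at h
  exact_mod_cast h

lemma cnt_big {H ρ σ : ℕ} {i : List Bool} (hi : σ < sz i) : cnt (KS H ρ σ) i = 0 := by
  have h := sm_big (H := H) (ρ := ρ) hi (fun _ => 1)
  rw [sm_one] at h
  exact_mod_cast h

lemma cnt_ind {H ρ σ m : ℕ} (hs : (10 : ℝ) ^ 20 * H ^ 20 ≤ 4 ^ ρ) (hH : 1 ≤ H) (hσ : σ ≤ H) (n : ℕ) :
    ∀ i, Big ρ i → Rt H i → m ≤ (desc root i).p → m ≤ (desc root i).q → σ + 1 ≤ sz i + n → sz i ≤ σ →
      cnt (KS H ρ σ) i * m + sz i ≤ σ + 2 * m := by
  induction n with
  | zero => intro i _ _ _ _ hi h; omega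
  | succ n ih =>
    intro i hB hR hp hq hi hle
    have hnot : i ∉ KS H ρ σ := fun h => (mem_KS.mp h).2.2.1 hR
    have hrec := cnt_rec (KS H ρ σ) i
    rw [if_neg hnot] at hrec
    have st := sz_true i
    have sf := sz_false i
    have hp1 := (valid_root.desc i).p1
    have hq1 := (valid_root.desc i).q1
    have ch : ∀ b, m ≤ (desc root (i ++ [b])).p ∧ m ≤ (desc root (i ++ [b])).q := by
      intro b
      have := pq_prefix (List.prefix_append i [b])
      omega
    have main : ∀ b, m + sz i ≤ sz (i ++ [b]) → sz i + 1 ≤ sz (i ++ [b]) → Rt H (i ++ [b]) →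
        cnt (KS H ρ σ) i ≤ 1 + cnt (KS H ρ σ) (i ++ [b]) → cnt (KS H ρ σ) i * m + sz i ≤ σ + 2 * m := by
      intro b h1 h1' h2 h3
      by_cases h4 : sz (i ++ [b]) ≤ σ
      · have h5 := ih (i ++ [b]) (Big_child hB b) h2 (ch b).1 (ch b).2 (by omega) h4
        have h6 : cnt (KS H ρ σ) i * m ≤ (1 + cnt (KS H ρ σ) (i ++ [b])) * m := Nat.mul_le_mul_right _ h3
        have h7 : (1 + cnt (KS H ρ σ) (i ++ [b])) * m = m + cnt (KS H ρ σ) (i ++ [b]) * m := by ring
        omega
      · have h5 : cnt (KS H ρ σ) (i ++ [b]) = 0 := cnt_big (by omega)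
        have h6 : cnt (KS H ρ σ) i * m ≤ 1 * m := Nat.mul_le_mul_right _ (by omega)
        omega
    by_cases h : Rt H (i ++ [true])
    · have h2 : ¬ Rt H (i ++ [false]) := fun h3 => not_both hs hH hB (by omega) h h3
      have := cnt_irr hs hH hσ (Big_child hB false) h2
      exact main true (by omega) (by omega) h (by omega)
    · have h1 := cnt_irr hs hH hσ (Big_child hB true) h
      by_cases h2 : Rt H (i ++ [false])
      · exact main false (by omega) (by omega) h2 (by omega)
      · have h3 := cnt_irr hs hH hσ (Big_child hB false) h2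
        have h6 : cnt (KS H ρ σ) i * m ≤ 2 * m := Nat.mul_le_mul_right _ (by omega)
        omega

end

end Pool.Agent.TH913.MK
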