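import Mathlib
import Pool.Agent.TH913.MK.D

set_option autoImplicit false

namespace Pool.Agent.TH913.MK

open Pool.Agent.H499R2

noncomputable section

open scoped Classical in
/-- words below a deep rational cone -/
def DS (H σ : ℕ) (k0 : List Bool) : Finset (List Bool) :=
  (SW H).filter (fun l => ∃ i, k0 <+: i ∧ i <+: l ∧ Rt H i ∧ σ < 2 * sz i)

lemma mem_DS {H σ : ℕ} {k0 l : List Bool} :
    l ∈ DS H σ k0 ↔ sz l ≤ H ∧ ∃ i, k0 <+: i ∧ i <+: l ∧ Rt H i ∧ σ < 2 * sz i := by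
  classical
  unfold DS; rw [Finset.mem_filter, mem_SW]

lemma DS_ind {H ρ σ m : ℕ} (hs : (10 : ℝ) ^ 20 * H ^ 20 ≤ 4 ^ ρ) (hH : 1 ≤ H) {k0 : List Bool}
    (hB : Big ρ k0) (hp : m ≤ (desc root k0).p) (hq : m ≤ (desc root k0).q) (hσ : σ ≤ H) (n : ℕ) :
    ∀ i, k0 <+: i → σ + 1 ≤ 2 * sz i + n → cnt (DS H σ k0) i * (m * σ) ≤ 4 * H ^ 2 := by
  have leaf : ∀ i, k0 <+: i → σ < 2 * sz i → cnt (DS H σ k0) i * (m * σ) ≤ 4 * H ^ 2 := by
    intro i hki hi
    have h1 := cnt_leaf (DS H σ k0) H (fun l hl => (mem_DS.mp hl).1) i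
    have h2 := pq_prefix hki
    have hsz := sz_pq i
    have hpm : m ≤ (desc root i).p := hp.trans h2.1
    have hqm : m ≤ (desc root i).q := hq.trans h2.2
    have h3 : m * σ ≤ 4 * ((desc root i).p * (desc root i).q) := by
      have e1 : m * σ ≤ m * (2 * ((desc root i).p + (desc root i).q)) := Nat.mul_le_mul_left _ (by omega)
      have e2 : m * (desc root i).p ≤ (desc root i).q * (desc root i).p := Nat.mul_le_mul_right _ hqm
      have e3 : m * (desc root i).q ≤ (desc root i).p * (desc root i).q := Nat.mul_le_mul_right _ hpm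
      nlinarith
    calc cnt (DS H σ k0) i * (m * σ) ≤ cnt (DS H σ k0) i * (4 * ((desc root i).p * (desc root i).q)) :=
          Nat.mul_le_mul_left _ h3
      _ = 4 * (cnt (DS H σ k0) i * ((desc root i).p * (desc root i).q)) := by ring
      _ ≤ 4 * H ^ 2 := Nat.mul_le_mul_left _ h1
  induction n with
  | zero => intro i hki hi; exact leaf i hki (by omega)
  | succ n ih =>
    intro i hki hi
    by_cases hbig2 : σ < 2 * sz i
    · exact leaf i hki hbig2
    · have hnotmem : i ∉ DS H σ k0 := by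
        intro hm
        obtain ⟨_, k1, _, h2, _, h4⟩ := mem_DS.mp hm
        have h5 := sz_prefix h2
        omega
      have hrec := cnt_rec (DS H σ k0) i
      rw [if_neg hnotmem] at hrec
      have hBi := Big_prefix hB hki
      -- a nonempty side is rational
      have side : ∀ b, cnt (DS H σ k0) (i ++ [b]) ≠ 0 → Rt H (i ++ [b]) := by
        intro b c1
        obtain ⟨l1, hl1⟩ := Finset.card_pos.mp (Nat.pos_of_ne_zero c1)
        rw [Finset.mem_filter] at hl1
        obtain ⟨q1, k1, q2, q3, q4, q5⟩ := mem_DS.mp hl1.1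
        have hpre : i ++ [b] <+: k1 := by
          rcases Nat.lt_or_ge k1.length (i ++ [b]).length with h' | h
          · exfalso
            have hi1 : i <+: l1 := (List.prefix_append i [b]).trans hl1.2
            have h6 : k1.length ≤ i.length := by simp at h'; omega
            have := sz_prefix (List.prefix_of_prefix_length_le q3 hi1 h6)
            omega
          · exact List.prefix_of_prefix_length_le hl1.2 q3 h
        have hsz1 := sz_prefix q3
        exact Rt_prefix hs hH (Big_child hBi b) hpre (by omega) q4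
      have hone : cnt (DS H σ k0) (i ++ [true]) = 0 ∨ cnt (DS H σ k0) (i ++ [false]) = 0 := by
        by_contra hcon
        push Not at hcon
        exact not_both hs hH hBi (by omega) (side true hcon.1) (side false hcon.2)
      rcases hone with h | h
      · have s1 := (sz_child i false).1
        have := ih (i ++ [false]) (hki.trans (List.prefix_append _ _)) (by omega)
        rw [h] at hrec
        have e : cnt (DS H σ k0) i = cnt (DS H σ k0) (i ++ [false]) := by omega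
        rw [e]; exact this
      · have s1 := (sz_child i true).1
        have := ih (i ++ [true]) (hki.trans (List.prefix_append _ _)) (by omega)
        rw [h] at hrec
        have e : cnt (DS H σ k0) i = cnt (DS H σ k0) (i ++ [true]) := by omega
        rw [e]; exact this

lemma DS_card {H ρ σ m : ℕ} (hs : (10 : ℝ) ^ 20 * H ^ 20 ≤ 4 ^ ρ) (hH : 1 ≤ H) {k0 : List Bool}
    (hB : Big ρ k0) (hp : m ≤ (desc root k0).p) (hq : m ≤ (desc root k0).q) (hσ : σ ≤ H) :
    (DS H σ k0).card * (m * σ) ≤ 4 * H ^ 2 := by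
  have h := DS_ind hs hH hB hp hq hσ (σ + 1) k0 (List.prefix_refl _) (by omega)
  have h2 : cnt (DS H σ k0) k0 = (DS H σ k0).card := by
    unfold cnt
    rw [Finset.filter_true_of_mem]
    intro l hl
    obtain ⟨_, k1, h2, h3, _⟩ := mem_DS.mp hl
    exact h2.trans h3
  rwa [h2] at h

/-- the smaller size of a word -/
def mm (k : List Bool) : ℕ := min (desc root k).p (desc root k).q

lemma mm_pos (k : List Bool) : 1 ≤ mm k := by
  have hv := valid_root.desc k
  exact le_min hv.p1 hv.q1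

lemma mm_two (k : List Bool) : 2 * mm k ≤ sz k := by
  rw [← sz_pq]; unfold mm; omega

open scoped Classical in
/-- minimal big words -/
def MS (ρ σ : ℕ) : Finset (List Bool) := (SW σ).filter (fun k => Mn ρ k)

lemma mem_MS {ρ σ : ℕ} {k : List Bool} : k ∈ MS ρ σ ↔ sz k ≤ σ ∧ Mn ρ k := by
  classical
  unfold MS; rw [Finset.mem_filter, mem_SW]

lemma Mn_shape {ρ : ℕ} (hρ : 2 ≤ ρ) {k : List Bool} (h : Mn ρ k) :
    sz k ≤ 3 * mm k ∧ ∃ j b, k = j ++ [b] ∧ ¬ Big ρ j := by
  have hk0 : k ≠ [] := by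
    rintro rfl
    have := h.1.1
    have e : (desc root []).p = 1 := rfl
    omega
  obtain ⟨j, b, rfl⟩ : ∃ j b, k = j ++ [b] := by
    rcases List.eq_nil_or_concat k with h | ⟨j, b, h⟩
    · exact absurd h hk0
    · exact ⟨j, b, by simpa using h⟩
  have hnj : ¬ Big ρ j := by
    intro h'
    have := h.2 j (List.prefix_append _ _) h'
    have := congrArg List.length this
    simp at this
  refine ⟨?_, j, b, rfl, hnj⟩
  have hB := h.1
  unfold Big at hB hnj
  unfold mm
  rw [← sz_pq]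
  rw [desc_snoc] at *
  cases b
  · simp only [step] at *
    have e1 : (rt (desc root j)).p = (desc root j).p + (desc root j).q := rfl
    have e2 : (rt (desc root j)).q = (desc root j).q := rfl
    rw [e1, e2] at hB ⊢
    have hpj : (desc root j).p < ρ := by
      by_contra h4; exact hnj ⟨not_lt.mp h4, hB.2⟩
    omega
  · simp only [step] at *
    have e1 : (lf (desc root j)).p = (desc root j).p := rfl
    have e2 : (lf (desc root j)).q = (desc root j).p + (desc root j).q := rfl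
    rw [e1, e2] at hB ⊢
    have hqj : (desc root j).q < ρ := by
      by_contra h4; exact hnj ⟨hB.1, not_lt.mp h4⟩
    omega

lemma MS_card {ρ : ℕ} (hρ : 2 ≤ ρ) (s : ℕ) : (MS ρ s).card ≤ 6 * ρ ^ 2 * (s + 1) := by
  classical
  have hsub : MS ρ s ⊆ (Bad1 s ρ ×ˢ (Finset.univ : Finset Bool)).image (fun x => x.1 ++ [x.2]) := by
    intro k hk
    obtain ⟨h1, h2⟩ := mem_MS.mp hk
    obtain ⟨-, j, b, hjb, hnj⟩ := Mn_shape hρ h2
    rw [Finset.mem_image]
    refine ⟨(j, b), ?_, hjb.symm⟩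
    rw [Finset.mem_product, mem_Bad1]
    refine ⟨⟨?_, hnj⟩, Finset.mem_univ _⟩
    have := sz_prefix (List.prefix_append j [b])
    rw [← hjb] at this
    exact this.trans h1
  have h1 := Finset.card_le_card hsub
  have h2 := Finset.card_image_le (s := Bad1 s ρ ×ˢ (Finset.univ : Finset Bool)) (f := fun x => x.1 ++ [x.2])
  rw [Finset.card_product] at h2
  have h3 := Bad1_card s ρ
  have h4 : (Finset.univ : Finset Bool).card = 2 := rfl
  rw [h4] at h2
  calc (MS ρ s).card ≤ (Bad1 s ρ).card * 2 := h1.trans h2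
    _ ≤ (3 * ρ ^ 2 * (s + 1)) * 2 := Nat.mul_le_mul_right _ h3
    _ = _ := by ring

/-- the total weight of the minimal big words -/
def WW (ρ σ : ℕ) : ℝ := ∑ k ∈ MS ρ σ, 1 / (mm k : ℝ)

lemma WW_nonneg (ρ σ : ℕ) : 0 ≤ WW ρ σ := Finset.sum_nonneg (fun k _ => by positivity)

lemma WW_le {ρ : ℕ} (hρ : 2 ≤ ρ) (σ : ℕ) : WW ρ σ ≤ 54 * (ρ : ℝ) ^ 2 * (Nat.log 2 σ + 1 : ℕ) := by
  classical
  unfold WW
  have hmaps : ∀ k ∈ MS ρ σ, Nat.log 2 (sz k) ∈ Finset.range (Nat.log 2 σ + 1) := by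
    intro k hk
    rw [Finset.mem_range]
    have := Nat.log_mono_right (b := 2) (mem_MS.mp hk).1
    omega
  rw [← Finset.sum_fiberwise_of_maps_to hmaps]
  have hfib : ∀ t ∈ Finset.range (Nat.log 2 σ + 1),
      ∑ k ∈ (MS ρ σ).filter (fun k => Nat.log 2 (sz k) = t), 1 / (mm k : ℝ) ≤ 54 * (ρ : ℝ) ^ 2 := by
    intro t _
    have h2t : (0 : ℝ) < 2 ^ t := by positivity
    have hterm : ∀ k ∈ (MS ρ σ).filter (fun k => Nat.log 2 (sz k) = t), 1 / (mm k : ℝ) ≤ 3 / 2 ^ t := by
      intro k hk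
      rw [Finset.mem_filter, mem_MS] at hk
      have h1 := (Mn_shape hρ hk.1.2).1
      have hsz : sz k ≠ 0 := by have := mm_two k; have := mm_pos k; omega
      have h2 : 2 ^ t ≤ sz k := by rw [← hk.2]; exact Nat.pow_log_le_self 2 hsz
      have h3 : (2 : ℝ) ^ t ≤ 3 * mm k := by exact_mod_cast h2.trans h1
      have h4 : (0 : ℝ) < mm k := by exact_mod_cast mm_pos k
      rw [div_le_div_iff₀ h4 h2t]
      linarith
    have hcard : (((MS ρ σ).filter (fun k => Nat.log 2 (sz k) = t)).card : ℝ) ≤ 18 * (ρ : ℝ) ^ 2 * 2 ^ t := by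
      have hsub : (MS ρ σ).filter (fun k => Nat.log 2 (sz k) = t) ⊆ MS ρ (2 ^ (t + 1)) := by
        intro k hk
        rw [Finset.mem_filter, mem_MS] at hk
        rw [mem_MS]
        refine ⟨?_, hk.1.2⟩
        have := Nat.lt_pow_succ_log_self (b := 2) (by norm_num) (sz k)
        rw [hk.2] at this
        exact this.le
      have h1 := (Finset.card_le_card hsub).trans (MS_card hρ _)
      have h2 : 6 * ρ ^ 2 * (2 ^ (t + 1) + 1) ≤ 18 * ρ ^ 2 * 2 ^ t := by
        have h3 : 1 ≤ 2 ^ t := Nat.one_le_two_pow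
        have h4 : 2 ^ (t + 1) + 1 ≤ 3 * 2 ^ t := by rw [pow_succ]; omega
        calc 6 * ρ ^ 2 * (2 ^ (t + 1) + 1) ≤ 6 * ρ ^ 2 * (3 * 2 ^ t) := Nat.mul_le_mul_left _ h4
          _ = _ := by ring
      exact_mod_cast h1.trans h2
    calc ∑ k ∈ (MS ρ σ).filter (fun k => Nat.log 2 (sz k) = t), 1 / (mm k : ℝ)
        ≤ ∑ k ∈ (MS ρ σ).filter (fun k => Nat.log 2 (sz k) = t), 3 / 2 ^ t := Finset.sum_le_sum hterm
      _ = ((MS ρ σ).filter (fun k => Nat.log 2 (sz k) = t)).card * (3 / 2 ^ t) := by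
          rw [Finset.sum_const, nsmul_eq_mul]
      _ ≤ 18 * (ρ : ℝ) ^ 2 * 2 ^ t * (3 / 2 ^ t) := mul_le_mul_of_nonneg_right hcard (by positivity)
      _ = 54 * (ρ : ℝ) ^ 2 := by field_simp; norm_num
  refine (Finset.sum_le_sum hfib).trans ?_
  rw [Finset.sum_const, nsmul_eq_mul, Finset.card_range]
  rw [mul_comm]

/-- sums over good cones are sums over minimal big words -/
lemma KS_sum {H ρ σ : ℕ} {w : List Bool → ℝ} (hw : ∀ l, 0 ≤ w l) :
    ∑ k ∈ KS H ρ σ, w k ≤ ∑ k0 ∈ MS ρ σ, sm (KS H ρ σ) w k0 := by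
  classical
  have hch : ∀ k ∈ KS H ρ σ, ∃ k0, k0 <+: k ∧ Mn ρ k0 := fun k hk => Mn_exists ρ k (mem_KS.mp hk).2.1
  choose! g hg1 hg2 using hch
  have hmaps : ∀ k ∈ KS H ρ σ, g k ∈ MS ρ σ := by
    intro k hk
    rw [mem_MS]
    exact ⟨(sz_prefix (hg1 k hk)).trans (mem_KS.mp hk).1, hg2 k hk⟩
  rw [← Finset.sum_fiberwise_of_maps_to hmaps]
  apply Finset.sum_le_sum
  intro k0 _
  unfold sm
  apply Finset.sum_le_sum_of_subset_of_nonneg
  · intro k hk
    rw [Finset.mem_filter] at hk ⊢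
    refine ⟨hk.1, ?_⟩
    rw [← hk.2]; exact hg1 k hk.1
  · intro l _ _; exact hw l

lemma PP_le_mm (i : List Bool) : PP i ≤ 10 / (mm i : ℝ) := by
  obtain ⟨hp, hq⟩ := pq_real i
  unfold PP Psi
  have e : min ((desc root i).p : ℝ) (desc root i).q = (mm i : ℝ) := by unfold mm; push_cast; rfl
  rw [e]
  have hm : (0 : ℝ) < mm i := by exact_mod_cast mm_pos i
  have hu : (1 : ℝ) ≤ Real.sqrt ((desc root i).p + (desc root i).q) := by
    rw [Real.one_le_sqrt]; linarith
  apply div_le_div_of_nonneg_left (by norm_num) hm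
  exact le_mul_of_one_le_right hm.le hu

theorem KS_PW {H ρ σ : ℕ} (hs : (10 : ℝ) ^ 20 * H ^ 20 ≤ 4 ^ ρ) (hH : 1 ≤ H) (hσ : σ ≤ H) :
    ∑ k ∈ KS H ρ σ, PW k ≤ 10 * WW ρ σ := by
  refine (KS_sum PW_nonneg).trans ?_
  unfold WW
  rw [Finset.mul_sum]
  apply Finset.sum_le_sum
  intro k0 hk0
  have hB := (mem_MS.mp hk0).2.1
  have h1 := PP_le_mm k0
  have h2 : sm (KS H ρ σ) PW k0 ≤ PP k0 := by
    by_cases hR : Rt H k0
    · exact PW_sum_ind hs hH hσ (σ + 1) k0 hB hR (by omega)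
    · exact (sm_irr hs hH hσ hB hR PW_nonneg).trans (PW_le_PP _)
  rw [mul_one_div]
  exact h2.trans h1

theorem KS_card {H ρ σ : ℕ} (hs : (10 : ℝ) ^ 20 * H ^ 20 ≤ 4 ^ ρ) (hH : 1 ≤ H) (hσ : σ ≤ H) :
    ((KS H ρ σ).card : ℝ) ≤ σ * WW ρ σ := by
  have h0 : ((KS H ρ σ).card : ℝ) = ∑ k ∈ KS H ρ σ, (1 : ℝ) := by simp
  rw [h0]
  refine (KS_sum (w := fun _ => 1) (fun _ => by norm_num)).trans ?_
  unfold WW
  rw [Finset.mul_sum]
  apply Finset.sum_le_sum
  intro k0 hk0
  have hB := (mem_MS.mp hk0).2.1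
  have hsz := (mem_MS.mp hk0).1
  have hm := mm_pos k0
  have hm2 := mm_two k0
  have hmr : (0 : ℝ) < mm k0 := by exact_mod_cast hm
  have key : cnt (KS H ρ σ) k0 * mm k0 ≤ σ := by
    by_cases hR : Rt H k0
    · have := cnt_ind (m := mm k0) hs hH hσ (σ + 1) k0 hB hR (min_le_left _ _) (min_le_right _ _) (by omega) hsz
      omega
    · have h1 := cnt_irr hs hH hσ hB hR
      have h2 : cnt (KS H ρ σ) k0 * mm k0 ≤ 1 * mm k0 := Nat.mul_le_mul_right _ h1
      omega
  rw [sm_one, mul_one_div, le_div_iff₀ hmr]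
  exact_mod_cast key

end

end Pool.Agent.TH913.MK
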