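import Mathlib
import Pool.Agent.TH913.MK.E

set_option autoImplicit false

namespace Pool.Agent.TH913.MK

open Pool.Agent.H499R2

noncomputable section

open scoped Classical in
/-- all bad words -/
def Bd (H ρ σ : ℕ) : Finset (List Bool) :=
  ((Bad1 H ρ ∪ Bad2 H ρ σ) ∪ (MS ρ σ).biUnion (DS H σ)) ∪ SW σ

lemma good {H ρ σ : ℕ} {l : List Bool} (hl : sz l ≤ H) (hb : l ∉ Bd H ρ σ) :
    ∃ k, k <+: l ∧ k ∈ KS H ρ σ := by
  classical
  unfold Bd at hb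
  simp only [Finset.mem_union, not_or] at hb
  obtain ⟨⟨⟨b1, b2⟩, b3⟩, b4⟩ := hb
  rw [mem_Bad1] at b1
  rw [mem_SW] at b4
  have hbig : Big ρ l := by
    by_contra h; exact b1 ⟨hl, h⟩
  obtain ⟨k0, hk0, hm0⟩ := Mn_exists ρ l hbig
  have s0 : sz k0 < σ := by
    by_contra h
    exact b2 (mem_Bad2.mpr ⟨hl, k0, hk0, hm0, not_lt.mp h⟩)
  have deep : ∀ i, k0 <+: i → i <+: l → Rt H i → σ < 2 * sz i → False := by
    intro i h1 h2 h3 h4
    apply b3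
    rw [Finset.mem_biUnion]
    exact ⟨k0, mem_MS.mpr ⟨s0.le, hm0⟩, mem_DS.mpr ⟨hl, i, h1, h2, h3, h4⟩⟩
  have hR : ¬ Rt H l := fun h => deep l hk0 (List.prefix_refl _) h (by omega)
  obtain ⟨k, hk, hK⟩ := Kp_exists (H := H) l hbig hR
  refine ⟨k, hk, ?_⟩
  rw [mem_KS]
  refine ⟨?_, hK⟩
  by_contra hσ
  push Not at hσ
  obtain ⟨k1, hk1, hm1⟩ := Mn_exists ρ k hK.1
  have e : k1 = k0 := Mn_unique hm1 hm0 (hk1.trans hk) hk0
  rw [e] at hk1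
  have hne : k ≠ k0 := by
    intro h; rw [h] at hσ; omega
  rcases List.eq_nil_or_concat k with h | ⟨i, b, h⟩
  · rw [h] at hk1
    exact hne (by rw [h, List.prefix_nil.mp hk1])
  · have h' : k = i ++ [b] := by simpa using h
    have hki : k0 <+: i := by
      rw [h'] at hk1
      rcases List.prefix_concat_iff.mp hk1 with h1 | h1
      · exact absurd (h1.trans h'.symm).symm hne
      · exact h1
    have hRi := hK.2.2 i b h' (Big_prefix hm0.1 hki)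
    have hil : i <+: l := by
      have : i <+: k := by rw [h']; exact List.prefix_append _ _
      exact this.trans hk
    have h2 := (sz_child i b).2
    rw [← h'] at h2
    exact deep i hki hil hRi (by omega)

theorem NU_card1 {H ρ σ : ℕ} (hs : (10 : ℝ) ^ 20 * H ^ 20 ≤ 4 ^ ρ) (hρ : 2 ≤ ρ) (hH : 1 ≤ H) :
    ((NU H).card : ℝ) ≤ 2 * (Bd H ρ σ).card +
      2 * (AA H * (((KS H ρ σ).card : ℝ) * ∑ k ∈ KS H ρ σ, PW k)) := by
  classical
  set B := Bd H ρ σ with hBd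
  set S1 := (SW H).filter (fun l => l ∉ B ∧ ∃ l', sz l' ≤ H ∧ l' ∉ B ∧ l' ≠ l ∧ FF l' = FF l) with hS1
  set S2 := (SW H).filter (fun l => l ∉ B ∧ (∃ l', l' ∈ B ∧ FF l' = FF l) ∧
    ¬ ∃ l', sz l' ≤ H ∧ l' ∉ B ∧ l' ≠ l ∧ FF l' = FF l) with hS2
  have hcover : NU H ⊆ (B ∪ S2) ∪ S1 := by
    intro l hl
    obtain ⟨hl1, l', h1, h2, h3⟩ := mem_NU.mp hl
    rw [Finset.mem_union, Finset.mem_union]
    by_cases hb : l ∈ B
    · exact Or.inl (Or.inl hb)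
    · by_cases hex : ∃ l', sz l' ≤ H ∧ l' ∉ B ∧ l' ≠ l ∧ FF l' = FF l
      · right
        rw [hS1, Finset.mem_filter, mem_SW]
        exact ⟨hl1, hb, hex⟩
      · left; right
        rw [hS2, Finset.mem_filter, mem_SW]
        refine ⟨hl1, hb, ⟨l', ?_, h3⟩, hex⟩
        by_contra hb'
        exact hex ⟨l', h1, hb', h2, h3⟩
  have c2 : S2.card ≤ B.card := by
    have hch : ∀ l ∈ S2, ∃ l', l' ∈ B ∧ FF l' = FF l := by
      intro l hl
      rw [hS2, Finset.mem_filter] at hl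
      exact hl.2.2.1
    choose! ψ hψ1 hψ2 using hch
    apply Finset.card_le_card_of_injOn ψ (fun l hl => hψ1 l hl)
    intro a ha b hb hab
    by_contra hne
    have hfa := hψ2 a ha
    have hfb := hψ2 b hb
    have ha' := ha
    have hb' := hb
    simp only [hS2, Finset.coe_filter, Set.mem_ofPred_eq, mem_SW] at ha' hb'
    apply ha'.2.2.2
    exact ⟨b, hb'.1, hb'.2.1, Ne.symm hne, by rw [← hfb, ← hab, hfa]⟩
  -- the main part
  have hch : ∀ l ∈ S1, ∃ l', sz l' ≤ H ∧ l' ∉ B ∧ l' ≠ l ∧ FF l' = FF l := by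
    intro l hl
    rw [hS1, Finset.mem_filter] at hl
    exact hl.2.2
  choose! φ hφ1 hφ2 hφ3 hφ4 using hch
  have hK : ∀ l, sz l ≤ H → l ∉ B → ∃ k, k <+: l ∧ k ∈ KS H ρ σ := fun l h1 h2 => good h1 h2
  choose! K hK1 hK2 using hK
  have hS1m : ∀ l ∈ S1, sz l ≤ H ∧ l ∉ B := by
    intro l hl
    rw [hS1, Finset.mem_filter, mem_SW] at hl
    exact ⟨hl.1, hl.2.1⟩
  have hmaps : ∀ l ∈ S1, (K l, K (φ l)) ∈ KS H ρ σ ×ˢ KS H ρ σ := by
    intro l hl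
    obtain ⟨g1, g2⟩ := hS1m l hl
    rw [Finset.mem_product]
    exact ⟨hK2 l g1 g2, hK2 (φ l) (hφ1 l hl) (hφ2 l hl)⟩
  have c1 : (S1.card : ℝ) ≤ 2 * (AA H * (((KS H ρ σ).card : ℝ) * ∑ k ∈ KS H ρ σ, PW k)) := by
    have e1 := Finset.card_eq_sum_card_fiberwise (f := fun l => (K l, K (φ l))) (s := S1)
      (t := KS H ρ σ ×ˢ KS H ρ σ) (fun l hl => hmaps l hl)
    have e2 : (S1.card : ℝ) = ∑ b ∈ KS H ρ σ ×ˢ KS H ρ σ, ((S1.filter (fun l => (K l, K (φ l)) = b)).card : ℝ) := by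
      exact_mod_cast e1
    rw [e2]
    have e3 : ∀ b ∈ KS H ρ σ ×ˢ KS H ρ σ,
        ((S1.filter (fun l => (K l, K (φ l)) = b)).card : ℝ) ≤ AA H * (PW b.1 + PW b.2) := by
      rintro ⟨k, k'⟩ hkk
      rw [Finset.mem_product, mem_KS, mem_KS] at hkk
      obtain ⟨⟨z1, z2⟩, ⟨z3, z4⟩⟩ := hkk
      set X := S1.filter (fun l => (K l, K (φ l)) = (k, k')) with hX
      apply pair_bound1 X φ H ρ k k'
      · refine ⟨hs, hρ, z2.1.1, z2.1.2, z4.1.1, z4.1.2, Ir_of_not_Rt hH z2.2.1, Ir_of_not_Rt hH z4.2.1, ?_⟩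
        rintro l l' ⟨hl, rfl⟩
        rw [hX, Finset.mem_filter] at hl
        obtain ⟨w1, w2⟩ := hS1m l hl.1
        have ek1 : K l = k := congrArg Prod.fst hl.2
        have ek1' : K (φ l) = k' := congrArg Prod.snd hl.2
        refine ⟨?_, ?_, w1, hφ1 l hl.1, hφ4 l hl.1⟩
        · rw [← ek1]; exact hK1 l w1 w2
        · rw [← ek1']; exact hK1 (φ l) (hφ1 l hl.1) (hφ2 l hl.1)
      · intro l hl
        rw [hX, Finset.mem_filter] at hl
        exact hφ3 l hl.1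
    refine (Finset.sum_le_sum e3).trans ?_
    rw [← Finset.mul_sum, Finset.sum_add_distrib, Finset.sum_product, Finset.sum_product]
    simp only [Finset.sum_const, nsmul_eq_mul]
    rw [← Finset.mul_sum]
    have hA := AA_nonneg H
    rw [mul_add]
    linarith
  have h6 := Finset.card_le_card hcover
  have h7 := Finset.card_union_le (B ∪ S2) S1
  have h8 := Finset.card_union_le B S2
  have h9 : (NU H).card ≤ 2 * B.card + S1.card := by omega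
  have h10 : ((NU H).card : ℝ) ≤ 2 * B.card + S1.card := by exact_mod_cast h9
  linarith

lemma Bd_card {H ρ σ : ℕ} (hs : (10 : ℝ) ^ 20 * H ^ 20 ≤ 4 ^ ρ) (hρ : 2 ≤ ρ) (hH : 1 ≤ H) (hσH : σ ≤ H)
    (hσ : 2 * ρ ≤ σ) :
    ((Bd H ρ σ).card : ℝ) ≤ 3 * (ρ : ℝ) ^ 2 * (H + 1) + (ρ : ℝ) ^ 2 * (2 * (4 * H / σ) + 1) * (H + 1) +
      4 * (H : ℝ) ^ 2 / σ * WW ρ σ + (σ : ℝ) ^ 2 := by
  classical
  have hσ0 : (0 : ℝ) < σ := by exact_mod_cast (by omega : 0 < σ)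
  have h0 : (Bd H ρ σ).card ≤ (Bad1 H ρ).card + (Bad2 H ρ σ).card + ((MS ρ σ).biUnion (DS H σ)).card + (SW σ).card := by
    unfold Bd
    have h1 := Finset.card_union_le ((Bad1 H ρ ∪ Bad2 H ρ σ) ∪ (MS ρ σ).biUnion (DS H σ)) (SW σ)
    have h2 := Finset.card_union_le (Bad1 H ρ ∪ Bad2 H ρ σ) ((MS ρ σ).biUnion (DS H σ))
    have h3 := Finset.card_union_le (Bad1 H ρ) (Bad2 H ρ σ)
    omega
  have h1 : ((Bad1 H ρ).card : ℝ) ≤ 3 * (ρ : ℝ) ^ 2 * (H + 1) := by exact_mod_cast Bad1_card H ρ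
  have h2 : ((Bad2 H ρ σ).card : ℝ) ≤ (ρ : ℝ) ^ 2 * (2 * (4 * H / σ) + 1) * (H + 1) := by
    have e1 : ((Bad2 H ρ σ).card : ℝ) ≤ (ρ : ℝ) ^ 2 * (2 * ((4 * H / σ : ℕ) : ℝ) + 1) * (H + 1) := by
      exact_mod_cast Bad2_card H ρ σ hρ hσ
    have e2 : (((4 * H / σ : ℕ)) : ℝ) ≤ 4 * (H : ℝ) / σ := by
      have := @Nat.cast_div_le ℝ _ _ _ (4 * H) σ
      push_cast at this
      exact this
    refine e1.trans ?_
    apply mul_le_mul_of_nonneg_right _ (by positivity)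
    apply mul_le_mul_of_nonneg_left _ (by positivity)
    linarith
  have h3 : (((MS ρ σ).biUnion (DS H σ)).card : ℝ) ≤ 4 * (H : ℝ) ^ 2 / σ * WW ρ σ := by
    have e1 : (((MS ρ σ).biUnion (DS H σ)).card : ℝ) ≤ ∑ k ∈ MS ρ σ, ((DS H σ k).card : ℝ) := by
      exact_mod_cast Finset.card_biUnion_le
    refine e1.trans ?_
    unfold WW
    rw [Finset.mul_sum]
    apply Finset.sum_le_sum
    intro k hk
    have hB := (mem_MS.mp hk).2.1
    have hm : (0 : ℝ) < mm k := by exact_mod_cast mm_pos k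
    have h4 := DS_card (m := mm k) hs hH hB (min_le_left _ _) (min_le_right _ _) hσH
    have h5 : ((DS H σ k).card : ℝ) * ((mm k : ℝ) * σ) ≤ 4 * (H : ℝ) ^ 2 := by exact_mod_cast h4
    have h6 : 4 * (H : ℝ) ^ 2 / σ * (1 / (mm k : ℝ)) = 4 * (H : ℝ) ^ 2 / ((mm k : ℝ) * σ) := by
      field_simp
    rw [h6, le_div_iff₀ (by positivity)]
    exact h5
  have h4 : ((SW σ).card : ℝ) ≤ (σ : ℝ) ^ 2 := by
    have := card_SW σ
    exact_mod_cast (show (SW σ).card ≤ σ ^ 2 by omega)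
  have h0' : ((Bd H ρ σ).card : ℝ) ≤ (Bad1 H ρ).card + (Bad2 H ρ σ).card + ((MS ρ σ).biUnion (DS H σ)).card + (SW σ).card := by
    exact_mod_cast h0
  linarith

theorem NU_bound {H ρ σ : ℕ} (hs : (10 : ℝ) ^ 20 * H ^ 20 ≤ 4 ^ ρ) (hρ : 2 ≤ ρ) (hσ : 2 * ρ ≤ σ)
    (hσ4 : σ ^ 4 ≤ H) {V : ℝ} (hV : (ρ : ℝ) ^ 2 ≤ V) (hWV : WW ρ σ ≤ V) :
    ((NU H).card : ℝ) ≤ 900 * V ^ 2 * ((H : ℝ) ^ 2 / σ) := by
  have hσ1 : 1 ≤ σ := by omega
  have hσ1r : (1 : ℝ) ≤ σ := by exact_mod_cast hσ1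
  have hσ0 : (0 : ℝ) < σ := by linarith
  have hσH : σ ≤ H := by
    calc σ = σ ^ 1 := (pow_one σ).symm
      _ ≤ σ ^ 4 := Nat.pow_le_pow_right hσ1 (by norm_num)
      _ ≤ H := hσ4
  have hH : 1 ≤ H := hσ1.trans hσH
  have hH1 : (1 : ℝ) ≤ H := by exact_mod_cast hH
  have hH0 : (0 : ℝ) < H := by linarith
  have hσ4r : (σ : ℝ) ^ 4 ≤ H := by exact_mod_cast hσ4
  have hσHr : (σ : ℝ) ≤ H := by exact_mod_cast hσH
  have hρ1 : (1 : ℝ) ≤ (ρ : ℝ) ^ 2 := by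
    have : (1 : ℝ) ≤ ρ := by exact_mod_cast (by omega : 1 ≤ ρ)
    exact one_le_pow₀ this
  have hV1 : 1 ≤ V := by linarith
  have hVV : V ≤ V ^ 2 := by nlinarith
  have h1 := NU_card1 (σ := σ) hs hρ hH
  have h2 := Bd_card hs hρ hH hσH hσ
  have h3 := KS_card hs hH hσH
  have h4 := KS_PW hs hH hσH
  set T : ℝ := (H : ℝ) ^ 2 / σ with hT
  have hHT : (H : ℝ) ≤ T := by
    rw [hT, le_div_iff₀ hσ0]
    nlinarith
  have hT0 : 0 < T := by linarith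
  have hW0 := WW_nonneg ρ σ
  -- bad part
  have b1 : 3 * (ρ : ℝ) ^ 2 * (H + 1) ≤ 6 * (V * T) := by
    calc 3 * (ρ : ℝ) ^ 2 * (H + 1) ≤ 3 * (ρ : ℝ) ^ 2 * (2 * T) := mul_le_mul_of_nonneg_left (by linarith) (by positivity)
      _ = 6 * ((ρ : ℝ) ^ 2 * T) := by ring
      _ ≤ 6 * (V * T) := by
          have := mul_le_mul_of_nonneg_right hV hT0.le
          linarith
  have b2 : (ρ : ℝ) ^ 2 * (2 * (4 * H / σ) + 1) * (H + 1) ≤ 18 * (V * T) := by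
    have e1 : 2 * (4 * (H : ℝ) / σ) + 1 ≤ 9 * (H / σ) := by
      have : (1 : ℝ) ≤ H / σ := by rw [one_le_div hσ0]; exact hσHr
      have e2 : 2 * (4 * (H : ℝ) / σ) = 8 * (H / σ) := by ring
      linarith
    have e3 : (0 : ℝ) ≤ H / σ := by positivity
    calc (ρ : ℝ) ^ 2 * (2 * (4 * H / σ) + 1) * (H + 1) ≤ (ρ : ℝ) ^ 2 * (9 * (H / σ)) * (2 * H) := by
          apply mul_le_mul (mul_le_mul_of_nonneg_left e1 (by positivity)) (by linarith) (by positivity) (by positivity)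
      _ = 18 * ((ρ : ℝ) ^ 2 * T) := by rw [hT]; ring
      _ ≤ 18 * (V * T) := by
          have := mul_le_mul_of_nonneg_right hV hT0.le
          linarith
  have b3 : 4 * (H : ℝ) ^ 2 / σ * WW ρ σ ≤ 4 * (V * T) := by
    calc 4 * (H : ℝ) ^ 2 / σ * WW ρ σ = 4 * (WW ρ σ * T) := by rw [hT]; ring
      _ ≤ 4 * (V * T) := by
          have := mul_le_mul_of_nonneg_right hWV hT0.le
          linarith
  have b4 : (σ : ℝ) ^ 2 ≤ V * T := by
    have e1 : (σ : ℝ) ^ 2 ≤ (σ : ℝ) ^ 4 := pow_le_pow_right₀ hσ1r (by norm_num)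
    have e2 : T ≤ V * T := le_mul_of_one_le_left hT0.le hV1
    linarith
  have bad : ((Bd H ρ σ).card : ℝ) ≤ 29 * (V ^ 2 * T) := by
    have e1 : V * T ≤ V ^ 2 * T := mul_le_mul_of_nonneg_right hVV hT0.le
    linarith
  -- main part
  have hsq : (σ : ℝ) ^ 2 ≤ Real.sqrt H := by
    apply Real.le_sqrt_of_sq_le
    have e : ((σ : ℝ) ^ 2) ^ 2 = (σ : ℝ) ^ 4 := by ring
    rw [e]; exact hσ4r
  have hsq0 : 0 < Real.sqrt H := Real.sqrt_pos.mpr hH0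
  have hmul : Real.sqrt H * Real.sqrt H = H := Real.mul_self_sqrt hH0.le
  have hAT : AA H * σ ≤ 40 * T := by
    unfold AA
    rw [hT, mul_div_assoc', le_div_iff₀ hσ0]
    calc 40 * ((H : ℝ) * Real.sqrt H) * σ * σ = 40 * (H * (Real.sqrt H * (σ : ℝ) ^ 2)) := by ring
      _ ≤ 40 * (H * (Real.sqrt H * Real.sqrt H)) := by
          apply mul_le_mul_of_nonneg_left _ (by norm_num)
          apply mul_le_mul_of_nonneg_left _ hH0.le
          exact mul_le_mul_of_nonneg_left hsq hsq0.le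
      _ = 40 * (H : ℝ) ^ 2 := by rw [hmul]; ring
  have hPW0 : 0 ≤ ∑ k ∈ KS H ρ σ, PW k := Finset.sum_nonneg (fun k _ => PW_nonneg k)
  have m1 : ((KS H ρ σ).card : ℝ) * ∑ k ∈ KS H ρ σ, PW k ≤ (σ * V) * (10 * V) := by
    apply mul_le_mul _ _ hPW0 (by positivity)
    · exact h3.trans (mul_le_mul_of_nonneg_left hWV hσ0.le)
    · linarith
  have m2 : AA H * (((KS H ρ σ).card : ℝ) * ∑ k ∈ KS H ρ σ, PW k) ≤ 400 * (V ^ 2 * T) := by
    calc AA H * (((KS H ρ σ).card : ℝ) * ∑ k ∈ KS H ρ σ, PW k) ≤ AA H * ((σ * V) * (10 * V)) :=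
          mul_le_mul_of_nonneg_left m1 (AA_nonneg H)
      _ = (AA H * σ) * (10 * V ^ 2) := by ring
      _ ≤ (40 * T) * (10 * V ^ 2) := mul_le_mul_of_nonneg_right hAT (by positivity)
      _ = 400 * (V ^ 2 * T) := by ring
  have hVT : 0 ≤ V ^ 2 * T := by positivity
  calc ((NU H).card : ℝ) ≤ 2 * (29 * (V ^ 2 * T)) + 2 * (400 * (V ^ 2 * T)) := by linarith
    _ ≤ 900 * V ^ 2 * T := by linarith

end

end Pool.Agent.TH913.MK
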