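import Mathlib
import Pool.Agent.H499R2.Dens15

set_option autoImplicit false

namespace Pool.Agent.TH913.MK

open Pool.Agent.H499R2

noncomputable section

/-- from words to numbers -/
theorem transfer (θ : ℝ) (hθ0 : 0 ≤ θ) (hθ2 : θ ≤ 2) (K : ℕ)
    (hyp : ∃ C : ℝ, 0 < C ∧ ∀ H : ℕ, 1 ≤ H →
      ((NU H).card : ℝ) ≤ C * ((Nat.log 2 H + 1 : ℕ) : ℝ) ^ K * (H : ℝ) ^ (2 - θ)) :
    ∃ C : ℝ, 0 < C ∧ ∀ N : ℕ, 16 ≤ N →
      (exN N : ℝ) ≤ C * ((Real.log N) ^ (-θ) * (Real.log (Real.log N)) ^ K) * mkN N := by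
  obtain ⟨C, hC, hmain⟩ := hyp
  obtain ⟨c, hc, hlow⟩ := mkN_lower
  refine ⟨C * 5 ^ K * 16 / c, by positivity, ?_⟩
  intro N hN
  have hNr : (16 : ℝ) ≤ N := by exact_mod_cast hN
  have hlog2 := Real.log_two_gt_d9
  set y := Real.log N with hy
  have hyl : Real.exp 1 ≤ y := by
    have h1 : Real.log 16 ≤ y := Real.log_le_log (by norm_num) hNr
    have h2 : Real.log 16 = 4 * Real.log 2 := by
      rw [show (16 : ℝ) = 2 ^ 4 by norm_num, Real.log_pow]; norm_num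
    have h3 := Real.exp_one_lt_d9
    linarith
  have he : (1 : ℝ) ≤ Real.exp 1 := by
    have := Real.add_one_le_exp (1 : ℝ); linarith
  have hy1 : 1 ≤ y := he.trans hyl
  have hy0 : 0 < y := by linarith
  have hly : 1 ≤ Real.log y := by
    rw [Real.le_log_iff_exp_le hy0]; exact hyl
  have h3N : Real.log (3 * N) ≤ 2 * y := by
    rw [Real.log_mul (by norm_num) (by linarith)]
    have : Real.log 3 ≤ Real.log N := Real.log_le_log (by norm_num) (by linarith)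
    linarith
  have h3N' : y ≤ Real.log (3 * N) := Real.log_le_log (by linarith) (by linarith)
  set H := ⌊2 * Real.log (3 * N)⌋₊ with hH
  have f1 : (H : ℝ) ≤ 2 * Real.log (3 * N) := Nat.floor_le (by linarith)
  have f2 : 2 * Real.log (3 * N) < H + 1 := Nat.lt_floor_add_one _
  have hH1 : 1 ≤ H := by
    have : (0 : ℝ) < H := by linarith
    exact_mod_cast this
  have hH0 : (0 : ℝ) < H := by exact_mod_cast hH1
  have g1 : exN N ≤ (NU H).card := Ex_card N H (by omega) f2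
  have g2 := hmain H hH1
  have hH4 : (H : ℝ) ≤ 4 * y := by linarith
  have g3 : (H : ℝ) ^ (2 - θ) ≤ 16 * y ^ (2 - θ) := by
    calc (H : ℝ) ^ (2 - θ) ≤ (4 * y) ^ (2 - θ) := Real.rpow_le_rpow hH0.le hH4 (by linarith)
      _ = 4 ^ (2 - θ) * y ^ (2 - θ) := Real.mul_rpow (by norm_num) hy0.le
      _ ≤ 16 * y ^ (2 - θ) := by
        apply mul_le_mul_of_nonneg_right _ (Real.rpow_nonneg hy0.le _)
        calc (4 : ℝ) ^ (2 - θ) ≤ 4 ^ (2 : ℝ) := Real.rpow_le_rpow_of_exponent_le (by norm_num) (by linarith)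
          _ = 16 := by norm_num
  have g4 : ((Nat.log 2 H + 1 : ℕ) : ℝ) ≤ 5 * Real.log y := by
    have h1 : 2 ^ Nat.log 2 H ≤ H := Nat.pow_log_le_self 2 (by omega)
    have h2 : ((2 : ℝ) ^ Nat.log 2 H) ≤ H := by exact_mod_cast h1
    have h3 := Real.log_le_log (by positivity) (h2.trans hH4)
    rw [Real.log_pow, Real.log_mul (by norm_num) hy0.ne'] at h3
    have h4 : Real.log 4 = 2 * Real.log 2 := by
      rw [show (4 : ℝ) = 2 ^ 2 by norm_num, Real.log_pow]; norm_num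
    rw [h4] at h3
    push_cast
    by_contra hcon
    push Not at hcon
    have h5 : (5 * Real.log y - 1) * Real.log 2 < (Nat.log 2 H : ℝ) * Real.log 2 := by
      apply mul_lt_mul_of_pos_right _ (by linarith)
      linarith
    nlinarith
  have g5 : ((Nat.log 2 H + 1 : ℕ) : ℝ) ^ K ≤ 5 ^ K * (Real.log y) ^ K := by
    rw [← mul_pow]
    exact pow_le_pow_left₀ (by positivity) g4 K
  have g6 := hlow N (by omega)
  rw [← hy] at g6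
  have e2 : y ^ 2 * y ^ (-θ) = y ^ (2 - θ) := by
    rw [← Real.rpow_natCast, ← Real.rpow_add hy0]; congr 1
  have hpos1 : 0 ≤ (Real.log y) ^ K := by positivity
  have hpos2 : 0 < y ^ (-θ) := Real.rpow_pos_of_pos hy0 _
  calc (exN N : ℝ) ≤ (NU H).card := by exact_mod_cast g1
    _ ≤ C * ((Nat.log 2 H + 1 : ℕ) : ℝ) ^ K * (H : ℝ) ^ (2 - θ) := g2
    _ ≤ C * (5 ^ K * (Real.log y) ^ K) * (16 * y ^ (2 - θ)) := by
        apply mul_le_mul _ g3 (Real.rpow_nonneg hH0.le _) (by positivity)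
        exact mul_le_mul_of_nonneg_left g5 hC.le
    _ = C * 5 ^ K * 16 / c * (y ^ (-θ) * (Real.log y) ^ K) * (c * y ^ 2) := by
        rw [← e2]; field_simp
    _ ≤ C * 5 ^ K * 16 / c * (y ^ (-θ) * (Real.log y) ^ K) * mkN N :=
        mul_le_mul_of_nonneg_left g6 (by positivity)

/-- the same with explicit sets -/
theorem transfer_set (θ : ℝ) (hθ0 : 0 ≤ θ) (hθ2 : θ ≤ 2) (K : ℕ)
    (hyp : ∃ C : ℝ, 0 < C ∧ ∀ H : ℕ, 1 ≤ H →
      ((NU H).card : ℝ) ≤ C * ((Nat.log 2 H + 1 : ℕ) : ℝ) ^ K * (H : ℝ) ^ (2 - θ)) :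
    ∃ C : ℝ, 0 < C ∧ ∀ N : ℕ, 16 ≤ N →
    ({m : ℕ | 1 ≤ m ∧ m ≤ N ∧ ∃ p q : ℕ × ℕ, p ≠ q ∧
        (1 ≤ p.1 ∧ p.1 ≤ p.2 ∧ p.2 ≤ m ∧ p.1 ^ 2 + p.2 ^ 2 + m ^ 2 = 3 * p.1 * p.2 * m) ∧
        (1 ≤ q.1 ∧ q.1 ≤ q.2 ∧ q.2 ≤ m ∧ q.1 ^ 2 + q.2 ^ 2 + m ^ 2 = 3 * q.1 * q.2 * m)}.ncard : ℝ) ≤
      C * ((Real.log N) ^ (-θ) * (Real.log (Real.log N)) ^ K) *
        ({m : ℕ | 1 ≤ m ∧ m ≤ N ∧ ∃ x y : ℕ, 0 < x ∧ 0 < y ∧ x ^ 2 + y ^ 2 + m ^ 2 = 3 * x * y * m}.ncard : ℝ) := by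
  classical
  obtain ⟨C, hC, h⟩ := transfer θ hθ0 hθ2 K hyp
  refine ⟨C, hC, fun N hN => ?_⟩
  have h1 := h N hN
  have e1 : {m : ℕ | 1 ≤ m ∧ m ≤ N ∧ ∃ p q : ℕ × ℕ, p ≠ q ∧
        (1 ≤ p.1 ∧ p.1 ≤ p.2 ∧ p.2 ≤ m ∧ p.1 ^ 2 + p.2 ^ 2 + m ^ 2 = 3 * p.1 * p.2 * m) ∧
        (1 ≤ q.1 ∧ q.1 ≤ q.2 ∧ q.2 ≤ m ∧ q.1 ^ 2 + q.2 ^ 2 + m ^ 2 = 3 * q.1 * q.2 * m)}.ncard = exN N := by
    unfold exN
    rw [← Set.ncard_coe_finset]
    congr 1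
    ext m
    simp only [Set.mem_ofPred_eq, Finset.coe_filter, Finset.mem_Icc, Ex, and_assoc]
  have e2 : {m : ℕ | 1 ≤ m ∧ m ≤ N ∧ ∃ x y : ℕ, 0 < x ∧ 0 < y ∧ x ^ 2 + y ^ 2 + m ^ 2 = 3 * x * y * m}.ncard = mkN N := by
    unfold mkN
    rw [← Set.ncard_coe_finset]
    congr 1
    ext m
    simp only [Set.mem_ofPred_eq, Finset.coe_filter, Finset.mem_Icc, Mk, and_assoc]
  rw [e1, e2]
  exact h1

lemma pow_log_bound {l : ℕ} (hl : 61 ≤ l) : (88 * l) ^ 4 ≤ 2 ^ (l - 1) := by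
  induction l, hl using Nat.le_induction with
  | base => norm_num
  | succ n hn ih =>
    have h1 : (88 * (n + 1)) ^ 4 ≤ 2 * (88 * n) ^ 4 := by
      have h2 : 60 * (n + 1) ≤ 61 * n := by omega
      have h3 : (60 * (n + 1)) ^ 4 ≤ (61 * n) ^ 4 := Nat.pow_le_pow_left h2 4
      have h4 : 61 ^ 4 ≤ 2 * 60 ^ 4 := by norm_num
      have h5 : 60 ^ 4 * (n + 1) ^ 4 ≤ 60 ^ 4 * (2 * n ^ 4) := by
        calc 60 ^ 4 * (n + 1) ^ 4 = (60 * (n + 1)) ^ 4 := by ring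
          _ ≤ (61 * n) ^ 4 := h3
          _ = 61 ^ 4 * n ^ 4 := by ring
          _ ≤ (2 * 60 ^ 4) * n ^ 4 := Nat.mul_le_mul_right _ h4
          _ = _ := by ring
      have h6 : (n + 1) ^ 4 ≤ 2 * n ^ 4 := Nat.le_of_mul_le_mul_left h5 (by norm_num)
      calc (88 * (n + 1)) ^ 4 = 88 ^ 4 * (n + 1) ^ 4 := by ring
        _ ≤ 88 ^ 4 * (2 * n ^ 4) := Nat.mul_le_mul_left _ h6
        _ = _ := by ring
    have h7 : 2 ^ (n + 1 - 1) = 2 * 2 ^ (n - 1) := by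
      rw [← pow_succ']; congr 1; omega
    rw [h7]
    omega

end

end Pool.Agent.TH913.MK
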