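import Mathlib
import Pool.Agent.TH913.MK.F
import Pool.Agent.TH913.MK.G

set_option autoImplicit false

namespace Pool.Agent.TH913.MK

open Pool.Agent.H499R2

noncomputable section

lemma four_pow (L : ℕ) : (4 : ℝ) ^ (44 * L) = (2 ^ L) ^ 68 * (2 ^ L) ^ 20 := by
  generalize hy : (2 : ℝ) ^ L = y
  have h1 : (4 : ℝ) ^ L = y * y := by
    rw [← hy, ← mul_pow]; norm_num
  rw [mul_comm, pow_mul, h1]
  ring

lemma hs_of {H L : ℕ} (hL : 1 ≤ L) (hH : H < 2 ^ L) : (10 : ℝ) ^ 20 * (H : ℝ) ^ 20 ≤ 4 ^ (44 * L) := by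
  rw [four_pow]
  have h1 : (H : ℝ) ≤ 2 ^ L := by exact_mod_cast hH.le
  have h2 : (2 : ℝ) ≤ 2 ^ L := by
    calc (2 : ℝ) = 2 ^ 1 := (pow_one 2).symm
      _ ≤ 2 ^ L := pow_le_pow_right₀ (by norm_num) hL
  generalize (2 : ℝ) ^ L = y at *
  have h4 : (10 : ℝ) ^ 20 ≤ y ^ 68 := by
    have h6 : (2 : ℝ) ^ 68 ≤ y ^ 68 := pow_le_pow_left₀ (by norm_num) h2 68
    have h7 : (10 : ℝ) ^ 20 ≤ 2 ^ 68 := by norm_num
    linarith
  have h5 : (H : ℝ) ^ 20 ≤ y ^ 20 := pow_le_pow_left₀ (by positivity) h1 20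
  exact mul_le_mul h4 h5 (by positivity) (by positivity)

theorem NU_main4 : ∃ C : ℝ, 0 < C ∧ ∀ H : ℕ, 1 ≤ H →
    ((NU H).card : ℝ) ≤ C * ((Nat.log 2 H + 1 : ℕ) : ℝ) ^ 6 * (H : ℝ) ^ (2 - 1 / 4 : ℝ) := by
  refine ⟨2 ^ 60 + 1800 * (54 * 44 ^ 2) ^ 2, by positivity, ?_⟩
  intro H hH
  have hH1 : (1 : ℝ) ≤ H := by exact_mod_cast hH
  have hH0 : (0 : ℝ) < H := by linarith
  set x : ℝ := (H : ℝ) ^ (1 / 4 : ℝ) with hx
  have hx0 : 0 < x := Real.rpow_pos_of_pos hH0 _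
  have hx1 : 1 ≤ x := Real.one_le_rpow hH1 (by norm_num)
  have hx4 : x ^ 4 = H := by
    rw [hx, ← Real.rpow_natCast, ← Real.rpow_mul hH0.le]; norm_num
  have hxH : x ≤ H := by
    rw [← hx4]
    calc x = x ^ 1 := (pow_one x).symm
      _ ≤ x ^ 4 := pow_le_pow_right₀ hx1 (by norm_num)
  have hpow : (H : ℝ) ^ (2 - 1 / 4 : ℝ) = (H : ℝ) ^ 2 / x := by
    rw [Real.rpow_sub hH0, hx, ← Real.rpow_natCast]; norm_num
  rw [hpow]
  set L := Nat.log 2 H + 1 with hL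
  have hL1 : (1 : ℝ) ≤ (L : ℝ) := by exact_mod_cast (by omega : 1 ≤ L)
  have hL6 : (1 : ℝ) ≤ (L : ℝ) ^ 6 := one_le_pow₀ hL1
  have hlow : 2 ^ (L - 1) ≤ H := by
    have := Nat.pow_log_le_self 2 (by omega : H ≠ 0)
    rw [hL]; simpa using this
  have hup : H < 2 ^ L := Nat.lt_pow_succ_log_self (by norm_num) H
  by_cases hcase : L ≤ 60
  · have h6 : ((NU H).card : ℝ) ≤ (H : ℝ) ^ 2 := by
      classical
      have h7 : (NU H).card ≤ (SW H).card := by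
        unfold NU; exact Finset.card_filter_le _ _
      have h8 := card_SW H
      exact_mod_cast (show (NU H).card ≤ H ^ 2 by omega)
    have h60 : x ≤ 2 ^ 60 := by
      have h9 : H ≤ 2 ^ 60 := hup.le.trans (Nat.pow_le_pow_right (by norm_num) hcase)
      have h10 : (H : ℝ) ≤ 2 ^ 60 := by exact_mod_cast h9
      linarith
    have h11 : (H : ℝ) ^ 2 ≤ 2 ^ 60 * 1 * ((H : ℝ) ^ 2 / x) := by
      rw [mul_one, mul_div_assoc', le_div_iff₀ hx0, mul_comm]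
      exact mul_le_mul_of_nonneg_right h60 (by positivity)
    refine h6.trans (h11.trans ?_)
    apply mul_le_mul_of_nonneg_right _ (by positivity)
    apply mul_le_mul _ hL6 (by norm_num) (by positivity)
    have : (0 : ℝ) ≤ 1800 * (54 * 44 ^ 2) ^ 2 := by positivity
    linarith
  · push Not at hcase
    set σ := Nat.sqrt (Nat.sqrt H) with hσ
    have hσ4 : σ ^ 4 ≤ H := by
      have h1 : σ ^ 2 ≤ Nat.sqrt H := Nat.sqrt_le' _
      have h2 : (Nat.sqrt H) ^ 2 ≤ H := Nat.sqrt_le' _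
      calc σ ^ 4 = (σ ^ 2) ^ 2 := by ring
        _ ≤ (Nat.sqrt H) ^ 2 := Nat.pow_le_pow_left h1 2
        _ ≤ H := h2
    have hσup : H < (σ + 1) ^ 4 := by
      have h1 : Nat.sqrt H < (σ + 1) ^ 2 := Nat.lt_succ_sqrt' _
      have h2 : H < (Nat.sqrt H + 1) ^ 2 := Nat.lt_succ_sqrt' _
      calc H < (Nat.sqrt H + 1) ^ 2 := h2
        _ ≤ ((σ + 1) ^ 2) ^ 2 := Nat.pow_le_pow_left h1 2
        _ = (σ + 1) ^ 4 := by ring
    have hσρ : 88 * L ≤ σ := by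
      by_contra hcon
      push Not at hcon
      have h1 := pow_log_bound (l := L) (by omega)
      have h2 : (σ + 1) ^ 4 ≤ (88 * L) ^ 4 := Nat.pow_le_pow_left hcon 4
      omega
    have hs : (10 : ℝ) ^ 20 * (H : ℝ) ^ 20 ≤ 4 ^ (44 * L) := hs_of (by omega) hup
    have hσH : σ ≤ H := by
      calc σ = σ ^ 1 := (pow_one σ).symm
        _ ≤ σ ^ 4 := Nat.pow_le_pow_right (by omega) (by norm_num)
        _ ≤ H := hσ4
    set V : ℝ := 54 * ((44 * L : ℕ) : ℝ) ^ 2 * (L : ℝ) with hV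
    have hW : WW (44 * L) σ ≤ V := by
      refine (WW_le (by omega) σ).trans ?_
      rw [hV]
      apply mul_le_mul_of_nonneg_left _ (by positivity)
      have := Nat.log_mono_right (b := 2) hσH
      exact_mod_cast (by omega : Nat.log 2 σ + 1 ≤ L)
    have hρV : ((44 * L : ℕ) : ℝ) ^ 2 ≤ V := by
      rw [hV]
      have h0 : (0 : ℝ) ≤ ((44 * L : ℕ) : ℝ) ^ 2 := by positivity
      nlinarith
    have hmain := NU_bound (H := H) (ρ := 44 * L) (σ := σ) hs (by omega) (by omega) hσ4 hρV hW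
    have hσ0 : (0 : ℝ) < σ := by exact_mod_cast (by omega : 0 < σ)
    have hxσ : x ≤ 2 * σ := by
      have h1 : (H : ℝ) < ((σ : ℝ) + 1) ^ 4 := by exact_mod_cast hσup
      rw [← hx4] at h1
      have h2 : x < (σ : ℝ) + 1 := lt_of_pow_lt_pow_left₀ 4 (by positivity) h1
      have h3 : (1 : ℝ) ≤ σ := by exact_mod_cast (by omega : 1 ≤ σ)
      linarith
    have h5 : (H : ℝ) ^ 2 / σ ≤ 2 * ((H : ℝ) ^ 2 / x) := by
      rw [mul_div_assoc', div_le_div_iff₀ hσ0 hx0]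
      have : 0 ≤ (H : ℝ) ^ 2 := by positivity
      nlinarith
    have hV2 : V ^ 2 = (54 * 44 ^ 2) ^ 2 * (L : ℝ) ^ 6 := by
      rw [hV]; push_cast; ring
    calc ((NU H).card : ℝ) ≤ 900 * V ^ 2 * ((H : ℝ) ^ 2 / σ) := hmain
      _ ≤ 900 * V ^ 2 * (2 * ((H : ℝ) ^ 2 / x)) := mul_le_mul_of_nonneg_left h5 (by positivity)
      _ = 1800 * (54 * 44 ^ 2) ^ 2 * (L : ℝ) ^ 6 * ((H : ℝ) ^ 2 / x) := by rw [hV2]; ring
      _ ≤ (2 ^ 60 + 1800 * (54 * 44 ^ 2) ^ 2) * (L : ℝ) ^ 6 * ((H : ℝ) ^ 2 / x) := by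
          apply mul_le_mul_of_nonneg_right _ (by positivity)
          apply mul_le_mul_of_nonneg_right _ (by positivity)
          linarith

end

end Pool.Agent.TH913.MK
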