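import Mathlib
import Pool.Agent.TH913.MK.B

set_option autoImplicit false

namespace Pool.Agent.TH913.MK

open Pool.Agent.H499R2

noncomputable section

/-- estimate at a node where the two scales differ -/
lemma wild_est (H : ℕ) (n n' κ g : ℤ) (GI GJ s : ℝ) (hH : (1 : ℝ) ≤ H) (hn1 : (1 : ℝ) ≤ |(n : ℝ)|)
    (hn'1 : (1 : ℝ) ≤ |(n' : ℝ)|) (bn' : |(n' : ℝ)| ≤ (H : ℝ) ^ 2) (hK1 : (1 : ℝ) ≤ |(κ : ℝ)|)
    (hKb : |(κ : ℝ)| ≤ 2 * (H : ℝ) ^ 3) (hnκ : (0 : ℝ) < n * κ) (hg : 0 < g) (hgd : g ∣ n - κ) (hne : κ ≠ n)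
    {τ ε : ℝ}
    (hfin : |Real.log (|(n' : ℝ)| / |(κ : ℝ)|) - 2 * (1 - |(κ : ℝ)| / |(n : ℝ)|) * GJ| ≤ τ) (hτ : τ < 1)
    (hratio : |GI - |(κ : ℝ)| / |(n : ℝ)| * GJ| ≤ ε) (hε : ε ≤ 1 / 10) (hs : s / 2 ≤ GI) (hGJ : 0 < GJ) (hs1 : 1 ≤ s) :
    (g : ℝ) * s ≤ 2 * (Real.log (2 * (H : ℝ) ^ 3) + 1) * |(κ : ℝ)| := by
  set N := |(n : ℝ)| with hN
  set K := |(κ : ℝ)| with hK
  set N' := |(n' : ℝ)| with hN'
  have hN0 : 0 < N := by linarith
  have hK0 : 0 < K := by linarith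
  have hN'0 : 0 < N' := by linarith
  have hH3 : (1 : ℝ) ≤ H ^ 3 := one_le_pow₀ hH
  have hH23 : (H : ℝ) ^ 2 ≤ H ^ 3 := pow_le_pow_right₀ hH (by norm_num)
  set ℓ := Real.log (2 * (H : ℝ) ^ 3) with hℓ
  have hℓ0 : 0 ≤ ℓ := Real.log_nonneg (by linarith)
  -- bound of the logarithm
  have hlog : |Real.log (N' / K)| ≤ ℓ := by
    rw [Real.log_div hN'0.ne' hK0.ne']
    have a1 : 0 ≤ Real.log N' := Real.log_nonneg hn'1
    have a2 : Real.log N' ≤ ℓ := Real.log_le_log hN'0 (by linarith)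
    have a3 : 0 ≤ Real.log K := Real.log_nonneg hK1
    have a4 : Real.log K ≤ ℓ := Real.log_le_log hK0 hKb
    rw [abs_le]; constructor <;> linarith
  -- distance of n and κ
  have hdist : (g : ℝ) ≤ |N - K| := by
    have h1 : g ≤ |n - κ| := Int.le_of_dvd (abs_pos.mpr (sub_ne_zero.mpr (Ne.symm hne))) ((dvd_abs _ _).mpr hgd)
    have h2 : |(n : ℝ) - κ| = |N - K| := by
      rcases lt_or_gt_of_ne (show (n : ℝ) ≠ 0 by intro h; rw [h, zero_mul] at hnκ; exact lt_irrefl _ hnκ) with h | h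
      · have hk : (κ : ℝ) < 0 := by
          by_contra hc; push Not at hc
          have := mul_nonpos_of_nonpos_of_nonneg h.le hc
          linarith
        rw [hN, hK, abs_of_neg h, abs_of_neg hk, ← abs_neg]; congr 1; ring
      · have hk : 0 < (κ : ℝ) := by
          by_contra hc; push Not at hc
          have := mul_nonpos_of_nonneg_of_nonpos h.le hc
          linarith
        rw [hN, hK, abs_of_pos h, abs_of_pos hk]
    have h3 : (g : ℝ) ≤ |(n : ℝ) - κ| := by exact_mod_cast h1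
    rwa [h2] at h3
  have h5 : 2 * |N - K| * GJ ≤ N * (ℓ + 1) := by
    have e1 : 2 * |N - K| * GJ = N * |2 * (1 - K / N) * GJ| := by
      rw [abs_mul, abs_mul, abs_of_pos hGJ, abs_of_pos (by norm_num : (0 : ℝ) < 2)]
      have : 1 - K / N = (N - K) / N := by field_simp
      rw [this, abs_div, abs_of_pos hN0]; field_simp
    rw [e1]
    apply mul_le_mul_of_nonneg_left _ hN0.le
    have e2 : |2 * (1 - K / N) * GJ| ≤ |Real.log (N' / K)| + τ := by
      have := abs_le.mp hfin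
      have h6 := le_abs_self (Real.log (N' / K))
      have h7 := neg_abs_le (Real.log (N' / K))
      rw [abs_le]; constructor <;> linarith
    linarith
  have h6 : 2 * (g : ℝ) * GJ ≤ N * (ℓ + 1) := by
    have : 2 * (g : ℝ) * GJ ≤ 2 * |N - K| * GJ := by
      apply mul_le_mul_of_nonneg_right _ hGJ.le; linarith
    linarith
  -- N (GI - 1/10) ≤ K GJ
  have h7 : N * (GI - 1 / 10) ≤ K * GJ := by
    have e1 := (abs_le.mp hratio).2
    have e2 : GI - 1 / 10 ≤ K / N * GJ := by linarith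
    have e3 : N * (K / N * GJ) = K * GJ := by field_simp
    rw [← e3]
    exact mul_le_mul_of_nonneg_left e2 hN0.le
  have hg0 : (0 : ℝ) < g := by exact_mod_cast hg
  -- combine: 2 g GJ * N (GI-1/10) ≤ N(ℓ+1) K GJ
  have h8 : 2 * (g : ℝ) * (GI - 1 / 10) ≤ (ℓ + 1) * K := by
    have hpos : 0 < N * GJ := by positivity
    have hGI : 0 ≤ GI - 1 / 10 := by linarith
    have e1 : (2 * (g : ℝ) * GJ) * (N * (GI - 1 / 10)) ≤ (N * (ℓ + 1)) * (K * GJ) :=
      mul_le_mul h6 h7 (by positivity) (by positivity)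
    have e2 : (2 * (g : ℝ) * (GI - 1 / 10)) * (N * GJ) ≤ ((ℓ + 1) * K) * (N * GJ) := by
      calc (2 * (g : ℝ) * (GI - 1 / 10)) * (N * GJ) = (2 * (g : ℝ) * GJ) * (N * (GI - 1 / 10)) := by ring
        _ ≤ (N * (ℓ + 1)) * (K * GJ) := e1
        _ = _ := by ring
    exact le_of_mul_le_mul_right e2 hpos
  have h9 : (g : ℝ) * s ≤ 2 * (2 * (g : ℝ) * (GI - 1 / 10)) := by
    have : s ≤ 4 * (GI - 1 / 10) := by linarith
    nlinarith
  linarith

theorem match_aux2 (H ρ : ℕ) (n n' : ℤ) (M : (ℤ × ℤ) →+ (ℤ × ℤ)) (hM : Mat H n n' M)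
    (hs : (10 : ℝ) ^ 20 * H ^ 20 ≤ 4 ^ ρ) (hρ : 2 ≤ ρ)
    (i a1 a2 b1 b2 A1 A2 B1 B2 k' : List Bool) (s : ℤ) (hs1 : s = 1 ∨ s = -1) (hsn : 0 < s * (n * n'))
    (hp : ρ ≤ (desc root i).p) (hq : ρ ≤ (desc root i).q)
    (hp' : ρ ≤ (desc root k').p) (hq' : ρ ≤ (desc root k').q)
    (sa1 : sz a1 ≤ H) (sa2 : sz a2 ≤ H) (sb1 : sz b1 ≤ H) (sb2 : sz b2 ≤ H)
    (sA1 : sz A1 ≤ H) (sA2 : sz A2 ≤ H) (sB1 : sz B1 ≤ H) (sB2 : sz B2 ≤ H)
    (ia1 : i ++ [true] <+: a1) (ia2 : i ++ [true] <+: a2) (ib1 : i ++ [false] <+: b1) (ib2 : i ++ [false] <+: b2)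
    (kA1 : k' <+: A1) (kB2 : k' <+: B2)
    (da : 0 < dt (zz a1) (zz a2)) (db : 0 < dt (zz b1) (zz b2))
    (dA : 0 < dt (zz A1) (zz A2)) (dB : 0 < dt (zz B1) (zz B2)) (dAB : 0 < dt (zz A2) (zz B1))
    (hdiff : ∀ t, (n : ℝ) * (xi a1 a2 t - xi b1 b2 t) = s * (xi A1 A2 (M t) - xi B1 B2 (M t)))
    (hval : (n : ℝ) * xi a1 a2 (zz i) = xi A1 A2 (M (zz i)) ∨ (n : ℝ) * xi a1 a2 (zz i) = xi B1 B2 (M (zz i)))
    (nA : dt (M (zz i)) (zz A2) ≠ 0) (nB : dt (M (zz i)) (zz B1) ≠ 0) :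
    ∃ (j : List Bool) (κ : ℤ), k' <+: j ∧ M (zz i) = κ • zz j ∧ 0 < n * κ ∧
      (κ = n → |n'| = |n| ∧ (desc root i).c = (desc root j).c) ∧
      (inC (desc root j) (zz A1) ∧ inC (desc root j) (zz A2) ∧
        inC (desc root j) (zz B1) ∧ inC (desc root j) (zz B2)) ∧
      κ ∣ n * n' ∧
      (∀ g : ℤ, 0 < g → g ∣ n - κ → κ ≠ n →
        (g : ℝ) * sz i ≤ 2 * (Real.log (2 * H ^ 3) + 1) * |(κ : ℝ)|) := by
  have hvI := valid_root.desc i
  have hpi : i <+: a1 := (List.prefix_append i [true]).trans ia1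
  have hszi : sz i ≤ H := (sz_prefix hpi).trans sa1
  have hszi' : (sz i : ℝ) ≤ H := by exact_mod_cast hszi
  have hH : 1 ≤ H := by have := pt_pos i; unfold sz at hszi; omega
  have hH1 : (1 : ℝ) ≤ H := by exact_mod_cast hH
  have hH0 : (0 : ℝ) < H := by linarith
  -- the kink at `i`
  obtain ⟨y0, θ0, -, -, -, kI, hor0⟩ := kink H ρ i a1 a2 b1 b2 hp hq sa1 sa2 sb1 sb2
    (inC_of_prefix hpi) (inC_of_prefix ((List.prefix_append i [true]).trans ia2))
    (inC_of_prefix ((List.prefix_append i [false]).trans ib1)) (inC_of_prefix ((List.prefix_append i [false]).trans ib2))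
    da db (dt_trans (side_lf ia2) (side_rt ib1)).le (side_lf ia1) (side_rt ib2)
  have hor0' : y0 = i ∧ θ0 = 1 ∧ |xi a1 a2 (zz i) - FF i| ≤ 2 * H * er H ρ (desc root i) * nm (zz i) := by
    rcases hor0 with h | h | h
    · exact ⟨h.1, h.2.1, h.2.2.1⟩
    · exact absurd h.2 (by have := side_lf ia2; omega)
    · exact absurd h.2 (by have := side_rt ib1; rw [dt_comm] at this; omega)
  obtain ⟨hy0, hθ0, vI⟩ := hor0'
  rw [hy0, hθ0] at kI
  -- the descent
  obtain ⟨t0, iA1, iB2, dA1j, djB2⟩ := descent A1 B2 (dt_trans (dt_trans dA dAB) dB)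
    (sz A1 + sz B2) k' (inC_of_prefix kA1) (inC_of_prefix kB2) (by omega)
  set j := k' ++ t0 with hj
  have hkj : k' <+: j := List.prefix_append k' t0
  have hvJ := valid_root.desc j
  have hpqj : ρ ≤ (desc root j).p ∧ ρ ≤ (desc root j).q := by
    have := desc_sizes (valid_root.desc k') t0
    rw [← desc_append, ← hj] at this
    omega
  have iA2 : inC (desc root j) (zz A2) := inC_mid iA1 iB2 dA (dt_trans dAB dB)
  have iB1 : inC (desc root j) (zz B1) := inC_mid iA1 iB2 (dt_trans dA dAB) dB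
  obtain ⟨y, θ, hθ0, hθ1, hθ2, kJ, hor⟩ := kink H ρ j A1 A2 B1 B2 hpqj.1 hpqj.2 sA1 sA2 sB1 sB2
    iA1 iA2 iB1 iB2 dA dB dAB.le dA1j djB2
  have hszj : sz j ≤ 2 * H := by
    have h2 := sum_size hvJ A1 B2 iA1 iB2 (dt_trans (dt_trans dA dAB) dB)
    have h3 := sz_pq j
    omega
  have hszy : sz y ≤ 2 * H := by
    rcases hor with h | h | h
    · rw [h.1]; exact hszj
    · rw [h.1]; omega
    · rw [h.1]; omega
  have hszj' : (sz j : ℝ) ≤ 2 * H := by exact_mod_cast hszj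
  have hszy' : (sz y : ℝ) ≤ 2 * H := by exact_mod_cast hszy
  set I := desc root i with hI
  set J := desc root j with hJ
  have dI := df_pos hvI
  have dJ := df_pos hvJ
  set X : ℝ := (4 : ℝ) ^ ρ with hX
  have hX0 : 0 < X := by positivity
  have eI := er_le_df hvI H ρ
  have eJ := er_le_df hvJ H ρ
  rw [← hX] at eI eJ
  have eI0 := er_nonneg hvI H ρ
  have eJ0 := er_nonneg hvJ H ρ
  have hnr : |(n : ℝ)| ≤ (H : ℝ) ^ 2 := hM.bn
  have hn1 : (1 : ℝ) ≤ |(n : ℝ)| := by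
    have := Int.one_le_abs hM.hn
    exact_mod_cast this
  have hs1r : |(s : ℝ)| = 1 := by
    rcases hs1 with h | h <;> rw [h] <;> simp
  set η : ℝ := 400 * H ^ 5 / X with hη
  have hη0 : 0 < η := by positivity
  -- main inequality
  have main : ∀ t, nm t ≤ H → |(n : ℝ) * df I * dt t (zz i) - s * θ * df J * dt (M t) (zz y)| ≤ η * (df I + df J) := by
    intro t ht
    have h1 := kI t
    have h2 := kJ (M t)
    have h3 := hdiff t
    have h4 := hM.bd t
    have hnt := nm_nonneg t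
    have e1 : (n : ℝ) * df I * dt t (zz i) - s * θ * df J * dt (M t) (zz y) =
        - ((n : ℝ) * (xi a1 a2 t - xi b1 b2 t - df I * (1 * dt t (zz i)))) +
        s * (xi A1 A2 (M t) - xi B1 B2 (M t) - df J * (θ * dt (M t) (zz y))) := by
      linear_combination h3
    rw [e1]
    refine (abs_add_le _ _).trans ?_
    rw [abs_neg, abs_mul, abs_mul, hs1r]
    have h5 : |(n : ℝ)| * |xi a1 a2 t - xi b1 b2 t - df I * (1 * dt t (zz i))| ≤
        H ^ 2 * (4 * H * (50 * H * df I / X) * H) := by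
      apply mul_le_mul hnr _ (abs_nonneg _) (by positivity)
      refine h1.trans ?_
      apply mul_le_mul _ ht hnt (by positivity)
      exact mul_le_mul_of_nonneg_left eI (by positivity)
    have h6 : |xi A1 A2 (M t) - xi B1 B2 (M t) - df J * (θ * dt (M t) (zz y))| ≤
        4 * H * (50 * H * df J / X) * (2 * H ^ 2 * H) := by
      refine h2.trans ?_
      apply mul_le_mul _ _ (nm_nonneg _) (by positivity)
      · exact mul_le_mul_of_nonneg_left eJ (by positivity)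
      · exact h4.trans (mul_le_mul_of_nonneg_left ht (by positivity))
    have h7 : (H : ℝ) ^ 2 * (4 * H * (50 * H * df I / X) * H) + 4 * H * (50 * H * df J / X) * (2 * H ^ 2 * H) =
        200 * H ^ 5 / X * df I + η * df J := by
      rw [hη]; ring
    have h8 : 200 * (H : ℝ) ^ 5 / X * df I ≤ η * df I := by
      apply mul_le_mul_of_nonneg_right _ dI.le
      rw [hη]
      apply div_le_div_of_nonneg_right _ hX0.le
      have : (0 : ℝ) < H ^ 5 := by positivity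
      linarith
    refine (add_le_add h5 ((one_mul _).le.trans h6)).trans ?_
    rw [h7, mul_add]
    exact add_le_add h8 le_rfl
  have nmzi : nm (zz i) ≤ H := by rw [nm_zz]; exact hszi'
  have nmui : nm (uu I) ≤ H := by
    rw [nm_uu hvI]
    have h3 := sz_pq i
    rw [← hI] at h3
    have : (I.p : ℝ) ≤ sz i := by
      have : I.p ≤ sz i := by rw [← h3]; omega
      exact_mod_cast this
    linarith
  have m1 := main (zz i) nmzi
  have m2 := main (uu I) nmui
  rw [dt_self] at m1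
  have e2 : dt (uu I) (zz i) = 1 := dt_uu_vec hvI
  rw [e2] at m2
  obtain ⟨w, hw⟩ : ∃ w : ℤ, w = dt (M (uu I)) (zz y) := ⟨_, rfl⟩
  obtain ⟨w0, hw0⟩ : ∃ w0 : ℤ, w0 = dt (M (zz i)) (zz y) := ⟨_, rfl⟩
  rw [← hw0] at m1
  rw [← hw] at m2
  have hwb : |(w : ℝ)| ≤ 4 * H ^ 4 := by
    have h1 := dt_bound (M (uu I)) y
    have h2 := hM.bd (uu I)
    have h3 : nm (M (uu I)) ≤ 2 * H ^ 2 * H := h2.trans (mul_le_mul_of_nonneg_left nmui (by positivity))
    calc |(w : ℝ)| ≤ nm (M (uu I)) * sz y := by rw [hw]; exact h1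
      _ ≤ (2 * H ^ 2 * H) * (2 * H) := mul_le_mul h3 hszy' (by positivity) (by positivity)
      _ = 4 * H ^ 4 := by ring
  have hpow : ∀ m : ℕ, m ≤ 20 → (H : ℝ) ^ m ≤ H ^ 20 := fun m hm => pow_le_pow_right₀ hH1 hm
  -- smallness facts
  have small : ∀ (c : ℝ) (m : ℕ), 0 ≤ c → c ≤ 10 ^ 19 → m ≤ 20 → c * H ^ m / X ≤ 1 / 10 := by
    intro c m hc0 hc hm
    rw [div_le_div_iff₀ hX0 (by norm_num)]
    have h1 := hpow m hm
    have h2 : c * (H : ℝ) ^ m ≤ 10 ^ 19 * H ^ 20 := mul_le_mul hc h1 (by positivity) (by positivity)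
    linarith
  have hη1 : η ≤ 1 / 10 := small 400 5 (by norm_num) (by norm_num) (by norm_num)
  have hH6 : (1 : ℝ) ≤ H ^ 6 := one_le_pow₀ hH1
  -- dI ≤ 12 H^6 dJ
  have hdd : df I ≤ 12 * H ^ 6 * df J := by
    have h1 : |(n : ℝ) * df I| ≤ |(s : ℝ) * θ * df J * w| + η * (df I + df J) := by
      have : (n : ℝ) * df I = (n : ℝ) * df I * ((1 : ℤ) : ℝ) - s * θ * df J * w + s * θ * df J * w := by push_cast; ring
      rw [this]
      refine (abs_add_le _ _).trans ?_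
      linarith
    have h2 : |(s : ℝ) * θ * df J * w| = θ * df J * |(w : ℝ)| := by
      rw [abs_mul, abs_mul, abs_mul, hs1r, abs_of_pos hθ0, abs_of_pos dJ, one_mul]
    rw [h2, abs_mul, abs_of_pos dI] at h1
    have h3 : df I ≤ |(n : ℝ)| * df I := le_mul_of_one_le_left dI.le hn1
    have h4 : θ * df J * |(w : ℝ)| ≤ 2 * H ^ 2 * df J * (4 * H ^ 4) :=
      mul_le_mul (mul_le_mul_of_nonneg_right hθ2 dJ.le) hwb (abs_nonneg _) (by positivity)
    have h5 : η * (df I + df J) ≤ 1 / 10 * (df I + df J) := mul_le_mul_of_nonneg_right hη1 (by linarith)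
    have h6 : df J ≤ H ^ 6 * df J := le_mul_of_one_le_left dJ.le hH6
    nlinarith
  have hbd2 : η * (df I + df J) ≤ 13 * H ^ 6 * η * df J := by
    have h6 : df J ≤ H ^ 6 * df J := le_mul_of_one_le_left dJ.le hH6
    have : df I + df J ≤ 13 * H ^ 6 * df J := by linarith
    calc η * (df I + df J) ≤ η * (13 * H ^ 6 * df J) := mul_le_mul_of_nonneg_left this hη0.le
      _ = _ := by ring
  -- w0 = 0
  have hw00 : w0 = 0 := by
    by_contra hne
    have h1 : (1 : ℝ) ≤ |(w0 : ℝ)| := by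
      have := Int.one_le_abs hne
      exact_mod_cast this
    have h2 : θ * df J * |(w0 : ℝ)| ≤ η * (df I + df J) := by
      have : |(n : ℝ) * df I * ((0 : ℤ) : ℝ) - s * θ * df J * w0| = θ * df J * |(w0 : ℝ)| := by
        push_cast
        rw [mul_zero, zero_sub, abs_neg, abs_mul, abs_mul, abs_mul, hs1r, abs_of_pos hθ0, abs_of_pos dJ, one_mul]
      rw [this] at m1
      exact m1
    have h3 : θ * df J ≤ 13 * H ^ 6 * η * df J := by
      have : θ * df J ≤ θ * df J * |(w0 : ℝ)| := le_mul_of_one_le_right (by positivity) h1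
      linarith
    have h4 : θ ≤ 13 * H ^ 6 * η := le_of_mul_le_mul_right h3 dJ
    have h5 : θ * H ^ 2 ≤ 13 * H ^ 6 * η * H ^ 2 := mul_le_mul_of_nonneg_right h4 (by positivity)
    have h6 : 13 * (H : ℝ) ^ 6 * η * H ^ 2 = 5200 * H ^ 13 / X := by rw [hη]; ring
    have h7 := small 5200 13 (by norm_num) (by norm_num) (by norm_num)
    linarith
  -- identify y
  have hyj : y = j ∧ θ = 1 ∧ |xi A1 A2 (zz j) - FF j| ≤ 2 * H * er H ρ J * nm (zz j) ∧
      |xi B1 B2 (zz j) - FF j| ≤ 2 * H * er H ρ J * nm (zz j) := by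
    rcases hor with h | h | h
    · exact h
    · exfalso; apply nA; rw [← h.1, ← hw0]; exact hw00
    · exfalso; apply nB; rw [← h.1, ← hw0]; exact hw00
  obtain ⟨hyj1, hθe, vA, vB⟩ := hyj
  rw [hθe] at m2
  rw [hyj1] at hw0
  -- M zi is a multiple of zj
  set κ : ℤ := cu J (M (zz i)) with hκ
  have hMz : M (zz i) = κ • zz j := by
    obtain ⟨c1, c2⟩ := coord hvJ (M (zz i))
    have h1 : dt (M (zz i)) (zz j) = cu J (M (zz i)) - cv J (M (zz i)) := dt_vec _ _
    have h2 : cv J (M (zz i)) = κ := by rw [hκ]; omega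
    have e3 : (zz j).1 = J.ux + J.vx := rfl
    have e4 : (zz j).2 = J.uy + J.vy := rfl
    rw [h2] at c1 c2
    apply Prod.ext
    · rw [c1]; simp only [Prod.smul_fst, smul_eq_mul, e3, ← hκ]; ring
    · rw [c2]; simp only [Prod.smul_snd, smul_eq_mul, e4, ← hκ]; ring
  have hκw : κ * w = n * n' := by
    have := hM.dd (uu I) (zz i)
    rw [hMz, dt_smul_right, e2, mul_one] at this
    rw [hw, hyj1]
    exact this
  have hnn' : n * n' ≠ 0 := mul_ne_zero hM.hn hM.hn'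
  have hκ0 : κ ≠ 0 := by intro h; rw [h, zero_mul] at hκw; exact hnn' hκw.symm
  have hw_ne : w ≠ 0 := by intro h; rw [h, mul_zero] at hκw; exact hnn' hκw.symm
  have hK1 : (1 : ℝ) ≤ |(κ : ℝ)| := by
    have := Int.one_le_abs hκ0
    exact_mod_cast this
  have hW1 : (1 : ℝ) ≤ |(w : ℝ)| := by
    have := Int.one_le_abs hw_ne
    exact_mod_cast this
  -- the sharp form of m2
  set δ : ℝ := 13 * H ^ 6 * η with hδ
  have hδX : δ = 5200 * H ^ 11 / X := by rw [hδ, hη]; ring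
  have hδ1 : δ ≤ 1 / 10 := by
    rw [hδX]; exact small 5200 11 (by norm_num) (by norm_num) (by norm_num)
  have hδ0 : 0 < δ := by positivity
  have m2' : |(n : ℝ) * df I - s * w * df J| ≤ δ * df J := by
    have : (n : ℝ) * df I - s * w * df J = (n : ℝ) * df I * ((1 : ℤ) : ℝ) - s * 1 * df J * w := by push_cast; ring
    rw [this]
    linarith
  -- signs
  have hsgn : (0 : ℝ) < n * (s * w) * (n * κ) := by
    have h1 : n * (s * w) * (n * κ) = n ^ 2 * (s * (n * n')) := by rw [← hκw]; ring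
    have h2 : 0 < n ^ 2 * (s * (n * n')) := mul_pos (by have := hM.hn; positivity) hsn
    rw [← h1] at h2
    exact_mod_cast h2
  have hnκ : 0 < n * κ := by
    by_contra hcon
    have h1 : n * κ < 0 := lt_of_le_of_ne (not_lt.mp hcon) (mul_ne_zero hM.hn hκ0)
    have h1r : (n : ℝ) * κ < 0 := by exact_mod_cast h1
    have h2 : (n : ℝ) * (s * w) < 0 := by
      by_contra h3
      push Not at h3
      have := mul_nonpos_of_nonneg_of_nonpos h3 h1r.le
      linarith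
    have h4 : |(n : ℝ)| * |(n : ℝ) * df I - s * w * df J| = |(n : ℝ) ^ 2 * df I - n * (s * w) * df J| := by
      rw [← abs_mul]; congr 1; ring
    have h5 : |(n : ℝ) ^ 2 * df I - n * (s * w) * df J| = (n : ℝ) ^ 2 * df I + (-(n * (s * w))) * df J := by
      have hh : 0 ≤ (-((n : ℝ) * (s * w))) * df J := mul_nonneg (by linarith) dJ.le
      have hh2 : 0 ≤ (n : ℝ) ^ 2 * df I := by positivity
      rw [abs_of_nonneg (by linarith)]; ring
    have h6 : -((n : ℝ) * (s * w)) = |(n : ℝ)| * |(w : ℝ)| := by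
      rw [← abs_of_neg h2, abs_mul, abs_mul, hs1r, one_mul]
    rw [h5, h6] at h4
    have h7 : |(n : ℝ)| * |(n : ℝ) * df I - s * w * df J| ≤ |(n : ℝ)| * (δ * df J) :=
      mul_le_mul_of_nonneg_left m2' (abs_nonneg _)
    have h8 : |(n : ℝ)| * df J ≤ |(n : ℝ)| * |(w : ℝ)| * df J := by
      apply mul_le_mul_of_nonneg_right _ dJ.le
      exact le_mul_of_one_le_right (abs_nonneg _) hW1
    have h9 : |(n : ℝ)| * (δ * df J) ≤ |(n : ℝ)| * (1 / 10 * df J) :=
      mul_le_mul_of_nonneg_left (mul_le_mul_of_nonneg_right hδ1 dJ.le) (abs_nonneg _)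
    have h10 : 0 ≤ (n : ℝ) ^ 2 * df I := by positivity
    have h11 : 0 < |(n : ℝ)| * df J := mul_pos (by linarith) dJ
    nlinarith
  have hnκr : (0 : ℝ) < n * κ := by exact_mod_cast hnκ
  have hswn : (0 : ℝ) < n * (s * w) := by
    by_contra h3
    push Not at h3
    have := mul_nonpos_of_nonpos_of_nonneg h3 hnκr.le
    linarith
  have m3 : |(|(n : ℝ)| * df I - |(w : ℝ)| * df J)| ≤ δ * (|(w : ℝ)| * df J) := by
    have h1 : |(n : ℝ) * df I - s * w * df J| = |(|(n : ℝ)| * df I - |(w : ℝ)| * df J)| := by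
      have hsw : |(s : ℝ) * w| = |(w : ℝ)| := by rw [abs_mul, hs1r, one_mul]
      rcases lt_or_gt_of_ne hM.hn with h | h
      · have hn : (n : ℝ) < 0 := by exact_mod_cast h
        have hsw' : (s : ℝ) * w < 0 := by
          by_contra h3; push Not at h3
          have := mul_nonpos_of_nonpos_of_nonneg hn.le h3
          linarith
        rw [← hsw, abs_of_neg hn, abs_of_neg hsw', ← abs_neg]; congr 1; ring
      · have hn : (0 : ℝ) < n := by exact_mod_cast h
        have hsw' : 0 < (s : ℝ) * w := by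
          by_contra h3; push Not at h3
          have := mul_nonpos_of_nonneg_of_nonpos hn.le h3
          linarith
        rw [← hsw, abs_of_pos hn, abs_of_pos hsw']
    rw [← h1]
    refine m2'.trans ?_
    apply mul_le_mul_of_nonneg_left _ hδ0.le
    exact le_mul_of_one_le_left dJ.le hW1
  have lg := log_close (show 0 < |(n : ℝ)| * df I by positivity) (show 0 < |(w : ℝ)| * df J by positivity)
    (by linarith) m3
  rw [Real.log_mul (by positivity) (by positivity), Real.log_mul (by positivity) (by positivity)] at lg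
  -- log |w|
  have hn'1 : (1 : ℝ) ≤ |(n' : ℝ)| := by
    have := Int.one_le_abs hM.hn'
    exact_mod_cast this
  have hlw : Real.log |(w : ℝ)| = Real.log |(n : ℝ)| + Real.log |(n' : ℝ)| - Real.log |(κ : ℝ)| := by
    have h1 : |(κ : ℝ)| * |(w : ℝ)| = |(n : ℝ)| * |(n' : ℝ)| := by
      rw [← abs_mul, ← abs_mul]
      have : (κ : ℝ) * w = n * n' := by exact_mod_cast hκw
      rw [this]
    have h2 := congrArg Real.log h1
    rw [Real.log_mul (by positivity) (by positivity), Real.log_mul (by positivity) (by positivity)] at h2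
    linarith
  have sI := df_sharp hvI ρ hρ hp hq
  have sJ := df_sharp hvJ ρ hρ hpqj.1 hpqj.2
  rw [← hX] at sI sJ
  -- the values
  have hval' : |(n : ℝ) * ga I - κ * ga J| ≤ 16 * H ^ 6 / X * (dl I + dl J) := by
    have eI' : er H ρ I = 2 * H * (dl I / X) := rfl
    have eJ' : er H ρ J = 2 * H * (dl J / X) := rfl
    have hdI := dl_pos hvI
    have hdJ := dl_pos hvJ
    have hKb : |(κ : ℝ)| ≤ 2 * H ^ 3 := by
      have h1 := hM.bd (zz i)
      rw [hMz, nm_smul, nm_zz] at h1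
      have h2 : (1 : ℝ) ≤ sz j := by
        have : 1 ≤ sz j := by have := pt_pos j; unfold sz; omega
        exact_mod_cast this
      have h3 : |(κ : ℝ)| ≤ |(κ : ℝ)| * sz j := le_mul_of_one_le_right (abs_nonneg _) h2
      have h4 : 2 * (H : ℝ) ^ 2 * nm (zz i) ≤ 2 * H ^ 2 * H := mul_le_mul_of_nonneg_left nmzi (by positivity)
      calc |(κ : ℝ)| ≤ 2 * H ^ 2 * H := by linarith
        _ = 2 * H ^ 3 := by ring
    have key : ∃ v : ℝ, (n : ℝ) * xi a1 a2 (zz i) = κ * v ∧ |v - ga J| ≤ 2 * H * er H ρ J * nm (zz j) := by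
      rcases hval with h | h
      · refine ⟨xi A1 A2 (zz j), ?_, vA⟩
        rw [h, hMz]; exact lin_smul _ _ _ _ _ _
      · refine ⟨xi B1 B2 (zz j), ?_, vB⟩
        rw [h, hMz]; exact lin_smul _ _ _ _ _ _
    obtain ⟨v, hv1, hv2⟩ := key
    have e5 : (n : ℝ) * ga I - κ * ga J = - (n * (xi a1 a2 (zz i) - FF i)) + κ * (v - ga J) := by
      have : FF i = ga I := rfl
      rw [this]; linear_combination hv1
    rw [e5]
    refine (abs_add_le _ _).trans ?_
    rw [abs_neg, abs_mul, abs_mul]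
    have h1 : |(n : ℝ)| * |xi a1 a2 (zz i) - FF i| ≤ H ^ 2 * (2 * H * (2 * H * (dl I / X)) * H) := by
      apply mul_le_mul hnr _ (abs_nonneg _) (by positivity)
      rw [eI'] at vI
      exact vI.trans (mul_le_mul_of_nonneg_left nmzi (by positivity))
    have h2 : |(κ : ℝ)| * |v - ga J| ≤ 2 * H ^ 3 * (2 * H * (2 * H * (dl J / X)) * (2 * H)) := by
      apply mul_le_mul hKb _ (abs_nonneg _) (by positivity)
      rw [eJ'] at hv2
      refine hv2.trans (mul_le_mul_of_nonneg_left ?_ (by positivity))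
      rw [nm_zz]; exact hszj'
    have h3 : (H : ℝ) ^ 2 * (2 * H * (2 * H * (dl I / X)) * H) = 4 * H ^ 5 / X * dl I := by ring
    have h4 : 2 * (H : ℝ) ^ 3 * (2 * H * (2 * H * (dl J / X)) * (2 * H)) = 16 * H ^ 6 / X * dl J := by ring
    have h5 : 4 * (H : ℝ) ^ 5 / X * dl I ≤ 16 * H ^ 6 / X * dl I := by
      apply mul_le_mul_of_nonneg_right _ hdI.le
      apply div_le_div_of_nonneg_right _ hX0.le
      have : (H : ℝ) ^ 5 ≤ H ^ 6 := pow_le_pow_right₀ hH1 (by norm_num)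
      nlinarith
    linarith
  refine ⟨j, κ, hkj, hMz, hnκ, ?_⟩
  -- final: apply the sign lemma
  have hNabs : ((|n| : ℤ) : ℝ) = |(n : ℝ)| := by push_cast; rfl
  have hN'abs : ((|n'| : ℤ) : ℝ) = |(n' : ℝ)| := by push_cast; rfl
  have hKabs : ((|κ| : ℤ) : ℝ) = |(κ : ℝ)| := by push_cast; rfl
  have hG : 2 + Real.log ((H : ℝ) ^ 2) ≤ ga J := by
    have h1 := rho_log H ρ hH hs
    have h2 := ga_size hvJ
    have h3 : (ρ : ℝ) ≤ J.p := by exact_mod_cast hpqj.1
    have h4 : (ρ : ℝ) ≤ J.q := by exact_mod_cast hpqj.2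
    linarith
  have hratio : |ga I - |(κ : ℝ)| / |(n : ℝ)| * ga J| ≤ 32 * H ^ 6 / X := by
    have h1 : |(n : ℝ)| * |ga I - |(κ : ℝ)| / |(n : ℝ)| * ga J| = |(n : ℝ) * ga I - κ * ga J| := by
      have h2 : (κ : ℝ) / n = |(κ : ℝ)| / |(n : ℝ)| := by
        rw [← abs_div, abs_of_pos]
        have : (κ : ℝ) / n = (n * κ) / n ^ 2 := by
          have : (n : ℝ) ≠ 0 := by exact_mod_cast hM.hn
          field_simp
        rw [this]
        apply div_pos hnκr
        have : (n : ℝ) ≠ 0 := by exact_mod_cast hM.hn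
        positivity
      rw [← h2, ← abs_mul]
      congr 1
      have : (n : ℝ) ≠ 0 := by exact_mod_cast hM.hn
      field_simp
    have h3 := dl_le_one hvI
    have h4 := dl_le_one hvJ
    have h5 : 16 * (H : ℝ) ^ 6 / X * (dl I + dl J) ≤ 16 * H ^ 6 / X * 2 :=
      mul_le_mul_of_nonneg_left (by linarith) (by positivity)
    have h6 : |ga I - |(κ : ℝ)| / |(n : ℝ)| * ga J| ≤ |(n : ℝ)| * |ga I - |(κ : ℝ)| / |(n : ℝ)| * ga J| :=
      le_mul_of_one_le_left (abs_nonneg _) hn1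
    have h7 : 16 * (H : ℝ) ^ 6 / X * 2 = 32 * H ^ 6 / X := by ring
    linarith
  set τ : ℝ := 10600 * H ^ 11 / X with hτ
  have hτb : 2 * δ + 16 / X + 64 * H ^ 6 / X ≤ τ := by
    have h1 : 2 * δ + 16 / X + 64 * (H : ℝ) ^ 6 / X = (10400 * H ^ 11 + 16 + 64 * H ^ 6) / X := by rw [hδX]; ring
    rw [h1, hτ]
    apply div_le_div_of_nonneg_right _ hX0.le
    have h2 : (1 : ℝ) ≤ H ^ 11 := one_le_pow₀ hH1
    have h3 : (H : ℝ) ^ 6 ≤ H ^ 11 := pow_le_pow_right₀ hH1 (by norm_num)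
    linarith
  have hτH : τ * (H : ℝ) ^ 2 < 1 := by
    have h1 : τ * (H : ℝ) ^ 2 = 10600 * H ^ 13 / X := by rw [hτ]; ring
    rw [h1]
    have := small 10600 13 (by norm_num) (by norm_num) (by norm_num)
    linarith
  have hfin : |Real.log (((|n'| : ℤ) : ℝ) / ((|κ| : ℤ) : ℝ)) - 2 * (1 - ((|κ| : ℤ) : ℝ) / ((|n| : ℤ) : ℝ)) * ga J| ≤ τ := by
    rw [hNabs, hN'abs, hKabs, Real.log_div (by positivity) (by positivity)]
    rw [hlw] at lg
    rw [abs_le] at lg sI sJ hratio ⊢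
    have h8 : 8 / X + 8 / X = 16 / X := by ring
    have h9 : 2 * (32 * (H : ℝ) ^ 6 / X) = 64 * H ^ 6 / X := by ring
    constructor
    · linarith [lg.1, lg.2, sI.1, sI.2, sJ.1, sJ.2, hratio.1, hratio.2]
    · linarith [lg.1, lg.2, sI.1, sI.2, sJ.1, sJ.2, hratio.1, hratio.2]
  obtain ⟨r1, r2, r3⟩ := sign_lemma H hH1 |n| |n'| |κ| (Int.one_le_abs hM.hn) (Int.one_le_abs hM.hn') (Int.one_le_abs hκ0)
    (by rw [hNabs]; exact hnr) (by rw [hN'abs]; exact hM.bn') (ga J) τ hG hτH hfin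
  have hKb3 : |(κ : ℝ)| ≤ 2 * H ^ 3 := by
    have h1 := hM.bd (zz i)
    rw [hMz, nm_smul, nm_zz] at h1
    have h2 : (1 : ℝ) ≤ sz j := by
      have : 1 ≤ sz j := by have := pt_pos j; unfold sz; omega
      exact_mod_cast this
    have h3 : |(κ : ℝ)| ≤ |(κ : ℝ)| * sz j := le_mul_of_one_le_right (abs_nonneg _) h2
    have h4 : 2 * (H : ℝ) ^ 2 * nm (zz i) ≤ 2 * H ^ 2 * H := mul_le_mul_of_nonneg_left nmzi (by positivity)
    calc |(κ : ℝ)| ≤ 2 * H ^ 2 * H := by linarith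
      _ = 2 * H ^ 3 := by ring
  have hτ1 : τ < 1 := by
    have e1 : (1 : ℝ) ≤ (H : ℝ) ^ 2 := one_le_pow₀ hH1
    have e2 : 0 ≤ τ := by rw [hτ]; positivity
    have e3 : τ ≤ τ * (H : ℝ) ^ 2 := le_mul_of_one_le_right e2 e1
    linarith
  have hGJ : 0 < ga J := by
    have e1 : 0 ≤ Real.log ((H : ℝ) ^ 2) := Real.log_nonneg (one_le_pow₀ hH1)
    linarith
  have hsz1 : (1 : ℝ) ≤ sz i := by
    have h1 : 1 ≤ sz i := by have := pt_pos i; unfold sz; omega
    exact_mod_cast h1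
  have hε : 32 * (H : ℝ) ^ 6 / X ≤ 1 / 10 := small 32 6 (by norm_num) (by norm_num) (by norm_num)
  rw [hNabs, hN'abs, hKabs] at hfin
  refine ⟨?_, ⟨iA1, iA2, iB1, iB2⟩, ⟨w, hκw.symm⟩, fun g hg hgd hne =>
    wild_est H n n' κ g (ga I) (ga J) (sz i) hH1 hn1 hn'1 hM.bn' hK1 hKb3 hnκr hg hgd hne
      hfin hτ1 hratio hε (FF_size i).1 hGJ hsz1⟩
  intro hκn
  refine ⟨r3 (by rw [hκn]), ?_⟩
  have hfin2 : |ga I - ga J| ≤ 16 * H ^ 6 / X * (dl I + dl J) := by
    have h1 : |(n : ℝ) * ga I - κ * ga J| = |(n : ℝ)| * |ga I - ga J| := by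
      rw [hκn, ← abs_mul]; congr 1; ring
    rw [h1] at hval'
    have : |ga I - ga J| ≤ |(n : ℝ)| * |ga I - ga J| := le_mul_of_one_le_left (abs_nonneg _) hn1
    linarith
  apply c_eq hvI hvJ (16 * H ^ 6 / X) (by positivity) _ hfin2
  have : 16 * (H : ℝ) ^ 6 / X * 100 = 1600 * H ^ 6 / X := by ring
  rw [this]
  have := small 1600 6 (by norm_num) (by norm_num) (by norm_num)
  linarith

end

end Pool.Agent.TH913.MK
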