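import Mathlib
import Pool.Agent.TH913.MK.N1

set_option autoImplicit false

namespace Pool.Agent.TH913.MK

open Pool.Agent.H499R2

noncomputable section

theorem match_core2 (H ρ : ℕ) (n n' : ℤ) (M : (ℤ × ℤ) →+ (ℤ × ℤ)) (hM : Mat H n n' M)
    (hs : (10 : ℝ) ^ 20 * H ^ 20 ≤ 4 ^ ρ) (hρ : 2 ≤ ρ)
    (i a1 a2 b1 b2 a1' a2' b1' b2' k' : List Bool)
    (hp : ρ ≤ (desc root i).p) (hq : ρ ≤ (desc root i).q)
    (hp' : ρ ≤ (desc root k').p) (hq' : ρ ≤ (desc root k').q)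
    (sa1 : sz a1 ≤ H) (sa2 : sz a2 ≤ H) (sb1 : sz b1 ≤ H) (sb2 : sz b2 ≤ H)
    (sa1' : sz a1' ≤ H) (sa2' : sz a2' ≤ H) (sb1' : sz b1' ≤ H) (sb2' : sz b2' ≤ H)
    (ia1 : i ++ [true] <+: a1) (ia2 : i ++ [true] <+: a2) (ib1 : i ++ [false] <+: b1) (ib2 : i ++ [false] <+: b2)
    (ka1 : k' <+: a1') (ka2 : k' <+: a2') (kb1 : k' <+: b1') (kb2 : k' <+: b2')
    (fa1 : FF a1' = FF a1) (fa2 : FF a2' = FF a2) (fb1 : FF b1' = FF b1) (fb2 : FF b2' = FF b2)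
    (ra1 : M (zz a1) = n • zz a1') (ra2 : M (zz a2) = n • zz a2')
    (rb1 : M (zz b1) = n • zz b1') (rb2 : M (zz b2) = n • zz b2')
    (da : 0 < dt (zz a1) (zz a2)) (db : 0 < dt (zz b1) (zz b2)) :
    ∃ (j : List Bool) (κ : ℤ), k' <+: j ∧ M (zz i) = κ • zz j ∧ 0 < n * κ ∧
      (κ = n → |n'| = |n| ∧ (desc root i).c = (desc root j).c) ∧
      (inC (desc root j) (zz a1') ∧ inC (desc root j) (zz a2')) ∧
      κ ∣ n * n' ∧
      (∀ g : ℤ, 0 < g → g ∣ n - κ → κ ≠ n →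
        (g : ℝ) * sz i ≤ 2 * (Real.log (2 * H ^ 3) + 1) * |(κ : ℝ)|) := by
  have dab : 0 < dt (zz a2) (zz b1) := dt_trans (side_lf ia2) (side_rt ib1)
  have dab' : 0 < dt (zz a2) (zz b1) := dab
  have xa := fun t => (xi_trans hM a1 a2 a1' a2' ra1 ra2 fa1 fa2 da.ne' t).1
  have xb := fun t => (xi_trans hM b1 b2 b1' b2' rb1 rb2 fb1 fb2 db.ne' t).1
  have nzi : ∀ x : List Bool, (i ++ [true] <+: x ∨ i ++ [false] <+: x) → dt (zz i) (zz x) ≠ 0 := by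
    intro x hx
    rcases hx with h | h
    · have := side_lf h; rw [dt_comm]; omega
    · exact (side_rt h).ne'
  rcases lt_or_gt_of_ne (mul_ne_zero hM.hn hM.hn') with h0 | h0
  · -- orientation reversing
    have hs1 : (0 : ℤ) < -1 * (n * n') := by omega
    have neg : ∀ {x y : List Bool}, 0 < dt (zz x) (zz y) → 0 < -1 * dt (zz y) (zz x) := by
      intro x y h; rw [dt_comm] at h; omega
    obtain ⟨j, κ, w1, w2, w3, w4, w5, w6, w7⟩ := match_aux2 H ρ n n' M hM hs hρ i a1 a2 b1 b2 b2' b1' a2' a1' k'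
      (-1) (Or.inr rfl) hs1 hp hq hp' hq'
      sa1 sa2 sb1 sb2 sb2' sb1' sa2' sa1' ia1 ia2 ib1 ib2 kb2 ka1 da db
      (rel_pos hM rb2 rb1 (-1) hs1 (neg db) (Or.inr rfl))
      (rel_pos hM ra2 ra1 (-1) hs1 (neg da) (Or.inr rfl))
      (rel_pos hM rb1 ra2 (-1) hs1 (neg dab) (Or.inr rfl))
      (by
        intro t
        have h1 := xa t
        have h2 := xb t
        rw [xi_swap a1' a2'] at h1
        rw [xi_swap b1' b2'] at h2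
        push_cast
        linear_combination h1 - h2)
      (by right; rw [xa, xi_swap])
      (rel_nz hM _ rb1 (nzi _ (Or.inr ib1)))
      (rel_nz hM _ ra2 (nzi _ (Or.inl ia2)))
    exact ⟨j, κ, w1, w2, w3, w4, ⟨w5.2.2.2, w5.2.2.1⟩, w6, w7⟩
  · have hs1 : (0 : ℤ) < 1 * (n * n') := by omega
    have pos : ∀ {x y : List Bool}, 0 < dt (zz x) (zz y) → 0 < 1 * dt (zz x) (zz y) := by
      intro x y h; omega
    obtain ⟨j, κ, w1, w2, w3, w4, w5, w6, w7⟩ := match_aux2 H ρ n n' M hM hs hρ i a1 a2 b1 b2 a1' a2' b1' b2' k' 1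
      (Or.inl rfl) hs1 hp hq hp' hq'
      sa1 sa2 sb1 sb2 sa1' sa2' sb1' sb2' ia1 ia2 ib1 ib2 ka1 kb2 da db
      (rel_pos hM ra1 ra2 1 hs1 (pos da) (Or.inl rfl))
      (rel_pos hM rb1 rb2 1 hs1 (pos db) (Or.inl rfl))
      (rel_pos hM ra2 rb1 1 hs1 (pos dab) (Or.inl rfl))
      (by
        intro t
        have h1 := xa t
        have h2 := xb t
        push_cast
        linear_combination h1 - h2)
      (by left; exact xa _)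
      (rel_nz hM _ ra2 (nzi _ (Or.inl ia2)))
      (rel_nz hM _ rb1 (nzi _ (Or.inr ib1)))
    exact ⟨j, κ, w1, w2, w3, w4, ⟨w5.1, w5.2.1⟩, w6, w7⟩

lemma node_match2 {H ρ : ℕ} {n n' : ℤ} {M : (ℤ × ℤ) →+ (ℤ × ℤ)} {k k' : List Bool}
    {R : List Bool → List Bool → Prop} (S : Sys H ρ n n' M k k' R) {i : List Bool} (hki : k <+: i) (hB : Br R i) :
    ∃ (a1 a1' a2 a2' j : List Bool) (κ : ℤ), R a1 a1' ∧ R a2 a2' ∧ i ++ [true] <+: a1 ∧ i ++ [true] <+: a2 ∧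
      0 < dt (zz a1) (zz a2) ∧ k' <+: j ∧ M (zz i) = κ • zz j ∧ 0 < n * κ ∧
      (κ = n → |n'| = |n| ∧ (desc root i).c = (desc root j).c) ∧
      (inC (desc root j) (zz a1') ∧ inC (desc root j) (zz a2')) ∧
      κ ∣ n * n' ∧
      (∀ g : ℤ, 0 < g → g ∣ n - κ → κ ≠ n →
        (g : ℝ) * sz i ≤ 2 * (Real.log (2 * H ^ 3) + 1) * |(κ : ℝ)|) := by
  obtain ⟨⟨a1, a1', a2, a2', hane, ra1, ra2, ia1, ia2⟩, ⟨b1, b1', b2, b2', hbne, rb1, rb2, ib1, ib2⟩⟩ := hB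
  have hpq := pq_prefix hki
  have hp : ρ ≤ (desc root i).p := S.hp.trans hpq.1
  have hq : ρ ≤ (desc root i).q := S.hq.trans hpq.2
  wlog da : 0 < dt (zz a1) (zz a2) generalizing a1 a2 a1' a2' with Hw
  · exact Hw a2 a2' a1 a1' hane.symm ra2 ra1 ia2 ia1 ((ne_dt hane).resolve_left da)
  wlog db : 0 < dt (zz b1) (zz b2) generalizing b1 b2 b1' b2' with Hw
  · exact Hw b2 b2' b1 b1' hbne.symm rb2 rb1 ib2 ib1 ((ne_dt hbne).resolve_left db)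
  obtain ⟨p1, p2, p3, p4, p5, p6⟩ := S.rel _ _ ra1
  obtain ⟨q1, q2, q3, q4, q5, q6⟩ := S.rel _ _ ra2
  obtain ⟨r1, r2, r3, r4, r5, r6⟩ := S.rel _ _ rb1
  obtain ⟨s1, s2, s3, s4, s5, s6⟩ := S.rel _ _ rb2
  obtain ⟨j, κ, w⟩ := match_core2 H ρ n n' M S.mat S.hs S.hρ i a1 a2 b1 b2 a1' a2' b1' b2' k' hp hq S.hp' S.hq'
    p3 q3 r3 s3 p4 q4 r4 s4 ia1 ia2 ib1 ib2 p2 q2 r2 s2 p5 q5 r5 s5 p6 q6 r6 s6 da db
  exact ⟨a1, a1', a2, a2', j, κ, ra1, ra2, ia1, ia2, da, w⟩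

end

end Pool.Agent.TH913.MK
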