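import Mathlib
import Pool.Agent.TH913.MK.N2

set_option autoImplicit false

namespace Pool.Agent.TH913.MK

open Pool.Agent.H499R2

noncomputable section

lemma cu_v {X : Nd} : cu X (vv X) = 0 := by rw [cu_dt]; exact dt_self _
lemma cv_v {X : Nd} (h : Valid X) : cv X (vv X) = 1 := by rw [cv_dt]; exact dt_uv h
lemma cu_u {X : Nd} (h : Valid X) : cu X (uu X) = 1 := by rw [cu_dt]; exact dt_uv h
lemma cv_u {X : Nd} : cv X (uu X) = 0 := by rw [cv_dt]; exact dt_self _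

lemma ell_rt_v {X : Nd} (h : Valid X) : ell (rt X) (vv X) = be X := by
  rw [ell_rt]; unfold ell; rw [cu_v, cv_v h]; push_cast; ring

lemma ell_rt_u {X : Nd} (h : Valid X) : ell (rt X) (uu X) = al X - df X := by
  rw [ell_rt]; unfold ell; rw [cu_u h, cv_u]; push_cast; ring

lemma nm_vv {X : Nd} (h : Valid X) : nm (vv X) = X.q := by
  have h1 : (0 : ℝ) ≤ X.vx := by exact_mod_cast h.vx0
  have h2 : (0 : ℝ) ≤ X.vy := by exact_mod_cast h.vy0
  have h3 : (X.q : ℝ) = X.vx + X.vy := by exact_mod_cast h.hq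
  unfold nm vv
  simp only
  rw [abs_of_nonneg h1, abs_of_nonneg h2, h3]

/-- common part of the two extrapolation lemmas -/
lemma PLdata {H ρ : ℕ} (hs : (10 : ℝ) ^ 20 * H ^ 20 ≤ 4 ^ ρ) (hH : 1 ≤ H) {J P Q : List Bool} (hB : Big ρ J)
    (iP : inC (desc root J) (zz P)) (iQ : inC (desc root J) (zz Q)) (sP : sz P ≤ H) (sQ : sz Q ≤ H)
    (hPQ : 0 < dt (zz P) (zz Q)) :
    nm (vv (desc root J)) ≤ 2 * H ∧ nm (uu (desc root J)) ≤ 2 * H ∧ (sz J : ℝ) ≤ 2 * H ∧
    200 * (H : ℝ) ^ 3 / 4 ^ ρ ≤ 1 ∧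
    (∀ t, nm t ≤ 2 * H → |xi P Q t - (ell (rt (desc root J)) t + df (desc root J) *
      (((dt t (zz Q) : ℝ) * max 0 ((dt (zz P) (zz J) : ℤ) : ℝ) + (dt (zz P) t : ℝ) * max 0 ((dt (zz Q) (zz J) : ℤ) : ℝ)) /
        (dt (zz P) (zz Q) : ℝ)))| ≤ 200 * H ^ 3 / 4 ^ ρ * df (desc root J)) := by
  have hv := valid_root.desc J
  have hH1 : (1 : ℝ) ≤ H := by exact_mod_cast hH
  have hszJ : (sz J : ℝ) ≤ 2 * H := by
    have h2 := sum_size hv P Q iP iQ hPQ
    have h3 := sz_pq J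
    exact_mod_cast (show sz J ≤ 2 * H by omega)
  have hpq : ((desc root J).p : ℝ) + (desc root J).q = sz J := by exact_mod_cast sz_pq J
  have hp0 : (0 : ℝ) ≤ (desc root J).p := by positivity
  have hq0 : (0 : ℝ) ≤ (desc root J).q := by positivity
  have hX : (0 : ℝ) < 4 ^ ρ := by positivity
  refine ⟨by rw [nm_vv hv]; linarith, by rw [nm_uu hv]; linarith, hszJ, ?_, ?_⟩
  · rw [div_le_one hX]
    have h1 : (H : ℝ) ^ 3 ≤ H ^ 20 := pow_le_pow_right₀ hH1 (by norm_num)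
    have h2 : (0 : ℝ) < H ^ 20 := by positivity
    linarith
  · intro t ht
    have h1 := xi_model H ρ J P Q iP iQ hB.1 hB.2 sP sQ hPQ.ne' t
    have h2 := er_le_df hv H ρ
    have h3 := er_nonneg hv H ρ
    refine h1.trans ?_
    calc 2 * (H : ℝ) * er H ρ (desc root J) * nm t ≤ 2 * H * (50 * H * df (desc root J) / 4 ^ ρ) * (2 * H) := by
          apply mul_le_mul _ ht (nm_nonneg _)
          · have := (df_pos hv).le
            positivity
          · exact mul_le_mul_of_nonneg_left h2 (by positivity)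
      _ = _ := by ring

lemma dt_le_nm {s t : ℤ × ℤ} {a b : ℝ} (hs : nm s ≤ a) (ht : nm t ≤ b) : |(dt s t : ℝ)| ≤ a * b := by
  have h0 : 0 ≤ a := (nm_nonneg s).trans hs
  exact (dt_nm s t).trans (mul_le_mul hs ht (nm_nonneg _) h0)

/-- extrapolation to the right generator -/
lemma PLv {H ρ : ℕ} (hs : (10 : ℝ) ^ 20 * H ^ 20 ≤ 4 ^ ρ) (hH : 1 ≤ H) {J P Q : List Bool} (hB : Big ρ J)
    (iP : inC (desc root J) (zz P)) (iQ : inC (desc root J) (zz Q)) (sP : sz P ≤ H) (sQ : sz Q ≤ H)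
    (hPQ : 0 < dt (zz P) (zz Q)) (hPJ : 0 < dt (zz P) (zz J)) (hQv : 0 < dt (zz Q) (vv (desc root J))) :
    ∃ θ : ℝ, 1 ≤ θ * (H : ℝ) ^ 2 ∧ θ ≤ 4 * (H : ℝ) ^ 4 ∧
      |be (desc root J) - xi P Q (vv (desc root J)) - θ * df (desc root J)| ≤
        200 * H ^ 3 / 4 ^ ρ * df (desc root J) ∧
      |xi P Q (uu (desc root J)) - al (desc root J)| ≤ 10 * (H : ℝ) ^ 4 * df (desc root J) := by
  have hv := valid_root.desc J
  obtain ⟨nv, nu, nJ, hη, hmod⟩ := PLdata hs hH hB iP iQ sP sQ hPQ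
  have hH1 : (1 : ℝ) ≤ H := by exact_mod_cast hH
  have hH4 : (1 : ℝ) ≤ (H : ℝ) ^ 4 := one_le_pow₀ hH1
  have hdf := df_pos hv
  have nP : nm (zz P) ≤ H := by rw [nm_zz]; exact_mod_cast sP
  have nQ : nm (zz Q) ≤ H := by rw [nm_zz]; exact_mod_cast sQ
  have nJ' : nm (zz J) ≤ 2 * H := by rw [nm_zz]; exact nJ
  set D : ℝ := (dt (zz P) (zz Q) : ℝ) with hD
  have hD1 : 1 ≤ D := by rw [hD]; exact_mod_cast hPQ
  have hDH : D ≤ (H : ℝ) ^ 2 := by
    have := dt_bd_zz sP sQ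
    rw [← hD, abs_of_pos (by linarith)] at this; exact this
  have hPJr : (1 : ℝ) ≤ (dt (zz P) (zz J) : ℝ) := by exact_mod_cast hPJ
  have hmaxP : max 0 ((dt (zz P) (zz J) : ℤ) : ℝ) = dt (zz P) (zz J) := max_eq_right (by linarith)
  have bPJ : |(dt (zz P) (zz J) : ℝ)| ≤ H * (2 * H) := dt_le_nm nP nJ'
  have bQJ : |(dt (zz Q) (zz J) : ℝ)| ≤ H * (2 * H) := dt_le_nm nQ nJ'
  have bvQ : |(dt (vv (desc root J)) (zz Q) : ℝ)| ≤ 2 * H * H := dt_le_nm nv nQ
  have buQ : |(dt (uu (desc root J)) (zz Q) : ℝ)| ≤ 2 * H * H := dt_le_nm nu nQ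
  have bPu : |(dt (zz P) (uu (desc root J)) : ℝ)| ≤ H * (2 * H) := dt_le_nm nP nu
  have hQvr : (1 : ℝ) ≤ (dt (zz Q) (vv (desc root J)) : ℝ) := by exact_mod_cast hQv
  have mv := hmod (vv (desc root J)) nv
  have mu := hmod (uu (desc root J)) nu
  rw [ell_rt_v hv] at mv
  rw [ell_rt_u hv] at mu
  rw [hmaxP] at mv mu
  have hvQ : (dt (vv (desc root J)) (zz Q) : ℝ) = - dt (zz Q) (vv (desc root J)) := by
    rw [dt_comm]; push_cast; ring
  set E : ℝ := (dt (vv (desc root J)) (zz Q) : ℝ) * (dt (zz P) (zz J) : ℝ) +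
    (dt (zz P) (vv (desc root J)) : ℝ) * max 0 ((dt (zz Q) (zz J) : ℤ) : ℝ) with hE
  have hEb : 1 ≤ -E ∧ -E ≤ 4 * (H : ℝ) ^ 4 ∧ 1 ≤ (-E / D) * (H : ℝ) ^ 2 ∧ -E / D ≤ 4 * (H : ℝ) ^ 4 := by
    by_cases hQJ : dt (zz Q) (zz J) ≤ 0
    · have hm : max 0 ((dt (zz Q) (zz J) : ℤ) : ℝ) = 0 := max_eq_left (by exact_mod_cast hQJ)
      have e1 : -E = dt (zz Q) (vv (desc root J)) * dt (zz P) (zz J) := by rw [hE, hm, hvQ]; ring
      have e2 : 1 ≤ -E := by rw [e1]; nlinarith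
      have e3 : -E ≤ 4 * (H : ℝ) ^ 4 := by
        rw [e1]
        have b1 : (dt (zz Q) (vv (desc root J)) : ℝ) ≤ 2 * H * H := by
          rw [hvQ, abs_neg] at bvQ
          exact (le_abs_self _).trans bvQ
        have b2 : (dt (zz P) (zz J) : ℝ) ≤ H * (2 * H) := (le_abs_self _).trans bPJ
        calc (dt (zz Q) (vv (desc root J)) : ℝ) * dt (zz P) (zz J) ≤ (2 * H * H) * (H * (2 * H)) :=
              mul_le_mul b1 b2 (by linarith) (by positivity)
          _ = 4 * (H : ℝ) ^ 4 := by ring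
      refine ⟨e2, e3, ?_, ?_⟩
      · rw [div_mul_eq_mul_div, le_div_iff₀ (by linarith)]
        nlinarith
      · refine (div_le_self (by linarith) hD1).trans e3
    · push Not at hQJ
      have hm : max 0 ((dt (zz Q) (zz J) : ℤ) : ℝ) = dt (zz Q) (zz J) := max_eq_right (by exact_mod_cast hQJ.le)
      have e1 : -E = D := by
        have hp := pluck (zz P) (zz Q) (zz J) (vv (desc root J))
        have hz : dt (zz J) (vv (desc root J)) = 1 := by
          have : zz J = vec (desc root J) := rfl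
          rw [this]
          have := hv.det
          unfold dt vec vv; simp only; linear_combination this
        rw [hz] at hp
        have hp' : D * 1 - (dt (zz P) (zz J) : ℝ) * dt (zz Q) (vv (desc root J)) +
          (dt (zz P) (vv (desc root J)) : ℝ) * dt (zz Q) (zz J) = 0 := by rw [hD]; exact_mod_cast hp
        rw [hE, hm, hvQ]
        linarith
      have hDD : D ≤ 4 * (H : ℝ) ^ 4 := by
        have : (H : ℝ) ^ 2 ≤ H ^ 4 := pow_le_pow_right₀ hH1 (by norm_num)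
        linarith
      rw [e1]
      refine ⟨hD1, hDD, ?_, ?_⟩
      · rw [div_self (by linarith), one_mul]; exact one_le_pow₀ hH1
      · rw [div_self (by linarith)]; linarith
  refine ⟨-E / D, hEb.2.2.1, hEb.2.2.2, ?_, ?_⟩
  · have e1 : be (desc root J) - xi P Q (vv (desc root J)) - -E / D * df (desc root J) =
      -(xi P Q (vv (desc root J)) - (be (desc root J) + df (desc root J) * (E / D))) := by ring
    rw [e1, abs_neg]
    exact mv
  · set E2 : ℝ := (dt (uu (desc root J)) (zz Q) : ℝ) * (dt (zz P) (zz J) : ℝ) +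
      (dt (zz P) (uu (desc root J)) : ℝ) * max 0 ((dt (zz Q) (zz J) : ℤ) : ℝ) with hE2
    have hmQ : |max 0 ((dt (zz Q) (zz J) : ℤ) : ℝ)| ≤ H * (2 * H) := by
      rw [abs_of_nonneg (le_max_left _ _)]
      exact max_le (by positivity) ((le_abs_self _).trans bQJ)
    have hE2b : |E2| ≤ 8 * (H : ℝ) ^ 4 := by
      rw [hE2]
      refine (abs_add_le _ _).trans ?_
      rw [abs_mul, abs_mul]
      have k1 := mul_le_mul buQ bPJ (abs_nonneg _) (by positivity)
      have k2 := mul_le_mul bPu hmQ (abs_nonneg _) (by positivity)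
      have e : 8 * (H : ℝ) ^ 4 = (2 * H * H) * (H * (2 * H)) + (H * (2 * H)) * (H * (2 * H)) := by ring
      rw [e]; exact add_le_add k1 k2
    have hE2D : |E2 / D| ≤ 8 * (H : ℝ) ^ 4 := by
      rw [abs_div, abs_of_pos (by linarith : 0 < D)]
      exact (div_le_self (abs_nonneg _) hD1).trans hE2b
    have e1 : xi P Q (uu (desc root J)) - al (desc root J) =
      (xi P Q (uu (desc root J)) - (al (desc root J) - df (desc root J) + df (desc root J) * (E2 / D))) +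
      df (desc root J) * (E2 / D - 1) := by ring
    rw [e1]
    refine (abs_add_le _ _).trans ?_
    have k3 : |df (desc root J) * (E2 / D - 1)| ≤ df (desc root J) * (8 * (H : ℝ) ^ 4 + 1) := by
      rw [abs_mul, abs_of_pos hdf]
      apply mul_le_mul_of_nonneg_left _ hdf.le
      refine (abs_sub _ _).trans ?_
      rw [abs_one]; linarith
    have k4 : 200 * (H : ℝ) ^ 3 / 4 ^ ρ * df (desc root J) ≤ 1 * df (desc root J) :=
      mul_le_mul_of_nonneg_right hη hdf.le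
    nlinarith

/-- extrapolation to the left generator -/
lemma PLu {H ρ : ℕ} (hs : (10 : ℝ) ^ 20 * H ^ 20 ≤ 4 ^ ρ) (hH : 1 ≤ H) {J P Q : List Bool} (hB : Big ρ J)
    (iP : inC (desc root J) (zz P)) (iQ : inC (desc root J) (zz Q)) (sP : sz P ≤ H) (sQ : sz Q ≤ H)
    (hPQ : 0 < dt (zz P) (zz Q)) (hQJ : 0 < dt (zz J) (zz Q)) (huP : 0 < dt (uu (desc root J)) (zz P)) :
    ∃ θ : ℝ, 1 ≤ θ * (H : ℝ) ^ 2 ∧ θ ≤ 4 * (H : ℝ) ^ 4 ∧
      |al (desc root J) - xi P Q (uu (desc root J)) - θ * df (desc root J)| ≤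
        200 * H ^ 3 / 4 ^ ρ * df (desc root J) ∧
      |xi P Q (vv (desc root J)) - be (desc root J)| ≤ 10 * (H : ℝ) ^ 4 * df (desc root J) := by
  have hv := valid_root.desc J
  obtain ⟨nv, nu, nJ, hη, hmod⟩ := PLdata hs hH hB iP iQ sP sQ hPQ
  have hH1 : (1 : ℝ) ≤ H := by exact_mod_cast hH
  have hH4 : (1 : ℝ) ≤ (H : ℝ) ^ 4 := one_le_pow₀ hH1
  have hdf := df_pos hv
  have nP : nm (zz P) ≤ H := by rw [nm_zz]; exact_mod_cast sP
  have nQ : nm (zz Q) ≤ H := by rw [nm_zz]; exact_mod_cast sQ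
  have nJ' : nm (zz J) ≤ 2 * H := by rw [nm_zz]; exact nJ
  set D : ℝ := (dt (zz P) (zz Q) : ℝ) with hD
  have hD1 : 1 ≤ D := by rw [hD]; exact_mod_cast hPQ
  have hDH : D ≤ (H : ℝ) ^ 2 := by
    have := dt_bd_zz sP sQ
    rw [← hD, abs_of_pos (by linarith)] at this; exact this
  have hQJ' : dt (zz Q) (zz J) < 0 := by rw [dt_comm]; omega
  have hmQ : max 0 ((dt (zz Q) (zz J) : ℤ) : ℝ) = 0 := max_eq_left (by exact_mod_cast hQJ'.le)
  have bPJ : |(dt (zz P) (zz J) : ℝ)| ≤ H * (2 * H) := dt_le_nm nP nJ'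
  have bJQ : |(dt (zz J) (zz Q) : ℝ)| ≤ 2 * H * H := dt_le_nm nJ' nQ
  have bvQ : |(dt (vv (desc root J)) (zz Q) : ℝ)| ≤ 2 * H * H := dt_le_nm nv nQ
  have buP : |(dt (uu (desc root J)) (zz P) : ℝ)| ≤ 2 * H * H := dt_le_nm nu nP
  have mv := hmod (vv (desc root J)) nv
  have mu := hmod (uu (desc root J)) nu
  rw [ell_rt_v hv] at mv
  rw [ell_rt_u hv] at mu
  rw [hmQ] at mv mu
  have hJQr : (1 : ℝ) ≤ (dt (zz J) (zz Q) : ℝ) := by exact_mod_cast hQJ
  have huPr : (1 : ℝ) ≤ (dt (uu (desc root J)) (zz P) : ℝ) := by exact_mod_cast huP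
  set E : ℝ := (dt (uu (desc root J)) (zz Q) : ℝ) * max 0 ((dt (zz P) (zz J) : ℤ) : ℝ) +
    (dt (zz P) (uu (desc root J)) : ℝ) * 0 with hE
  have hEb : 1 ≤ (1 - E / D) * (H : ℝ) ^ 2 ∧ 1 - E / D ≤ 4 * (H : ℝ) ^ 4 := by
    by_cases hPJ : dt (zz P) (zz J) ≤ 0
    · have hm : max 0 ((dt (zz P) (zz J) : ℤ) : ℝ) = 0 := max_eq_left (by exact_mod_cast hPJ)
      have e1 : E = 0 := by rw [hE, hm]; ring
      rw [e1, zero_div, sub_zero, one_mul]
      exact ⟨one_le_pow₀ hH1, by linarith⟩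
    · push Not at hPJ
      have hm : max 0 ((dt (zz P) (zz J) : ℤ) : ℝ) = dt (zz P) (zz J) := max_eq_right (by exact_mod_cast hPJ.le)
      have e1 : D - E = (dt (uu (desc root J)) (zz P) : ℝ) * dt (zz J) (zz Q) := by
        have hid : dt (zz P) (zz Q) - dt (uu (desc root J)) (zz Q) * dt (zz P) (zz J) =
            dt (uu (desc root J)) (zz P) * dt (zz J) (zz Q) := by
          have hp := pluck (zz P) (zz Q) (uu (desc root J)) (zz J)
          have hz : dt (uu (desc root J)) (zz J) = 1 := dt_uu_vec hv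
          rw [hz, dt_comm (zz P) (uu (desc root J)), dt_comm (zz Q) (zz J), dt_comm (zz Q) (uu (desc root J))] at hp
          linarith
        rw [hE, hm, hD]
        have hid' : (dt (zz P) (zz Q) : ℝ) - dt (uu (desc root J)) (zz Q) * dt (zz P) (zz J) =
            dt (uu (desc root J)) (zz P) * dt (zz J) (zz Q) := by exact_mod_cast hid
        linarith
      have e2 : 1 - E / D = (dt (uu (desc root J)) (zz P) : ℝ) * dt (zz J) (zz Q) / D := by
        rw [← e1]; field_simp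
      have e3 : 1 ≤ (dt (uu (desc root J)) (zz P) : ℝ) * dt (zz J) (zz Q) := by nlinarith
      have e4 : (dt (uu (desc root J)) (zz P) : ℝ) * dt (zz J) (zz Q) ≤ 4 * (H : ℝ) ^ 4 := by
        have b1 : (dt (uu (desc root J)) (zz P) : ℝ) ≤ 2 * H * H := (le_abs_self _).trans buP
        have b2 : (dt (zz J) (zz Q) : ℝ) ≤ 2 * H * H := (le_abs_self _).trans bJQ
        calc (dt (uu (desc root J)) (zz P) : ℝ) * dt (zz J) (zz Q) ≤ (2 * H * H) * (2 * H * H) :=
              mul_le_mul b1 b2 (by linarith) (by positivity)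
          _ = 4 * (H : ℝ) ^ 4 := by ring
      rw [e2]
      constructor
      · rw [div_mul_eq_mul_div, le_div_iff₀ (by linarith)]
        nlinarith
      · exact (div_le_self (by linarith) hD1).trans e4
  refine ⟨1 - E / D, hEb.1, hEb.2, ?_, ?_⟩
  · have e1 : al (desc root J) - xi P Q (uu (desc root J)) - (1 - E / D) * df (desc root J) =
      -(xi P Q (uu (desc root J)) - (al (desc root J) - df (desc root J) + df (desc root J) * (E / D))) := by ring
    rw [e1, abs_neg]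
    exact mu
  · set E2 : ℝ := (dt (vv (desc root J)) (zz Q) : ℝ) * max 0 ((dt (zz P) (zz J) : ℤ) : ℝ) +
      (dt (zz P) (vv (desc root J)) : ℝ) * 0 with hE2
    have hmP : |max 0 ((dt (zz P) (zz J) : ℤ) : ℝ)| ≤ H * (2 * H) := by
      rw [abs_of_nonneg (le_max_left _ _)]
      exact max_le (by positivity) ((le_abs_self _).trans bPJ)
    have hE2b : |E2| ≤ 8 * (H : ℝ) ^ 4 := by
      rw [hE2, mul_zero, add_zero, abs_mul]
      have k1 := mul_le_mul bvQ hmP (abs_nonneg _) (by positivity)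
      have e : (2 * (H : ℝ) * H) * (H * (2 * H)) = 4 * (H : ℝ) ^ 4 := by ring
      rw [e] at k1
      linarith
    have hE2D : |E2 / D| ≤ 8 * (H : ℝ) ^ 4 := by
      rw [abs_div, abs_of_pos (by linarith : 0 < D)]
      exact (div_le_self (abs_nonneg _) hD1).trans hE2b
    have e1 : xi P Q (vv (desc root J)) - be (desc root J) =
      (xi P Q (vv (desc root J)) - (be (desc root J) + df (desc root J) * (E2 / D))) +
      df (desc root J) * (E2 / D) := by ring
    rw [e1]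
    refine (abs_add_le _ _).trans ?_
    have k3 : |df (desc root J) * (E2 / D)| ≤ df (desc root J) * (8 * (H : ℝ) ^ 4) := by
      rw [abs_mul, abs_of_pos hdf]
      exact mul_le_mul_of_nonneg_left hE2D hdf.le
    have k4 : 200 * (H : ℝ) ^ 3 / 4 ^ ρ * df (desc root J) ≤ 1 * df (desc root J) :=
      mul_le_mul_of_nonneg_right hη hdf.le
    nlinarith

end

end Pool.Agent.TH913.MK
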