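import Mathlib
import Pool.Agent.TH913.MK.N3

set_option autoImplicit false

namespace Pool.Agent.TH913.MK

open Pool.Agent.H499R2

noncomputable section

lemma desc_rt (J : List Bool) : desc root (J ++ [false]) = rt (desc root J) := desc_snoc _ _ _
lemma desc_lf (J : List Bool) : desc root (J ++ [true]) = lf (desc root J) := desc_snoc _ _ _

/-- the fan on the left of `i` -/
lemma chainL {i P Q : List Bool} (hPQ : 0 < dt (zz P) (zz Q)) (n : ℕ) :
    ∀ J, i <+: J → vv (desc root J) = zz i → (desc root J).b = (desc root i).c →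
      inC (desc root J) (zz P) → inC (desc root J) (zz Q) → sz P + sz Q ≤ sz J + n →
      ∃ J', i <+: J' ∧ vv (desc root J') = zz i ∧ (desc root J').b = (desc root i).c ∧
        inC (desc root J') (zz P) ∧ inC (desc root J') (zz Q) ∧ 0 < dt (zz P) (zz J') := by
  have step : ∀ J, inC (desc root J) (zz P) → inC (desc root J) (zz Q) → dt (zz P) (zz J) ≤ 0 →
      inC (desc root (J ++ [false])) (zz P) ∧ inC (desc root (J ++ [false])) (zz Q) := by
    intro J iP iQ h1
    have hv := valid_root.desc J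
    have e1 : dt (zz P) (zz J) = cu (desc root J) (zz P) - cv (desc root J) (zz P) := dt_vec _ _
    have hc := dt_coord hv (zz P) (zz Q)
    have g2 : cu (desc root J) (zz Q) ≤ cv (desc root J) (zz Q) := by
      by_contra h3
      push Not at h3
      have : cu (desc root J) (zz P) * cv (desc root J) (zz Q) ≤ cv (desc root J) (zz P) * cu (desc root J) (zz Q) :=
        mul_le_mul (by omega) (by omega) iQ.2 iP.2
      omega
    rw [desc_rt]
    constructor
    · unfold inC; rw [cu_rt, cv_rt]; exact ⟨iP.1, by omega⟩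
    · unfold inC; rw [cu_rt, cv_rt]; exact ⟨iQ.1, by omega⟩
  induction n with
  | zero =>
    intro J h1 h2 h3 h4 h5 h6
    refine ⟨J, h1, h2, h3, h4, h5, ?_⟩
    by_contra hcon
    push Not at hcon
    obtain ⟨iP, iQ⟩ := step J h4 h5 hcon
    rw [desc_rt] at iP iQ
    have hv := valid_root.desc J
    have := sum_size hv.rt P Q iP iQ hPQ
    have e3 : (rt (desc root J)).p + (rt (desc root J)).q = (desc root J).p + (desc root J).q + (desc root J).q := rfl
    have := hv.q1
    have := sz_pq J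
    omega
  | succ n ih =>
    intro J h1 h2 h3 h4 h5 h6
    by_cases hc : 0 < dt (zz P) (zz J)
    · exact ⟨J, h1, h2, h3, h4, h5, hc⟩
    · obtain ⟨iP, iQ⟩ := step J h4 h5 (not_lt.mp hc)
      have hsz := (sz_child J false).1
      refine ih (J ++ [false]) (h1.trans (List.prefix_append _ _)) ?_ ?_ iP iQ (by omega)
      · rw [desc_rt]; exact h2
      · rw [desc_rt]; exact h3

/-- the fan on the right of `i` -/
lemma chainR {i P Q : List Bool} (hPQ : 0 < dt (zz P) (zz Q)) (n : ℕ) :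
    ∀ J, i <+: J → uu (desc root J) = zz i → (desc root J).a = (desc root i).c →
      inC (desc root J) (zz P) → inC (desc root J) (zz Q) → sz P + sz Q ≤ sz J + n →
      ∃ J', i <+: J' ∧ uu (desc root J') = zz i ∧ (desc root J').a = (desc root i).c ∧
        inC (desc root J') (zz P) ∧ inC (desc root J') (zz Q) ∧ 0 < dt (zz J') (zz Q) := by
  have step : ∀ J, inC (desc root J) (zz P) → inC (desc root J) (zz Q) → dt (zz J) (zz Q) ≤ 0 →
      inC (desc root (J ++ [true])) (zz P) ∧ inC (desc root (J ++ [true])) (zz Q) := by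
    intro J iP iQ h1
    have hv := valid_root.desc J
    have e1 : dt (zz Q) (zz J) = cu (desc root J) (zz Q) - cv (desc root J) (zz Q) := dt_vec _ _
    rw [dt_comm, e1] at h1
    have hc := dt_coord hv (zz P) (zz Q)
    have g2 : cv (desc root J) (zz P) ≤ cu (desc root J) (zz P) := by
      by_contra h3
      push Not at h3
      have : cu (desc root J) (zz P) * cv (desc root J) (zz Q) ≤ cv (desc root J) (zz P) * cu (desc root J) (zz Q) :=
        mul_le_mul (by omega) (by omega) iQ.2 iP.2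
      omega
    rw [desc_lf]
    constructor
    · unfold inC; rw [cu_lf, cv_lf]; exact ⟨by omega, iP.2⟩
    · unfold inC; rw [cu_lf, cv_lf]; exact ⟨by omega, iQ.2⟩
  induction n with
  | zero =>
    intro J h1 h2 h3 h4 h5 h6
    refine ⟨J, h1, h2, h3, h4, h5, ?_⟩
    by_contra hcon
    push Not at hcon
    obtain ⟨iP, iQ⟩ := step J h4 h5 hcon
    rw [desc_lf] at iP iQ
    have hv := valid_root.desc J
    have := sum_size hv.lf P Q iP iQ hPQ
    have e3 : (lf (desc root J)).p + (lf (desc root J)).q = (desc root J).p + ((desc root J).p + (desc root J).q) := rfl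
    have := hv.p1
    have := sz_pq J
    omega
  | succ n ih =>
    intro J h1 h2 h3 h4 h5 h6
    by_cases hc : 0 < dt (zz J) (zz Q)
    · exact ⟨J, h1, h2, h3, h4, h5, hc⟩
    · obtain ⟨iP, iQ⟩ := step J h4 h5 (not_lt.mp hc)
      have hsz := (sz_child J true).1
      refine ih (J ++ [true]) (h1.trans (List.prefix_append _ _)) ?_ ?_ iP iQ (by omega)
      · rw [desc_lf]; exact h2
      · rw [desc_lf]; exact h3

lemma xi_add (a b : List Bool) (s t : ℤ × ℤ) : xi a b (s + t) = xi a b s + xi a b t := by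
  unfold xi lin dt; simp only [Prod.fst_add, Prod.snd_add]; push_cast; ring

lemma xi_smul (a b : List Bool) (k : ℤ) (t : ℤ × ℤ) : xi a b (k • t) = k * xi a b t := lin_smul _ _ _ _ _ _

/-- numerical part of the analysis of an exact node -/
lemma exact_num {H X : ℝ} (hH : 1 ≤ H) (hX : 10 ^ 20 * H ^ 20 ≤ X) {F0 θ θ' d1 d2 fi fu fo A1 A2 : ℝ} {n y : ℝ}
    (hd1 : 0 < d1) (hd2 : 0 < d2) (hd1' : d1 ≤ 16 / X) (hd2' : d2 ≤ 16 / X)
    (t1 : 1 ≤ θ * H ^ 2) (t2 : θ ≤ 4 * H ^ 4) (t1' : 1 ≤ θ' * H ^ 2) (t2' : θ' ≤ 4 * H ^ 4)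
    (e1 : |F0 - fi - θ * d1| ≤ 200 * H ^ 3 / X * d1) (e2 : |F0 - fi - θ' * d2| ≤ 200 * H ^ 3 / X * d2)
    (e3 : |fu - A1| ≤ 10 * H ^ 4 * d1) (e4 : |fo - A2| ≤ 10 * H ^ 4 * d2)
    (hn : 1 ≤ |n|) (hlin : n * fu = n * fo + y * fi)
    (s1 : |Real.log d1 + 2 * (A1 + F0 - d1) - Real.log 4| ≤ 8 / X)
    (s2 : |Real.log d2 + 2 * (A2 + F0 - d2) - Real.log 4| ≤ 8 / X) :
    (y = 0 → |A1 - A2| ≤ 10 * H ^ 4 * (d1 + d2)) ∧ |y| * (F0 - 1) ≤ |n| * (Real.log (2 * H ^ 3) + 4) := by
  have hH0 : 0 < H := by linarith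
  have hpow : ∀ m : ℕ, m ≤ 20 → H ^ m ≤ H ^ 20 := fun m hm => pow_le_pow_right₀ hH hm
  have hH20 : 0 < H ^ 20 := by positivity
  have hX0 : 0 < X := by linarith
  have hH2 : 1 ≤ H ^ 2 := one_le_pow₀ hH
  set η := 200 * H ^ 3 / X with hη
  have hη1 : η * H ^ 2 ≤ 1 / 2 := by
    rw [hη, div_mul_eq_mul_div, div_le_div_iff₀ hX0 (by norm_num)]
    have := hpow 5 (by norm_num)
    have e : 200 * H ^ 3 * H ^ 2 = 200 * H ^ 5 := by ring
    rw [e]; linarith
  have hη0 : 0 < η := by positivity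
  have hη2 : η ≤ 1 / 2 := by nlinarith
  -- comparison of d1, d2
  have c12 : |θ * d1 - θ' * d2| ≤ η * d1 + η * d2 := by
    have : θ * d1 - θ' * d2 = (F0 - fi - θ' * d2) - (F0 - fi - θ * d1) := by ring
    rw [this]; exact (abs_sub _ _).trans (by linarith)
  have c12' := abs_le.mp c12
  have hH4 : 1 ≤ H ^ 4 := one_le_pow₀ hH
  have aux : ∀ {θ θ' d1 d2 : ℝ}, 0 < d1 → 0 < d2 → 1 ≤ θ * H ^ 2 → θ' ≤ 4 * H ^ 4 →
      θ * d1 ≤ θ' * d2 + (η * d1 + η * d2) → d1 ≤ 10 * H ^ 6 * d2 := by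
    intro θ θ' d1 d2 h1 h2 h3 h4 h5
    have k1 : d1 ≤ θ * H ^ 2 * d1 := le_mul_of_one_le_left h1.le h3
    have k2 : θ * H ^ 2 * d1 ≤ (θ' * d2 + (η * d1 + η * d2)) * H ^ 2 := by
      calc θ * H ^ 2 * d1 = (θ * d1) * H ^ 2 := by ring
        _ ≤ _ := mul_le_mul_of_nonneg_right h5 (by positivity)
    have k3 : θ' * d2 * H ^ 2 ≤ 4 * H ^ 4 * d2 * H ^ 2 := by
      apply mul_le_mul_of_nonneg_right _ (by positivity)
      exact mul_le_mul_of_nonneg_right h4 h2.le
    have k4 : η * H ^ 2 * d1 ≤ 1 / 2 * d1 := mul_le_mul_of_nonneg_right hη1 h1.le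
    have k5 : η * H ^ 2 * d2 ≤ 1 / 2 * d2 := mul_le_mul_of_nonneg_right hη1 h2.le
    have k6 : d2 ≤ H ^ 6 * d2 := le_mul_of_one_le_left h2.le (one_le_pow₀ hH)
    have k7 : 4 * H ^ 4 * d2 * H ^ 2 = 4 * (H ^ 6 * d2) := by ring
    nlinarith
  have d12 : d1 ≤ 10 * H ^ 6 * d2 := aux hd1 hd2 t1 t2' (by linarith)
  have d21 : d2 ≤ 10 * H ^ 6 * d1 := aux hd2 hd1 t1' t2 (by linarith)
  have hlogd : |Real.log d1 - Real.log d2| ≤ Real.log (10 * H ^ 6) := by
    have l1 := Real.log_le_log hd1 d12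
    have l2 := Real.log_le_log hd2 d21
    rw [Real.log_mul (by positivity) hd2.ne'] at l1
    rw [Real.log_mul (by positivity) hd1.ne'] at l2
    rw [abs_le]; constructor <;> linarith
  have hsmall : 10 * H ^ 4 * (16 / X) ≤ 1 / 10 := by
    have e : 10 * H ^ 4 * (16 / X) = 160 * H ^ 4 / X := by ring
    rw [e, div_le_div_iff₀ hX0 (by norm_num)]
    have := hpow 4 (by norm_num)
    linarith
  have sd1 : 10 * H ^ 4 * d1 ≤ 1 / 10 := (mul_le_mul_of_nonneg_left hd1' (by positivity)).trans hsmall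
  have sd2 : 10 * H ^ 4 * d2 ≤ 1 / 10 := (mul_le_mul_of_nonneg_left hd2' (by positivity)).trans hsmall
  have dd1 : d1 ≤ 1 / 10 := by nlinarith
  have dd2 : d2 ≤ 1 / 10 := by nlinarith
  have h8X : 8 / X ≤ 1 / 10 := by
    rw [div_le_div_iff₀ hX0 (by norm_num)]
    have := hpow 0 (by norm_num)
    rw [pow_zero] at this
    linarith
  have hn0 : 0 < |n| := by linarith
  have hnne : n ≠ 0 := abs_pos.mp hn0
  have hA : |A1 - A2| ≤ Real.log (10 * H ^ 6) / 2 + 1 / 5 := by
    have a1 := abs_le.mp s1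
    have a2 := abs_le.mp s2
    have a3 := abs_le.mp hlogd
    rw [abs_le]; constructor <;> linarith
  constructor
  · intro hy
    have hfu : fu = fo := by
      rw [hy, zero_mul, add_zero] at hlin
      exact mul_left_cancel₀ hnne hlin
    have : A1 - A2 = (fo - A2) - (fu - A1) := by rw [hfu]; ring
    rw [this]
    exact (abs_sub _ _).trans (by linarith)
  · -- |y| |fi| ≤ |n| (...)
    have k1 : |y * fi| ≤ |n| * (Real.log (10 * H ^ 6) / 2 + 2 / 5) := by
      have e5 : y * fi = n * ((fu - A1) - (fo - A2) + (A1 - A2)) := by linear_combination -hlin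
      rw [e5, abs_mul]
      apply mul_le_mul_of_nonneg_left _ hn0.le
      refine (abs_add_le _ _).trans ?_
      have := abs_sub (fu - A1) (fo - A2)
      linarith
    have k2 : F0 - 1 ≤ fi := by
      have a1 := abs_le.mp e1
      have b1 : θ * d1 ≤ 1 / 10 := by
        have : θ * d1 ≤ 4 * H ^ 4 * d1 := mul_le_mul_of_nonneg_right t2 hd1.le
        have h0 : 0 ≤ H ^ 4 * d1 := by positivity
        linarith
      have b2 : η * d1 ≤ 1 / 2 * (1 / 10) := mul_le_mul hη2 dd1 hd1.le (by norm_num)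
      linarith
    have k3 : |y| * (F0 - 1) ≤ |y * fi| := by
      rw [abs_mul]
      exact mul_le_mul_of_nonneg_left (k2.trans (le_abs_self fi)) (abs_nonneg _)
    have k4 : Real.log (10 * H ^ 6) / 2 + 2 / 5 ≤ Real.log (2 * H ^ 3) + 4 := by
      rw [Real.log_mul (by norm_num) (by positivity), Real.log_mul (by norm_num) (by positivity), Real.log_pow,
        Real.log_pow]
      push_cast
      have h10 : Real.log 10 ≤ 3 := by
        rw [Real.log_le_iff_le_exp (by norm_num)]
        have h1 := Real.exp_one_gt_d9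
        have : Real.exp 3 = Real.exp 1 * Real.exp 1 * Real.exp 1 := by
          rw [← Real.exp_add, ← Real.exp_add]; norm_num
        rw [this]
        nlinarith
      have h2 : 0 ≤ Real.log 2 := Real.log_nonneg (by norm_num)
      have h3 : 0 ≤ Real.log H := Real.log_nonneg hH
      linarith
    have k5 := mul_le_mul_of_nonneg_left k4 hn0.le
    linarith

end

end Pool.Agent.TH913.MK
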