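import Mathlib
import Pool.Agent.TH913.MK.N4
import Pool.Agent.TH913.MK.C

set_option autoImplicit false

namespace Pool.Agent.TH913.MK

open Pool.Agent.H499R2

noncomputable section

lemma val_lt {K : ℝ} {m1 m2 c : ℤ} (h1 : 1 ≤ m1) (h12 : m1 < m2) (hc : 8 * K < (c : ℝ) ^ 2)
    {d1 d2 : ℝ} (e1 : d1 ≤ 1 / ((m1 : ℝ) ^ 2 * (c : ℝ) ^ 2)) (e2 : d2 ≤ 1 / ((m2 : ℝ) ^ 2 * (c : ℝ) ^ 2))
    (hK : 0 ≤ K) (h : |g m1 - g m2| ≤ K * (d1 + d2)) : False := by
  have hm1 : (1 : ℝ) ≤ m1 := by exact_mod_cast h1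
  have hm12 : (m1 : ℝ) ≤ m2 := by exact_mod_cast h12.le
  have hc0 : (0 : ℝ) < (c : ℝ) ^ 2 := by linarith
  have hgap := g_gap m1 m2 h1 h12
  have h3 : g m2 - g m1 ≤ |g m1 - g m2| := by rw [abs_sub_comm]; exact le_abs_self _
  have e3 : 1 / ((m2 : ℝ) ^ 2 * (c : ℝ) ^ 2) ≤ 1 / ((m1 : ℝ) ^ 2 * (c : ℝ) ^ 2) := by
    apply div_le_div_of_nonneg_left (by norm_num) (by positivity)
    apply mul_le_mul_of_nonneg_right _ hc0.le
    exact pow_le_pow_left₀ (by linarith) hm12 2
  have h4 : K * (d1 + d2) ≤ K * (2 * (1 / ((m1 : ℝ) ^ 2 * (c : ℝ) ^ 2))) :=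
    mul_le_mul_of_nonneg_left (by linarith) hK
  have h5 : 1 / (4 * (m1 : ℝ)) ≤ K * (2 * (1 / ((m1 : ℝ) ^ 2 * (c : ℝ) ^ 2))) := by linarith
  have h6 : K * (2 * (1 / ((m1 : ℝ) ^ 2 * (c : ℝ) ^ 2))) = 2 * K / ((m1 : ℝ) ^ 2 * (c : ℝ) ^ 2) := by ring
  rw [h6, div_le_div_iff₀ (by positivity) (by positivity)] at h5
  -- m1^2 c^2 ≤ 2K * 4 m1
  have h7 : (m1 : ℝ) * ((c : ℝ) ^ 2) ≤ 8 * K := by
    have : (m1 : ℝ) * ((m1 : ℝ) * (c : ℝ) ^ 2) ≤ (m1 : ℝ) * (8 * K) := by nlinarith
    exact le_of_mul_le_mul_left this (by linarith)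
  nlinarith

lemma val_eq {K : ℝ} {m1 m2 c : ℤ} (h1 : 1 ≤ m1) (h2 : 1 ≤ m2) (hc : 8 * K < (c : ℝ) ^ 2)
    {d1 d2 : ℝ} (e1 : d1 ≤ 1 / ((m1 : ℝ) ^ 2 * (c : ℝ) ^ 2)) (e2 : d2 ≤ 1 / ((m2 : ℝ) ^ 2 * (c : ℝ) ^ 2))
    (hK : 0 ≤ K) (h : |g m1 - g m2| ≤ K * (d1 + d2)) : m1 = m2 := by
  rcases lt_trichotomy m1 m2 with h' | h' | h'
  · exact (val_lt h1 h' hc e1 e2 hK h).elim
  · exact h'
  · exact (val_lt h2 h' hc e2 e1 hK (by rw [abs_sub_comm, add_comm]; exact h)).elim

lemma c_of_ab {J J' : List Bool}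
    (h : ((desc root J).a = (desc root J').a ∧ (desc root J).b = (desc root J').b) ∨
      ((desc root J).a = (desc root J').b ∧ (desc root J).b = (desc root J').a)) : J = J' := by
  have z := zvd J
  have z' := zvd J'
  have v := (valid_root.desc J).mt.c_ge
  have v' := (valid_root.desc J').mt.c_ge
  have w : 2 * (desc root J).a * (desc root J).b ≤ (desc root J).c := by exact_mod_cast v
  have w' : 2 * (desc root J').a * (desc root J').b ≤ (desc root J').c := by exact_mod_cast v'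
  have e := z.eq
  have e' := z'.eq
  have a1 := z.a1
  have b1 := z.b1
  have hab : 1 ≤ (desc root J).a * (desc root J).b := by nlinarith
  have hc : (desc root J).c = (desc root J').c := by
    have hprod : (desc root J').a * (desc root J').b = (desc root J).a * (desc root J).b := by
      rcases h with ⟨h1, h2⟩ | ⟨h1, h2⟩
      · rw [h1, h2]
      · rw [h1, h2]; ring
    have hsq : (desc root J').a ^ 2 + (desc root J').b ^ 2 = (desc root J).a ^ 2 + (desc root J).b ^ 2 := by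
      rcases h with ⟨h1, h2⟩ | ⟨h1, h2⟩
      · rw [h1, h2]
      · rw [h1, h2]; ring
    have h3 : ((desc root J).c - (desc root J').c) *
        ((desc root J).c + (desc root J').c - 3 * ((desc root J).a * (desc root J).b)) = 0 := by
      have e2 : (desc root J).a ^ 2 + (desc root J).b ^ 2 + (desc root J').c ^ 2 =
          3 * ((desc root J).a * (desc root J).b) * (desc root J').c := by
        rw [← hsq, ← hprod]; linarith
      linear_combination e - e2
    rcases mul_eq_zero.mp h3 with h4 | h4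
    · omega
    · exfalso
      have w2 : 2 * ((desc root J').a * (desc root J').b) ≤ (desc root J').c := by linarith
      rw [hprod] at w2
      have w1 : 2 * ((desc root J).a * (desc root J).b) ≤ (desc root J).c := by linarith
      omega
  apply Ph_inj'
  unfold Ph
  rw [hc]
  rcases h with ⟨h1, h2⟩ | ⟨h1, h2⟩
  · rw [h1, h2]
  · rw [h1, h2, min_comm, max_comm]

/-- a word lies at the basis combination -/
lemma zz_basis (J l : List Bool) : zz l = cu (desc root J) (zz l) • uu (desc root J) + cv (desc root J) (zz l) • vv (desc root J) := by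
  obtain ⟨c1, c2⟩ := coord (valid_root.desc J) (zz l)
  apply Prod.ext
  · simp only [Prod.fst_add, Prod.smul_fst, smul_eq_mul, uu, vv]; exact c1
  · simp only [Prod.snd_add, Prod.smul_snd, smul_eq_mul, uu, vv]; exact c2

lemma dl_ab (J : List Bool) : dl (desc root J) = 1 / (((desc root J).a : ℝ) ^ 2 * ((desc root J).b : ℝ) ^ 2) := rfl

lemma dt_add_left (s s' t : ℤ × ℤ) : dt (s + s') t = dt s t + dt s' t := by
  unfold dt; simp only [Prod.fst_add, Prod.snd_add]; ring

lemma dt_sub_left (s s' t : ℤ × ℤ) : dt (s - s') t = dt s t - dt s' t := by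
  unfold dt; simp only [Prod.fst_sub, Prod.snd_sub]; ring

theorem exact_node {H ρ : ℕ} {n n' : ℤ} {M : (ℤ × ℤ) →+ (ℤ × ℤ)} {k k' : List Bool}
    {R : List Bool → List Bool → Prop} (S : Sys H ρ n n' M k k' R) (hH : 1 ≤ H)
    (hne : ∀ l l', R l l' → l ≠ l')
    {i j a1 a1' a2 a2' : List Bool} (Ra1 : R a1 a1') (Ra2 : R a2 a2') (ia1 : i ++ [true] <+: a1)
    (ia2 : i ++ [true] <+: a2) (da : 0 < dt (zz a1) (zz a2)) (hki : k <+: i) (hkj : k' <+: j)
    (hMz : M (zz i) = n • zz j) (hnn : |n'| = |n|) (hc : (desc root i).c = (desc root j).c)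
    (ja1 : inC (desc root j) (zz a1')) (ja2 : inC (desc root j) (zz a2'))
    {g' : ℤ} (hg : 0 < g') (hgn : g' ∣ n) (hgM : ∀ t, g' ∣ (M t).1 ∧ g' ∣ (M t).2) :
    (g' : ℝ) * sz i ≤ 8 * (Real.log (2 * H ^ 3) + 4) * |(n : ℝ)| := by
  obtain ⟨p1, p2, p3, p4, p5, p6⟩ := S.rel _ _ Ra1
  obtain ⟨q1, q2, q3, q4, q5, q6⟩ := S.rel _ _ Ra2
  have hs := S.hs
  have hn0 := S.mat.hn
  have hH1 : (1 : ℝ) ≤ H := by exact_mod_cast hH
  have hBi : Big ρ i := Big_prefix ⟨S.hp, S.hq⟩ hki
  have hBj : Big ρ j := Big_prefix ⟨S.hp', S.hq'⟩ hkj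
  have s1 := side_lf ia1
  have s2 := side_lf ia2
  -- the left fan at i
  have ii1 : inC (desc root (i ++ [true])) (zz a1) := inC_of_prefix ia1
  have ii2 : inC (desc root (i ++ [true])) (zz a2) := inC_of_prefix ia2
  obtain ⟨J, j1, j2, j3, j4, j5, j6⟩ := chainL (i := i) da (sz a1 + sz a2) (i ++ [true]) (List.prefix_append _ _)
    (by rw [desc_lf]; rfl) (by rw [desc_lf]; rfl) ii1 ii2 (by omega)
  have hBJ : Big ρ J := Big_prefix hBi j1
  have hvJ := valid_root.desc J
  obtain ⟨θ, t1, t2, t3, t4⟩ := PLv hs hH hBJ j4 j5 p3 q3 da j6 (by rw [j2]; exact s2)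
  have hF0 : be (desc root J) = FF i := by unfold be FF ga; rw [j3]
  have hFj : FF j = FF i := by unfold FF ga; rw [hc]
  -- transport
  have htr := fun t => (xi_trans S.mat a1 a2 a1' a2' p6 q6 p5 q5 da.ne' t).1
  have hdd' := (xi_trans S.mat a1 a2 a1' a2' p6 q6 p5 q5 da.ne' (0, 0)).2
  have hfi : xi a1 a2 (zz i) = xi a1' a2' (zz j) := by
    have h1 := htr (zz i)
    rw [hMz, xi_smul] at h1
    exact mul_left_cancel₀ (by exact_mod_cast hn0) h1
  have hda : ∀ x x', M (zz x) = n • zz x' → n * dt (zz x') (zz j) = n' * dt (zz x) (zz i) :=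
    fun x x' hx => rel_dt S.mat hx hMz
  have hX : (10 : ℝ) ^ 20 * (H : ℝ) ^ 20 ≤ 4 ^ ρ := hs
  have hdlX : ∀ {w : List Bool}, Big ρ w → df (desc root w) ≤ 16 / 4 ^ ρ := by
    intro w hw
    have h1 := df_le (valid_root.desc w)
    have h2 := dl_le_X hw
    have h3 : (16 : ℝ) / 16 ^ ρ ≤ 16 / 4 ^ ρ := by
      apply div_le_div_of_nonneg_left (by norm_num) (by positivity)
      exact pow_le_pow_left₀ (by norm_num) (by norm_num) _
    linarith
  have hsh := df_sharp hvJ ρ S.hρ hBJ.1 hBJ.2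
  have hgaJ : ga (desc root J) = al (desc root J) + FF i - df (desc root J) := by
    rw [← hF0]; unfold df; ring
  rw [hgaJ] at hsh
  have hn1 : (1 : ℝ) ≤ |(n : ℝ)| := by
    have := Int.one_le_abs hn0
    exact_mod_cast this
  have hdtui : dt (uu (desc root J)) (zz i) = 1 := by rw [← j2]; exact dt_uv hvJ
  -- bound on c
  have hcbig : 8 * (10 * (H : ℝ) ^ 4) < ((desc root i).c : ℝ) ^ 2 := by
    have h1 : (2 : ℝ) ^ (desc root J).q ≤ 2 * (desc root J).b := by exact_mod_cast hvJ.lb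
    rw [j3] at h1
    have h2 : (2 : ℝ) ^ ρ ≤ 2 ^ (desc root J).q := pow_le_pow_right₀ (by norm_num) hBJ.2
    have h3 : ((2 : ℝ) ^ ρ) ^ 2 ≤ (2 * ((desc root i).c : ℝ)) ^ 2 := pow_le_pow_left₀ (by positivity) (by linarith) 2
    have h4 : ((2 : ℝ) ^ ρ) ^ 2 = 4 ^ ρ := by rw [← pow_mul, mul_comm, pow_mul]; norm_num
    rw [h4] at h3
    have h5 : (H : ℝ) ^ 4 ≤ H ^ 20 := pow_le_pow_right₀ hH1 (by norm_num)
    have h6 : (0 : ℝ) < H ^ 20 := by positivity
    nlinarith
  have hJa := (zvd J).a1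
  have dJ1 : df (desc root J) ≤ 1 / (((desc root J).a : ℝ) ^ 2 * ((desc root i).c : ℝ) ^ 2) := by
    have := df_le hvJ
    rw [dl_ab, j3] at this; exact this
  -- finishing lemma
  have fin : ∀ (y : ℤ) (o : ℤ × ℤ) (A2 d2 θ' : ℝ), M (uu (desc root J)) = n • o + y • zz j → g' ∣ y → 0 < d2 →
      d2 ≤ 16 / 4 ^ ρ → 1 ≤ θ' * (H : ℝ) ^ 2 → θ' ≤ 4 * (H : ℝ) ^ 4 →
      |FF i - xi a1' a2' (zz j) - θ' * d2| ≤ 200 * H ^ 3 / 4 ^ ρ * d2 →
      |xi a1' a2' o - A2| ≤ 10 * (H : ℝ) ^ 4 * d2 →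
      |Real.log d2 + 2 * (A2 + FF i - d2) - Real.log 4| ≤ 8 / 4 ^ ρ →
      (y = 0 → |al (desc root J) - A2| ≤ 10 * (H : ℝ) ^ 4 * (df (desc root J) + d2) → False) →
      (g' : ℝ) * sz i ≤ 8 * (Real.log (2 * H ^ 3) + 4) * |(n : ℝ)| := by
    intro y o A2 d2 θ' hMu hgy h1 h2 h3 h4 h5 h6 h7 h8
    have hlin : (n : ℝ) * xi a1 a2 (uu (desc root J)) = n * xi a1' a2' o + y * xi a1 a2 (zz i) := by
      rw [htr, hMu, xi_add, xi_smul, xi_smul, hfi]
    rw [← hfi] at h5
    rw [hF0, j2] at t3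
    obtain ⟨r1, r2⟩ := exact_num hH1 hX (df_pos hvJ) h1 (hdlX hBJ) h2 t1 t2 h3 h4 t3 h5 t4 h6 hn1 hlin hsh h7
    have hy : y ≠ 0 := fun h => h8 h (r1 (by exact_mod_cast h))
    have hgy' : (g' : ℝ) ≤ |(y : ℝ)| := by
      have := Int.le_of_dvd (abs_pos.mpr hy) ((dvd_abs _ _).mpr hgy)
      exact_mod_cast this
    have hFs := (FF_size i).1
    have hsz4 : (4 : ℝ) ≤ sz i := by
      have h9 := sz_pq i
      have h10 := S.hρ
      unfold Big at hBi
      exact_mod_cast (show 4 ≤ sz i by omega)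
    have hF1 : (sz i : ℝ) ≤ 8 * (FF i - 1) + 0 ∨ True := Or.inr trivial
    have hFF2 : 2 ≤ FF i := by linarith
    have hk : (sz i : ℝ) / 4 ≤ FF i - 1 := by linarith
    have hg0 : (0 : ℝ) < g' := by exact_mod_cast hg
    have h11 : (g' : ℝ) * ((sz i : ℝ) / 4) ≤ |(y : ℝ)| * (FF i - 1) :=
      mul_le_mul hgy' hk (by positivity) (abs_nonneg _)
    have h12 : 0 ≤ |(n : ℝ)| * (Real.log (2 * (H : ℝ) ^ 3) + 4) := by
      have : 0 ≤ Real.log (2 * (H : ℝ) ^ 3) := Real.log_nonneg (by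
        have : (1 : ℝ) ≤ (H : ℝ) ^ 3 := one_le_pow₀ hH1
        linarith)
      positivity
    nlinarith
  -- decomposition of M u
  have decomp : ∀ (o : ℤ × ℤ) (ε : ℤ), ε * ε = 1 → dt o (zz j) = ε → n * ε = n' →
      ∃ y : ℤ, M (uu (desc root J)) = n • o + y • zz j ∧ g' ∣ y := by
    intro o ε hε hoj hnε
    set e := M (uu (desc root J)) with he
    have h1 : dt e (zz j) = n' := by
      have := S.mat.dd (uu (desc root J)) (zz i)
      rw [hMz, dt_smul_right, hdtui, mul_one, ← he] at this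
      exact mul_left_cancel₀ hn0 this
    set d := e - n • o with hd
    have h2 : dt d (zz j) = 0 := by
      rw [hd, dt_sub_left, dt_smul_left, h1, hoj, hnε, sub_self]
    refine ⟨ε * dt o d, ?_, ?_⟩
    · have hid1 : dt o (zz j) * d.1 = dt d (zz j) * o.1 + dt o d * (zz j).1 := by unfold dt; ring
      have hid2 : dt o (zz j) * d.2 = dt d (zz j) * o.2 + dt o d * (zz j).2 := by unfold dt; ring
      rw [hoj, h2, zero_mul, zero_add] at hid1 hid2
      have g1 : d.1 = ε * dt o d * (zz j).1 := by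
        calc d.1 = (ε * ε) * d.1 := by rw [hε, one_mul]
          _ = ε * (ε * d.1) := by ring
          _ = ε * dt o d * (zz j).1 := by rw [hid1]; ring
      have g2 : d.2 = ε * dt o d * (zz j).2 := by
        calc d.2 = (ε * ε) * d.2 := by rw [hε, one_mul]
          _ = ε * (ε * d.2) := by ring
          _ = ε * dt o d * (zz j).2 := by rw [hid2]; ring
      have g3 : e = n • o + d := by rw [hd]; abel
      rw [g3]
      congr 1
      apply Prod.ext
      · simp only [Prod.smul_fst, smul_eq_mul]; exact g1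
      · simp only [Prod.smul_snd, smul_eq_mul]; exact g2
    · apply Dvd.dvd.mul_left
      obtain ⟨m1, m2⟩ := hgM (uu (desc root J))
      have hd1 : g' ∣ d.1 := by
        rw [hd]; simp only [Prod.fst_sub, Prod.smul_fst, smul_eq_mul]
        exact dvd_sub m1 (Dvd.dvd.mul_right hgn _)
      have hd2 : g' ∣ d.2 := by
        rw [hd]; simp only [Prod.snd_sub, Prod.smul_snd, smul_eq_mul]
        exact dvd_sub m2 (Dvd.dvd.mul_right hgn _)
      unfold dt
      exact dvd_sub (Dvd.dvd.mul_left hd2 _) (Dvd.dvd.mul_left hd1 _)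
  rcases abs_eq_abs.mp hnn with hor | hor
  · -- orientation preserving
    have hd1 : dt (zz a1') (zz j) = dt (zz a1) (zz i) := by
      have := hda _ _ p6; rw [hor] at this; exact mul_left_cancel₀ hn0 this
    have hd2 : dt (zz a2') (zz j) = dt (zz a2) (zz i) := by
      have := hda _ _ q6; rw [hor] at this; exact mul_left_cancel₀ hn0 this
    have hd12 : dt (zz a1') (zz a2') = dt (zz a1) (zz a2) := by
      rw [hor] at hdd'; exact mul_left_cancel₀ hn0 hdd'
    have inl : ∀ {x : List Bool}, inC (desc root j) (zz x) → 0 < dt (zz x) (zz j) →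
        inC (desc root (j ++ [true])) (zz x) := by
      intro x h1 h2
      have : dt (zz x) (zz j) = cu (desc root j) (zz x) - cv (desc root j) (zz x) := dt_vec _ _
      rw [desc_lf]; unfold inC; rw [cu_lf, cv_lf]; exact ⟨by omega, h1.2⟩
    obtain ⟨J', w1, w2, w3, w4, w5, w6⟩ := chainL (i := j) (P := a1') (Q := a2') (by rw [hd12]; exact da)
      (sz a1' + sz a2') (j ++ [true]) (List.prefix_append _ _)
      (by rw [desc_lf]; rfl) (by rw [desc_lf]; rfl) (inl ja1 (by rw [hd1]; exact s1)) (inl ja2 (by rw [hd2]; exact s2))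
      (by omega)
    have hBJ' : Big ρ J' := Big_prefix hBj w1
    have hvJ' := valid_root.desc J'
    obtain ⟨θ', u1, u2, u3, u4⟩ := PLv hs hH hBJ' w4 w5 p4 q4 (by rw [hd12]; exact da) w6
      (by rw [w2, hd2]; exact s2)
    have hF0' : be (desc root J') = FF i := by
      rw [← hFj]; unfold be FF ga; rw [w3]
    obtain ⟨y, hy1, hy2⟩ := decomp (uu (desc root J')) 1 (by norm_num) (by rw [← w2]; exact dt_uv hvJ')
      (by rw [mul_one]; exact hor.symm)
    have hsh' := df_sharp hvJ' ρ S.hρ hBJ'.1 hBJ'.2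
    have hgaJ' : ga (desc root J') = al (desc root J') + FF i - df (desc root J') := by
      rw [← hF0']; unfold df; ring
    rw [hgaJ'] at hsh'
    rw [hF0', w2] at u3
    refine fin y (uu (desc root J')) (al (desc root J')) (df (desc root J')) θ' hy1 hy2 (df_pos hvJ') (hdlX hBJ')
      u1 u2 u3 u4 hsh' ?_
    intro hy0 hA
    have dJ2 : df (desc root J') ≤ 1 / (((desc root J').a : ℝ) ^ 2 * ((desc root i).c : ℝ) ^ 2) := by
      have := df_le hvJ'
      rw [dl_ab, w3, ← hc] at this; exact this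
    have hval : (desc root J).a = (desc root J').a := by
      apply val_eq hJa (zvd J').a1 hcbig dJ1 dJ2 (by positivity)
      exact hA
    have hJJ : J = J' := c_of_ab (Or.inl ⟨hval, by rw [j3, w3, hc]⟩)
    -- M = n
    rw [hy0, zero_smul, add_zero, ← hJJ] at hy1
    have hzij : zz j = zz i := by rw [← j2, ← w2, hJJ]
    rw [hzij, ← j2] at hMz
    obtain ⟨α, β, hb⟩ : ∃ α β : ℤ, zz a1 = α • uu (desc root J) + β • vv (desc root J) := ⟨_, _, zz_basis J a1⟩
    have hMa : M (zz a1) = n • zz a1 := by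
      calc M (zz a1) = M (α • uu (desc root J) + β • vv (desc root J)) := congrArg M hb
        _ = α • (n • uu (desc root J)) + β • (n • vv (desc root J)) := by
            rw [map_add, map_zsmul, map_zsmul, hy1, hMz]
        _ = n • (α • uu (desc root J) + β • vv (desc root J)) := by
            rw [smul_add, smul_comm α n, smul_comm β n]
        _ = n • zz a1 := by rw [← hb]
    rw [p6] at hMa
    apply hne _ _ Ra1
    apply zz_inj
    have e1 := congrArg Prod.fst hMa
    have e2 := congrArg Prod.snd hMa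
    simp only [Prod.smul_fst, Prod.smul_snd, smul_eq_mul] at e1 e2
    exact (Prod.ext (mul_left_cancel₀ hn0 e1) (mul_left_cancel₀ hn0 e2)).symm
  · -- orientation reversing
    have hd1 : dt (zz a1') (zz j) = - dt (zz a1) (zz i) := by
      have := hda _ _ p6; rw [hor] at this
      exact mul_left_cancel₀ hn0 (by rw [this]; ring)
    have hd2 : dt (zz a2') (zz j) = - dt (zz a2) (zz i) := by
      have := hda _ _ q6; rw [hor] at this
      exact mul_left_cancel₀ hn0 (by rw [this]; ring)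
    have hd12 : dt (zz a2') (zz a1') = dt (zz a1) (zz a2) := by
      rw [hor] at hdd'
      have : dt (zz a1') (zz a2') = - dt (zz a1) (zz a2) := mul_left_cancel₀ hn0 (by rw [hdd']; ring)
      rw [dt_comm, this]; ring
    have inr : ∀ {x : List Bool}, inC (desc root j) (zz x) → dt (zz x) (zz j) < 0 →
        inC (desc root (j ++ [false])) (zz x) := by
      intro x h1 h2
      have : dt (zz x) (zz j) = cu (desc root j) (zz x) - cv (desc root j) (zz x) := dt_vec _ _
      rw [desc_rt]; unfold inC; rw [cu_rt, cv_rt]; exact ⟨h1.1, by omega⟩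
    obtain ⟨J', w1, w2, w3, w4, w5, w6⟩ := chainR (i := j) (P := a2') (Q := a1') (by rw [hd12]; exact da)
      (sz a2' + sz a1') (j ++ [false]) (List.prefix_append _ _)
      (by rw [desc_rt]; rfl) (by rw [desc_rt]; rfl) (inr ja2 (by rw [hd2]; omega)) (inr ja1 (by rw [hd1]; omega))
      (by omega)
    have hBJ' : Big ρ J' := Big_prefix hBj w1
    have hvJ' := valid_root.desc J'
    obtain ⟨θ', u1, u2, u3, u4⟩ := PLu hs hH hBJ' w4 w5 q4 p4 (by rw [hd12]; exact da) w6
      (by rw [w2, dt_comm, hd2]; omega)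
    have hF0' : al (desc root J') = FF i := by
      rw [← hFj]; unfold al FF ga; rw [w3]
    have hvz : dt (vv (desc root J')) (zz j) = -1 := by
      rw [← w2, dt_comm, dt_uv hvJ']
    obtain ⟨y, hy1, hy2⟩ := decomp (vv (desc root J')) (-1) (by norm_num) hvz (by rw [hor]; ring)
    have hsh' := df_sharp hvJ' ρ S.hρ hBJ'.1 hBJ'.2
    have hgaJ' : ga (desc root J') = be (desc root J') + FF i - df (desc root J') := by
      rw [← hF0']; unfold df; ring
    rw [hgaJ'] at hsh'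
    rw [hF0', w2, xi_swap] at u3
    rw [xi_swap] at u4
    refine fin y (vv (desc root J')) (be (desc root J')) (df (desc root J')) θ' hy1 hy2 (df_pos hvJ') (hdlX hBJ')
      u1 u2 u3 u4 hsh' ?_
    intro hy0 hA
    have dJ2 : df (desc root J') ≤ 1 / (((desc root J').b : ℝ) ^ 2 * ((desc root i).c : ℝ) ^ 2) := by
      have := df_le hvJ'
      rw [dl_ab, w3, ← hc, mul_comm] at this; exact this
    have hval : (desc root J).a = (desc root J').b := by
      apply val_eq hJa (zvd J').b1 hcbig dJ1 dJ2 (by positivity)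
      exact hA
    have hJJ : J = J' := c_of_ab (Or.inr ⟨hval, by rw [j3, w3, hc]⟩)
    apply (zvd J).ne
    rw [hval, j3, hc, ← w3, ← hJJ]
    rw [← hJJ] at hval
    exact hval.symm

end

end Pool.Agent.TH913.MK
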