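import Mathlib
import Pool.Agent.TH913.MK.N5

set_option autoImplicit false

namespace Pool.Agent.TH913.MK

open Pool.Agent.H499R2

noncomputable section

/-- the content of an additive map -/
def ct (M : (ℤ × ℤ) →+ (ℤ × ℤ)) : ℕ :=
  Nat.gcd (Int.gcd (M (1, 0)).1 (M (1, 0)).2) (Int.gcd (M (0, 1)).1 (M (0, 1)).2)

lemma M_apply (M : (ℤ × ℤ) →+ (ℤ × ℤ)) (t : ℤ × ℤ) : M t = t.1 • M (1, 0) + t.2 • M (0, 1) := by
  rw [← map_zsmul, ← map_zsmul, ← map_add]
  congr 1
  apply Prod.ext <;> simp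

lemma ct_dvd (M : (ℤ × ℤ) →+ (ℤ × ℤ)) (t : ℤ × ℤ) : (ct M : ℤ) ∣ (M t).1 ∧ (ct M : ℤ) ∣ (M t).2 := by
  have h1 : (ct M : ℤ) ∣ (Int.gcd (M (1, 0)).1 (M (1, 0)).2 : ℤ) := by
    exact_mod_cast Nat.gcd_dvd_left _ _
  have h2 : (ct M : ℤ) ∣ (Int.gcd (M (0, 1)).1 (M (0, 1)).2 : ℤ) := by
    exact_mod_cast Nat.gcd_dvd_right _ _
  have a1 := h1.trans (Int.gcd_dvd_left (M (1, 0)).1 (M (1, 0)).2)
  have a2 := h1.trans (Int.gcd_dvd_right (M (1, 0)).1 (M (1, 0)).2)
  have b1 := h2.trans (Int.gcd_dvd_left (M (0, 1)).1 (M (0, 1)).2)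
  have b2 := h2.trans (Int.gcd_dvd_right (M (0, 1)).1 (M (0, 1)).2)
  rw [M_apply M t]
  simp only [Prod.fst_add, Prod.snd_add, Prod.smul_fst, Prod.smul_snd, smul_eq_mul]
  exact ⟨dvd_add (Dvd.dvd.mul_left a1 _) (Dvd.dvd.mul_left b1 _),
    dvd_add (Dvd.dvd.mul_left a2 _) (Dvd.dvd.mul_left b2 _)⟩

lemma ct_univ (M : (ℤ × ℤ) →+ (ℤ × ℤ)) {κ D : ℤ} (h : ∀ t, κ ∣ D * (M t).1 ∧ κ ∣ D * (M t).2) :
    κ ∣ D * ct M := by
  obtain ⟨a1, a2⟩ := h (1, 0)
  obtain ⟨b1, b2⟩ := h (0, 1)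
  have e1 : κ ∣ (Int.gcd (D * (M (1, 0)).1) (D * (M (1, 0)).2) : ℤ) := Int.dvd_coe_gcd a1 a2
  have e2 : κ ∣ (Int.gcd (D * (M (0, 1)).1) (D * (M (0, 1)).2) : ℤ) := Int.dvd_coe_gcd b1 b2
  rw [Int.gcd_mul_left] at e1 e2
  have e3 : κ ∣ (Nat.gcd (D.natAbs * Int.gcd (M (1, 0)).1 (M (1, 0)).2)
      (D.natAbs * Int.gcd (M (0, 1)).1 (M (0, 1)).2) : ℤ) := by
    have := Int.dvd_coe_gcd e1 e2
    rwa [Int.gcd_natCast_natCast] at this
  rw [Nat.gcd_mul_left] at e3
  have e4 : ((D.natAbs * ct M : ℕ) : ℤ) ∣ D * ct M := by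
    rw [Nat.cast_mul]
    exact mul_dvd_mul (Int.natAbs_dvd.mpr dvd_rfl) dvd_rfl
  exact e3.trans e4

/-- divisibility by a number of a multiple of a primitive vector -/
lemma dvd_prim {j : List Bool} {c x : ℤ} (h : c ∣ (x • zz j).1 ∧ c ∣ (x • zz j).2) : c ∣ x := by
  have h1 : dt (uu (desc root j)) (x • zz j) = x := by
    rw [dt_smul_right]
    have := dt_uu_vec (valid_root.desc j)
    have e : zz j = vec (desc root j) := rfl
    rw [e, this, mul_one]
  rw [← h1]
  unfold dt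
  exact dvd_sub (Dvd.dvd.mul_left h.2 _) (Dvd.dvd.mul_left h.1 _)

lemma ct_dvd_n {M : (ℤ × ℤ) →+ (ℤ × ℤ)} {x : ℤ} {l j : List Bool} (h : M (zz l) = x • zz j) : (ct M : ℤ) ∣ x := by
  apply dvd_prim (j := j)
  rw [← h]
  exact ct_dvd M _

lemma ct_pos {M : (ℤ × ℤ) →+ (ℤ × ℤ)} {x : ℤ} {l j : List Bool} (h : M (zz l) = x • zz j) (hx : x ≠ 0) :
    0 < ct M := by
  rcases Nat.eq_zero_or_pos (ct M) with h0 | h0
  · exfalso
    have := ct_dvd_n h
    rw [h0] at this
    exact hx (by simpa using this)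
  · exact h0

/-- the constant of the node theorem -/
def LL (H : ℕ) : ℝ := 8 * (Real.log (2 * (H : ℝ) ^ 3) + 4)

lemma LL_pos {H : ℕ} (hH : 1 ≤ H) : 32 ≤ LL H := by
  have hH1 : (1 : ℝ) ≤ H := by exact_mod_cast hH
  have h1 : (1 : ℝ) ≤ (H : ℝ) ^ 3 := one_le_pow₀ hH1
  have : 0 ≤ Real.log (2 * (H : ℝ) ^ 3) := Real.log_nonneg (by linarith)
  unfold LL; linarith

/-- all branching nodes are matched with a controlled factor -/
theorem node_thm {H ρ : ℕ} {n n' : ℤ} {M : (ℤ × ℤ) →+ (ℤ × ℤ)} {k k' : List Bool}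
    {R : List Bool → List Bool → Prop} (S : Sys H ρ n n' M k k' R) (hH : 1 ≤ H)
    (hne : ∀ l l', R l l' → l ≠ l') {i : List Bool} (hki : k <+: i) (hB : Br R i) :
    ∃ (j : List Bool) (κ : ℤ), M (zz i) = κ • zz j ∧ κ ≠ 0 ∧ κ ∣ n * n' ∧
      (ct M : ℝ) * sz i ≤ LL H * |(κ : ℝ)| := by
  obtain ⟨a1, a1', a2, a2', j, κ, Ra1, Ra2, ia1, ia2, da, hkj, hMz, hpos, hex, ⟨c1, c2⟩, hdvd, hwild⟩ :=
    node_match2 S hki hB
  have hn0 := S.mat.hn
  have hκ0 : κ ≠ 0 := by
    intro h; rw [h, mul_zero] at hpos; exact lt_irrefl _ hpos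
  have hg := ct_pos hMz hκ0
  have hg' : (0 : ℤ) < ct M := by exact_mod_cast hg
  have hgκ := ct_dvd_n hMz
  have hgn : (ct M : ℤ) ∣ n := ct_dvd_n (S.rel _ _ Ra1).2.2.2.2.2
  have hlog : 0 ≤ Real.log (2 * (H : ℝ) ^ 3) := by
    have hH1 : (1 : ℝ) ≤ H := by exact_mod_cast hH
    have h1 : (1 : ℝ) ≤ (H : ℝ) ^ 3 := one_le_pow₀ hH1
    exact Real.log_nonneg (by linarith)
  refine ⟨j, κ, hMz, hκ0, hdvd, ?_⟩
  by_cases hκn : κ = n
  · obtain ⟨h1, h2⟩ := hex hκn
    rw [hκn] at hMz ⊢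
    have h5 := exact_node S hH hne Ra1 Ra2 ia1 ia2 da hki hkj hMz h1 h2 c1 c2 hg' hgn (ct_dvd M)
    have h4 : ((ct M : ℤ) : ℝ) = (ct M : ℝ) := by push_cast; rfl
    rw [h4] at h5
    unfold LL
    exact h5
  · have h1 := hwild (ct M) hg' (dvd_sub hgn hgκ) hκn
    have h2 : ((ct M : ℤ) : ℝ) * sz i ≤ 2 * (Real.log (2 * H ^ 3) + 1) * |(κ : ℝ)| := h1
    have h3 : 2 * (Real.log (2 * (H : ℝ) ^ 3) + 1) * |(κ : ℝ)| ≤ LL H * |(κ : ℝ)| := by
      apply mul_le_mul_of_nonneg_right _ (abs_nonneg _)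
      unfold LL; linarith
    have h4 : ((ct M : ℤ) : ℝ) = (ct M : ℝ) := by push_cast; rfl
    rw [h4] at h2
    exact h2.trans h3

/-- two nodes with the same factor -/
lemma same_factor {M : (ℤ × ℤ) →+ (ℤ × ℤ)} {κ : ℤ} {i i' j j' : List Bool}
    (h : M (zz i) = κ • zz j) (h' : M (zz i') = κ • zz j') : κ ∣ dt (zz i) (zz i') * ct M := by
  apply ct_univ
  intro t
  have e : dt (zz i) (zz i') • t = dt t (zz i') • zz i + dt (zz i) t • zz i' := by
    unfold dt
    apply Prod.ext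
    · simp only [Prod.fst_add, Prod.smul_fst, smul_eq_mul]; ring
    · simp only [Prod.snd_add, Prod.smul_snd, smul_eq_mul]; ring
  have e2 := congrArg M e
  rw [map_zsmul, map_add, map_zsmul, map_zsmul, h, h'] at e2
  have f1 := congrArg Prod.fst e2
  have f2 := congrArg Prod.snd e2
  simp only [Prod.fst_add, Prod.snd_add, Prod.smul_fst, Prod.smul_snd, smul_eq_mul] at f1 f2
  rw [f1, f2]
  exact ⟨⟨dt t (zz i') * (zz j).1 + dt (zz i) t * (zz j').1, by ring⟩,
    ⟨dt t (zz i') * (zz j).2 + dt (zz i) t * (zz j').2, by ring⟩⟩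

/-- counting words in a dyadic range with determinants divisible by `m` -/
lemma count_lat {k : List Bool} {B : Finset (List Bool)} {s m : ℕ} (hs : 1 ≤ s) (hm : 1 ≤ m)
    (hk : ∀ i ∈ B, k <+: i) (hsz : ∀ i ∈ B, s ≤ sz i ∧ sz i < 2 * s)
    (hd : ∀ i ∈ B, ∀ i' ∈ B, (m : ℤ) ∣ dt (zz i) (zz i')) :
    (B.card : ℝ) ≤ 1 + 8 * (s : ℝ) ^ 2 / ((desc root k).p * (desc root k).q * m) := by
  have hv := valid_root.desc k
  have hp := hv.p1
  have hq := hv.q1
  have hpr : (1 : ℝ) ≤ (desc root k).p := by exact_mod_cast hp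
  have hqr : (1 : ℝ) ≤ (desc root k).q := by exact_mod_cast hq
  have hmr : (1 : ℝ) ≤ m := by exact_mod_cast hm
  rcases Finset.eq_empty_or_nonempty B with hB | ⟨i0, hi0⟩
  · rw [hB]; simp; positivity
  set A : ℕ := 4 * s ^ 2 / ((desc root k).p * (desc root k).q * m) with hA
  have hcard : B.card ≤ (Finset.Icc (-(A : ℤ)) A).card := by
    apply Finset.card_le_card_of_injOn (fun i => dt (zz i) (zz i0) / m)
    · intro i hi
      have hi' : i ∈ B := hi
      obtain ⟨e, he⟩ := hd i hi' i0 hi0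
      have hdiv : dt (zz i) (zz i0) / m = e := by
        rw [he]; exact Int.mul_ediv_cancel_left _ (by exact_mod_cast (by omega : m ≠ 0))
      have hc := dt_coord hv (zz i) (zz i0)
      have x1 := prefix_inC (hk i hi')
      have x2 := prefix_inC (hk i0 hi0)
      have z1 := sz_coord hv i
      have z2 := sz_coord hv i0
      have y1 := (hsz i hi').2
      have y2 := (hsz i0 hi0).2
      obtain ⟨α, hα⟩ := Int.eq_ofNat_of_zero_le x1.1.le
      obtain ⟨β, hβ⟩ := Int.eq_ofNat_of_zero_le x1.2.le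
      obtain ⟨α0, hα0⟩ := Int.eq_ofNat_of_zero_le x2.1.le
      obtain ⟨β0, hβ0⟩ := Int.eq_ofNat_of_zero_le x2.2.le
      rw [hα, hβ, hα0, hβ0] at hc
      rw [hα, hβ] at z1
      rw [hα0, hβ0] at z2
      have z1' : sz i = α * (desc root k).p + β * (desc root k).q := by exact_mod_cast z1
      have z2' : sz i0 = α0 * (desc root k).p + β0 * (desc root k).q := by exact_mod_cast z2
      have b1 : α * (desc root k).p ≤ 2 * s := by omega
      have b2 : β * (desc root k).q ≤ 2 * s := by omega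
      have b3 : α0 * (desc root k).p ≤ 2 * s := by omega
      have b4 : β0 * (desc root k).q ≤ 2 * s := by omega
      have c1 : α * β0 * ((desc root k).p * (desc root k).q) ≤ 4 * s ^ 2 := by
        calc α * β0 * ((desc root k).p * (desc root k).q) = (α * (desc root k).p) * (β0 * (desc root k).q) := by ring
          _ ≤ (2 * s) * (2 * s) := Nat.mul_le_mul b1 b4
          _ = 4 * s ^ 2 := by ring
      have c2 : β * α0 * ((desc root k).p * (desc root k).q) ≤ 4 * s ^ 2 := by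
        calc β * α0 * ((desc root k).p * (desc root k).q) = (β * (desc root k).q) * (α0 * (desc root k).p) := by ring
          _ ≤ (2 * s) * (2 * s) := Nat.mul_le_mul b2 b3
          _ = 4 * s ^ 2 := by ring
      have hW : 0 < (desc root k).p * (desc root k).q * m := by positivity
      have habs : |e| * m * ((desc root k).p * (desc root k).q) ≤ 4 * (s : ℤ) ^ 2 := by
        have e1 : |e| * m = |dt (zz i) (zz i0)| := by
          rw [he, abs_mul, abs_of_nonneg (by positivity : (0 : ℤ) ≤ (m : ℤ)), mul_comm]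
        rw [e1, hc]
        have d1 : ((α : ℤ) * β0) * ((desc root k).p * (desc root k).q) ≤ 4 * (s : ℤ) ^ 2 := by exact_mod_cast c1
        have d2 : ((β : ℤ) * α0) * ((desc root k).p * (desc root k).q) ≤ 4 * (s : ℤ) ^ 2 := by exact_mod_cast c2
        have d3 : |(α : ℤ) * β0 - β * α0| ≤ max ((α : ℤ) * β0) (β * α0) := by
          rw [abs_le]
          have g1 : (0 : ℤ) ≤ (α : ℤ) * β0 := by positivity
          have g2 : (0 : ℤ) ≤ (β : ℤ) * α0 := by positivity
          constructor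
          · have := le_max_right ((α : ℤ) * β0) ((β : ℤ) * α0); omega
          · have := le_max_left ((α : ℤ) * β0) ((β : ℤ) * α0); omega
        have hpq0 : (0 : ℤ) ≤ ((desc root k).p * (desc root k).q : ℤ) := by positivity
        rcases le_total ((α : ℤ) * β0) (β * α0) with h | h
        · rw [max_eq_right h] at d3
          exact (mul_le_mul_of_nonneg_right d3 hpq0).trans d2
        · rw [max_eq_left h] at d3
          exact (mul_le_mul_of_nonneg_right d3 hpq0).trans d1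
      have habs' : e.natAbs * ((desc root k).p * (desc root k).q * m) ≤ 4 * s ^ 2 := by
        have : ((e.natAbs * ((desc root k).p * (desc root k).q * m) : ℕ) : ℤ) ≤ ((4 * s ^ 2 : ℕ) : ℤ) := by
          push_cast
          calc |e| * ((desc root k).p * (desc root k).q * m : ℤ) = |e| * m * ((desc root k).p * (desc root k).q) := by ring
            _ ≤ _ := habs
        exact_mod_cast this
      have heA : e.natAbs ≤ A := by
        rw [hA, Nat.le_div_iff_mul_le hW]; exact habs'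
      show dt (zz i) (zz i0) / m ∈ _
      rw [hdiv, Finset.coe_Icc, Set.mem_Icc]
      omega
    · intro i hi i' hi' heq
      have hi1 : i ∈ B := hi
      have hi2 : i' ∈ B := hi'
      obtain ⟨e, he⟩ := hd i hi1 i0 hi0
      obtain ⟨e', he'⟩ := hd i' hi2 i0 hi0
      have hm0 : (m : ℤ) ≠ 0 := by exact_mod_cast (by omega : m ≠ 0)
      simp only at heq
      rw [he, he', Int.mul_ediv_cancel_left _ hm0, Int.mul_ediv_cancel_left _ hm0] at heq
      rw [← heq] at he'
      have hdd : dt (zz i) (zz i0) = dt (zz i') (zz i0) := by rw [he, he']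
      -- difference is a multiple of z0
      set d := zz i - zz i' with hd'
      have h0 : dt d (zz i0) = 0 := by rw [hd', dt_sub_left, hdd, sub_self]
      have hu := dt_uu_vec (valid_root.desc i0)
      have ez : zz i0 = vec (desc root i0) := rfl
      rw [← ez] at hu
      set t := dt (uu (desc root i0)) d with ht
      have hid1 : dt (uu (desc root i0)) (zz i0) * d.1 = dt d (zz i0) * (uu (desc root i0)).1 +
          dt (uu (desc root i0)) d * (zz i0).1 := by unfold dt; ring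
      have hid2 : dt (uu (desc root i0)) (zz i0) * d.2 = dt d (zz i0) * (uu (desc root i0)).2 +
          dt (uu (desc root i0)) d * (zz i0).2 := by unfold dt; ring
      rw [hu, h0, zero_mul, zero_add, one_mul, ← ht] at hid1 hid2
      have hsum : (sz i : ℤ) - sz i' = t * sz i0 := by
        rw [sz_eq, sz_eq, sz_eq]
        have e1 : d.1 = (zz i).1 - (zz i').1 := rfl
        have e2 : d.2 = (zz i).2 - (zz i').2 := rfl
        rw [mul_add, ← hid1, ← hid2, e1, e2]; ring
      have r1 := hsz i hi1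
      have r2 := hsz i' hi2
      have r3 := hsz i0 hi0
      have ht0 : t = 0 := by
        by_contra hne
        have h1 : 1 ≤ |t| := Int.one_le_abs hne
        have h2 : |(sz i : ℤ) - sz i'| = |t| * sz i0 := by
          rw [hsum, abs_mul, abs_of_nonneg (by positivity : (0 : ℤ) ≤ (sz i0 : ℤ))]
        have h3 : (s : ℤ) ≤ |t| * sz i0 := by
          have : (s : ℤ) ≤ sz i0 := by exact_mod_cast r3.1
          nlinarith
        have h4 : |(sz i : ℤ) - sz i'| < s := by
          rw [abs_lt]; constructor <;> omega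
        omega
      rw [ht0, zero_mul] at hid1 hid2
      apply zz_inj
      apply Prod.ext
      · have : (zz i).1 - (zz i').1 = 0 := hid1
        omega
      · have : (zz i).2 - (zz i').2 = 0 := hid2
        omega
  rw [Int.card_Icc] at hcard
  have h2 : B.card ≤ 2 * A + 1 := by omega
  have h3 : (B.card : ℝ) ≤ 2 * A + 1 := by exact_mod_cast h2
  have h4 : (A : ℝ) ≤ 4 * (s : ℝ) ^ 2 / ((desc root k).p * (desc root k).q * m) := by
    rw [hA]
    have := @Nat.cast_div_le ℝ _ _ _ (4 * s ^ 2) ((desc root k).p * (desc root k).q * m)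
    push_cast at this
    exact this
  have h5 : 2 * (4 * (s : ℝ) ^ 2 / ((desc root k).p * (desc root k).q * m)) =
    8 * (s : ℝ) ^ 2 / ((desc root k).p * (desc root k).q * m) := by ring
  linarith

end

end Pool.Agent.TH913.MK
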