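import Mathlib
import Pool.Agent.TH913.MK.N6
import Pool.Agent.TH913.MK.E

set_option autoImplicit false

namespace Pool.Agent.TH913.MK

open Pool.Agent.H499R2

noncomputable section

lemma mm_true (i : List Bool) : mm (i ++ [true]) = (desc root i).p := by
  unfold mm; rw [desc_snoc]
  show min (desc root i).p ((desc root i).p + (desc root i).q) = _
  omega

lemma mm_false (i : List Bool) : mm (i ++ [false]) = (desc root i).q := by
  unfold mm; rw [desc_snoc]
  show min ((desc root i).p + (desc root i).q) (desc root i).q = _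
  omega

open scoped Classical in
/-- the branching nodes of a finite set -/
def BS (X : Finset (List Bool)) (H : ℕ) : Finset (List Bool) := (SW H).filter (fun i => BrF X i)

lemma mem_BS {X : Finset (List Bool)} {H : ℕ} {i : List Bool} : i ∈ BS X H ↔ sz i ≤ H ∧ BrF X i := by
  classical
  unfold BS; rw [Finset.mem_filter, mem_SW]

/-- the potential of the linear steps -/
def UU (H : ℕ) (i : List Bool) : ℝ := if sz i ≤ H then 2 * ((H : ℝ) - sz i) / mm i + 2 else 0

lemma UU_nonneg (H : ℕ) (i : List Bool) : 0 ≤ UU H i := by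
  unfold UU
  split_ifs with h
  · have : (sz i : ℝ) ≤ H := by exact_mod_cast h
    have h2 : 0 ≤ 2 * ((H : ℝ) - sz i) / mm i := div_nonneg (by linarith) (by positivity)
    linarith
  · exact le_refl _

lemma UU_true {H : ℕ} {i : List Bool} (hi : sz i ≤ H) :
    UU H (i ++ [true]) ≤ 2 * ((H : ℝ) - sz i) / (desc root i).p := by
  obtain ⟨hp, hq⟩ := pq_real i
  have hs : (sz i : ℝ) ≤ H := by exact_mod_cast hi
  unfold UU
  rw [mm_true, sz_true]
  split_ifs with h
  · push_cast
    rw [div_add' _ _ _ (by linarith : ((desc root i).p : ℝ) ≠ 0) |>.trans rfl]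
    apply div_le_div_of_nonneg_right _ (by linarith)
    linarith
  · apply div_nonneg <;> linarith

lemma UU_false {H : ℕ} {i : List Bool} (hi : sz i ≤ H) :
    UU H (i ++ [false]) ≤ 2 * ((H : ℝ) - sz i) / (desc root i).q := by
  obtain ⟨hp, hq⟩ := pq_real i
  have hs : (sz i : ℝ) ≤ H := by exact_mod_cast hi
  unfold UU
  rw [mm_false, sz_false]
  split_ifs with h
  · push_cast
    rw [div_add' _ _ _ (by linarith : ((desc root i).q : ℝ) ≠ 0) |>.trans rfl]
    apply div_le_div_of_nonneg_right _ (by linarith)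
    linarith
  · apply div_nonneg <;> linarith

theorem cnt_br (X : Finset (List Bool)) (H : ℕ) (hX : ∀ l ∈ X, sz l ≤ H) (n : ℕ) :
    ∀ i, H + 1 ≤ sz i + n → (cnt X i : ℝ) ≤ UU H i + sm (BS X H) (fun w => 4 * (H : ℝ) / sz w) i := by
  have hnn : ∀ i, 0 ≤ sm (BS X H) (fun w => 4 * (H : ℝ) / sz w) i :=
    fun i => Finset.sum_nonneg (fun w _ => by positivity)
  have leaf : ∀ i, H + 1 ≤ sz i → (cnt X i : ℝ) ≤ UU H i + sm (BS X H) (fun w => 4 * (H : ℝ) / sz w) i := by
    intro i hi
    rw [cnt_zero hX (by omega)]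
    have h1 := hnn i
    have h2 := UU_nonneg H i
    push_cast; linarith
  induction n with
  | zero => intro i hi; exact leaf i (by omega)
  | succ n ih =>
    intro i hi
    by_cases hbig : H + 1 ≤ sz i
    · exact leaf i hbig
    · have hiH : sz i ≤ H := by omega
      have hsr : (sz i : ℝ) ≤ H := by exact_mod_cast hiH
      obtain ⟨hp, hq⟩ := pq_real i
      have hspq : (sz i : ℝ) = (desc root i).p + (desc root i).q := by exact_mod_cast (sz_pq i).symm
      have ut := UU_true hiH
      have uf := UU_false hiH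
      have hrec := sm_rec (BS X H) (fun w => 4 * (H : ℝ) / sz w) i
      have hUi : UU H i = 2 * ((H : ℝ) - sz i) / mm i + 2 := by unfold UU; rw [if_pos hiH]
      have h1 := ih (i ++ [true]) (by have := (sz_child i true).1; omega)
      have h2 := ih (i ++ [false]) (by have := (sz_child i false).1; omega)
      have hmr : (1 : ℝ) ≤ mm i := by exact_mod_cast mm_pos i
      have kp : 2 * ((H : ℝ) - sz i) / (desc root i).p ≤ 2 * ((H : ℝ) - sz i) / mm i := by
        apply div_le_div_of_nonneg_left (by linarith) (by linarith)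
        exact_mod_cast (min_le_left _ _ : mm i ≤ (desc root i).p)
      have kq : 2 * ((H : ℝ) - sz i) / (desc root i).q ≤ 2 * ((H : ℝ) - sz i) / mm i := by
        apply div_le_div_of_nonneg_left (by linarith) (by linarith)
        exact_mod_cast (min_le_right _ _ : mm i ≤ (desc root i).q)
      have s1 := hnn (i ++ [true])
      have s2 := hnn (i ++ [false])
      by_cases hbr : BrF X i
      · have hm : i ∈ BS X H := mem_BS.mpr ⟨hiH, hbr⟩
        rw [if_pos hm] at hrec
        have hc := cnt_rec X i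
        have hle1 : (if i ∈ X then 1 else 0) ≤ 1 := by split_ifs <;> omega
        have hc' : (cnt X i : ℝ) ≤ 1 + cnt X (i ++ [true]) + cnt X (i ++ [false]) := by
          exact_mod_cast (show cnt X i ≤ 1 + cnt X (i ++ [true]) + cnt X (i ++ [false]) by omega)
        have key : 2 * ((H : ℝ) - sz i) / (desc root i).p + 2 * ((H : ℝ) - sz i) / (desc root i).q ≤
            2 * ((H : ℝ) - sz i) / mm i + 4 * H / sz i := by
          have hs0 : (0 : ℝ) < sz i := by linarith
          have hH0 : (0 : ℝ) ≤ H := by positivity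
          rcases le_total (desc root i).p (desc root i).q with h | h
          · have h' : ((desc root i).p : ℝ) ≤ (desc root i).q := by exact_mod_cast h
            have e : 2 * ((H : ℝ) - sz i) / (desc root i).q ≤ 4 * H / sz i := by
              rw [div_le_div_iff₀ (by linarith) hs0]
              nlinarith
            have e2 : (mm i : ℝ) = (desc root i).p := by
              have : mm i = (desc root i).p := min_eq_left h
              exact_mod_cast this
            rw [e2]; linarith
          · have h' : ((desc root i).q : ℝ) ≤ (desc root i).p := by exact_mod_cast h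
            have e : 2 * ((H : ℝ) - sz i) / (desc root i).p ≤ 4 * H / sz i := by
              rw [div_le_div_iff₀ (by linarith) hs0]
              nlinarith
            have e2 : (mm i : ℝ) = (desc root i).q := by
              have : mm i = (desc root i).q := min_eq_right h
              exact_mod_cast this
            rw [e2]; linarith
        linarith
      · have hm : i ∉ BS X H := fun h => hbr (mem_BS.mp h).2
        rw [if_neg hm] at hrec
        obtain ⟨b, hb⟩ := nonbr X i hbr
        have hb' : (cnt X i : ℝ) ≤ 2 + cnt X (i ++ [b]) := by exact_mod_cast hb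
        cases b
        · linarith
        · linarith

lemma same_factor' {M : (ℤ × ℤ) →+ (ℤ × ℤ)} {κ : ℤ} {z z' : ℤ × ℤ}
    (h : κ ∣ (M z).1 ∧ κ ∣ (M z).2) (h' : κ ∣ (M z').1 ∧ κ ∣ (M z').2) : κ ∣ dt z z' * ct M := by
  apply ct_univ
  intro t
  have e : dt z z' • t = dt t z' • z + dt z t • z' := by
    unfold dt
    apply Prod.ext
    · simp only [Prod.fst_add, Prod.smul_fst, smul_eq_mul]; ring
    · simp only [Prod.snd_add, Prod.smul_snd, smul_eq_mul]; ring
  have e2 := congrArg M e
  rw [map_zsmul, map_add, map_zsmul, map_zsmul] at e2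
  have f1 := congrArg Prod.fst e2
  have f2 := congrArg Prod.snd e2
  simp only [Prod.fst_add, Prod.snd_add, Prod.smul_fst, Prod.smul_snd, smul_eq_mul] at f1 f2
  rw [f1, f2]
  exact ⟨dvd_add (Dvd.dvd.mul_left h.1 _) (Dvd.dvd.mul_left h'.1 _),
    dvd_add (Dvd.dvd.mul_left h.2 _) (Dvd.dvd.mul_left h'.2 _)⟩

/-- the sum over a block -/
lemma block {k : List Bool} {B : Finset (List Bool)} {s m : ℕ} {Lc : ℝ} (hLc : 0 ≤ Lc) (hs : 1 ≤ s) (hm : 1 ≤ m)
    (hk : ∀ i ∈ B, k <+: i) (hsz : ∀ i ∈ B, s ≤ sz i ∧ sz i < 2 * s)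
    (hd : ∀ i ∈ B, ∀ i' ∈ B, (m : ℤ) ∣ dt (zz i) (zz i')) (hL : ∀ i ∈ B, (sz i : ℝ) ≤ Lc * m) :
    ∑ i ∈ B, 1 / (sz i : ℝ) ≤ (2 + 8 * Lc) / mm k := by
  have hmk : (1 : ℝ) ≤ mm k := by exact_mod_cast mm_pos k
  rcases Finset.eq_empty_or_nonempty B with hB | ⟨i0, hi0⟩
  · rw [hB, Finset.sum_empty]; positivity
  have hsr : (1 : ℝ) ≤ s := by exact_mod_cast hs
  have hmr : (1 : ℝ) ≤ m := by exact_mod_cast hm
  have h1 : ∑ i ∈ B, 1 / (sz i : ℝ) ≤ ∑ i ∈ B, 1 / (s : ℝ) := by
    apply Finset.sum_le_sum
    intro i hi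
    apply one_div_le_one_div_of_le (by linarith)
    exact_mod_cast (hsz i hi).1
  rw [Finset.sum_const, nsmul_eq_mul] at h1
  have h2 := count_lat hs hm hk hsz hd
  obtain ⟨hp, hq⟩ := pq_real k
  have h3 : (B.card : ℝ) * (1 / (s : ℝ)) ≤
      (1 + 8 * (s : ℝ) ^ 2 / ((desc root k).p * (desc root k).q * m)) * (1 / (s : ℝ)) :=
    mul_le_mul_of_nonneg_right h2 (by positivity)
  have hsm : (s : ℝ) ≤ Lc * m := by
    have e1 : (s : ℝ) ≤ sz i0 := by exact_mod_cast (hsz i0 hi0).1
    exact e1.trans (hL i0 hi0)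
  have h4 : (1 + 8 * (s : ℝ) ^ 2 / ((desc root k).p * (desc root k).q * m)) * (1 / (s : ℝ)) =
      1 / s + 8 * s / ((desc root k).p * (desc root k).q * m) := by
    field_simp
  have h5 : (1 : ℝ) / s ≤ 2 / mm k := by
    rw [div_le_div_iff₀ (by linarith) (by linarith)]
    have e1 := sz_prefix (hk i0 hi0)
    have e2 := (hsz i0 hi0).2
    have e3 := mm_two k
    have e4 : mm k ≤ s := by omega
    have e5 : (mm k : ℝ) ≤ s := by exact_mod_cast e4
    linarith
  have h6 : 8 * (s : ℝ) / ((desc root k).p * (desc root k).q * m) ≤ 8 * Lc / mm k := by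
    rw [div_le_div_iff₀ (by positivity) (by linarith)]
    have e1 : (mm k : ℝ) ≤ (desc root k).p * (desc root k).q := by
      have e2 : (mm k : ℝ) ≤ (desc root k).p := by exact_mod_cast (min_le_left _ _ : mm k ≤ (desc root k).p)
      nlinarith
    calc 8 * (s : ℝ) * mm k ≤ 8 * (Lc * m) * ((desc root k).p * (desc root k).q) := by
          apply mul_le_mul _ e1 (by linarith) (by positivity)
          linarith
      _ = 8 * Lc * ((desc root k).p * (desc root k).q * m) := by ring
  have h7 : (2 + 8 * Lc) / (mm k : ℝ) = 2 / mm k + 8 * Lc / mm k := by rw [add_div]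
  rw [h7]
  linarith

end

end Pool.Agent.TH913.MK
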