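import Mathlib
import Pool.Agent.TH913.MK.N7

set_option autoImplicit false

namespace Pool.Agent.TH913.MK

open Pool.Agent.H499R2

noncomputable section

theorem BS_sum {H ρ : ℕ} {n n' : ℤ} {M : (ℤ × ℤ) →+ (ℤ × ℤ)} {k k' : List Bool}
    {R : List Bool → List Bool → Prop} (S : Sys H ρ n n' M k k' R) (hH : 1 ≤ H)
    (hne : ∀ l l', R l l' → l ≠ l') {X : Finset (List Bool)} (hX : ∀ l ∈ X, ∃ l', R l l') {Dv : ℕ}
    (hDv : ∀ x : ℕ, 1 ≤ x → x ≤ H ^ 4 → x.divisors.card ≤ Dv) :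
    ∑ w ∈ (BS X H).filter (fun w => k <+: w), 1 / (sz w : ℝ) ≤
      Dv * ((Nat.log 2 H + 1 : ℕ) : ℝ) * ((2 + 8 * LL H) / mm k) := by
  classical
  set T := (BS X H).filter (fun w => k <+: w) with hT
  have hch : ∀ w ∈ T, ∃ κ : ℤ, κ ≠ 0 ∧ κ ∣ n * n' ∧ (κ ∣ (M (zz w)).1 ∧ κ ∣ (M (zz w)).2) ∧ (ct M : ℤ) ∣ κ ∧
      (ct M : ℝ) * sz w ≤ LL H * |(κ : ℝ)| := by
    intro w hw
    rw [hT, Finset.mem_filter, mem_BS] at hw
    obtain ⟨j, κ, h1, h2, h3, h4⟩ := node_thm S hH hne hw.2 (Br_of_BrF hX hw.1.2)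
    refine ⟨κ, h2, h3, ?_, ct_dvd_n h1, h4⟩
    rw [h1]
    simp only [Prod.smul_fst, Prod.smul_snd, smul_eq_mul]
    exact ⟨dvd_mul_right _ _, dvd_mul_right _ _⟩
  choose! κ hκ0 hκd hκM hκc hκL using hch
  have hnn0 : n * n' ≠ 0 := mul_ne_zero S.mat.hn S.mat.hn'
  have hx1 : 1 ≤ (n * n').natAbs := Nat.one_le_iff_ne_zero.mpr (Int.natAbs_ne_zero.mpr hnn0)
  have hx4 : (n * n').natAbs ≤ H ^ 4 := by
    have h1 : |((n * n' : ℤ) : ℝ)| ≤ (H : ℝ) ^ 4 := by
      push_cast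
      rw [abs_mul]
      calc |(n : ℝ)| * |(n' : ℝ)| ≤ (H : ℝ) ^ 2 * (H : ℝ) ^ 2 :=
            mul_le_mul S.mat.bn S.mat.bn' (abs_nonneg _) (by positivity)
        _ = _ := by ring
    have h2 : (((n * n').natAbs : ℕ) : ℝ) = |((n * n' : ℤ) : ℝ)| := by
      rw [Nat.cast_natAbs, Int.cast_abs]
    have h3 : (((n * n').natAbs : ℕ) : ℝ) ≤ ((H ^ 4 : ℕ) : ℝ) := by
      rw [h2]; push_cast; push_cast at h1; exact h1
    exact_mod_cast h3
  have hcard := hDv _ hx1 hx4
  have hmaps : ∀ w ∈ T, ((κ w).natAbs, Nat.log 2 (sz w)) ∈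
      (n * n').natAbs.divisors ×ˢ Finset.range (Nat.log 2 H + 1) := by
    intro w hw
    have hw' := hw
    rw [hT, Finset.mem_filter, mem_BS] at hw'
    rw [Finset.mem_product]
    refine ⟨?_, ?_⟩
    · rw [Nat.mem_divisors]
      exact ⟨Int.natAbs_dvd_natAbs.mpr (hκd w hw), by omega⟩
    · rw [Finset.mem_range]
      have := Nat.log_mono_right (b := 2) hw'.1.1
      show Nat.log 2 (sz w) < _
      omega
  rw [← Finset.sum_fiberwise_of_maps_to hmaps]
  have hL32 := LL_pos hH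
  have hfib : ∀ b ∈ (n * n').natAbs.divisors ×ˢ Finset.range (Nat.log 2 H + 1),
      ∑ w ∈ T.filter (fun w => ((κ w).natAbs, Nat.log 2 (sz w)) = b), 1 / (sz w : ℝ) ≤ (2 + 8 * LL H) / mm k := by
    rintro ⟨x, t⟩ _
    set B := T.filter (fun w => ((κ w).natAbs, Nat.log 2 (sz w)) = (x, t)) with hB
    have hmk : (1 : ℝ) ≤ mm k := by exact_mod_cast mm_pos k
    rcases Finset.eq_empty_or_nonempty B with hBe | ⟨w0, hw0⟩
    · rw [hBe, Finset.sum_empty]
      apply div_nonneg <;> linarith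
    have hBm : ∀ w ∈ B, w ∈ T ∧ (κ w).natAbs = x ∧ Nat.log 2 (sz w) = t := by
      intro w hw
      rw [hB, Finset.mem_filter] at hw
      exact ⟨hw.1, congrArg Prod.fst hw.2, congrArg Prod.snd hw.2⟩
    obtain ⟨w1, w2, w3⟩ := hBm w0 hw0
    have hg0 : ct M ≠ 0 := by
      intro h0
      have := hκc w0 w1
      rw [h0] at this
      exact hκ0 w0 w1 (by simpa using this)
    obtain ⟨m, hm⟩ : ct M ∣ x := by
      have := hκc w0 w1
      rw [← w2]
      exact Int.natCast_dvd.mp this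
    have hx0 : x ≠ 0 := by rw [← w2]; exact Int.natAbs_ne_zero.mpr (hκ0 w0 w1)
    have hm0 : m ≠ 0 := by
      rintro rfl
      exact hx0 (by rw [hm, mul_zero])
    have hgr : (0 : ℝ) < ct M := by exact_mod_cast Nat.pos_of_ne_zero hg0
    have hxM : ∀ w ∈ B, (x : ℤ) ∣ (M (zz w)).1 ∧ (x : ℤ) ∣ (M (zz w)).2 := by
      intro w hw
      obtain ⟨v1, v2, v3⟩ := hBm w hw
      have := hκM w v1
      rw [← v2]
      exact ⟨Int.natAbs_dvd.mpr this.1, Int.natAbs_dvd.mpr this.2⟩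
    apply block (s := 2 ^ t) (m := m) (by linarith) Nat.one_le_two_pow (Nat.pos_of_ne_zero hm0)
    · intro w hw
      have := (hBm w hw).1
      rw [hT, Finset.mem_filter] at this
      exact this.2
    · intro w hw
      have h3 := (hBm w hw).2.2
      have hsz : sz w ≠ 0 := by have := mm_two w; have := mm_pos w; omega
      refine ⟨?_, ?_⟩
      · rw [← h3]; exact Nat.pow_log_le_self 2 hsz
      · have := Nat.lt_pow_succ_log_self (b := 2) (by norm_num) (sz w)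
        rw [h3, pow_succ] at this
        omega
    · intro w hw w' hw'
      have h1 := same_factor' (hxM w hw) (hxM w' hw')
      obtain ⟨c, hc⟩ := h1
      refine ⟨c, ?_⟩
      have hg1 : (ct M : ℤ) ≠ 0 := by exact_mod_cast hg0
      apply mul_right_cancel₀ hg1
      rw [hc, hm]; push_cast; ring
    · intro w hw
      obtain ⟨v1, v2, v3⟩ := hBm w hw
      have h1 := hκL w v1
      have h2 : |((κ w : ℤ) : ℝ)| = (ct M : ℝ) * m := by
        have : (((κ w).natAbs : ℕ) : ℝ) = |((κ w : ℤ) : ℝ)| := by rw [Nat.cast_natAbs, Int.cast_abs]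
        rw [← this, v2, hm]; push_cast; ring
      rw [h2] at h1
      have h3 : (ct M : ℝ) * sz w ≤ (ct M : ℝ) * (LL H * m) := by
        calc (ct M : ℝ) * sz w ≤ LL H * ((ct M : ℝ) * m) := h1
          _ = _ := by ring
      exact le_of_mul_le_mul_left h3 hgr
  refine (Finset.sum_le_sum hfib).trans ?_
  rw [Finset.sum_const, nsmul_eq_mul, Finset.card_product, Finset.card_range]
  apply mul_le_mul_of_nonneg_right _ (div_nonneg (by linarith) (by positivity))
  push_cast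
  apply mul_le_mul_of_nonneg_right _ (by positivity)
  exact_mod_cast hcard

/-- constant of the pair bound -/
def CB (H Dv : ℕ) : ℝ := 3 + 4 * (Dv * ((Nat.log 2 H + 1 : ℕ) : ℝ) * (2 + 8 * LL H))

theorem X_bound (X : Finset (List Bool)) (φ : List Bool → List Bool) (H ρ : ℕ) (k k' : List Bool) (hH : 1 ≤ H)
    (h : Hy H ρ k k' (fun l l' => l ∈ X ∧ l' = φ l)) (hne : ∀ l ∈ X, φ l ≠ l) {Dv : ℕ}
    (hDv : ∀ x : ℕ, 1 ≤ x → x ≤ H ^ 4 → x.divisors.card ≤ Dv) :
    (X.card : ℝ) ≤ CB H Dv * H * (1 / mm k) := by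
  have hL32 := LL_pos hH
  have hmk : (1 : ℝ) ≤ mm k := by exact_mod_cast mm_pos k
  have hHr : (1 : ℝ) ≤ H := by exact_mod_cast hH
  have hCB : 3 ≤ CB H Dv := by
    unfold CB
    have : (0 : ℝ) ≤ Dv * ((Nat.log 2 H + 1 : ℕ) : ℝ) * (2 + 8 * LL H) := by
      apply mul_nonneg (by positivity); linarith
    linarith
  rcases Finset.eq_empty_or_nonempty X with hX0 | ⟨l0, hl0⟩
  · rw [hX0, Finset.card_empty]; push_cast
    apply mul_nonneg (mul_nonneg (by linarith) (by linarith)) (by positivity)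
  have hrel : ∀ l ∈ X, k <+: l ∧ sz l ≤ H := by
    intro l hl
    obtain ⟨h1, h2, h3, h4, h5⟩ := h.rel l (φ l) ⟨hl, rfl⟩
    exact ⟨h1, h3⟩
  have hkH : sz k ≤ H := (sz_prefix (hrel l0 hl0).1).trans (hrel l0 hl0).2
  have hm2 : 2 * mm k ≤ H := (mm_two k).trans hkH
  have hm2r : 2 * (mm k : ℝ) ≤ H := by exact_mod_cast hm2
  have hHm : 2 ≤ (H : ℝ) * (1 / mm k) := by
    rw [mul_one_div, le_div_iff₀ (by linarith)]; exact hm2r
  by_cases hcard : X.card ≤ 1
  · have h1 : (X.card : ℝ) ≤ 1 := by exact_mod_cast hcard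
    have h2 : 3 * ((H : ℝ) * (1 / mm k)) ≤ CB H Dv * ((H : ℝ) * (1 / mm k)) :=
      mul_le_mul_of_nonneg_right hCB (by positivity)
    rw [← mul_assoc (CB H Dv)] at h2
    linarith
  · push Not at hcard
    obtain ⟨a, ha, b, hb, hab⟩ := Finset.one_lt_card.mp hcard
    set R : List Bool → List Bool → Prop := fun l l' => l ∈ X ∧ l' = φ l with hR
    have hneR : ∀ l l', R l l' → l ≠ l' := by
      rintro l l' ⟨h1, h2⟩ h3
      exact hne l h1 (by rw [← h2, ← h3])
    have hXR : ∀ l ∈ X, ∃ l', R l l' := fun l hl => ⟨φ l, hl, rfl⟩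
    have hsum : ∑ w ∈ (BS X H).filter (fun w => k <+: w), 1 / (sz w : ℝ) ≤
        Dv * ((Nat.log 2 H + 1 : ℕ) : ℝ) * ((2 + 8 * LL H) / mm k) := by
      have Ra : R a (φ a) := ⟨ha, rfl⟩
      have Rb : R b (φ b) := ⟨hb, rfl⟩
      rcases le_total (dl (desc root k)) (dl (desc root k')) with hdl | hdl
      · obtain ⟨S, -⟩ := h.sys hdl Ra Rb hab
        exact BS_sum S hH hneR hXR hDv
      · have hab' : φ a ≠ φ b := by
          intro h0
          apply hab
          exact h.inj (c := φ a) Ra ⟨hb, h0⟩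
        obtain ⟨-, S⟩ := h.symm.sys (a := φ a) (b := φ b) (a' := a) (b' := b) hdl Ra Rb hab'
        exact BS_sum S hH hneR hXR hDv
    have hcnt := cnt_br X H (fun l hl => (hrel l hl).2) (H + 1) k (by omega)
    have hcX : cnt X k = X.card := by
      unfold cnt; rw [Finset.filter_true_of_mem (fun l hl => (hrel l hl).1)]
    rw [hcX] at hcnt
    have hU : UU H k ≤ 3 * (H * (1 / mm k)) := by
      unfold UU; rw [if_pos hkH]
      have e1 : 2 * ((H : ℝ) - sz k) / mm k ≤ 2 * (H * (1 / mm k)) := by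
        rw [mul_one_div, ← mul_div_assoc]
        apply div_le_div_of_nonneg_right _ (by linarith)
        have : (0 : ℝ) ≤ sz k := by positivity
        linarith
      linarith
    have hsm : sm (BS X H) (fun w => 4 * (H : ℝ) / sz w) k ≤
        4 * H * (Dv * ((Nat.log 2 H + 1 : ℕ) : ℝ) * ((2 + 8 * LL H) / mm k)) := by
      unfold sm
      have e : ∀ w : List Bool, 4 * (H : ℝ) / sz w = 4 * H * (1 / sz w) := fun w => by rw [mul_one_div]
      simp only [e]
      rw [← Finset.mul_sum]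
      exact mul_le_mul_of_nonneg_left hsum (by positivity)
    have hfin : 3 * ((H : ℝ) * (1 / mm k)) + 4 * H * (Dv * ((Nat.log 2 H + 1 : ℕ) : ℝ) * ((2 + 8 * LL H) / mm k)) =
        CB H Dv * H * (1 / mm k) := by
      unfold CB; ring
    linarith

end

end Pool.Agent.TH913.MK
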