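import Mathlib
import Pool.Agent.TH913.MK.N8

set_option autoImplicit false

namespace Pool.Agent.TH913.MK

open Pool.Agent.H499R2

noncomputable section

lemma step_real {x y V : ℝ} (hx : 1 ≤ x) (hy : 1 ≤ y) (hV : 2 ≤ V) :
    (V - 3 * (Real.log (x + y + x) - Real.log (x + y))) * (1 / x) + 1 / y ≤ V * (1 / min x y) := by
  have hx0 : 0 < x := by linarith
  have hy0 : 0 < y := by linarith
  have hL : x / (x + y + x) ≤ Real.log (x + y + x) - Real.log (x + y) := by
    rw [← Real.log_div (by linarith) (by linarith)]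
    have h := Real.one_sub_inv_le_log_of_pos (x := (x + y + x) / (x + y)) (by positivity)
    have e : 1 - ((x + y + x) / (x + y))⁻¹ = x / (x + y + x) := by
      rw [inv_div]; field_simp; ring
    rw [e] at h; exact h
  set L := Real.log (x + y + x) - Real.log (x + y) with hLd
  rcases le_total x y with h | h
  · rw [min_eq_left h]
    have h1 : 1 / y ≤ 3 * (x / (x + y + x)) * (1 / x) := by
      have e : 3 * (x / (x + y + x)) * (1 / x) = 3 / (x + y + x) := by field_simp
      rw [e, div_le_div_iff₀ hy0 (by linarith)]; linarith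
    have h2 : 3 * (x / (x + y + x)) * (1 / x) ≤ 3 * L * (1 / x) := by
      apply mul_le_mul_of_nonneg_right _ (by positivity); linarith
    have h3 : (V - 3 * L) * (1 / x) = V * (1 / x) - 3 * L * (1 / x) := by ring
    rw [h3]; linarith
  · rw [min_eq_right h]
    have h1 : 1 / 3 ≤ x / (x + y + x) := by
      rw [div_le_div_iff₀ (by norm_num) (by linarith)]; linarith
    have h2 : (V - 3 * L) * (1 / x) ≤ (V - 1) * (1 / x) := by
      apply mul_le_mul_of_nonneg_right _ (by positivity); linarith
    have h3 : (V - 1) * (1 / x) ≤ (V - 1) * (1 / y) := by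
      apply mul_le_mul_of_nonneg_left _ (by linarith)
      exact one_div_le_one_div_of_le hy0 h
    have h4 : (V - 1) * (1 / y) + 1 / y = V * (1 / y) := by ring
    linarith

/-- the weight of a cone -/
def wm (i : List Bool) : ℝ := 1 / (mm i : ℝ)

lemma wm_nonneg (i : List Bool) : 0 ≤ wm i := by unfold wm; positivity

/-- the potential factor -/
def VV (σ : ℕ) (i : List Bool) : ℝ := 3 * (Real.log (2 * σ) - Real.log (sz i)) + 2

lemma VV_two {σ : ℕ} {i : List Bool} (h : sz i ≤ σ) : 2 ≤ VV σ i := by
  unfold VV
  have h0 : (0 : ℝ) < sz i := by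
    have := mm_two i; have := mm_pos i
    exact_mod_cast (by omega : 0 < sz i)
  have h1 : (sz i : ℝ) ≤ 2 * σ := by
    have : (sz i : ℝ) ≤ σ := by exact_mod_cast h
    linarith
  have h2 := Real.log_le_log h0 h1
  linarith

lemma mm_le_p (i : List Bool) : (mm i : ℝ) = min ((desc root i).p : ℝ) ((desc root i).q : ℝ) := by
  unfold mm; push_cast; rfl

theorem wm_ind {H ρ σ : ℕ} (hs : (10 : ℝ) ^ 20 * H ^ 20 ≤ 4 ^ ρ) (hH : 1 ≤ H) (hσ : σ ≤ H) (n : ℕ) :
    ∀ i, Big ρ i → Rt H i → σ + 1 ≤ sz i + n → sz i ≤ σ →
      sm (KS H ρ σ) wm i ≤ VV σ i * (1 / mm i) := by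
  induction n with
  | zero => intro i _ _ hi h; omega
  | succ n ih =>
    intro i hB hR hi hle
    have hnot : i ∉ KS H ρ σ := fun h => (mem_KS.mp h).2.2.1 hR
    rw [sm_rec, if_neg hnot, zero_add]
    have st := (sz_child i true).1
    have sf := (sz_child i false).1
    obtain ⟨hp, hq⟩ := pq_real i
    have hV := VV_two hle
    have hspq : (sz i : ℝ) = (desc root i).p + (desc root i).q := by exact_mod_cast (sz_pq i).symm
    have e1 : (mm (i ++ [true]) : ℝ) = (desc root i).p := by rw [mm_true]
    have e2 : (mm (i ++ [false]) : ℝ) = (desc root i).q := by rw [mm_false]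
    have i1 : sm (KS H ρ σ) wm (i ++ [true]) ≤ 1 / (desc root i).p ∨ Rt H (i ++ [true]) := by
      by_cases h : Rt H (i ++ [true])
      · exact Or.inr h
      · left
        have := sm_irr hs hH hσ (Big_child hB true) h wm_nonneg
        unfold wm at this
        rw [e1] at this
        exact this
    have i2 : sm (KS H ρ σ) wm (i ++ [false]) ≤ 1 / (desc root i).q ∨ Rt H (i ++ [false]) := by
      by_cases h : Rt H (i ++ [false])
      · exact Or.inr h
      · left
        have := sm_irr hs hH hσ (Big_child hB false) h wm_nonneg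
        unfold wm at this
        rw [e2] at this
        exact this
    have j1 : Rt H (i ++ [true]) → sm (KS H ρ σ) wm (i ++ [true]) ≤
        (VV σ i - 3 * (Real.log ((desc root i).p + (desc root i).q + (desc root i).p) -
          Real.log ((desc root i).p + (desc root i).q))) * (1 / (desc root i).p) ∨
          sm (KS H ρ σ) wm (i ++ [true]) = 0 := by
      intro h
      by_cases h4 : sz (i ++ [true]) ≤ σ
      · left
        have h5 := ih (i ++ [true]) (Big_child hB true) h (by omega) h4
        rw [e1] at h5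
        have e3 : (sz (i ++ [true]) : ℝ) = (desc root i).p + (desc root i).q + (desc root i).p := by
          rw [sz_true]; push_cast; rw [hspq]
        have e4 : VV σ (i ++ [true]) = VV σ i - 3 * (Real.log ((desc root i).p + (desc root i).q + (desc root i).p) -
          Real.log ((desc root i).p + (desc root i).q)) := by
          unfold VV; rw [e3, hspq]; ring
        rw [e4] at h5; exact h5
      · right; exact sm_big (by omega) _
    have j2 : Rt H (i ++ [false]) → sm (KS H ρ σ) wm (i ++ [false]) ≤
        (VV σ i - 3 * (Real.log ((desc root i).q + (desc root i).p + (desc root i).q) -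
          Real.log ((desc root i).q + (desc root i).p))) * (1 / (desc root i).q) ∨
          sm (KS H ρ σ) wm (i ++ [false]) = 0 := by
      intro h
      by_cases h4 : sz (i ++ [false]) ≤ σ
      · left
        have h5 := ih (i ++ [false]) (Big_child hB false) h (by omega) h4
        rw [e2] at h5
        have e3 : (sz (i ++ [false]) : ℝ) = (desc root i).q + (desc root i).p + (desc root i).q := by
          rw [sz_false]; push_cast; rw [hspq]; ring
        have e4 : VV σ (i ++ [false]) = VV σ i - 3 * (Real.log ((desc root i).q + (desc root i).p + (desc root i).q) -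
          Real.log ((desc root i).q + (desc root i).p)) := by
          unfold VV; rw [e3, hspq, add_comm ((desc root i).p : ℝ)]; ring
        rw [e4] at h5; exact h5
      · right; exact sm_big (by omega) _
    have r1 := step_real hp hq hV
    have r2 := step_real hq hp hV
    rw [min_comm] at r2
    rw [mm_le_p]
    have hm1 : (1 : ℝ) ≤ min ((desc root i).p : ℝ) ((desc root i).q : ℝ) := le_min hp hq
    have k1 : 1 / ((desc root i).p : ℝ) ≤ 1 / min ((desc root i).p : ℝ) ((desc root i).q : ℝ) :=
      one_div_le_one_div_of_le (by linarith) (min_le_left _ _)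
    have k2 : 1 / ((desc root i).q : ℝ) ≤ 1 / min ((desc root i).p : ℝ) ((desc root i).q : ℝ) :=
      one_div_le_one_div_of_le (by linarith) (min_le_right _ _)
    have k3 : 2 * (1 / min ((desc root i).p : ℝ) ((desc root i).q : ℝ)) ≤
        VV σ i * (1 / min ((desc root i).p : ℝ) ((desc root i).q : ℝ)) :=
      mul_le_mul_of_nonneg_right hV (by positivity)
    have k4 : 0 ≤ 1 / min ((desc root i).p : ℝ) ((desc root i).q : ℝ) := by positivity
    by_cases h : Rt H (i ++ [true])
    · have h2 : ¬ Rt H (i ++ [false]) := fun h3 => not_both hs hH hB (by omega) h h3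
      have a2 := i2.resolve_right h2
      rcases j1 h with a1 | a1
      · linarith
      · linarith
    · have a1 := i1.resolve_right h
      by_cases h2 : Rt H (i ++ [false])
      · rcases j2 h2 with a2 | a2
        · linarith
        · linarith
      · have a2 := i2.resolve_right h2
        linarith

theorem KS_wm {H ρ σ : ℕ} (hs : (10 : ℝ) ^ 20 * H ^ 20 ≤ 4 ^ ρ) (hH : 1 ≤ H) (hσ : σ ≤ H) (hσ1 : 1 ≤ σ) :
    ∑ k ∈ KS H ρ σ, 1 / (mm k : ℝ) ≤ (3 * Real.log (2 * σ) + 2) * WW ρ σ := by
  have h0 : ∑ k ∈ KS H ρ σ, 1 / (mm k : ℝ) = ∑ k ∈ KS H ρ σ, wm k := rfl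
  rw [h0]
  refine (KS_sum wm_nonneg).trans ?_
  unfold WW
  rw [Finset.mul_sum]
  apply Finset.sum_le_sum
  intro k0 hk0
  have hB := (mem_MS.mp hk0).2.1
  have hsz := (mem_MS.mp hk0).1
  have hm1 : (1 : ℝ) ≤ mm k0 := by exact_mod_cast mm_pos k0
  have hσr : (1 : ℝ) ≤ σ := by exact_mod_cast hσ1
  have hlog : 0 ≤ Real.log (2 * σ) := Real.log_nonneg (by linarith)
  have hs1 : (1 : ℝ) ≤ sz k0 := by
    have := mm_two k0; have := mm_pos k0
    exact_mod_cast (by omega : 1 ≤ sz k0)
  have hlog2 : 0 ≤ Real.log (sz k0) := Real.log_nonneg hs1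
  have hnn : 0 ≤ 1 / (mm k0 : ℝ) := by positivity
  by_cases hR : Rt H k0
  · have h1 := wm_ind hs hH hσ (σ + 1) k0 hB hR (by omega) hsz
    refine h1.trans (mul_le_mul_of_nonneg_right ?_ hnn)
    unfold VV; linarith
  · have h1 := sm_irr hs hH hσ hB hR wm_nonneg
    have h2 : wm k0 = 1 * (1 / (mm k0 : ℝ)) := by unfold wm; ring
    rw [h2] at h1
    exact h1.trans (mul_le_mul_of_nonneg_right (by linarith) hnn)

end

end Pool.Agent.TH913.MK
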