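import Mathlib
import Pool.Agent.TH913.MK.N9
import Pool.Agent.TH913.MK.F
import Pool.Agent.TH913.MK.K4

set_option autoImplicit false

namespace Pool.Agent.TH913.MK

open Pool.Agent.H499R2

noncomputable section

theorem NU_card2 {H ρ σ : ℕ} (hs : (10 : ℝ) ^ 20 * H ^ 20 ≤ 4 ^ ρ) (hρ : 2 ≤ ρ) (hH : 1 ≤ H) {Dv : ℕ}
    (hDv : ∀ x : ℕ, 1 ≤ x → x ≤ H ^ 4 → x.divisors.card ≤ Dv) :
    ((NU H).card : ℝ) ≤ 2 * (Bd H ρ σ).card +
      CB H Dv * H * (((KS H ρ σ).card : ℝ) * ∑ k ∈ KS H ρ σ, 1 / (mm k : ℝ)) := by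
  classical
  set B := Bd H ρ σ with hBd
  set S1 := (SW H).filter (fun l => l ∉ B ∧ ∃ l', sz l' ≤ H ∧ l' ∉ B ∧ l' ≠ l ∧ FF l' = FF l) with hS1
  set S2 := (SW H).filter (fun l => l ∉ B ∧ (∃ l', l' ∈ B ∧ FF l' = FF l) ∧
    ¬ ∃ l', sz l' ≤ H ∧ l' ∉ B ∧ l' ≠ l ∧ FF l' = FF l) with hS2
  have hcover : NU H ⊆ (B ∪ S2) ∪ S1 := by
    intro l hl
    obtain ⟨hl1, l', h1, h2, h3⟩ := mem_NU.mp hl
    rw [Finset.mem_union, Finset.mem_union]
    by_cases hb : l ∈ B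
    · exact Or.inl (Or.inl hb)
    · by_cases hex : ∃ l', sz l' ≤ H ∧ l' ∉ B ∧ l' ≠ l ∧ FF l' = FF l
      · right
        rw [hS1, Finset.mem_filter, mem_SW]
        exact ⟨hl1, hb, hex⟩
      · left; right
        rw [hS2, Finset.mem_filter, mem_SW]
        refine ⟨hl1, hb, ⟨l', ?_, h3⟩, hex⟩
        by_contra hb'
        exact hex ⟨l', h1, hb', h2, h3⟩
  have c2 : S2.card ≤ B.card := by
    have hch : ∀ l ∈ S2, ∃ l', l' ∈ B ∧ FF l' = FF l := by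
      intro l hl
      rw [hS2, Finset.mem_filter] at hl
      exact hl.2.2.1
    choose! ψ hψ1 hψ2 using hch
    apply Finset.card_le_card_of_injOn ψ (fun l hl => hψ1 l hl)
    intro a ha b hb hab
    by_contra hne
    have hfa := hψ2 a ha
    have hfb := hψ2 b hb
    have ha' := ha
    have hb' := hb
    simp only [hS2, Finset.coe_filter, Set.mem_ofPred_eq, mem_SW] at ha' hb'
    apply ha'.2.2.2
    exact ⟨b, hb'.1, hb'.2.1, Ne.symm hne, by rw [← hfb, ← hab, hfa]⟩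
  -- the main part
  have hch : ∀ l ∈ S1, ∃ l', sz l' ≤ H ∧ l' ∉ B ∧ l' ≠ l ∧ FF l' = FF l := by
    intro l hl
    rw [hS1, Finset.mem_filter] at hl
    exact hl.2.2
  choose! φ hφ1 hφ2 hφ3 hφ4 using hch
  have hK : ∀ l, sz l ≤ H → l ∉ B → ∃ k, k <+: l ∧ k ∈ KS H ρ σ := fun l h1 h2 => good h1 h2
  choose! K hK1 hK2 using hK
  have hS1m : ∀ l ∈ S1, sz l ≤ H ∧ l ∉ B := by
    intro l hl
    rw [hS1, Finset.mem_filter, mem_SW] at hl
    exact ⟨hl.1, hl.2.1⟩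
  have hmaps : ∀ l ∈ S1, (K l, K (φ l)) ∈ KS H ρ σ ×ˢ KS H ρ σ := by
    intro l hl
    obtain ⟨g1, g2⟩ := hS1m l hl
    rw [Finset.mem_product]
    exact ⟨hK2 l g1 g2, hK2 (φ l) (hφ1 l hl) (hφ2 l hl)⟩
  have c1 : (S1.card : ℝ) ≤ CB H Dv * H * (((KS H ρ σ).card : ℝ) * ∑ k ∈ KS H ρ σ, 1 / (mm k : ℝ)) := by
    have e1 := Finset.card_eq_sum_card_fiberwise (f := fun l => (K l, K (φ l))) (s := S1)
      (t := KS H ρ σ ×ˢ KS H ρ σ) (fun l hl => hmaps l hl)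
    have e2 : (S1.card : ℝ) = ∑ b ∈ KS H ρ σ ×ˢ KS H ρ σ, ((S1.filter (fun l => (K l, K (φ l)) = b)).card : ℝ) := by
      exact_mod_cast e1
    rw [e2]
    have e3 : ∀ b ∈ KS H ρ σ ×ˢ KS H ρ σ,
        ((S1.filter (fun l => (K l, K (φ l)) = b)).card : ℝ) ≤ CB H Dv * H * (1 / mm b.1) := by
      rintro ⟨k, k'⟩ hkk
      rw [Finset.mem_product, mem_KS, mem_KS] at hkk
      obtain ⟨⟨z1, z2⟩, ⟨z3, z4⟩⟩ := hkk
      set X := S1.filter (fun l => (K l, K (φ l)) = (k, k')) with hX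
      apply X_bound X φ H ρ k k' hH ?_ ?_ hDv
      · refine ⟨hs, hρ, z2.1.1, z2.1.2, z4.1.1, z4.1.2, Ir_of_not_Rt hH z2.2.1, Ir_of_not_Rt hH z4.2.1, ?_⟩
        rintro l l' ⟨hl, rfl⟩
        rw [hX, Finset.mem_filter] at hl
        obtain ⟨w1, w2⟩ := hS1m l hl.1
        have ek1 : K l = k := congrArg Prod.fst hl.2
        have ek1' : K (φ l) = k' := congrArg Prod.snd hl.2
        refine ⟨?_, ?_, w1, hφ1 l hl.1, hφ4 l hl.1⟩
        · rw [← ek1]; exact hK1 l w1 w2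
        · rw [← ek1']; exact hK1 (φ l) (hφ1 l hl.1) (hφ2 l hl.1)
      · intro l hl
        rw [hX, Finset.mem_filter] at hl
        exact hφ3 l hl.1
    refine (Finset.sum_le_sum e3).trans ?_
    rw [← Finset.mul_sum, Finset.sum_product]
    simp only [Finset.sum_const, nsmul_eq_mul]
    rw [← Finset.mul_sum]
  have h6 := Finset.card_le_card hcover
  have h7 := Finset.card_union_le (B ∪ S2) S1
  have h8 := Finset.card_union_le B S2
  have h9 : (NU H).card ≤ 2 * B.card + S1.card := by omega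
  have h10 : ((NU H).card : ℝ) ≤ 2 * B.card + S1.card := by exact_mod_cast h9
  linarith


end

end Pool.Agent.TH913.MK
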