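import Mathlib
import Pool.Agent.TH913.MK.N10

set_option autoImplicit false

namespace Pool.Agent.TH913.MK

open Pool.Agent.H499R2

noncomputable section

lemma CB_pos (H Dv : ℕ) (hH : 1 ≤ H) : 0 ≤ CB H Dv := by
  have hL32 := LL_pos hH
  unfold CB
  have : (0 : ℝ) ≤ Dv * ((Nat.log 2 H + 1 : ℕ) : ℝ) * (2 + 8 * LL H) := by
    apply mul_nonneg (by positivity); linarith
  linarith

theorem NU_bound2 {H ρ σ Dv : ℕ} {V E : ℝ} (hs : (10 : ℝ) ^ 20 * H ^ 20 ≤ 4 ^ ρ) (hρ : 2 ≤ ρ)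
    (hσ : 2 * ρ ≤ σ) (hσ2 : σ ^ 2 ≤ H) (hV : (ρ : ℝ) ^ 2 ≤ V) (hWV : WW ρ σ ≤ V)
    (hE : 3 * Real.log (2 * σ) + 2 ≤ E)
    (hDv : ∀ x : ℕ, 1 ≤ x → x ≤ H ^ 4 → x.divisors.card ≤ Dv) :
    ((NU H).card : ℝ) ≤ (58 * V + CB H Dv * (E * V ^ 2)) * ((H : ℝ) ^ 2 / σ) := by
  have hσ1 : 1 ≤ σ := by omega
  have hσ1r : (1 : ℝ) ≤ σ := by exact_mod_cast hσ1
  have hσ0 : (0 : ℝ) < σ := by linarith
  have hσH : σ ≤ H := by
    calc σ = σ ^ 1 := (pow_one σ).symm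
      _ ≤ σ ^ 2 := Nat.pow_le_pow_right hσ1 (by norm_num)
      _ ≤ H := hσ2
  have hH : 1 ≤ H := hσ1.trans hσH
  have hH1 : (1 : ℝ) ≤ H := by exact_mod_cast hH
  have hH0 : (0 : ℝ) < H := by linarith
  have hσ2r : (σ : ℝ) ^ 2 ≤ H := by exact_mod_cast hσ2
  have hσHr : (σ : ℝ) ≤ H := by exact_mod_cast hσH
  have hρ1 : (1 : ℝ) ≤ (ρ : ℝ) ^ 2 := by
    have : (1 : ℝ) ≤ ρ := by exact_mod_cast (by omega : 1 ≤ ρ)
    exact one_le_pow₀ this
  have hV1 : 1 ≤ V := by linarith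
  have h1 := NU_card2 (σ := σ) hs hρ hH hDv
  have h2 := Bd_card hs hρ hH hσH hσ
  have h3 := KS_card hs hH hσH
  have h4 := KS_wm hs hH hσH hσ1
  set T : ℝ := (H : ℝ) ^ 2 / σ with hT
  have hHT : (H : ℝ) ≤ T := by
    rw [hT, le_div_iff₀ hσ0]
    nlinarith
  have hHσT : (H : ℝ) * σ ≤ T := by
    rw [hT, le_div_iff₀ hσ0]
    calc (H : ℝ) * σ * σ = H * (σ : ℝ) ^ 2 := by ring
      _ ≤ H * H := mul_le_mul_of_nonneg_left hσ2r hH0.le
      _ = (H : ℝ) ^ 2 := by ring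
  have hT0 : 0 < T := by linarith
  have hW0 := WW_nonneg ρ σ
  -- bad part
  have b1 : 3 * (ρ : ℝ) ^ 2 * (H + 1) ≤ 6 * (V * T) := by
    calc 3 * (ρ : ℝ) ^ 2 * (H + 1) ≤ 3 * (ρ : ℝ) ^ 2 * (2 * T) := mul_le_mul_of_nonneg_left (by linarith) (by positivity)
      _ = 6 * ((ρ : ℝ) ^ 2 * T) := by ring
      _ ≤ 6 * (V * T) := by
          have := mul_le_mul_of_nonneg_right hV hT0.le
          linarith
  have b2 : (ρ : ℝ) ^ 2 * (2 * (4 * H / σ) + 1) * (H + 1) ≤ 18 * (V * T) := by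
    have e1 : 2 * (4 * (H : ℝ) / σ) + 1 ≤ 9 * (H / σ) := by
      have : (1 : ℝ) ≤ H / σ := by rw [one_le_div hσ0]; exact hσHr
      have e2 : 2 * (4 * (H : ℝ) / σ) = 8 * (H / σ) := by ring
      linarith
    have e3 : (0 : ℝ) ≤ H / σ := by positivity
    calc (ρ : ℝ) ^ 2 * (2 * (4 * H / σ) + 1) * (H + 1) ≤ (ρ : ℝ) ^ 2 * (9 * (H / σ)) * (2 * H) := by
          apply mul_le_mul (mul_le_mul_of_nonneg_left e1 (by positivity)) (by linarith) (by positivity) (by positivity)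
      _ = 18 * ((ρ : ℝ) ^ 2 * T) := by rw [hT]; ring
      _ ≤ 18 * (V * T) := by
          have := mul_le_mul_of_nonneg_right hV hT0.le
          linarith
  have b3 : 4 * (H : ℝ) ^ 2 / σ * WW ρ σ ≤ 4 * (V * T) := by
    calc 4 * (H : ℝ) ^ 2 / σ * WW ρ σ = 4 * (WW ρ σ * T) := by rw [hT]; ring
      _ ≤ 4 * (V * T) := by
          have := mul_le_mul_of_nonneg_right hWV hT0.le
          linarith
  have b4 : (σ : ℝ) ^ 2 ≤ V * T := by
    have e2 : T ≤ V * T := le_mul_of_one_le_left hT0.le hV1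
    linarith
  have bad : ((Bd H ρ σ).card : ℝ) ≤ 29 * (V * T) := by linarith
  -- main part
  have hE0 : 0 ≤ E := by
    have : 0 ≤ Real.log (2 * σ) := Real.log_nonneg (by linarith)
    linarith
  have hlog0 : 0 ≤ 3 * Real.log (2 * σ) + 2 := by
    have : 0 ≤ Real.log (2 * σ) := Real.log_nonneg (by linarith)
    linarith
  have hsum0 : 0 ≤ ∑ k ∈ KS H ρ σ, 1 / (mm k : ℝ) := Finset.sum_nonneg (fun k _ => by positivity)
  have m1 : ((KS H ρ σ).card : ℝ) * ∑ k ∈ KS H ρ σ, 1 / (mm k : ℝ) ≤ (σ * V) * (E * V) := by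
    apply mul_le_mul _ _ hsum0 (by positivity)
    · exact h3.trans (mul_le_mul_of_nonneg_left hWV hσ0.le)
    · exact h4.trans (mul_le_mul hE hWV hW0 hE0)
  have hCB := CB_pos H Dv hH
  have m2 : CB H Dv * H * (((KS H ρ σ).card : ℝ) * ∑ k ∈ KS H ρ σ, 1 / (mm k : ℝ)) ≤
      CB H Dv * (E * V ^ 2) * T := by
    calc CB H Dv * H * (((KS H ρ σ).card : ℝ) * ∑ k ∈ KS H ρ σ, 1 / (mm k : ℝ))
        ≤ CB H Dv * H * ((σ * V) * (E * V)) := mul_le_mul_of_nonneg_left m1 (by positivity)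
      _ = CB H Dv * (E * V ^ 2) * (H * σ) := by ring
      _ ≤ CB H Dv * (E * V ^ 2) * T := mul_le_mul_of_nonneg_left hHσT (by positivity)
  calc ((NU H).card : ℝ) ≤ 2 * (29 * (V * T)) + CB H Dv * (E * V ^ 2) * T := by linarith
    _ = (58 * V + CB H Dv * (E * V ^ 2)) * T := by ring

lemma sq_log_bound {l : ℕ} (hl : 31 ≤ l) : (88 * l + 1) ^ 2 ≤ 2 ^ (l - 1) := by
  induction l, hl using Nat.le_induction with
  | base => norm_num
  | succ n hn ih =>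
    have h1 : (88 * (n + 1) + 1) ^ 2 ≤ 2 * (88 * n + 1) ^ 2 := by nlinarith
    have h7 : 2 ^ (n + 1 - 1) = 2 * 2 ^ (n - 1) := by
      rw [← pow_succ']; congr 1; omega
    rw [h7]
    omega

lemma log_le_L {H : ℕ} (hH : 1 ≤ H) : Real.log H ≤ ((Nat.log 2 H + 1 : ℕ) : ℝ) := by
  have h1 : H < 2 ^ (Nat.log 2 H + 1) := Nat.lt_pow_succ_log_self (by norm_num) H
  have h2 : (H : ℝ) ≤ 2 ^ (Nat.log 2 H + 1) := by exact_mod_cast h1.le
  have hH0 : (0 : ℝ) < H := by exact_mod_cast hH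
  have h3 := Real.log_le_log hH0 h2
  rw [Real.log_pow] at h3
  have h4 : Real.log 2 ≤ 1 := by
    have := Real.log_two_lt_d9; linarith
  have h5 : (0 : ℝ) ≤ ((Nat.log 2 H + 1 : ℕ) : ℝ) := by positivity
  nlinarith

lemma LL_le {H L : ℕ} (hH : 1 ≤ H) (hL : L = Nat.log 2 H + 1) : LL H ≤ 64 * (L : ℝ) := by
  have hH0 : (0 : ℝ) < H := by exact_mod_cast hH
  have h1 := log_le_L hH
  rw [← hL] at h1
  have hL1 : (1 : ℝ) ≤ L := by rw [hL]; push_cast; linarith [Nat.cast_nonneg (α := ℝ) (Nat.log 2 H)]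
  have h2 : Real.log 2 ≤ 1 := by
    have := Real.log_two_lt_d9; linarith
  unfold LL
  rw [Real.log_mul (by norm_num) (by positivity), Real.log_pow]
  push_cast
  linarith

lemma CB_le {H L Dv : ℕ} (hH : 1 ≤ H) (hL : L = Nat.log 2 H + 1) (hD : 1 ≤ Dv) :
    CB H Dv ≤ 2100 * (Dv * (L : ℝ) ^ 2) := by
  have hL1 : (1 : ℝ) ≤ L := by rw [hL]; push_cast; linarith [Nat.cast_nonneg (α := ℝ) (Nat.log 2 H)]
  have hDr : (1 : ℝ) ≤ Dv := by exact_mod_cast hD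
  have h1 := LL_le hH hL
  have h2 := LL_pos hH
  unfold CB
  rw [← hL]
  have h3 : 2 + 8 * LL H ≤ 514 * (L : ℝ) := by linarith
  have h4 : (Dv : ℝ) * L * (2 + 8 * LL H) ≤ Dv * L * (514 * L) := mul_le_mul_of_nonneg_left h3 (by positivity)
  have h5 : (1 : ℝ) ≤ Dv * (L : ℝ) ^ 2 := by
    have : (1 : ℝ) ≤ (L : ℝ) ^ 2 := one_le_pow₀ hL1
    nlinarith
  have h6 : (Dv : ℝ) * L * (514 * L) = 514 * (Dv * (L : ℝ) ^ 2) := by ring
  rw [h6] at h4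
  linarith

/-- bound with an arbitrary bound for the number of divisors -/
theorem NU_main5 : ∃ C : ℝ, 0 < C ∧ ∀ H Dv : ℕ, 1 ≤ H → 1 ≤ Dv →
    (∀ x : ℕ, 1 ≤ x → x ≤ H ^ 4 → x.divisors.card ≤ Dv) →
    ((NU H).card : ℝ) ≤ C * (Dv * ((Nat.log 2 H + 1 : ℕ) : ℝ) ^ 9) * (H : ℝ) ^ (3 / 2 : ℝ) := by
  refine ⟨2 ^ 30 + 2 * (58 * (54 * 44 ^ 2) + 2100 * (8 * (54 * 44 ^ 2) ^ 2)), by positivity, ?_⟩
  intro H Dv hH hD hDv
  have hH1 : (1 : ℝ) ≤ H := by exact_mod_cast hH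
  have hH0 : (0 : ℝ) < H := by linarith
  have hDr : (1 : ℝ) ≤ Dv := by exact_mod_cast hD
  set x : ℝ := (H : ℝ) ^ (1 / 2 : ℝ) with hx
  have hx0 : 0 < x := Real.rpow_pos_of_pos hH0 _
  have hx1 : 1 ≤ x := Real.one_le_rpow hH1 (by norm_num)
  have hx2 : x ^ 2 = H := by
    rw [hx, ← Real.rpow_natCast, ← Real.rpow_mul hH0.le]; norm_num
  have hxH : x ≤ H := by
    rw [← hx2]
    calc x = x ^ 1 := (pow_one x).symm
      _ ≤ x ^ 2 := pow_le_pow_right₀ hx1 (by norm_num)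
  have hpow : (H : ℝ) ^ (3 / 2 : ℝ) = (H : ℝ) ^ 2 / x := by
    rw [eq_div_iff hx0.ne', hx, ← Real.rpow_natCast, ← Real.rpow_add hH0]; norm_num
  rw [hpow]
  set L := Nat.log 2 H + 1 with hL
  have hL1 : (1 : ℝ) ≤ (L : ℝ) := by exact_mod_cast (by omega : 1 ≤ L)
  have hL9 : (1 : ℝ) ≤ (L : ℝ) ^ 9 := one_le_pow₀ hL1
  have hDL : (1 : ℝ) ≤ Dv * (L : ℝ) ^ 9 := by nlinarith
  have hlow : 2 ^ (L - 1) ≤ H := by
    have := Nat.pow_log_le_self 2 (by omega : H ≠ 0)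
    rw [hL]; simpa using this
  have hup : H < 2 ^ L := Nat.lt_pow_succ_log_self (by norm_num) H
  by_cases hcase : L ≤ 30
  · have h6 : ((NU H).card : ℝ) ≤ (H : ℝ) ^ 2 := by
      classical
      have h7 : (NU H).card ≤ (SW H).card := by
        unfold NU; exact Finset.card_filter_le _ _
      have h8 := card_SW H
      exact_mod_cast (show (NU H).card ≤ H ^ 2 by omega)
    have h60 : x ≤ 2 ^ 30 := by
      have h9 : H ≤ 2 ^ 30 := hup.le.trans (Nat.pow_le_pow_right (by norm_num) hcase)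
      have h10 : (H : ℝ) ≤ 2 ^ 30 := by exact_mod_cast h9
      linarith
    have h11 : (H : ℝ) ^ 2 ≤ 2 ^ 30 * 1 * ((H : ℝ) ^ 2 / x) := by
      rw [mul_one, mul_div_assoc', le_div_iff₀ hx0, mul_comm]
      exact mul_le_mul_of_nonneg_right h60 (by positivity)
    refine h6.trans (h11.trans ?_)
    apply mul_le_mul_of_nonneg_right _ (by positivity)
    apply mul_le_mul _ hDL (by norm_num) (by positivity)
    have : (0 : ℝ) ≤ 2 * (58 * (54 * 44 ^ 2) + 2100 * (8 * (54 * 44 ^ 2) ^ 2)) := by positivity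
    linarith
  · push Not at hcase
    set σ := Nat.sqrt H with hσ
    have hσ2 : σ ^ 2 ≤ H := Nat.sqrt_le' _
    have hσup : H < (σ + 1) ^ 2 := Nat.lt_succ_sqrt' _
    have hσρ : 88 * L ≤ σ := by
      by_contra hcon
      push Not at hcon
      have h1 := sq_log_bound (l := L) (by omega)
      have h2 : (σ + 1) ^ 2 ≤ (88 * L + 1) ^ 2 := Nat.pow_le_pow_left (by omega) 2
      omega
    have hs : (10 : ℝ) ^ 20 * (H : ℝ) ^ 20 ≤ 4 ^ (44 * L) := hs_of (by omega) hup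
    have hσH : σ ≤ H := Nat.sqrt_le_self H
    set c : ℝ := 54 * 44 ^ 2 with hc
    set V : ℝ := c * (L : ℝ) ^ 3 with hV
    have hVe : V = 54 * ((44 * L : ℕ) : ℝ) ^ 2 * (L : ℝ) := by rw [hV, hc]; push_cast; ring
    have hW : WW (44 * L) σ ≤ V := by
      refine (WW_le (by omega) σ).trans ?_
      rw [hVe]
      apply mul_le_mul_of_nonneg_left _ (by positivity)
      have := Nat.log_mono_right (b := 2) hσH
      exact_mod_cast (by omega : Nat.log 2 σ + 1 ≤ L)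
    have hρV : ((44 * L : ℕ) : ℝ) ^ 2 ≤ V := by
      rw [hVe]
      have h0 : (0 : ℝ) ≤ ((44 * L : ℕ) : ℝ) ^ 2 := by positivity
      nlinarith
    have hσ1 : 1 ≤ σ := by omega
    have hσ0 : (0 : ℝ) < σ := by exact_mod_cast hσ1
    have hE : 3 * Real.log (2 * σ) + 2 ≤ 8 * (L : ℝ) := by
      have h1 := log_le_L hH
      rw [← hL] at h1
      have h2 : Real.log σ ≤ Real.log H := Real.log_le_log hσ0 (by exact_mod_cast hσH)
      have h3 : Real.log 2 ≤ 1 := by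
        have := Real.log_two_lt_d9; linarith
      rw [Real.log_mul (by norm_num) hσ0.ne']
      have hL2 : (31 : ℝ) ≤ (L : ℝ) := by exact_mod_cast (by omega : 31 ≤ L)
      linarith
    have hmain := NU_bound2 (H := H) (ρ := 44 * L) (σ := σ) hs (by omega) (by omega) hσ2 hρV hW hE hDv
    have hxσ : x ≤ 2 * σ := by
      have h1 : (H : ℝ) < ((σ : ℝ) + 1) ^ 2 := by exact_mod_cast hσup
      rw [← hx2] at h1
      have h2 : x < (σ : ℝ) + 1 := lt_of_pow_lt_pow_left₀ 2 (by positivity) h1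
      have h3 : (1 : ℝ) ≤ σ := by exact_mod_cast hσ1
      linarith
    have h5 : (H : ℝ) ^ 2 / σ ≤ 2 * ((H : ℝ) ^ 2 / x) := by
      rw [mul_div_assoc', div_le_div_iff₀ hσ0 hx0]
      have : 0 ≤ (H : ℝ) ^ 2 := by positivity
      nlinarith
    have hCB := CB_le (H := H) (L := L) hH hL hD
    have hc0 : (0 : ℝ) ≤ c := by rw [hc]; norm_num
    have k1 : 58 * V ≤ 58 * c * (Dv * (L : ℝ) ^ 9) := by
      have e1 : (L : ℝ) ^ 3 ≤ (L : ℝ) ^ 9 := pow_le_pow_right₀ hL1 (by norm_num)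
      have e2 : (L : ℝ) ^ 9 ≤ Dv * (L : ℝ) ^ 9 := le_mul_of_one_le_left (by positivity) hDr
      rw [hV]
      calc 58 * (c * (L : ℝ) ^ 3) = 58 * c * (L : ℝ) ^ 3 := by ring
        _ ≤ 58 * c * (Dv * (L : ℝ) ^ 9) := mul_le_mul_of_nonneg_left (e1.trans e2) (by positivity)
    have k2 : CB H Dv * (8 * (L : ℝ) * V ^ 2) ≤ 2100 * (8 * c ^ 2) * (Dv * (L : ℝ) ^ 9) := by
      calc CB H Dv * (8 * (L : ℝ) * V ^ 2) ≤ 2100 * (Dv * (L : ℝ) ^ 2) * (8 * (L : ℝ) * V ^ 2) :=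
            mul_le_mul_of_nonneg_right hCB (by positivity)
        _ = 2100 * (8 * c ^ 2) * (Dv * (L : ℝ) ^ 9) := by rw [hV]; ring
    have k3 : 58 * V + CB H Dv * (8 * (L : ℝ) * V ^ 2) ≤
        (58 * c + 2100 * (8 * c ^ 2)) * (Dv * (L : ℝ) ^ 9) := by
      calc _ ≤ 58 * c * (Dv * (L : ℝ) ^ 9) + 2100 * (8 * c ^ 2) * (Dv * (L : ℝ) ^ 9) := add_le_add k1 k2
        _ = _ := by ring
    have hT0 : (0 : ℝ) ≤ (H : ℝ) ^ 2 / σ := by positivity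
    have hT1 : (0 : ℝ) ≤ (H : ℝ) ^ 2 / x := by positivity
    calc ((NU H).card : ℝ) ≤ (58 * V + CB H Dv * (8 * (L : ℝ) * V ^ 2)) * ((H : ℝ) ^ 2 / σ) := hmain
      _ ≤ ((58 * c + 2100 * (8 * c ^ 2)) * (Dv * (L : ℝ) ^ 9)) * ((H : ℝ) ^ 2 / σ) :=
          mul_le_mul_of_nonneg_right k3 hT0
      _ ≤ ((58 * c + 2100 * (8 * c ^ 2)) * (Dv * (L : ℝ) ^ 9)) * (2 * ((H : ℝ) ^ 2 / x)) :=
          mul_le_mul_of_nonneg_left h5 (by positivity)
      _ = (2 * (58 * c + 2100 * (8 * c ^ 2))) * (Dv * (L : ℝ) ^ 9) * ((H : ℝ) ^ 2 / x) := by ring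
      _ ≤ (2 ^ 30 + 2 * (58 * c + 2100 * (8 * c ^ 2))) * (Dv * (L : ℝ) ^ 9) * ((H : ℝ) ^ 2 / x) := by
          apply mul_le_mul_of_nonneg_right _ hT1
          apply mul_le_mul_of_nonneg_right _ (by positivity)
          linarith

end

end Pool.Agent.TH913.MK
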