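import Mathlib
import Pool.Agent.TH913.MK.N11
import Pool.Agent.H510R2.Div

set_option autoImplicit false

namespace Pool.Agent.TH913.MK

open Pool.Agent.H499R2

noncomputable section

lemma L_le_rpow {δ : ℝ} (hδ : 0 < δ) {H : ℕ} (hH : 1 ≤ H) :
    ((Nat.log 2 H + 1 : ℕ) : ℝ) ≤ (1 + 2 / δ) * (H : ℝ) ^ δ := by
  have hH1 : (1 : ℝ) ≤ H := by exact_mod_cast hH
  have hH0 : (0 : ℝ) < H := by linarith
  have h1 : 2 ^ Nat.log 2 H ≤ H := Nat.pow_log_le_self 2 (by omega)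
  have h2 : ((2 : ℝ) ^ Nat.log 2 H) ≤ H := by exact_mod_cast h1
  have h3 := Real.log_le_log (by positivity) h2
  rw [Real.log_pow] at h3
  have h4 := Real.log_two_gt_d9
  have h5 : (Nat.log 2 H : ℝ) ≤ 2 * Real.log H := by
    have : (0 : ℝ) ≤ Nat.log 2 H := by positivity
    nlinarith
  have h6 := Real.log_le_rpow_div hH0.le hδ
  have h7 : (1 : ℝ) ≤ (H : ℝ) ^ δ := Real.one_le_rpow hH1 hδ.le
  have h8 : (1 + 2 / δ) * (H : ℝ) ^ δ = (H : ℝ) ^ δ + 2 * ((H : ℝ) ^ δ / δ) := by ring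
  rw [h8]
  push_cast
  linarith

theorem NU_theta (θ : ℝ) (hθ : θ < 1 / 2) : ∃ C : ℝ, 0 < C ∧ ∀ H : ℕ, 1 ≤ H →
    ((NU H).card : ℝ) ≤ C * ((Nat.log 2 H + 1 : ℕ) : ℝ) ^ 0 * (H : ℝ) ^ (2 - θ) := by
  obtain ⟨C1, hC1, hmain⟩ := NU_main5
  set δ : ℝ := 1 / 2 - θ with hδd
  have hδ : 0 < δ := by rw [hδd]; linarith
  obtain ⟨D, hD, hdiv⟩ := Pool.Agent.H510R2.divisor_bound (δ / 8) (by positivity)
  set K : ℝ := (1 + 2 / (δ / 18)) ^ 9 with hK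
  have hK0 : 0 < K := by positivity
  refine ⟨C1 * (D * K), by positivity, ?_⟩
  intro H hH
  have hH1 : (1 : ℝ) ≤ H := by exact_mod_cast hH
  have hH0 : (0 : ℝ) < H := by linarith
  have hpow4 : ((H : ℝ) ^ 4) ^ (δ / 8) = (H : ℝ) ^ (δ / 2) := by
    rw [← Real.rpow_natCast, ← Real.rpow_mul hH0.le]
    congr 1
    push_cast
    ring
  have hd : ∀ x : ℕ, 1 ≤ x → x ≤ H ^ 4 → (x.divisors.card : ℝ) ≤ D * (H : ℝ) ^ (δ / 2) := by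
    intro x hx1 hx4
    have h1 := hdiv x hx1
    have h2 : (x : ℝ) ^ (δ / 8) ≤ ((H : ℝ) ^ 4) ^ (δ / 8) := by
      apply Real.rpow_le_rpow (by positivity) _ (by positivity)
      exact_mod_cast hx4
    rw [hpow4] at h2
    exact h1.trans (mul_le_mul_of_nonneg_left h2 hD.le)
  set Dv : ℕ := ⌊D * (H : ℝ) ^ (δ / 2)⌋₊ with hDv
  have hd' : ∀ x : ℕ, 1 ≤ x → x ≤ H ^ 4 → x.divisors.card ≤ Dv := fun x h1 h2 => Nat.le_floor (hd x h1 h2)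
  have hD1 : 1 ≤ Dv := by
    have := hd' 1 (le_refl _) (Nat.one_le_pow _ _ hH)
    simpa using this
  have hDle : (Dv : ℝ) ≤ D * (H : ℝ) ^ (δ / 2) := Nat.floor_le (by positivity)
  have h1 := hmain H Dv hH hD1 hd'
  have h2 : ((Nat.log 2 H + 1 : ℕ) : ℝ) ^ 9 ≤ K * (H : ℝ) ^ (δ / 2) := by
    have h3 := L_le_rpow (δ := δ / 18) (by positivity) hH
    have h4 : ((Nat.log 2 H + 1 : ℕ) : ℝ) ^ 9 ≤ ((1 + 2 / (δ / 18)) * (H : ℝ) ^ (δ / 18)) ^ 9 :=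
      pow_le_pow_left₀ (by positivity) h3 9
    rw [mul_pow, ← hK] at h4
    have h5 : ((H : ℝ) ^ (δ / 18)) ^ 9 = (H : ℝ) ^ (δ / 2) := by
      rw [← Real.rpow_natCast, ← Real.rpow_mul hH0.le]
      congr 1
      push_cast
      ring
    rw [h5] at h4
    exact h4
  have h6 : (H : ℝ) ^ (δ / 2) * (H : ℝ) ^ (δ / 2) * (H : ℝ) ^ (3 / 2 : ℝ) = (H : ℝ) ^ (2 - θ) := by
    rw [← Real.rpow_add hH0, ← Real.rpow_add hH0]
    congr 1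
    rw [hδd]; ring
  have hr0 : 0 ≤ (H : ℝ) ^ (3 / 2 : ℝ) := Real.rpow_nonneg hH0.le _
  have hr1 : 0 ≤ (H : ℝ) ^ (δ / 2) := Real.rpow_nonneg hH0.le _
  calc ((NU H).card : ℝ) ≤ C1 * (Dv * ((Nat.log 2 H + 1 : ℕ) : ℝ) ^ 9) * (H : ℝ) ^ (3 / 2 : ℝ) := h1
    _ ≤ C1 * ((D * (H : ℝ) ^ (δ / 2)) * (K * (H : ℝ) ^ (δ / 2))) * (H : ℝ) ^ (3 / 2 : ℝ) := by
        apply mul_le_mul_of_nonneg_right _ hr0
        apply mul_le_mul_of_nonneg_left _ hC1.le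
        exact mul_le_mul hDle h2 (by positivity) (by positivity)
    _ = C1 * (D * K) * ((H : ℝ) ^ (δ / 2) * (H : ℝ) ^ (δ / 2) * (H : ℝ) ^ (3 / 2 : ℝ)) := by ring
    _ = C1 * (D * K) * ((Nat.log 2 H + 1 : ℕ) : ℝ) ^ 0 * (H : ℝ) ^ (2 - θ) := by rw [h6, pow_zero, mul_one]

end

end Pool.Agent.TH913.MK
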