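import Mathlib
import Pool.Agent.TH913.MK.E

set_option autoImplicit false

namespace Pool.Agent.TH913.MK

open Pool.Agent.H499R2

noncomputable section

lemma ell_lf (X : Nd) (z : ℤ × ℤ) : ell (lf X) z = ell X z - cv X z * df X := by
  unfold ell df
  rw [cu_lf, cv_lf, al_lf, be_lf]; push_cast; ring

lemma ell_rt (X : Nd) (z : ℤ × ℤ) : ell (rt X) z = ell X z - cu X z * df X := by
  unfold ell df
  rw [cu_rt, cv_rt, al_rt, be_rt]; push_cast; ring

lemma ell_split (X : Nd) (z : ℤ × ℤ) : ell X z = z.1 * ell X (1, 0) - z.2 * ell X (0, -1) := by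
  unfold ell cu cv; push_cast; ring

/-- variation of the form at an arbitrary vector -/
lemma ell_any {k l : List Bool} (h : k <+: l) (z : ℤ × ℤ) :
    |ell (desc root k) z - ell (desc root l) z| ≤ sz k * nm z * dl (desc root k) := by
  have h1 := ell_var1 h (d := (1, 0)) ⟨by norm_num, by norm_num⟩
  have h2 := ell_var1 h (d := (0, -1)) ⟨by norm_num, by norm_num⟩
  have n1 : nm ((1, 0) : ℤ × ℤ) = 1 := by unfold nm; simp
  have n2 : nm ((0, -1) : ℤ × ℤ) = 1 := by unfold nm; simp
  rw [n1, mul_one] at h1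
  rw [n2, mul_one] at h2
  rw [ell_split (desc root k) z, ell_split (desc root l) z]
  have e : (z.1 : ℝ) * ell (desc root k) (1, 0) - z.2 * ell (desc root k) (0, -1) -
      (z.1 * ell (desc root l) (1, 0) - z.2 * ell (desc root l) (0, -1)) =
      z.1 * (ell (desc root k) (1, 0) - ell (desc root l) (1, 0)) -
      z.2 * (ell (desc root k) (0, -1) - ell (desc root l) (0, -1)) := by ring
  rw [e]
  refine (abs_sub _ _).trans ?_
  rw [abs_mul, abs_mul]
  unfold nm
  have a1 := mul_le_mul_of_nonneg_left h1 (abs_nonneg (z.1 : ℝ))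
  have a2 := mul_le_mul_of_nonneg_left h2 (abs_nonneg (z.2 : ℝ))
  calc _ ≤ |(z.1 : ℝ)| * (sz k * dl (desc root k)) + |(z.2 : ℝ)| * (sz k * dl (desc root k)) := add_le_add a1 a2
    _ = _ := by ring

lemma ell_true (X : Nd) (n : ℕ) : Valid X → ∀ z, 0 ≤ cv X z → ell (desc X (List.replicate n true)) z ≤ ell X z := by
  induction n generalizing X with
  | zero => intro _ z _; exact le_refl _
  | succ n ih =>
    intro h z hz
    have h1 := ih (lf X) h.lf z hz
    have h2 := ell_lf X z
    have h3 := df_pos h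
    have h4 : (0 : ℝ) ≤ cv X z := by exact_mod_cast hz
    have h5 : 0 ≤ (cv X z : ℝ) * df X := mul_nonneg h4 h3.le
    show ell (desc (lf X) (List.replicate n true)) z ≤ ell X z
    linarith

lemma ell_false (X : Nd) (n : ℕ) : Valid X → ∀ z, 0 ≤ cu X z → ell (desc X (List.replicate n false)) z ≤ ell X z := by
  induction n generalizing X with
  | zero => intro _ z _; exact le_refl _
  | succ n ih =>
    intro h z hz
    have h1 := ih (rt X) h.rt z hz
    have h2 := ell_rt X z
    have h3 := df_pos h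
    have h4 : (0 : ℝ) ≤ cu X z := by exact_mod_cast hz
    have h5 : 0 ≤ (cu X z : ℝ) * df X := mul_nonneg h4 h3.le
    show ell (desc (rt X) (List.replicate n false)) z ≤ ell X z
    linarith

/-- `k` is a side exit of the spine `P` at the node `i` -/
def Ex (P k : List Bool) : Prop := ∃ i b, k = i ++ [!b] ∧ i ++ [b] <+: P

/-- two-sided estimate for the words below a side exit -/
def TS (H : ℕ) (P k : List Bool) : Prop :=
  ∀ l, k <+: l → sz l ≤ H →
    dl (desc root k.dropLast) / 50 ≤ FF l - ell (desc root P) (zz l) ∧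
    FF l - ell (desc root P) (zz l) ≤ 2 * (H : ℝ) ^ 2 * dl (desc root k.dropLast)

/-- the two-sided estimate from a lower bound for the drop along the spine -/
theorem TS_of {H ρ : ℕ} (hs : (10 : ℝ) ^ 20 * H ^ 20 ≤ 4 ^ ρ) (hH : 1 ≤ H) {P i : List Bool} {b : Bool}
    (hP : i ++ [b] <+: P) (hB : Big ρ (i ++ [!b]))
    (hdrop : ∀ l, i ++ [!b] <+: l → sz l ≤ H →
      - (dl (desc root i) / 200) ≤ ell (desc root (i ++ [b])) (zz l) - ell (desc root P) (zz l)) :
    TS H P (i ++ [!b]) := by
  intro l hl hsz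
  rw [List.dropLast_concat]
  have hd := hdrop l hl hsz
  have hv := valid_root.desc i
  have hH1 : (1 : ℝ) ≤ H := by exact_mod_cast hH
  have hY : (0 : ℝ) < 4 ^ ρ := by positivity
  have hszr : (sz l : ℝ) ≤ H := by exact_mod_cast hsz
  have hdl := dl_pos hv
  have hdf1 := df_lower hv
  have hdf2 := df_le hv
  obtain ⟨f1, f2⟩ := F_closed (i ++ [!b]) l (inC_of_prefix hl)
  obtain ⟨c1, c2⟩ := prefix_inC hl
  have hc := sz_coord (valid_root.desc (i ++ [!b])) l
  have hil : i <+: l := (List.prefix_append i [!b]).trans hl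
  have hszi : (sz i : ℝ) ≤ H := by
    have := sz_prefix hil
    exact_mod_cast (by omega : sz i ≤ H)
  have hszb : (sz (i ++ [b]) : ℝ) ≤ 2 * H := by
    have := (sz_child i b).2
    have h2 : (sz (i ++ [b]) : ℝ) ≤ 2 * sz i := by exact_mod_cast this
    linarith
  have hany := ell_any hP (zz l)
  rw [nm_zz] at hany
  have hdb := dl_child i b
  have hdb0 := dl_pos (valid_root.desc (i ++ [b]))
  have hup : ell (desc root (i ++ [b])) (zz l) - ell (desc root P) (zz l) ≤ (H : ℝ) ^ 2 * dl (desc root i) / 2 := by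
    have h1 := (abs_le.mp hany).2
    have h2 : (sz (i ++ [b]) : ℝ) * sz l * dl (desc root (i ++ [b])) ≤ 2 * H * H * (dl (desc root i) / 4) := by
      apply mul_le_mul _ hdb hdb0.le (by positivity)
      exact mul_le_mul hszb hszr (by positivity) (by positivity)
    have h3 : 2 * (H : ℝ) * H * (dl (desc root i) / 4) = (H : ℝ) ^ 2 * dl (desc root i) / 2 := by ring
    linarith
  -- the size of the gap
  have hgap : ∃ y : ℤ, 1 ≤ y ∧ y ≤ H ∧ ell (desc root (i ++ [!b])) (zz l) =
      ell (desc root (i ++ [b])) (zz l) + y * df (desc root i) := by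
    have hp1 := (valid_root.desc (i ++ [!b])).p1
    have hq1 := (valid_root.desc (i ++ [!b])).q1
    have hszl : (sz l : ℤ) ≤ H := by exact_mod_cast hsz
    have b1 : cu (desc root (i ++ [!b])) (zz l) ≤ H := by nlinarith
    have b2 : cv (desc root (i ++ [!b])) (zz l) ≤ H := by nlinarith
    cases b
    · -- b = false, the exit is the left child
      refine ⟨cu (desc root (i ++ [true])) (zz l), c1, b1, ?_⟩
      show ell (desc root (i ++ [true])) (zz l) = _
      rw [desc_snoc, desc_snoc]
      show ell (lf (desc root i)) (zz l) = ell (rt (desc root i)) (zz l) + _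
      rw [ell_lf, ell_rt]
      show _ = _ + ((cu (lf (desc root i)) (zz l) : ℤ) : ℝ) * _
      rw [cu_lf]; push_cast; ring
    · refine ⟨cv (desc root (i ++ [false])) (zz l), c2, b2, ?_⟩
      show ell (desc root (i ++ [false])) (zz l) = _
      rw [desc_snoc, desc_snoc]
      show ell (rt (desc root i)) (zz l) = ell (lf (desc root i)) (zz l) + _
      rw [ell_lf, ell_rt]
      show _ = _ + ((cv (rt (desc root i)) (zz l) : ℤ) : ℝ) * _
      rw [cv_rt]; push_cast; ring
  have hdk : dl (desc root (i ++ [!b])) ≤ dl (desc root i) / 4 ^ ρ := by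
    unfold Big at hB
    rw [desc_snoc] at hB ⊢
    cases b
    · apply dl_lf_le hv ρ
      exact hB.1
    · apply dl_rt_le hv ρ
      exact hB.2
  obtain ⟨y, y1, y2, ey⟩ := hgap
  have y1r : (1 : ℝ) ≤ y := by exact_mod_cast y1
  have y2r : (y : ℝ) ≤ H := by exact_mod_cast y2
  have hdf0 := df_pos hv
  have g1 : df (desc root i) ≤ y * df (desc root i) := le_mul_of_one_le_left hdf0.le y1r
  have g2 : y * df (desc root i) ≤ H * dl (desc root i) := mul_le_mul y2r hdf2 hdf0.le (by positivity)
  have g3 : 2 * dl (desc root (i ++ [!b])) * sz l ≤ dl (desc root i) / 200 := by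
    have h1 : 2 * dl (desc root (i ++ [!b])) * sz l ≤ 2 * (dl (desc root i) / 4 ^ ρ) * H := by
      apply mul_le_mul _ hszr (by positivity) (by positivity)
      linarith
    have h2 : 2 * (dl (desc root i) / 4 ^ ρ) * H = dl (desc root i) * (2 * H / 4 ^ ρ) := by ring
    have h3 : 2 * (H : ℝ) / 4 ^ ρ ≤ 1 / 200 := by
      rw [div_le_div_iff₀ hY (by norm_num)]
      have : (H : ℝ) ≤ H ^ 20 := by
        calc (H : ℝ) = H ^ 1 := (pow_one _).symm
          _ ≤ H ^ 20 := pow_le_pow_right₀ hH1 (by norm_num)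
      linarith
    have h4 := mul_le_mul_of_nonneg_left h3 hdl.le
    linarith
  have hH2 : (H : ℝ) ≤ H ^ 2 := by nlinarith
  have g4 : (H : ℝ) * dl (desc root i) ≤ H ^ 2 * dl (desc root i) := mul_le_mul_of_nonneg_right hH2 hdl.le
  constructor
  · linarith
  · linarith

/-- spine along a cusp -/
theorem TS_cusp {H ρ : ℕ} (hs : (10 : ℝ) ^ 20 * H ^ 20 ≤ 4 ^ ρ) (hH : 1 ≤ H) {i : List Bool} {b : Bool} {n : ℕ}
    (hB : Big ρ (i ++ [!b])) : TS H (i ++ List.replicate (n + 1) b) (i ++ [!b]) := by
  have hP : i ++ [b] <+: i ++ List.replicate (n + 1) b := by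
    rw [List.prefix_append_right_inj, List.replicate_succ]
    exact ⟨List.replicate n b, rfl⟩
  apply TS_of hs hH hP hB
  intro l hl hsz
  have hv := valid_root.desc i
  have hdl := dl_pos hv
  have e : i ++ List.replicate (n + 1) b = (i ++ [b]) ++ List.replicate n b := by
    rw [List.replicate_succ, List.append_assoc]; rfl
  rw [e, desc_append root (i ++ [b]) (List.replicate n b)]
  obtain ⟨c1, c2⟩ := prefix_inC hl
  have hil := prefix_inC ((List.prefix_append i [!b]).trans hl)
  have hvb := valid_root.desc (i ++ [b])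
  cases b
  · have : ell (desc (desc root (i ++ [false])) (List.replicate n false)) (zz l) ≤ ell (desc root (i ++ [false])) (zz l) := by
      apply ell_false _ _ hvb
      rw [desc_snoc]
      show 0 ≤ cu (rt (desc root i)) (zz l)
      rw [cu_rt]; exact hil.1.le
    linarith
  · have : ell (desc (desc root (i ++ [true])) (List.replicate n true)) (zz l) ≤ ell (desc root (i ++ [true])) (zz l) := by
      apply ell_true _ _ hvb
      rw [desc_snoc]
      show 0 ≤ cv (lf (desc root i)) (zz l)
      rw [cv_lf]; exact hil.2.le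
    linarith

/-- spine among big words -/
theorem TS_big {H ρ : ℕ} (hs : (10 : ℝ) ^ 20 * H ^ 20 ≤ 4 ^ ρ) (hH : 1 ≤ H) {i P : List Bool} {b : Bool}
    (hB : Big ρ i) (hP : i ++ [b] <+: P) : TS H P (i ++ [!b]) := by
  apply TS_of hs hH hP (Big_child hB _)
  intro l hl hsz
  have hv := valid_root.desc i
  have hdl := dl_pos hv
  have hH1 : (1 : ℝ) ≤ H := by exact_mod_cast hH
  have hszr : (sz l : ℝ) ≤ H := by exact_mod_cast hsz
  have hY : (0 : ℝ) < 4 ^ ρ := by positivity
  have hil : i <+: l := (List.prefix_append i [!b]).trans hl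
  have hszi : (sz i : ℝ) ≤ H := by
    have := sz_prefix hil
    exact_mod_cast (by omega : sz i ≤ H)
  have hszb : (sz (i ++ [b]) : ℝ) ≤ 2 * H := by
    have := (sz_child i b).2
    have h2 : (sz (i ++ [b]) : ℝ) ≤ 2 * sz i := by exact_mod_cast this
    linarith
  have hany := ell_any hP (zz l)
  rw [nm_zz] at hany
  have hdb : dl (desc root (i ++ [b])) ≤ dl (desc root i) / 4 ^ ρ := by
    rw [desc_snoc]
    cases b
    · exact dl_rt_le hv ρ hB.2
    · exact dl_lf_le hv ρ hB.1
  have hdb0 := dl_pos (valid_root.desc (i ++ [b]))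
  have h1 := (abs_le.mp hany).1
  have h2 : (sz (i ++ [b]) : ℝ) * sz l * dl (desc root (i ++ [b])) ≤ 2 * H * H * (dl (desc root i) / 4 ^ ρ) := by
    apply mul_le_mul _ hdb hdb0.le (by positivity)
    exact mul_le_mul hszb hszr (by positivity) (by positivity)
  have h3 : 2 * (H : ℝ) * H * (dl (desc root i) / 4 ^ ρ) = dl (desc root i) * (2 * H ^ 2 / 4 ^ ρ) := by ring
  have h4 : 2 * (H : ℝ) ^ 2 / 4 ^ ρ ≤ 1 / 200 := by
    rw [div_le_div_iff₀ hY (by norm_num)]
    have : (H : ℝ) ^ 2 ≤ H ^ 20 := pow_le_pow_right₀ hH1 (by norm_num)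
    linarith
  have h5 := mul_le_mul_of_nonneg_left h4 hdl.le
  linarith

end

end Pool.Agent.TH913.MK
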