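import Mathlib
import Pool.Agent.TH913.MK.P1

set_option autoImplicit false

namespace Pool.Agent.TH913.MK

open Pool.Agent.H499R2

noncomputable section

lemma dl_prefix {k l : List Bool} (h : k <+: l) : dl (desc root l) ≤ dl (desc root k) := by
  obtain ⟨t, rfl⟩ := h
  induction t using List.reverseRecOn with
  | nil => simp
  | append_singleton t b ih =>
    rw [← List.append_assoc]
    have h1 := dl_child (k ++ t) b
    have h2 := dl_pos (valid_root.desc (k ++ t))
    linarith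

lemma dl_big_child {ρ : ℕ} {i : List Bool} {c : Bool} (hB : Big ρ (i ++ [c])) :
    dl (desc root (i ++ [c])) ≤ dl (desc root i) / 4 ^ ρ := by
  have hv := valid_root.desc i
  unfold Big at hB
  rw [desc_snoc] at hB ⊢
  cases c
  · exact dl_rt_le hv ρ hB.2
  · exact dl_lf_le hv ρ hB.1

lemma parallel1 {k0 k1 k1' : List Bool} (h1 : k0 <+: k1) (h1' : k0 <+: k1') {H : ℕ}
    (hσ : sz k0 ≤ H) {D η W : ℝ} {d d' : ℤ × ℤ} (hd : Q4 d) (hd' : Q4 d')
    (nd : nm d ≤ D) (nd' : nm d' ≤ D) (e1 : |ell (desc root k1) d| ≤ η) (e1' : |ell (desc root k1') d'| ≤ η)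
    (hW : H * D * dl (desc root k0) ≤ W)
    (hsm : 2 * H * D * (η + W) < 3 / 4) : dt d d' = 0 := by
  by_contra hne
  have hv := valid_root.desc k0
  have hdl := dl_pos hv
  have hszr : (sz k0 : ℝ) ≤ H := by exact_mod_cast hσ
  have hD0 : 0 ≤ D := (nm_nonneg _).trans nd
  have v1 := ell_var1 h1 hd
  have v2 := ell_var1 h1' hd'
  have w1 : (sz k0 : ℝ) * nm d * dl (desc root k0) ≤ W := by
    refine le_trans ?_ hW
    apply mul_le_mul_of_nonneg_right _ hdl.le
    exact mul_le_mul hszr nd (nm_nonneg _) (by positivity)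
  have w2 : (sz k0 : ℝ) * nm d' * dl (desc root k0) ≤ W := by
    refine le_trans ?_ hW
    apply mul_le_mul_of_nonneg_right _ hdl.le
    exact mul_le_mul hszr nd' (nm_nonneg _) (by positivity)
  have g1 : |ell (desc root k0) d| ≤ η + W := by
    have : ell (desc root k0) d = (ell (desc root k0) d - ell (desc root k1) d) + ell (desc root k1) d := by ring
    rw [this]; exact (abs_add_le _ _).trans (by linarith)
  have g2 : |ell (desc root k0) d'| ≤ η + W := by
    have : ell (desc root k0) d' = (ell (desc root k0) d' - ell (desc root k1') d') + ell (desc root k1') d' := by ring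
    rw [this]; exact (abs_add_le _ _).trans (by linarith)
  have pl := ell_pluck (desc root k0) d d' (uu (desc root k0))
  have hell : ell (desc root k0) (uu (desc root k0)) = al (desc root k0) := by
    unfold ell
    have c1 : cu (desc root k0) (uu (desc root k0)) = 1 := by rw [cu_dt]; exact dt_uv hv
    have c2 : cv (desc root k0) (uu (desc root k0)) = 0 := by rw [cv_dt]; exact dt_self _
    rw [c1, c2]; push_cast; ring
  rw [hell] at pl
  have hal := al_lower hv
  have hdd : (1 : ℝ) ≤ |(dt d d' : ℝ)| := by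
    have := Int.one_le_abs hne
    exact_mod_cast this
  have hp : nm (uu (desc root k0)) ≤ H := by
    rw [nm_uu hv]
    have := sz_pq k0
    exact_mod_cast (show (desc root k0).p ≤ H by omega)
  have hW0 : 0 ≤ η + W := (abs_nonneg _).trans g1
  have b1 : |(dt (uu (desc root k0)) d' : ℝ)| ≤ H * D :=
    (dt_nm _ _).trans (mul_le_mul hp nd' (nm_nonneg _) (by positivity))
  have b2 : |(dt d (uu (desc root k0)) : ℝ)| ≤ D * H :=
    (dt_nm _ _).trans (mul_le_mul nd hp (nm_nonneg _) hD0)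
  have h5 : |(dt d d' : ℝ) * al (desc root k0)| ≤ H * D * (η + W) + D * H * (η + W) := by
    rw [← pl]
    refine (abs_add_le _ _).trans ?_
    rw [abs_mul, abs_mul]
    exact add_le_add (mul_le_mul b1 g1 (abs_nonneg _) (by positivity)) (mul_le_mul b2 g2 (abs_nonneg _) (by positivity))
  rw [abs_mul, abs_of_nonneg (by linarith : 0 ≤ al (desc root k0))] at h5
  have h6 : 3 / 4 ≤ |(dt d d' : ℝ)| * al (desc root k0) := by nlinarith
  have h7 : (H : ℝ) * D * (η + W) + D * H * (η + W) = 2 * H * D * (η + W) := by ring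
  linarith

lemma Z_small {H ρ : ℕ} (hs : (10 : ℝ) ^ 20 * H ^ 20 ≤ 4 ^ ρ) (hH : 1 ≤ H) :
    10 ^ 18 * (H : ℝ) ^ 20 * (16 / 4 ^ ρ) ≤ 1 := by
  have hH1 : (1 : ℝ) ≤ H := by exact_mod_cast hH
  rw [mul_div_assoc', div_le_one (by positivity)]
  have h2 : (0 : ℝ) < H ^ 20 := by positivity
  linarith

/-- two rational exits of one cusp -/
theorem rat_exit {H ρ : ℕ} (hs : (10 : ℝ) ^ 20 * H ^ 20 ≤ 4 ^ ρ) (hH : 1 ≤ H) {j k2 : List Bool} {b : Bool}
    (hk2 : j ++ [b] <+: k2) (hB1 : Big ρ (j ++ [!b])) (hB2 : Big ρ k2) (hsz : sz j ≤ H)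
    (hdl2 : dl (desc root k2) ≤ dl (desc root j) / 4 ^ ρ)
    (R1 : Rt H (j ++ [!b])) (R2 : Rt H k2) : False := by
  have hH1 : (1 : ℝ) ≤ H := by exact_mod_cast hH
  obtain ⟨d, hd0, hdQ, hdn, hde⟩ := Rt_wit hs hH hB1 R1
  obtain ⟨d', hd0', hdQ', hdn', hde'⟩ := Rt_wit hs hH hB2 R2
  have hdl1 := dl_big_child hB1
  have hv := valid_root.desc j
  have hdl := dl_pos hv
  have hY : (0 : ℝ) < 4 ^ ρ := by positivity
  have hZ := Z_small hs hH
  have hZ0 : (0 : ℝ) < 16 / 4 ^ ρ := by positivity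
  have hszj : ρ ≤ sz j := by
    have h1 := sz_pq j
    unfold Big at hB1
    rw [desc_snoc] at hB1
    cases b
    · have := hB1.1
      have e : (step (desc root j) (!false)).p = (desc root j).p := rfl
      rw [e] at this; omega
    · have := hB1.2
      have e : (step (desc root j) (!true)).q = (desc root j).q := rfl
      rw [e] at this; omega
  have hdlZ : dl (desc root j) ≤ 16 / 4 ^ ρ := by
    refine (dl_size hv).trans ?_
    apply div_le_div_of_nonneg_left (by norm_num) hY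
    apply pow_le_pow_right₀ (by norm_num)
    have := sz_pq j; omega
  have h4 : (0 : ℝ) < H ^ 4 := by positivity
  have hone : (1 : ℝ) ≤ 4 ^ ρ := one_le_pow₀ (by norm_num)
  have q1 : dl (desc root j) / 4 ^ ρ ≤ 16 / 4 ^ ρ := by
    have : dl (desc root j) / 4 ^ ρ ≤ dl (desc root j) := div_le_self hdl.le hone
    linarith
  have b1 : 16 * (H : ℝ) ^ 4 * dl (desc root (j ++ [!b])) ≤ 16 * (H : ℝ) ^ 4 * (16 / 4 ^ ρ) :=
    mul_le_mul_of_nonneg_left (by linarith) (by positivity)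
  have b2 : 16 * (H : ℝ) ^ 4 * dl (desc root k2) ≤ 16 * (H : ℝ) ^ 4 * (16 / 4 ^ ρ) :=
    mul_le_mul_of_nonneg_left (by linarith) (by positivity)
  have hpar : dt d d' = 0 := by
    apply parallel1 (List.prefix_append j [!b]) ((List.prefix_append j [b]).trans hk2) hsz hdQ hdQ' hdn hdn'
      (hde.trans b1) (hde'.trans b2) (W := H * (3 * (H : ℝ) ^ 3) * (16 / 4 ^ ρ))
      (mul_le_mul_of_nonneg_left hdlZ (by positivity))
    have e : 2 * (H : ℝ) * (3 * (H : ℝ) ^ 3) * (16 * (H : ℝ) ^ 4 * (16 / 4 ^ ρ) + H * (3 * (H : ℝ) ^ 3) * (16 / 4 ^ ρ)) =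
      114 * ((H : ℝ) ^ 8 * (16 / 4 ^ ρ)) := by ring
    rw [e]
    have h8 : (H : ℝ) ^ 8 * (16 / 4 ^ ρ) ≤ H ^ 20 * (16 / 4 ^ ρ) :=
      mul_le_mul_of_nonneg_right (pow_le_pow_right₀ hH1 (by norm_num)) hZ0.le
    linarith
  have hpar' : dt d' d = 0 := by rw [dt_comm, hpar]; norm_num
  obtain ⟨hj1, hj2⟩ := dl_jp j
  have hsp : jp (desc root j) ≤ 3 * (H : ℝ) ^ 3 * (16 * (H : ℝ) ^ 4 * dl (desc root (j ++ [!b]))) +
      3 * (H : ℝ) ^ 3 * (16 * (H : ℝ) ^ 4 * dl (desc root k2)) := by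
    cases b
    · exact rat_split1 (List.prefix_refl _) hk2 hdQ hdQ' hd0 hd0' hdn hdn' hde hde' hpar
    · have := rat_split1 hk2 (List.prefix_refl _) hdQ' hdQ hd0' hd0 hdn' hdn hde' hde hpar'
      rw [add_comm] at this
      exact this
  have h7 : (0 : ℝ) < H ^ 7 := by positivity
  have g1 : jp (desc root j) ≤ 96 * (H : ℝ) ^ 7 * (dl (desc root j) / 4 ^ ρ) := by
    refine hsp.trans ?_
    have k1 : 3 * (H : ℝ) ^ 3 * (16 * (H : ℝ) ^ 4 * dl (desc root (j ++ [!b]))) ≤
        48 * (H : ℝ) ^ 7 * (dl (desc root j) / 4 ^ ρ) := by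
      calc 3 * (H : ℝ) ^ 3 * (16 * (H : ℝ) ^ 4 * dl (desc root (j ++ [!b]))) =
          48 * (H : ℝ) ^ 7 * dl (desc root (j ++ [!b])) := by ring
        _ ≤ _ := mul_le_mul_of_nonneg_left hdl1 (by positivity)
    have k2 : 3 * (H : ℝ) ^ 3 * (16 * (H : ℝ) ^ 4 * dl (desc root k2)) ≤
        48 * (H : ℝ) ^ 7 * (dl (desc root j) / 4 ^ ρ) := by
      calc 3 * (H : ℝ) ^ 3 * (16 * (H : ℝ) ^ 4 * dl (desc root k2)) =
          48 * (H : ℝ) ^ 7 * dl (desc root k2) := by ring
        _ ≤ _ := mul_le_mul_of_nonneg_left hdl2 (by positivity)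
    linarith
  have g2 : 96 * (H : ℝ) ^ 7 * (dl (desc root j) / 4 ^ ρ) ≤ 1944 * (H : ℝ) ^ 7 / 4 ^ ρ * jp (desc root j) := by
    calc 96 * (H : ℝ) ^ 7 * (dl (desc root j) / 4 ^ ρ) ≤ 96 * (H : ℝ) ^ 7 * ((81 / 4 * jp (desc root j)) / 4 ^ ρ) := by
          apply mul_le_mul_of_nonneg_left _ (by positivity)
          exact div_le_div_of_nonneg_right hj1 hY.le
      _ = _ := by ring
  have g3 : 1944 * (H : ℝ) ^ 7 / 4 ^ ρ < 1 := by
    rw [div_lt_one hY]
    have h720 : (H : ℝ) ^ 7 ≤ H ^ 20 := pow_le_pow_right₀ hH1 (by norm_num)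
    linarith
  have g4 : 1944 * (H : ℝ) ^ 7 / 4 ^ ρ * jp (desc root j) < 1 * jp (desc root j) :=
    mul_lt_mul_of_pos_right g3 hj2
  linarith

/-! ### cusps -/

lemma cuspT {ρ : ℕ} (hρ : 2 ≤ ρ) (j : List Bool) : (desc root j).p < ρ → ρ ≤ (desc root j).q →
    ∃ (i : List Bool) (n : ℕ), j = i ++ List.replicate (n + 1) true ∧ (desc root i).p < ρ ∧ (desc root i).q < ρ := by
  induction j using List.reverseRecOn with
  | nil =>
    intro _ h
    have e : (desc root []).q = 1 := rfl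
    rw [e] at h; omega
  | append_singleton j c ih =>
    intro h1 h2
    rw [desc_snoc] at h1 h2
    cases c
    · have e1 : (step (desc root j) false).p = (desc root j).p + (desc root j).q := rfl
      have e2 : (step (desc root j) false).q = (desc root j).q := rfl
      rw [e1] at h1; rw [e2] at h2; omega
    · have e1 : (step (desc root j) true).p = (desc root j).p := rfl
      rw [e1] at h1
      by_cases h3 : (desc root j).q < ρ
      · exact ⟨j, 0, rfl, h1, h3⟩
      · obtain ⟨i, n, h4, h5, h6⟩ := ih h1 (not_lt.mp h3)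
        refine ⟨i, n + 1, ?_, h5, h6⟩
        rw [List.replicate_succ' , ← List.append_assoc, ← h4]

lemma cuspF {ρ : ℕ} (hρ : 2 ≤ ρ) (j : List Bool) : ρ ≤ (desc root j).p → (desc root j).q < ρ →
    ∃ (i : List Bool) (n : ℕ), j = i ++ List.replicate (n + 1) false ∧ (desc root i).p < ρ ∧ (desc root i).q < ρ := by
  induction j using List.reverseRecOn with
  | nil =>
    intro h _
    have e : (desc root []).p = 1 := rfl
    rw [e] at h; omega
  | append_singleton j c ih =>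
    intro h1 h2
    rw [desc_snoc] at h1 h2
    cases c
    · have e1 : (step (desc root j) false).q = (desc root j).q := rfl
      rw [e1] at h2
      by_cases h3 : (desc root j).p < ρ
      · exact ⟨j, 0, rfl, h3, h2⟩
      · obtain ⟨i, n, h4, h5, h6⟩ := ih (not_lt.mp h3) h2
        refine ⟨i, n + 1, ?_, h5, h6⟩
        rw [List.replicate_succ', ← List.append_assoc, ← h4]
    · have e1 : (step (desc root j) true).p = (desc root j).p := rfl
      have e2 : (step (desc root j) true).q = (desc root j).p + (desc root j).q := rfl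
      rw [e1] at h1; rw [e2] at h2; omega

/-- a minimal big word leaves a cusp -/
lemma Mn_cusp {ρ : ℕ} (hρ : 2 ≤ ρ) {k : List Bool} (h : Mn ρ k) :
    ∃ (i : List Bool) (b : Bool) (n : ℕ), k = (i ++ List.replicate (n + 1) b) ++ [!b] ∧
      (desc root i).p < ρ ∧ (desc root i).q < ρ := by
  obtain ⟨-, j, c, hjc, hnj⟩ := Mn_shape hρ h
  have hB := h.1
  unfold Big at hB hnj
  rw [hjc, desc_snoc] at hB
  cases c
  · have e2 : (step (desc root j) false).q = (desc root j).q := rfl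
    rw [e2] at hB
    have hp : (desc root j).p < ρ := by
      by_contra h4; exact hnj ⟨not_lt.mp h4, hB.2⟩
    obtain ⟨i, n, h1, h2, h3⟩ := cuspT hρ j hp hB.2
    exact ⟨i, true, n, by rw [hjc, h1]; rfl, h2, h3⟩
  · have e2 : (step (desc root j) true).p = (desc root j).p := rfl
    rw [e2] at hB
    have hq : (desc root j).q < ρ := by
      by_contra h4; exact hnj ⟨hB.1, not_lt.mp h4⟩
    obtain ⟨i, n, h1, h2, h3⟩ := cuspF hρ j hB.1 hq
    exact ⟨i, false, n, by rw [hjc, h1]; rfl, h2, h3⟩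

open scoped Classical in
/-- the low words -/
def Low (ρ : ℕ) : Finset (List Bool) := (SW (2 * ρ)).filter (fun i => (desc root i).p < ρ ∧ (desc root i).q < ρ)

lemma mem_Low {ρ : ℕ} {i : List Bool} : i ∈ Low ρ ↔ (desc root i).p < ρ ∧ (desc root i).q < ρ := by
  classical
  unfold Low; rw [Finset.mem_filter, mem_SW]
  constructor
  · exact fun h => h.2
  · intro h
    have := sz_pq i
    exact ⟨by omega, h⟩

lemma Low_card (ρ : ℕ) : (Low ρ).card ≤ 2 * ρ ^ 2 := by
  classical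
  have h1 : (Low ρ).card ≤ (SW (2 * ρ)).card := by unfold Low; exact Finset.card_filter_le _ _
  have h2 := card_SW (2 * ρ)
  have h3 : (2 * ρ) ^ 2 = 4 * ρ ^ 2 := by ring
  omega

open scoped Classical in
/-- the rational minimal big words -/
def R0 (H ρ : ℕ) : Finset (List Bool) := (MS ρ H).filter (fun k => Rt H k)

lemma mem_R0 {H ρ : ℕ} {k : List Bool} : k ∈ R0 H ρ ↔ (sz k ≤ H ∧ Mn ρ k) ∧ Rt H k := by
  classical
  unfold R0; rw [Finset.mem_filter, mem_MS]

lemma cusp_lt {H ρ : ℕ} (hs : (10 : ℝ) ^ 20 * H ^ 20 ≤ 4 ^ ρ) (hH : 1 ≤ H) {i : List Bool} {b : Bool} {n m : ℕ}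
    (hnm : n < m) (h1 : Big ρ ((i ++ List.replicate (n + 1) b) ++ [!b]))
    (h2 : Big ρ ((i ++ List.replicate (m + 1) b) ++ [!b])) (s1 : sz ((i ++ List.replicate (n + 1) b) ++ [!b]) ≤ H)
    (r1 : Rt H ((i ++ List.replicate (n + 1) b) ++ [!b])) (r2 : Rt H ((i ++ List.replicate (m + 1) b) ++ [!b])) :
    False := by
  obtain ⟨t, rfl⟩ : ∃ t, m = n + 1 + t := ⟨m - (n + 1), by omega⟩
  have e : i ++ List.replicate (n + 1 + t + 1) b = (i ++ List.replicate (n + 1) b) ++ [b] ++ List.replicate t b := by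
    rw [show n + 1 + t + 1 = (n + 1) + (1 + t) by omega, List.replicate_add (n + 1) (1 + t), List.replicate_add 1 t]
    simp only [List.append_assoc]
    rfl
  have hpre : (i ++ List.replicate (n + 1) b) ++ [b] <+: i ++ List.replicate (n + 1 + t + 1) b := by
    rw [e]; exact List.prefix_append _ _
  refine rat_exit hs hH (j := i ++ List.replicate (n + 1) b) (b := b)
    (hpre.trans (List.prefix_append _ _)) h1 h2 ?_ ?_ r1 r2
  · have := sz_prefix (List.prefix_append (i ++ List.replicate (n + 1) b) [!b])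
    omega
  · refine (dl_big_child h2).trans ?_
    apply div_le_div_of_nonneg_right _ (by positivity)
    exact dl_prefix ((List.prefix_append _ [b]).trans hpre)

lemma R0_card {H ρ : ℕ} (hs : (10 : ℝ) ^ 20 * H ^ 20 ≤ 4 ^ ρ) (hρ : 2 ≤ ρ) (hH : 1 ≤ H) :
    (R0 H ρ).card ≤ 4 * ρ ^ 2 := by
  classical
  have hch : ∀ k ∈ R0 H ρ, ∃ (x : List Bool × Bool) (n : ℕ), k = (x.1 ++ List.replicate (n + 1) x.2) ++ [!x.2] ∧
      x ∈ Low ρ ×ˢ (Finset.univ : Finset Bool) := by
    intro k hk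
    obtain ⟨i, b, n, h1, h2, h3⟩ := Mn_cusp hρ (mem_R0.mp hk).1.2
    refine ⟨(i, b), n, h1, ?_⟩
    rw [Finset.mem_product]
    exact ⟨mem_Low.mpr ⟨h2, h3⟩, Finset.mem_univ _⟩
  choose! x n hx1 hx2 using hch
  have hcard : (R0 H ρ).card ≤ (Low ρ ×ˢ (Finset.univ : Finset Bool)).card := by
    apply Finset.card_le_card_of_injOn x (fun k hk => hx2 k hk)
    intro k hk k' hk' hxx
    have hk1 : k ∈ R0 H ρ := hk
    have hk2 : k' ∈ R0 H ρ := hk'
    obtain ⟨⟨s1, m1⟩, r1⟩ := mem_R0.mp hk1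
    obtain ⟨⟨s2, m2⟩, r2⟩ := mem_R0.mp hk2
    have e1 := hx1 k hk1
    have e2 := hx1 k' hk2
    rw [← hxx] at e2
    have B1 := m1.1
    have B2 := m2.1
    rcases lt_trichotomy (n k) (n k') with h | h | h
    · exfalso
      rw [e1] at r1 s1 B1
      rw [e2] at r2 B2
      exact cusp_lt hs hH h B1 B2 s1 r1 r2
    · rw [e1, e2, h]
    · exfalso
      rw [e1] at r1 B1
      rw [e2] at r2 s2 B2
      exact cusp_lt hs hH h B2 B1 s2 r2 r1
  rw [Finset.card_product] at hcard
  have h4 : (Finset.univ : Finset Bool).card = 2 := rfl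
  rw [h4] at hcard
  have := Low_card ρ
  omega

end

end Pool.Agent.TH913.MK
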