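import Mathlib
import Pool.Agent.TH913.MK.P2

set_option autoImplicit false

namespace Pool.Agent.TH913.MK

open Pool.Agent.H499R2

noncomputable section

lemma fork (t : List Bool) : ∀ s : List Bool, t <+: s ∨ s <+: t ∨ ∃ r x, r ++ [x] <+: t ∧ r ++ [!x] <+: s := by
  induction t with
  | nil => intro s; exact Or.inl (List.nil_prefix)
  | cons a t ih =>
    intro s
    cases s with
    | nil => exact Or.inr (Or.inl (List.nil_prefix))
    | cons c s =>
      by_cases hac : a = c
      · subst hac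
        rcases ih s with h | h | ⟨r, x, h1, h2⟩
        · exact Or.inl (List.cons_prefix_cons.mpr ⟨rfl, h⟩)
        · exact Or.inr (Or.inl (List.cons_prefix_cons.mpr ⟨rfl, h⟩))
        · right; right
          exact ⟨a :: r, x, List.cons_prefix_cons.mpr ⟨rfl, h1⟩, List.cons_prefix_cons.mpr ⟨rfl, h2⟩⟩
      · right; right
        refine ⟨[], a, ?_, ?_⟩
        · exact ⟨t, rfl⟩
        · have : (!a) = c := by cases a <;> cases c <;> simp_all
          rw [this]
          exact ⟨s, rfl⟩

lemma fork_below {k t s : List Bool} (h1 : k <+: t) (h2 : k <+: s) :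
    t <+: s ∨ s <+: t ∨ ∃ r x, k <+: r ∧ r ++ [x] <+: t ∧ r ++ [!x] <+: s := by
  obtain ⟨t', rfl⟩ := h1
  obtain ⟨s', rfl⟩ := h2
  rcases fork t' s' with h | h | ⟨r, x, h1, h2⟩
  · left; rw [List.prefix_append_right_inj]; exact h
  · right; left; rw [List.prefix_append_right_inj]; exact h
  · right; right
    refine ⟨k ++ r, x, List.prefix_append _ _, ?_, ?_⟩
    · rw [List.append_assoc, List.prefix_append_right_inj]; exact h1
    · rw [List.append_assoc, List.prefix_append_right_inj]; exact h2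

lemma len_sz (l : List Bool) : l.length + 2 ≤ sz l := by
  induction l using List.reverseRecOn with
  | nil => exact le_of_eq rfl
  | append_singleton l b ih =>
    have := (sz_child l b).1
    rw [List.length_append]
    simp only [List.length_singleton]
    omega

/-- the rational words below a rational word form a path -/
lemma spine_exists {H ρ : ℕ} (hs : (10 : ℝ) ^ 20 * H ^ 20 ≤ 4 ^ ρ) (hH : 1 ≤ H) {k0 : List Bool}
    (hB : Big ρ k0) (hR : Rt H k0) (hsz : sz k0 ≤ H) :
    ∃ P, k0 <+: P ∧ sz P ≤ H ∧ Rt H P ∧ ∀ i, k0 <+: i → Rt H i → sz i ≤ H → i <+: P := by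
  classical
  set T := (SW H).filter (fun i => k0 <+: i ∧ Rt H i) with hT
  have hmem : ∀ i, i ∈ T ↔ sz i ≤ H ∧ k0 <+: i ∧ Rt H i := by
    intro i; rw [hT, Finset.mem_filter, mem_SW]
  have hne : T.Nonempty := ⟨k0, (hmem k0).mpr ⟨hsz, List.prefix_refl _, hR⟩⟩
  obtain ⟨P, hP, hmax⟩ := Finset.exists_max_image T List.length hne
  obtain ⟨p1, p2, p3⟩ := (hmem P).mp hP
  refine ⟨P, p2, p1, p3, ?_⟩
  intro i hi hRi hszi
  rcases fork_below hi p2 with h | h | ⟨r, x, h1, h2, h3⟩
  · exact h
  · have hlen := hmax i ((hmem i).mpr ⟨hszi, hi, hRi⟩)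
    have : P = i := h.eq_of_length_le hlen
    rw [this]
  · exfalso
    have hBr := Big_prefix hB h1
    have r1 := Rt_prefix hs hH (Big_child hBr x) h2 hszi hRi
    have r2 := Rt_prefix hs hH (Big_child hBr (!x)) h3 p1 p3
    have hszr : sz r ≤ H := by
      have := sz_prefix ((List.prefix_append r [x]).trans h2)
      omega
    cases x
    · exact not_both hs hH hBr hszr r2 r1
    · exact not_both hs hH hBr hszr r1 r2

/-- the family property -/
def Fam (H : ℕ) (f : Finset (List Bool)) : Prop := f.card ≤ 1 ∨ ∃ P, ∀ k ∈ f, Ex P k ∧ TS H P k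

theorem exists_fams {H ρ : ℕ} (hs : (10 : ℝ) ^ 20 * H ^ 20 ≤ 4 ^ ρ) (hρ : 2 ≤ ρ) (hH : 1 ≤ H) :
    ∃ F : Finset (Finset (List Bool)), F.card ≤ 16 * ρ ^ 2 ∧ (∀ k ∈ KS H ρ H, ∃ f ∈ F, k ∈ f) ∧
      ∀ f ∈ F, f ⊆ KS H ρ H ∧ Fam H f := by
  classical
  have hsp : ∀ k0 ∈ R0 H ρ, ∃ P, k0 <+: P ∧ sz P ≤ H ∧ Rt H P ∧ ∀ i, k0 <+: i → Rt H i → sz i ≤ H → i <+: P := by
    intro k0 hk0
    obtain ⟨⟨h1, h2⟩, h3⟩ := mem_R0.mp hk0
    exact spine_exists hs hH h2.1 h3 h1
  choose! P hP1 hP2 hP3 hP4 using hsp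
  set famA : List Bool × Bool → Finset (List Bool) := fun x =>
    (KS H ρ H).filter (fun k => Mn ρ k ∧ ∃ n, k = (x.1 ++ List.replicate (n + 1) x.2) ++ [!x.2]) with hfA
  set famB : List Bool → Finset (List Bool) := fun k0 =>
    (KS H ρ H).filter (fun k => ∃ i c, k = i ++ [c] ∧ k0 <+: i ∧ Rt H i ∧ i ≠ P k0) with hfB
  set famT : Bool → List Bool → Finset (List Bool) := fun c k0 =>
    (KS H ρ H).filter (fun k => k = P k0 ++ [c]) with hfT
  set F := ((Low ρ ×ˢ (Finset.univ : Finset Bool)).image famA ∪ (R0 H ρ).image famB) ∪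
    ((R0 H ρ).image (famT true) ∪ (R0 H ρ).image (famT false)) with hF
  refine ⟨F, ?_, ?_, ?_⟩
  · have h1 := Finset.card_union_le ((Low ρ ×ˢ (Finset.univ : Finset Bool)).image famA ∪ (R0 H ρ).image famB)
      ((R0 H ρ).image (famT true) ∪ (R0 H ρ).image (famT false))
    have h2 := Finset.card_union_le ((Low ρ ×ˢ (Finset.univ : Finset Bool)).image famA) ((R0 H ρ).image famB)
    have h3 := Finset.card_union_le ((R0 H ρ).image (famT true)) ((R0 H ρ).image (famT false))
    have h4 := Finset.card_image_le (s := Low ρ ×ˢ (Finset.univ : Finset Bool)) (f := famA)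
    have h5 := Finset.card_image_le (s := R0 H ρ) (f := famB)
    have h6 := Finset.card_image_le (s := R0 H ρ) (f := famT true)
    have h7 := Finset.card_image_le (s := R0 H ρ) (f := famT false)
    rw [Finset.card_product] at h4
    have h8 : (Finset.univ : Finset Bool).card = 2 := rfl
    rw [h8] at h4
    have h9 := Low_card ρ
    have h10 := R0_card hs hρ hH
    rw [hF]
    omega
  · intro k hk
    obtain ⟨hkH, hB, hnR, hpar⟩ := mem_KS.mp hk
    by_cases hM : Mn ρ k
    · obtain ⟨i, b, n, h1, h2, h3⟩ := Mn_cusp hρ hM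
      refine ⟨famA (i, b), ?_, ?_⟩
      · rw [hF, Finset.mem_union, Finset.mem_union]
        left; left
        apply Finset.mem_image_of_mem
        rw [Finset.mem_product]
        exact ⟨mem_Low.mpr ⟨h2, h3⟩, Finset.mem_univ _⟩
      · rw [hfA, Finset.mem_filter]
        exact ⟨hk, hM, n, h1⟩
    · obtain ⟨k0, hk0, hM0⟩ := Mn_exists ρ k hB
      have hne : k ≠ k0 := by rintro rfl; exact hM hM0
      obtain ⟨i, c, hic⟩ : ∃ i c, k = i ++ [c] := by
        rcases List.eq_nil_or_concat k with h | ⟨i, c, h⟩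
        · exfalso
          rw [h] at hk0
          exact hne (by rw [h, List.prefix_nil.mp hk0])
        · exact ⟨i, c, by simpa using h⟩
      have hki : k0 <+: i := by
        rw [hic] at hk0
        rcases List.prefix_concat_iff.mp hk0 with h1 | h1
        · exact absurd (h1.trans hic.symm).symm hne
        · exact h1
      have hBi := Big_prefix hM0.1 hki
      have hRi := hpar i c hic hBi
      have hszi : sz i ≤ H := by
        have := sz_prefix (List.prefix_append i [c])
        rw [← hic] at this; omega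
      have hR0 := Rt_prefix hs hH hM0.1 hki hszi hRi
      have hsz0 := sz_prefix hki
      have hmem0 : k0 ∈ R0 H ρ := mem_R0.mpr ⟨⟨by omega, hM0⟩, hR0⟩
      by_cases hiP : i = P k0
      · refine ⟨famT c k0, ?_, ?_⟩
        · rw [hF, Finset.mem_union, Finset.mem_union, Finset.mem_union]
          right
          cases c
          · right; exact Finset.mem_image_of_mem _ hmem0
          · left; exact Finset.mem_image_of_mem _ hmem0
        · rw [hfT, Finset.mem_filter]
          exact ⟨hk, by rw [hic, hiP]⟩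
      · refine ⟨famB k0, ?_, ?_⟩
        · rw [hF, Finset.mem_union, Finset.mem_union]
          left; right
          exact Finset.mem_image_of_mem _ hmem0
        · rw [hfB, Finset.mem_filter]
          exact ⟨hk, i, c, hic, hki, hRi, hiP⟩
  · intro f hf
    rw [hF, Finset.mem_union, Finset.mem_union, Finset.mem_union, Finset.mem_image, Finset.mem_image,
      Finset.mem_image, Finset.mem_image] at hf
    rcases hf with (⟨x, hx, rfl⟩ | ⟨k0, hk0, rfl⟩) | (⟨k0, hk0, rfl⟩ | ⟨k0, hk0, rfl⟩)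
    · refine ⟨Finset.filter_subset _ _, Or.inr ⟨x.1 ++ List.replicate (H + 2) x.2, ?_⟩⟩
      intro k hk
      rw [hfA, Finset.mem_filter] at hk
      obtain ⟨hkK, hM, n, hkn⟩ := hk
      obtain ⟨hkH, hB, hnR, hpar⟩ := mem_KS.mp hkK
      have hlen := len_sz k
      have hn : n + 1 ≤ H := by
        rw [hkn] at hlen
        simp only [List.length_append, List.length_replicate, List.length_singleton] at hlen
        rw [← hkn] at hlen
        omega
      obtain ⟨m, hm⟩ : ∃ m, H + 2 = (n + 1) + (m + 1) := ⟨H - n, by omega⟩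
      have e : x.1 ++ List.replicate (H + 2) x.2 = (x.1 ++ List.replicate (n + 1) x.2) ++ List.replicate (m + 1) x.2 := by
        rw [hm, List.replicate_add (n + 1) (m + 1), List.append_assoc]
      rw [e]
      constructor
      · refine ⟨x.1 ++ List.replicate (n + 1) x.2, x.2, hkn, ?_⟩
        rw [List.prefix_append_right_inj, List.replicate_succ (n := m)]
        exact ⟨List.replicate m x.2, rfl⟩
      · rw [hkn]
        apply TS_cusp hs hH
        rw [← hkn]; exact hB
    · refine ⟨Finset.filter_subset _ _, Or.inr ⟨P k0, ?_⟩⟩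
      intro k hk
      rw [hfB, Finset.mem_filter] at hk
      obtain ⟨hkK, i, c, hic, hki, hRi, hiP⟩ := hk
      obtain ⟨hkH, hB, hnR, hpar⟩ := mem_KS.mp hkK
      have hszi : sz i ≤ H := by
        have := sz_prefix (List.prefix_append i [c])
        rw [← hic] at this; omega
      have hBi := Big_prefix (mem_R0.mp hk0).1.2.1 hki
      obtain ⟨t, ht⟩ := hP4 k0 hk0 i hki hRi hszi
      cases t with
      | nil => exfalso; apply hiP; rw [← ht]; simp
      | cons x t =>
        have hix : i ++ [x] <+: P k0 := by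
          rw [← ht, List.prefix_append_right_inj]
          exact ⟨t, rfl⟩
        have hxc : x ≠ c := by
          rintro rfl
          rw [← hic] at hix
          exact hnR (Rt_prefix hs hH hB hix (hP2 k0 hk0) (hP3 k0 hk0))
        have hcx : c = !x := by cases x <;> cases c <;> simp_all
        rw [hic, hcx]
        exact ⟨⟨i, x, rfl, hix⟩, TS_big hs hH hBi hix⟩
    · refine ⟨Finset.filter_subset _ _, Or.inl ?_⟩
      rw [Finset.card_le_one]
      intro a ha b hb
      rw [hfT, Finset.mem_filter] at ha hb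
      rw [ha.2, hb.2]
    · refine ⟨Finset.filter_subset _ _, Or.inl ?_⟩
      rw [Finset.card_le_one]
      intro a ha b hb
      rw [hfT, Finset.mem_filter] at ha hb
      rw [ha.2, hb.2]

open scoped Classical in
/-- the rational big words -/
def RS (H ρ : ℕ) : Finset (List Bool) := (SW H).filter (fun l => Big ρ l ∧ Rt H l)

lemma mem_RS {H ρ : ℕ} {l : List Bool} : l ∈ RS H ρ ↔ sz l ≤ H ∧ Big ρ l ∧ Rt H l := by
  classical
  unfold RS; rw [Finset.mem_filter, mem_SW]

lemma RS_card {H ρ : ℕ} (hs : (10 : ℝ) ^ 20 * H ^ 20 ≤ 4 ^ ρ) (hρ : 2 ≤ ρ) (hH : 1 ≤ H) :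
    (RS H ρ).card ≤ 4 * ρ ^ 2 * (H + 1) := by
  classical
  have hsp : ∀ k0 ∈ R0 H ρ, ∃ P, k0 <+: P ∧ sz P ≤ H ∧ Rt H P ∧ ∀ i, k0 <+: i → Rt H i → sz i ≤ H → i <+: P := by
    intro k0 hk0
    obtain ⟨⟨h1, h2⟩, h3⟩ := mem_R0.mp hk0
    exact spine_exists hs hH h2.1 h3 h1
  choose! P hP1 hP2 hP3 hP4 using hsp
  have hch : ∀ l ∈ RS H ρ, ∃ k0 ∈ R0 H ρ, k0 <+: l := by
    intro l hl
    obtain ⟨h1, h2, h3⟩ := mem_RS.mp hl
    obtain ⟨k0, hk0, hM0⟩ := Mn_exists ρ l h2
    have h4 := Rt_prefix hs hH hM0.1 hk0 h1 h3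
    have h5 := sz_prefix hk0
    exact ⟨k0, mem_R0.mpr ⟨⟨by omega, hM0⟩, h4⟩, hk0⟩
  choose! κ hκ1 hκ2 using hch
  have hcard : (RS H ρ).card ≤ (R0 H ρ ×ˢ Finset.range (H + 1)).card := by
    apply Finset.card_le_card_of_injOn (fun l => (κ l, l.length))
    · intro l hl
      have hl' : l ∈ RS H ρ := hl
      have h1 := (mem_RS.mp hl').1
      have h2 := len_sz l
      rw [Finset.coe_product, Set.mem_prod]
      refine ⟨hκ1 l hl', ?_⟩
      show l.length ∈ (Finset.range (H + 1) : Set ℕ)
      rw [Finset.coe_range, Set.mem_Iio]; omega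
    · intro l hl l' hl' heq
      have h1 : l ∈ RS H ρ := hl
      have h2 : l' ∈ RS H ρ := hl'
      simp only [Prod.mk.injEq] at heq
      obtain ⟨a1, a2, a3⟩ := mem_RS.mp h1
      obtain ⟨b1, b2, b3⟩ := mem_RS.mp h2
      have p1 := hP4 (κ l) (hκ1 l h1) l (hκ2 l h1) a3 a1
      have p2 := hP4 (κ l') (hκ1 l' h2) l' (hκ2 l' h2) b3 b1
      rw [← heq.1] at p2
      exact (List.prefix_of_prefix_length_le p1 p2 heq.2.le).eq_of_length heq.2
  rw [Finset.card_product, Finset.card_range] at hcard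
  exact hcard.trans (Nat.mul_le_mul_right _ (R0_card hs hρ hH))

end

end Pool.Agent.TH913.MK
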