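import Mathlib
import Pool.Agent.TH913.MK.P3

set_option autoImplicit false

namespace Pool.Agent.TH913.MK

open Pool.Agent.H499R2

noncomputable section

lemma siegel5 {H : ℕ} (hH : 1 ≤ H) (x : Fin 5 → Fin 4 → ℤ) (hx : ∀ a c, |(x a c : ℝ)| ≤ H) :
    ∃ μ : Fin 5 → ℤ, μ ≠ 0 ∧ (∀ c, ∑ a, μ a * x a c = 0) ∧ ∀ a, |(μ a : ℝ)| ≤ (5 * H) ^ 4 := by
  have hH1 : (1 : ℝ) ≤ H := by exact_mod_cast hH
  set A : Matrix (Fin 4) (Fin 5) ℤ := fun c a => x a c with hA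
  obtain ⟨t, ht0, htA, htn⟩ := Int.Matrix.exists_ne_zero_int_vec_norm_le A (by simp) (by simp)
  refine ⟨t, ht0, ?_, ?_⟩
  · intro c
    have h := congrFun htA c
    simp only [Matrix.mulVec, dotProduct, Pi.zero_apply] at h
    rw [← h]
    apply Finset.sum_congr rfl
    intro a _
    show t a * x a c = x a c * t a
    ring
  · intro a
    have hnA : (Matrix.seminormedAddCommGroup (m := Fin 4) (n := Fin 5) (α := ℤ)).norm A ≤ H := by
      let _ := Matrix.seminormedAddCommGroup (m := Fin 4) (n := Fin 5) (α := ℤ)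
      apply (Matrix.norm_le_iff (by linarith)).mpr
      intro i j
      rw [Int.norm_eq_abs]
      exact_mod_cast hx j i
    have h1 : ‖t a‖ ≤ ‖t‖ := norm_le_pi_norm t a
    rw [Int.norm_eq_abs] at h1
    have h2 : ((Fintype.card (Fin 4) : ℕ) : ℝ) / (((Fintype.card (Fin 5) : ℕ) : ℝ) - ((Fintype.card (Fin 4) : ℕ) : ℝ)) = ((4 : ℕ) : ℝ) := by
      simp only [Fintype.card_fin]; norm_num
    rw [h2, Real.rpow_natCast] at htn
    refine h1.trans (htn.trans ?_)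
    apply pow_le_pow_left₀
    · exact mul_nonneg (by positivity) (le_max_of_le_left (by norm_num))
    · simp only [Fintype.card_fin]
      push_cast
      apply mul_le_mul_of_nonneg_left _ (by norm_num)
      exact max_le hH1 hnA

lemma no_chain {H δ : ℝ} (E Θ : Fin 5 → ℝ) (hE : ∀ a, 0 < E a) (h1 : ∀ a, E a / 100 ≤ |Θ a|)
    (h2 : ∀ a, |Θ a| ≤ 3 * H ^ 2 * E a) (h3 : ∀ a b, a < b → E b ≤ δ * E a) (μ : Fin 5 → ℤ) (hμ0 : μ ≠ 0)
    (hμ : ∀ a, |(μ a : ℝ)| ≤ (5 * H) ^ 4) (hsum : ∑ a, (μ a : ℝ) * Θ a = 0)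
    (hδ : 4 * ((5 * H) ^ 4 * (3 * H ^ 2) * δ) * 100 < 1) (hδ0 : 0 ≤ δ) : False := by
  classical
  have hne : (Finset.univ.filter (fun a => μ a ≠ 0)).Nonempty := by
    by_contra h
    rw [Finset.not_nonempty_iff_eq_empty, Finset.filter_eq_empty_iff] at h
    apply hμ0
    funext a
    have := h (Finset.mem_univ a)
    push Not at this
    exact this
  obtain ⟨a0, ha0, hmin⟩ := Finset.exists_min_image _ (fun a : Fin 5 => a) hne
  rw [Finset.mem_filter] at ha0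
  have hmu := ha0.2
  have hz : ∀ a, a < a0 → μ a = 0 := by
    intro a ha
    by_contra h
    have := hmin a (by rw [Finset.mem_filter]; exact ⟨Finset.mem_univ _, h⟩)
    exact absurd ha (not_lt.mpr this)
  set C : ℝ := (5 * H) ^ 4 * (3 * H ^ 2) * δ * E a0 with hC
  have hC0 : 0 ≤ C := by
    have h5 : 0 ≤ (5 * H) ^ 4 := by positivity
    have := (hE a0).le
    positivity
  have hterm : ∀ a ∈ Finset.univ.erase a0, |(μ a : ℝ) * Θ a| ≤ C := by
    intro a ha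
    have hne' := Finset.ne_of_mem_erase ha
    rcases lt_or_gt_of_ne hne' with h | h
    · rw [hz a h]; simpa using hC0
    · rw [abs_mul]
      calc |(μ a : ℝ)| * |Θ a| ≤ (5 * H) ^ 4 * (3 * H ^ 2 * (δ * E a0)) := by
            apply mul_le_mul (hμ a) _ (abs_nonneg _) (by positivity)
            exact (h2 a).trans (mul_le_mul_of_nonneg_left (h3 a0 a h) (by positivity))
        _ = C := by rw [hC]; ring
  have hsplit := Finset.add_sum_erase Finset.univ (fun a => (μ a : ℝ) * Θ a) (Finset.mem_univ a0)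
  rw [hsum] at hsplit
  have h4 : |(μ a0 : ℝ) * Θ a0| ≤ 4 * C := by
    have e : (μ a0 : ℝ) * Θ a0 = - ∑ a ∈ Finset.univ.erase a0, (μ a : ℝ) * Θ a := by linarith
    rw [e, abs_neg]
    refine (Finset.abs_sum_le_sum_abs _ _).trans ?_
    refine (Finset.sum_le_sum hterm).trans ?_
    rw [Finset.sum_const, Finset.card_erase_of_mem (Finset.mem_univ _), nsmul_eq_mul]
    simp only [Finset.card_univ, Fintype.card_fin]
    norm_num
  have h5 : E a0 / 100 ≤ |(μ a0 : ℝ) * Θ a0| := by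
    rw [abs_mul]
    have h6 : (1 : ℝ) ≤ |(μ a0 : ℝ)| := by
      have := Int.one_le_abs hmu
      exact_mod_cast this
    calc E a0 / 100 ≤ |Θ a0| := h1 a0
      _ ≤ |(μ a0 : ℝ)| * |Θ a0| := le_mul_of_one_le_left (abs_nonneg _) h6
  have h7 : E a0 / 100 ≤ 4 * C := h5.trans h4
  have h8 := hE a0
  have h9 : 4 * C * 100 = (4 * ((5 * H) ^ 4 * (3 * H ^ 2) * δ) * 100) * E a0 := by rw [hC]; ring
  have h10 : (4 * ((5 * H) ^ 4 * (3 * H ^ 2) * δ) * 100) * E a0 < 1 * E a0 := mul_lt_mul_of_pos_right hδ h8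
  linarith

/-- a coincidence of values below two words -/
def Mt (H : ℕ) (k k' : List Bool) : Prop :=
  ∃ l l', k <+: l ∧ k' <+: l' ∧ sz l ≤ H ∧ sz l' ≤ H ∧ FF l' = FF l

lemma Mt_symm {H : ℕ} {k k' : List Bool} (h : Mt H k k') : Mt H k' k := by
  obtain ⟨l, l', h1, h2, h3, h4, h5⟩ := h
  exact ⟨l', l, h2, h1, h4, h3, h5.symm⟩

/-- the scale of an exit -/
def DD (k : List Bool) : ℝ := dl (desc root k.dropLast)

lemma DD_pos (k : List Bool) : 0 < DD k := dl_pos (valid_root.desc _)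

/-- there is no chain of five coincidences of different scales -/
theorem no_five {H ρ : ℕ} (hs : (10 : ℝ) ^ 20 * H ^ 20 ≤ 4 ^ ρ) (hH : 1 ≤ H) {P Q : List Bool}
    (k k' : Fin 5 → List Bool) (hk : ∀ a, TS H P (k a)) (hk' : ∀ a, TS H Q (k' a))
    (hM : ∀ a, Mt H (k a) (k' a)) (h1 : ∀ a, DD (k' a) ≤ 1 / 4 ^ ρ * DD (k a))
    (h2 : ∀ a b, a < b → DD (k b) ≤ 1 / 4 ^ ρ * DD (k a)) : False := by
  have hH1 : (1 : ℝ) ≤ H := by exact_mod_cast hH
  have hY : (0 : ℝ) < 4 ^ ρ := by positivity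
  choose l l' m1 m2 m3 m4 m5 using hM
  set x : Fin 5 → Fin 4 → ℤ := fun a => ![(zz (l a)).1, (zz (l a)).2, (zz (l' a)).1, (zz (l' a)).2] with hx
  have hzb : ∀ w : List Bool, sz w ≤ H → |((zz w).1 : ℝ)| ≤ H ∧ |((zz w).2 : ℝ)| ≤ H := by
    intro w hw
    have h := nm_zz w
    have hw' : (sz w : ℝ) ≤ H := by exact_mod_cast hw
    unfold nm at h
    have a1 := abs_nonneg ((zz w).1 : ℝ)
    have a2 := abs_nonneg ((zz w).2 : ℝ)
    constructor <;> linarith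
  have hxb : ∀ a c, |(x a c : ℝ)| ≤ H := by
    intro a c
    obtain ⟨b1, b2⟩ := hzb (l a) (m3 a)
    obtain ⟨b3, b4⟩ := hzb (l' a) (m4 a)
    fin_cases c
    · exact b1
    · exact b2
    · exact b3
    · exact b4
  obtain ⟨μ, hμ0, hμs, hμb⟩ := siegel5 hH x hxb
  set Θ : Fin 5 → ℝ := fun a => ell (desc root P) (zz (l a)) - ell (desc root Q) (zz (l' a)) with hΘ
  have hsum : ∑ a, (μ a : ℝ) * Θ a = 0 := by
    have s0 : ∑ a, (μ a : ℝ) * ((zz (l a)).1 : ℝ) = 0 := by exact_mod_cast hμs 0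
    have s1 : ∑ a, (μ a : ℝ) * ((zz (l a)).2 : ℝ) = 0 := by exact_mod_cast hμs 1
    have s2 : ∑ a, (μ a : ℝ) * ((zz (l' a)).1 : ℝ) = 0 := by exact_mod_cast hμs 2
    have s3 : ∑ a, (μ a : ℝ) * ((zz (l' a)).2 : ℝ) = 0 := by exact_mod_cast hμs 3
    have e : ∀ a, (μ a : ℝ) * Θ a = ell (desc root P) (1, 0) * ((μ a : ℝ) * ((zz (l a)).1 : ℝ)) -
        ell (desc root P) (0, -1) * ((μ a : ℝ) * ((zz (l a)).2 : ℝ)) -
        ell (desc root Q) (1, 0) * ((μ a : ℝ) * ((zz (l' a)).1 : ℝ)) +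
        ell (desc root Q) (0, -1) * ((μ a : ℝ) * ((zz (l' a)).2 : ℝ)) := by
      intro a
      simp only [hΘ]
      rw [ell_split (desc root P), ell_split (desc root Q)]
      ring
    rw [Finset.sum_congr rfl (fun a _ => e a), Finset.sum_add_distrib, Finset.sum_sub_distrib, Finset.sum_sub_distrib,
      ← Finset.mul_sum, ← Finset.mul_sum, ← Finset.mul_sum, ← Finset.mul_sum, s0, s1, s2, s3]
    ring
  have h20 : (H : ℝ) ^ 2 ≤ H ^ 20 := pow_le_pow_right₀ hH1 (by norm_num)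
  have hδ2 : 2 * (H : ℝ) ^ 2 * (1 / 4 ^ ρ) ≤ 1 / 200 := by
    rw [mul_one_div, div_le_div_iff₀ hY (by norm_num)]
    linarith
  have key : ∀ a, DD (k a) / 100 ≤ |Θ a| ∧ |Θ a| ≤ 3 * (H : ℝ) ^ 2 * DD (k a) := by
    intro a
    obtain ⟨t1, t2⟩ := hk a (l a) (m1 a) (m3 a)
    obtain ⟨u1, u2⟩ := hk' a (l' a) (m2 a) (m4 a)
    have e : Θ a = (FF (l' a) - ell (desc root Q) (zz (l' a))) - (FF (l a) - ell (desc root P) (zz (l a))) := by
      simp only [hΘ]; rw [m5 a]; ring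
    have t1' : DD (k a) / 50 ≤ FF (l a) - ell (desc root P) (zz (l a)) := t1
    have t2' : FF (l a) - ell (desc root P) (zz (l a)) ≤ 2 * (H : ℝ) ^ 2 * DD (k a) := t2
    have u1' : DD (k' a) / 50 ≤ FF (l' a) - ell (desc root Q) (zz (l' a)) := u1
    have u2' : FF (l' a) - ell (desc root Q) (zz (l' a)) ≤ 2 * (H : ℝ) ^ 2 * DD (k' a) := u2
    have hDk := DD_pos (k a)
    have hDk' := DD_pos (k' a)
    have h5 : 2 * (H : ℝ) ^ 2 * DD (k' a) ≤ DD (k a) / 200 := by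
      calc 2 * (H : ℝ) ^ 2 * DD (k' a) ≤ 2 * (H : ℝ) ^ 2 * (1 / 4 ^ ρ * DD (k a)) :=
            mul_le_mul_of_nonneg_left (h1 a) (by positivity)
        _ = (2 * (H : ℝ) ^ 2 * (1 / 4 ^ ρ)) * DD (k a) := by ring
        _ ≤ 1 / 200 * DD (k a) := mul_le_mul_of_nonneg_right hδ2 hDk.le
        _ = DD (k a) / 200 := by ring
    have hH2 : (1 : ℝ) ≤ (H : ℝ) ^ 2 := one_le_pow₀ hH1
    have hHD : 0 ≤ (H : ℝ) ^ 2 * DD (k a) := by positivity
    rw [e]
    constructor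
    · rw [abs_sub_comm]
      refine le_trans ?_ (le_abs_self _)
      linarith
    · rw [abs_le]
      constructor
      · linarith
      · nlinarith
  refine no_chain (H := (H : ℝ)) (δ := 1 / 4 ^ ρ) (fun a => DD (k a)) Θ (fun a => DD_pos _) (fun a => (key a).1)
    (fun a => (key a).2) h2 μ hμ0 hμb hsum ?_ (by positivity)
  have e : 4 * ((5 * (H : ℝ)) ^ 4 * (3 * (H : ℝ) ^ 2) * (1 / 4 ^ ρ)) * 100 = 750000 * (H : ℝ) ^ 6 / 4 ^ ρ := by ring
  rw [e, div_lt_one hY]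
  have h6 : (H : ℝ) ^ 6 ≤ H ^ 20 := pow_le_pow_right₀ hH1 (by norm_num)
  have h7 : (0 : ℝ) < H ^ 20 := by positivity
  linarith

end

end Pool.Agent.TH913.MK
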