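import Mathlib
import Pool.Agent.TH913.MK.P4
import Pool.Agent.TH913.MK.N9

set_option autoImplicit false

namespace Pool.Agent.TH913.MK

open Pool.Agent.H499R2

noncomputable section

/-- a large set of numbers contains a separated chain -/
lemma sep_chain (T n : ℕ) : ∀ M : Finset ℕ, n * T < M.card →
    ∃ x : Fin (n + 1) → ℕ, (∀ a, x a ∈ M) ∧ ∀ a b, a < b → x a + T ≤ x b := by
  induction n with
  | zero =>
    intro M hM
    have hne : M.Nonempty := Finset.card_pos.mp (by omega)
    obtain ⟨m, hm⟩ := hne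
    refine ⟨fun _ => m, fun _ => hm, ?_⟩
    intro a b hab
    exfalso
    have := a.2; have := b.2
    have h : a.val < b.val := hab
    omega
  | succ n ih =>
    intro M hM
    have hne : M.Nonempty := Finset.card_pos.mp (by omega)
    set m := M.min' hne with hm
    set M' := M.filter (fun y => m + T ≤ y) with hM'
    have hsub : M \ M' ⊆ Finset.Ico m (m + T) := by
      intro y hy
      rw [Finset.mem_sdiff, hM', Finset.mem_filter] at hy
      rw [Finset.mem_Ico]
      have h1 := Finset.min'_le M y hy.1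
      refine ⟨by omega, ?_⟩
      by_contra h
      exact hy.2 ⟨hy.1, by omega⟩
    have h1 := Finset.card_le_card hsub
    rw [Nat.card_Ico] at h1
    have h2 : M.card ≤ (M \ M').card + M'.card := by
      have := Finset.card_sdiff_add_card M M'
      have h3 := Finset.card_le_card (Finset.subset_union_left (s₁ := M) (s₂ := M'))
      omega
    have h3 : (n + 1) * T = n * T + T := by ring
    obtain ⟨x, hx1, hx2⟩ := ih M' (by omega)
    refine ⟨Fin.cons m x, ?_, ?_⟩
    · intro a
      refine Fin.cases ?_ ?_ a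
      · exact Finset.min'_mem M hne
      · intro i
        have := hx1 i
        rw [hM', Finset.mem_filter] at this
        exact this.1
    · intro a b
      refine Fin.cases ?_ ?_ a
      · refine Fin.cases ?_ ?_ b
        · intro h; exact absurd h (lt_irrefl _)
        · intro i _
          have := hx1 i
          rw [hM', Finset.mem_filter] at this
          exact this.2
      · intro i
        refine Fin.cases ?_ ?_ b
        · intro h
          exact absurd h (by simp)
        · intro j h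
          have h' : i < j := Fin.succ_lt_succ_iff.mp h
          exact hx2 i j h'

lemma dl_pow {k l : List Bool} (h : k <+: l) : dl (desc root l) ≤ dl (desc root k) / 4 ^ (l.length - k.length) := by
  obtain ⟨t, rfl⟩ := h
  induction t using List.reverseRecOn with
  | nil => simp
  | append_singleton t b ih =>
    rw [← List.append_assoc]
    have h1 := dl_child (k ++ t) b
    have e : ((k ++ t) ++ [b]).length - k.length = ((k ++ t).length - k.length) + 1 := by
      simp only [List.length_append, List.length_singleton]; omega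
    rw [e, pow_succ]
    have h2 : dl (desc root k) / (4 ^ ((k ++ t).length - k.length) * 4) =
      dl (desc root k) / 4 ^ ((k ++ t).length - k.length) / 4 := by rw [div_div]
    rw [h2]
    exact h1.trans (div_le_div_of_nonneg_right ih (by norm_num))

/-- two exits of one spine -/
lemma Ex_len {P k1 k2 : List Bool} (h1 : Ex P k1) (h2 : Ex P k2) (h : k1.length ≤ k2.length) :
    DD k2 ≤ DD k1 / 4 ^ (k2.length - k1.length) ∧ (k1.length = k2.length → k1 = k2) := by
  obtain ⟨i1, b1, e1, p1⟩ := h1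
  obtain ⟨i2, b2, e2, p2⟩ := h2
  have q1 : i1 <+: P := (List.prefix_append _ _).trans p1
  have q2 : i2 <+: P := (List.prefix_append _ _).trans p2
  have l1 : k1.length = i1.length + 1 := by rw [e1]; simp
  have l2 : k2.length = i2.length + 1 := by rw [e2]; simp
  have hle : i1.length ≤ i2.length := by omega
  have h12 : i1 <+: i2 := List.prefix_of_prefix_length_le q1 q2 hle
  constructor
  · unfold DD
    rw [e1, e2, List.dropLast_concat, List.dropLast_concat]
    have h3 := dl_pow h12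
    have e : (i2 ++ [!b2]).length - (i1 ++ [!b1]).length = i2.length - i1.length := by
      simp only [List.length_append, List.length_singleton]; omega
    rw [e]; exact h3
  · intro hl
    have hi : i1 = i2 := h12.eq_of_length (by omega)
    have hb : b1 = b2 := by
      have h3 : i1 ++ [b1] <+: i2 ++ [b2] := by
        apply List.prefix_of_prefix_length_le p1 p2
        simp only [List.length_append, List.length_singleton]; omega
      have h4 := h3.eq_of_length (by simp only [List.length_append, List.length_singleton]; omega)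
      exact (List.append_inj' h4 rfl).2 |> fun h => by simpa using h
    rw [e1, e2, hi, hb]

lemma Ex_inj {P : List Bool} {f : Finset (List Bool)} (hf : ∀ k ∈ f, Ex P k) : Set.InjOn List.length (f : Set (List Bool)) := by
  intro a ha b hb hab
  have ha' : a ∈ f := ha
  have hb' : b ∈ f := hb
  exact (Ex_len (hf a ha') (hf b hb') (le_of_eq hab)).2 hab

/-- few exits have a coincidence with a much smaller scale -/
lemma few_top {H ρ : ℕ} (hs : (10 : ℝ) ^ 20 * H ^ 20 ≤ 4 ^ ρ) (hH : 1 ≤ H) {P Q : List Bool}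
    {f g M : Finset (List Bool)} (hf : ∀ k ∈ f, Ex P k ∧ TS H P k) (hg : ∀ k ∈ g, Ex Q k ∧ TS H Q k)
    (hMf : M ⊆ f) (hM : ∀ k ∈ M, ∃ k' ∈ g, Mt H k k' ∧ DD k' ≤ 1 / 4 ^ ρ * DD k) : M.card ≤ 4 * ρ := by
  classical
  by_contra hcon
  push Not at hcon
  have hinj : Set.InjOn List.length (M : Set (List Bool)) :=
    Ex_inj (fun k hk => (hf k (hMf hk)).1)
  have hcard := Finset.card_image_of_injOn hinj
  obtain ⟨x, hx1, hx2⟩ := sep_chain ρ 4 (M.image List.length) (by rw [hcard]; exact hcon)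
  have hch : ∀ a, ∃ k ∈ M, k.length = x a := fun a => Finset.mem_image.mp (hx1 a)
  choose k hk1 hk2 using hch
  choose! φ hφ1 hφ2 hφ3 using hM
  refine no_five hs hH (P := P) (Q := Q) k (fun a => φ (k a)) (fun a => (hf _ (hMf (hk1 a))).2)
    (fun a => (hg _ (hφ1 _ (hk1 a))).2) (fun a => hφ2 _ (hk1 a)) (fun a => hφ3 _ (hk1 a)) ?_
  intro a b hab
  have h1 := hx2 a b hab
  rw [← hk2, ← hk2] at h1
  have h2 := (Ex_len (hf _ (hMf (hk1 a))).1 (hf _ (hMf (hk1 b))).1 (by omega)).1
  refine h2.trans ?_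
  rw [div_eq_inv_mul, one_div]
  apply mul_le_mul_of_nonneg_right _ (DD_pos _).le
  apply inv_anti₀ (by positivity)
  exact pow_le_pow_right₀ (by norm_num) (by omega)

/-- few exits have comparable scale -/
lemma few_near {ρ : ℕ} (hρ : 1 ≤ ρ) {Q : List Bool} {g M : Finset (List Bool)} (hg : ∀ k ∈ g, Ex Q k) (hMg : M ⊆ g) (D : ℝ)
    (hM : ∀ k' ∈ M, ¬ (DD k' ≤ 1 / 4 ^ ρ * D) ∧ ¬ (D ≤ 1 / 4 ^ ρ * DD k')) : M.card ≤ 2 * ρ := by
  classical
  by_contra hcon
  push Not at hcon
  have hinj : Set.InjOn List.length (M : Set (List Bool)) := Ex_inj (fun k hk => hg k (hMg hk))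
  have hcard := Finset.card_image_of_injOn hinj
  obtain ⟨x, hx1, hx2⟩ := sep_chain (2 * ρ) 1 (M.image List.length) (by rw [hcard]; omega)
  have hch : ∀ a, ∃ k ∈ M, k.length = x a := fun a => Finset.mem_image.mp (hx1 a)
  choose k hk1 hk2 using hch
  have h1 := hx2 0 1 (by decide)
  rw [← hk2, ← hk2] at h1
  have h2 := (Ex_len (hg _ (hMg (hk1 0))) (hg _ (hMg (hk1 1))) (by omega)).1
  have h3 := (hM _ (hk1 1)).1
  have h4 := (hM _ (hk1 0)).2
  push Not at h3 h4
  have hY : (0 : ℝ) < 4 ^ ρ := by positivity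
  have h5 : DD (k 0) / 4 ^ ((k 1).length - (k 0).length) ≤ DD (k 0) / (4 ^ ρ * 4 ^ ρ) := by
    apply div_le_div_of_nonneg_left (DD_pos _).le (by positivity)
    rw [← pow_add]
    exact pow_le_pow_right₀ (by norm_num) (by omega)
  have h6 : DD (k 0) / (4 ^ ρ * 4 ^ ρ) = 1 / 4 ^ ρ * (1 / 4 ^ ρ * DD (k 0)) := by
    field_simp
  have h7 : 1 / 4 ^ ρ * (1 / 4 ^ ρ * DD (k 0)) < 1 / 4 ^ ρ * D := mul_lt_mul_of_pos_left h4 (by positivity)
  linarith

open scoped Classical in
/-- the weight of a pair -/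
def tw (H : ℕ) (k k' : List Bool) : ℝ := if Mt H k k' then min (wm k) (wm k') else 0

lemma tw_nonneg (H : ℕ) (k k' : List Bool) : 0 ≤ tw H k k' := by
  unfold tw
  split_ifs
  · exact le_min (wm_nonneg k) (wm_nonneg k')
  · exact le_refl _

lemma tw_le1 (H : ℕ) (k k' : List Bool) : tw H k k' ≤ wm k := by
  unfold tw
  split_ifs
  · exact min_le_left _ _
  · exact wm_nonneg k

lemma tw_le2 (H : ℕ) (k k' : List Bool) : tw H k k' ≤ wm k' := by
  unfold tw
  split_ifs
  · exact min_le_right _ _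
  · exact wm_nonneg k'

theorem fam_sum {H ρ : ℕ} (hs : (10 : ℝ) ^ 20 * H ^ 20 ≤ 4 ^ ρ) (hρ : 2 ≤ ρ) (hH : 1 ≤ H)
    {f g : Finset (List Bool)} (hf : Fam H f) (hg : Fam H g) :
    ∑ k ∈ f, ∑ k' ∈ g, tw H k k' ≤ 10 * (ρ : ℝ) * (∑ k ∈ f, wm k + ∑ k' ∈ g, wm k') := by
  classical
  set Wf : ℝ := ∑ k ∈ f, wm k with hWf
  set Wg : ℝ := ∑ k' ∈ g, wm k' with hWg
  have hWf0 : 0 ≤ Wf := Finset.sum_nonneg (fun k _ => wm_nonneg k)
  have hWg0 : 0 ≤ Wg := Finset.sum_nonneg (fun k _ => wm_nonneg k)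
  have hρr : (2 : ℝ) ≤ ρ := by exact_mod_cast hρ
  rcases hf with hf | ⟨P, hf⟩
  · have h1 : ∑ k ∈ f, ∑ k' ∈ g, tw H k k' ≤ ∑ k ∈ f, Wg :=
      Finset.sum_le_sum (fun k _ => Finset.sum_le_sum (fun k' _ => tw_le2 H k k'))
    rw [Finset.sum_const, nsmul_eq_mul] at h1
    have h2 : (f.card : ℝ) ≤ 1 := by exact_mod_cast hf
    nlinarith
  rcases hg with hg | ⟨Q, hg⟩
  · have h1 : ∑ k ∈ f, ∑ k' ∈ g, tw H k k' ≤ ∑ k ∈ f, ∑ k' ∈ g, wm k :=
      Finset.sum_le_sum (fun k _ => Finset.sum_le_sum (fun k' _ => tw_le1 H k k'))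
    simp only [Finset.sum_const, nsmul_eq_mul] at h1
    rw [← Finset.mul_sum] at h1
    have h2 : (g.card : ℝ) ≤ 1 := by exact_mod_cast hg
    nlinarith
  set Mf := f.filter (fun k => ∃ k' ∈ g, Mt H k k' ∧ DD k' ≤ 1 / 4 ^ ρ * DD k) with hMf
  set Mg := g.filter (fun k' => ∃ k ∈ f, Mt H k' k ∧ DD k ≤ 1 / 4 ^ ρ * DD k') with hMg
  have cf : Mf.card ≤ 4 * ρ := by
    apply few_top hs hH hf hg (Finset.filter_subset _ _)
    intro k hk
    exact (Finset.mem_filter.mp hk).2
  have cg : Mg.card ≤ 4 * ρ := by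
    apply few_top hs hH hg hf (Finset.filter_subset _ _)
    intro k hk
    exact (Finset.mem_filter.mp hk).2
  have hpt : ∀ k ∈ f, ∀ k' ∈ g, tw H k k' ≤
      (if ¬ (DD k' ≤ 1 / 4 ^ ρ * DD k) ∧ ¬ (DD k ≤ 1 / 4 ^ ρ * DD k') then wm k else 0) +
      (if k ∈ Mf then wm k' else 0) + (if k' ∈ Mg then wm k else 0) := by
    intro k hk k' hk'
    have n1 : (0 : ℝ) ≤ (if ¬ (DD k' ≤ 1 / 4 ^ ρ * DD k) ∧ ¬ (DD k ≤ 1 / 4 ^ ρ * DD k') then wm k else 0) := by
      split_ifs
      · exact wm_nonneg k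
      · exact le_refl _
    have n2 : (0 : ℝ) ≤ (if k ∈ Mf then wm k' else 0) := by
      split_ifs
      · exact wm_nonneg k'
      · exact le_refl _
    have n3 : (0 : ℝ) ≤ (if k' ∈ Mg then wm k else 0) := by
      split_ifs
      · exact wm_nonneg k
      · exact le_refl _
    by_cases hM : Mt H k k'
    · by_cases h1 : DD k' ≤ 1 / 4 ^ ρ * DD k
      · have hkM : k ∈ Mf := by
          rw [hMf, Finset.mem_filter]
          exact ⟨hk, k', hk', hM, h1⟩
        have e : (if k ∈ Mf then wm k' else 0) = wm k' := if_pos hkM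
        have := tw_le2 H k k'
        linarith
      · by_cases h2 : DD k ≤ 1 / 4 ^ ρ * DD k'
        · have hkM : k' ∈ Mg := by
            rw [hMg, Finset.mem_filter]
            exact ⟨hk', k, hk, Mt_symm hM, h2⟩
          have e : (if k' ∈ Mg then wm k else 0) = wm k := if_pos hkM
          have := tw_le1 H k k'
          linarith
        · have e : (if ¬ (DD k' ≤ 1 / 4 ^ ρ * DD k) ∧ ¬ (DD k ≤ 1 / 4 ^ ρ * DD k') then wm k else 0) = wm k :=
            if_pos ⟨h1, h2⟩
          have := tw_le1 H k k'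
          linarith
    · have e : tw H k k' = 0 := by unfold tw; rw [if_neg hM]
      linarith
  have hsum : ∑ k ∈ f, ∑ k' ∈ g, tw H k k' ≤ ∑ k ∈ f, ∑ k' ∈ g,
      ((if ¬ (DD k' ≤ 1 / 4 ^ ρ * DD k) ∧ ¬ (DD k ≤ 1 / 4 ^ ρ * DD k') then wm k else 0) +
      (if k ∈ Mf then wm k' else 0) + (if k' ∈ Mg then wm k else 0)) :=
    Finset.sum_le_sum (fun k hk => Finset.sum_le_sum (fun k' hk' => hpt k hk k' hk'))
  simp only [Finset.sum_add_distrib] at hsum
  have t1 : ∑ k ∈ f, ∑ k' ∈ g, (if ¬ (DD k' ≤ 1 / 4 ^ ρ * DD k) ∧ ¬ (DD k ≤ 1 / 4 ^ ρ * DD k') then wm k else 0) ≤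
      2 * ρ * Wf := by
    rw [hWf, Finset.mul_sum]
    apply Finset.sum_le_sum
    intro k hk
    rw [← Finset.sum_filter, Finset.sum_const, nsmul_eq_mul]
    apply mul_le_mul_of_nonneg_right _ (wm_nonneg k)
    have := few_near (ρ := ρ) (by omega) (fun k hk => (hg k hk).1)
      (Finset.filter_subset (fun k' => ¬ (DD k' ≤ 1 / 4 ^ ρ * DD k) ∧ ¬ (DD k ≤ 1 / 4 ^ ρ * DD k')) g) (DD k)
      (fun k' hk' => (Finset.mem_filter.mp hk').2)
    exact_mod_cast this
  have t2 : ∑ k ∈ f, ∑ k' ∈ g, (if k ∈ Mf then wm k' else 0) ≤ 4 * ρ * Wg := by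
    have e : ∀ k ∈ f, ∑ k' ∈ g, (if k ∈ Mf then wm k' else 0) = if k ∈ Mf then Wg else 0 := by
      intro k _
      split_ifs
      · rfl
      · simp
    rw [Finset.sum_congr rfl e, ← Finset.sum_filter, Finset.sum_const, nsmul_eq_mul]
    apply mul_le_mul_of_nonneg_right _ hWg0
    have h1 : f.filter (fun k => k ∈ Mf) ⊆ Mf := fun k hk => (Finset.mem_filter.mp hk).2
    have h2 := (Finset.card_le_card h1).trans cf
    exact_mod_cast h2
  have t3 : ∑ k ∈ f, ∑ k' ∈ g, (if k' ∈ Mg then wm k else 0) ≤ 4 * ρ * Wf := by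
    rw [hWf, Finset.mul_sum]
    apply Finset.sum_le_sum
    intro k _
    rw [← Finset.sum_filter, Finset.sum_const, nsmul_eq_mul]
    apply mul_le_mul_of_nonneg_right _ (wm_nonneg k)
    have h1 : g.filter (fun k => k ∈ Mg) ⊆ Mg := fun k hk => (Finset.mem_filter.mp hk).2
    have h2 := (Finset.card_le_card h1).trans cg
    exact_mod_cast h2
  have p1 : 0 ≤ (ρ : ℝ) * Wf := by positivity
  have p2 : 0 ≤ (ρ : ℝ) * Wg := by positivity
  linarith

end

end Pool.Agent.TH913.MK
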