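import Mathlib
import Pool.Agent.TH913.MK.P5
import Pool.Agent.TH913.MK.N11

set_option autoImplicit false

namespace Pool.Agent.TH913.MK

open Pool.Agent.H499R2

noncomputable section

theorem X_bound2 (X : Finset (List Bool)) (φ : List Bool → List Bool) (H ρ : ℕ) (k k' : List Bool) (hH : 1 ≤ H)
    (h : Hy H ρ k k' (fun l l' => l ∈ X ∧ l' = φ l)) (hne : ∀ l ∈ X, φ l ≠ l) {Dv : ℕ}
    (hDv : ∀ x : ℕ, 1 ≤ x → x ≤ H ^ 4 → x.divisors.card ≤ Dv) :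
    (X.card : ℝ) ≤ CB H Dv * H * tw H k k' := by
  classical
  have hCB : 0 ≤ CB H Dv * H := mul_nonneg (CB_pos H Dv hH) (by positivity)
  rcases Finset.eq_empty_or_nonempty X with hX0 | ⟨l0, hl0⟩
  · rw [hX0, Finset.card_empty]; push_cast
    exact mul_nonneg hCB (tw_nonneg H k k')
  have hM : Mt H k k' := by
    obtain ⟨h1, h2, h3, h4, h5⟩ := h.rel l0 (φ l0) ⟨hl0, rfl⟩
    exact ⟨l0, φ l0, h1, h2, h3, h4, h5⟩
  have hinj : ∀ a ∈ X, ∀ b ∈ X, φ a = φ b → a = b := by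
    intro a ha b hb hab
    exact h.inj (a := a) (b := b) (c := φ a) ⟨ha, rfl⟩ ⟨hb, hab⟩
  have b1 := X_bound X φ H ρ k k' hH h hne hDv
  have b2 : (X.card : ℝ) ≤ CB H Dv * H * (1 / mm k') := by
    have hch : ∀ l' ∈ X.image φ, ∃ l ∈ X, φ l = l' := fun l' hl' => Finset.mem_image.mp hl'
    choose! ψ hψ1 hψ2 using hch
    have hcard : (X.image φ).card = X.card := Finset.card_image_of_injOn (fun a ha b hb hab => hinj a ha b hb hab)
    rw [← hcard]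
    apply X_bound (X.image φ) ψ H ρ k' k hH ?_ ?_ hDv
    · refine ⟨h.hs, h.hρ, h.hp', h.hq', h.hp, h.hq, h.irr', h.irr, ?_⟩
      rintro l' l ⟨hl', rfl⟩
      obtain ⟨g1, g2, g3, g4, g5⟩ := h.rel (ψ l') l' ⟨hψ1 l' hl', (hψ2 l' hl').symm⟩
      exact ⟨g2, g1, g4, g3, g5.symm⟩
    · intro l' hl' heq
      have h1 := hψ2 l' hl'
      exact hne (ψ l') (hψ1 l' hl') (by rw [h1, heq])
  have e : tw H k k' = min (wm k) (wm k') := by unfold tw; rw [if_pos hM]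
  rw [e]
  rcases le_total (wm k) (wm k') with hh | hh
  · rw [min_eq_left hh]; exact b1
  · rw [min_eq_right hh]; exact b2

open scoped Classical in
/-- bad words -/
def Bd5 (H ρ : ℕ) : Finset (List Bool) := Bad1 H ρ ∪ RS H ρ

lemma good5 {H ρ : ℕ} {l : List Bool} (hl : sz l ≤ H) (hb : l ∉ Bd5 H ρ) :
    ∃ k, k <+: l ∧ k ∈ KS H ρ H := by
  classical
  unfold Bd5 at hb
  simp only [Finset.mem_union, not_or] at hb
  obtain ⟨b1, b2⟩ := hb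
  rw [mem_Bad1] at b1
  rw [mem_RS] at b2
  have hbig : Big ρ l := by
    by_contra h; exact b1 ⟨hl, h⟩
  have hR : ¬ Rt H l := fun h => b2 ⟨hl, hbig, h⟩
  obtain ⟨k, hk, hK⟩ := Kp_exists (H := H) l hbig hR
  refine ⟨k, hk, ?_⟩
  rw [mem_KS]
  exact ⟨(sz_prefix hk).trans hl, hK⟩

lemma Bd5_card {H ρ : ℕ} (hs : (10 : ℝ) ^ 20 * H ^ 20 ≤ 4 ^ ρ) (hρ : 2 ≤ ρ) (hH : 1 ≤ H) :
    ((Bd5 H ρ).card : ℝ) ≤ 7 * (ρ : ℝ) ^ 2 * (H + 1) := by
  classical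
  have h0 : (Bd5 H ρ).card ≤ (Bad1 H ρ).card + (RS H ρ).card := by
    unfold Bd5; exact Finset.card_union_le _ _
  have h1 := Bad1_card H ρ
  have h2 := RS_card hs hρ hH
  have h3 : (Bd5 H ρ).card ≤ 7 * ρ ^ 2 * (H + 1) := by
    calc (Bd5 H ρ).card ≤ 3 * ρ ^ 2 * (H + 1) + 4 * ρ ^ 2 * (H + 1) := by omega
      _ = 7 * ρ ^ 2 * (H + 1) := by ring
  exact_mod_cast h3

/-- covering by families -/
theorem total_sum {H ρ : ℕ} (hs : (10 : ℝ) ^ 20 * H ^ 20 ≤ 4 ^ ρ) (hρ : 2 ≤ ρ) (hH : 1 ≤ H) :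
    ∑ k ∈ KS H ρ H, ∑ k' ∈ KS H ρ H, tw H k k' ≤ 5120 * (ρ : ℝ) ^ 5 * ∑ k ∈ KS H ρ H, wm k := by
  classical
  obtain ⟨F, hF1, hF2, hF3⟩ := exists_fams hs hρ hH
  set S := KS H ρ H with hS
  have cover : ∀ a : List Bool → ℝ, (∀ k, 0 ≤ a k) → ∑ k ∈ S, a k ≤ ∑ f ∈ F, ∑ k ∈ f, a k := by
    intro a ha
    have h1 : ∀ k ∈ S, a k ≤ ∑ f ∈ F, (if k ∈ f then a k else 0) := by
      intro k hk
      obtain ⟨f, hf, hkf⟩ := hF2 k hk
      have h2 : (if k ∈ f then a k else 0) ≤ ∑ f ∈ F, (if k ∈ f then a k else 0) := by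
        apply Finset.single_le_sum (f := fun f : Finset (List Bool) => if k ∈ f then a k else 0) _ hf
        intro g _
        show 0 ≤ if k ∈ g then a k else 0
        split_ifs
        · exact ha k
        · exact le_refl _
      rwa [if_pos hkf] at h2
    refine (Finset.sum_le_sum h1).trans ?_
    rw [Finset.sum_comm]
    apply Finset.sum_le_sum
    intro f hf
    rw [← Finset.sum_filter]
    apply Finset.sum_le_sum_of_subset_of_nonneg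
    · intro k hk; exact (Finset.mem_filter.mp hk).2
    · intro k _ _; exact ha k
  set W : ℝ := ∑ k ∈ S, wm k with hW
  have hW0 : 0 ≤ W := Finset.sum_nonneg (fun k _ => wm_nonneg k)
  have hfW : ∀ f ∈ F, ∑ k ∈ f, wm k ≤ W := by
    intro f hf
    apply Finset.sum_le_sum_of_subset_of_nonneg (hF3 f hf).1
    intro k _ _; exact wm_nonneg k
  have h1 := cover (fun k => ∑ k' ∈ S, tw H k k') (fun k => Finset.sum_nonneg (fun k' _ => tw_nonneg H k k'))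
  have h2 : ∑ f ∈ F, ∑ k ∈ f, ∑ k' ∈ S, tw H k k' ≤ ∑ f ∈ F, ∑ k ∈ f, ∑ g ∈ F, ∑ k' ∈ g, tw H k k' :=
    Finset.sum_le_sum (fun f _ => Finset.sum_le_sum (fun k _ => cover (fun k' => tw H k k') (fun k' => tw_nonneg H k k')))
  have h3 : ∑ f ∈ F, ∑ k ∈ f, ∑ g ∈ F, ∑ k' ∈ g, tw H k k' = ∑ f ∈ F, ∑ g ∈ F, ∑ k ∈ f, ∑ k' ∈ g, tw H k k' :=
    Finset.sum_congr rfl (fun f _ => Finset.sum_comm)
  have h4 : ∑ f ∈ F, ∑ g ∈ F, ∑ k ∈ f, ∑ k' ∈ g, tw H k k' ≤ ∑ f ∈ F, ∑ g ∈ F, 20 * (ρ : ℝ) * W := by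
    apply Finset.sum_le_sum
    intro f hf
    apply Finset.sum_le_sum
    intro g hg
    have h5 := fam_sum hs hρ hH (hF3 f hf).2 (hF3 g hg).2
    have h6 := hfW f hf
    have h7 := hfW g hg
    have h8 : 10 * (ρ : ℝ) * (∑ k ∈ f, wm k + ∑ k' ∈ g, wm k') ≤ 10 * (ρ : ℝ) * (W + W) :=
      mul_le_mul_of_nonneg_left (by linarith) (by positivity)
    have h9 : 10 * (ρ : ℝ) * (W + W) = 20 * (ρ : ℝ) * W := by ring
    linarith
  simp only [Finset.sum_const, nsmul_eq_mul] at h4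
  have h10 : (F.card : ℝ) ≤ 16 * (ρ : ℝ) ^ 2 := by exact_mod_cast hF1
  have h11 : (F.card : ℝ) * ((F.card : ℝ) * (20 * (ρ : ℝ) * W)) ≤ 5120 * (ρ : ℝ) ^ 5 * W := by
    calc (F.card : ℝ) * ((F.card : ℝ) * (20 * (ρ : ℝ) * W)) ≤
        (16 * (ρ : ℝ) ^ 2) * ((16 * (ρ : ℝ) ^ 2) * (20 * (ρ : ℝ) * W)) := by
          apply mul_le_mul h10 _ (by positivity) (by positivity)
          exact mul_le_mul_of_nonneg_right h10 (by positivity)
      _ = 5120 * (ρ : ℝ) ^ 5 * W := by ring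
  linarith

theorem NU_card3 {H ρ : ℕ} (hs : (10 : ℝ) ^ 20 * H ^ 20 ≤ 4 ^ ρ) (hρ : 2 ≤ ρ) (hH : 1 ≤ H) {Dv : ℕ}
    (hDv : ∀ x : ℕ, 1 ≤ x → x ≤ H ^ 4 → x.divisors.card ≤ Dv) :
    ((NU H).card : ℝ) ≤ 2 * (Bd5 H ρ).card +
      CB H Dv * H * ∑ k ∈ KS H ρ H, ∑ k' ∈ KS H ρ H, tw H k k' := by
  classical
  set B := Bd5 H ρ with hBd
  set S1 := (SW H).filter (fun l => l ∉ B ∧ ∃ l', sz l' ≤ H ∧ l' ∉ B ∧ l' ≠ l ∧ FF l' = FF l) with hS1
  set S2 := (SW H).filter (fun l => l ∉ B ∧ (∃ l', l' ∈ B ∧ FF l' = FF l) ∧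
    ¬ ∃ l', sz l' ≤ H ∧ l' ∉ B ∧ l' ≠ l ∧ FF l' = FF l) with hS2
  have hcover : NU H ⊆ (B ∪ S2) ∪ S1 := by
    intro l hl
    obtain ⟨hl1, l', h1, h2, h3⟩ := mem_NU.mp hl
    rw [Finset.mem_union, Finset.mem_union]
    by_cases hb : l ∈ B
    · exact Or.inl (Or.inl hb)
    · by_cases hex : ∃ l', sz l' ≤ H ∧ l' ∉ B ∧ l' ≠ l ∧ FF l' = FF l
      · right
        rw [hS1, Finset.mem_filter, mem_SW]
        exact ⟨hl1, hb, hex⟩
      · left; right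
        rw [hS2, Finset.mem_filter, mem_SW]
        refine ⟨hl1, hb, ⟨l', ?_, h3⟩, hex⟩
        by_contra hb'
        exact hex ⟨l', h1, hb', h2, h3⟩
  have c2 : S2.card ≤ B.card := by
    have hch : ∀ l ∈ S2, ∃ l', l' ∈ B ∧ FF l' = FF l := by
      intro l hl
      rw [hS2, Finset.mem_filter] at hl
      exact hl.2.2.1
    choose! ψ hψ1 hψ2 using hch
    apply Finset.card_le_card_of_injOn ψ (fun l hl => hψ1 l hl)
    intro a ha b hb hab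
    by_contra hne
    have hfa := hψ2 a ha
    have hfb := hψ2 b hb
    have ha' := ha
    have hb' := hb
    simp only [hS2, Finset.coe_filter, Set.mem_ofPred_eq, mem_SW] at ha' hb'
    apply ha'.2.2.2
    exact ⟨b, hb'.1, hb'.2.1, Ne.symm hne, by rw [← hfb, ← hab, hfa]⟩
  -- the main part
  have hch : ∀ l ∈ S1, ∃ l', sz l' ≤ H ∧ l' ∉ B ∧ l' ≠ l ∧ FF l' = FF l := by
    intro l hl
    rw [hS1, Finset.mem_filter] at hl
    exact hl.2.2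
  choose! φ hφ1 hφ2 hφ3 hφ4 using hch
  have hK : ∀ l, sz l ≤ H → l ∉ B → ∃ k, k <+: l ∧ k ∈ KS H ρ H := fun l h1 h2 => good5 h1 h2
  choose! K hK1 hK2 using hK
  have hS1m : ∀ l ∈ S1, sz l ≤ H ∧ l ∉ B := by
    intro l hl
    rw [hS1, Finset.mem_filter, mem_SW] at hl
    exact ⟨hl.1, hl.2.1⟩
  have hmaps : ∀ l ∈ S1, (K l, K (φ l)) ∈ KS H ρ H ×ˢ KS H ρ H := by
    intro l hl
    obtain ⟨g1, g2⟩ := hS1m l hl
    rw [Finset.mem_product]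
    exact ⟨hK2 l g1 g2, hK2 (φ l) (hφ1 l hl) (hφ2 l hl)⟩
  have c1 : (S1.card : ℝ) ≤ CB H Dv * H * ∑ k ∈ KS H ρ H, ∑ k' ∈ KS H ρ H, tw H k k' := by
    have e1 := Finset.card_eq_sum_card_fiberwise (f := fun l => (K l, K (φ l))) (s := S1)
      (t := KS H ρ H ×ˢ KS H ρ H) (fun l hl => hmaps l hl)
    have e2 : (S1.card : ℝ) = ∑ b ∈ KS H ρ H ×ˢ KS H ρ H, ((S1.filter (fun l => (K l, K (φ l)) = b)).card : ℝ) := by
      exact_mod_cast e1
    rw [e2]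
    have e3 : ∀ b ∈ KS H ρ H ×ˢ KS H ρ H,
        ((S1.filter (fun l => (K l, K (φ l)) = b)).card : ℝ) ≤ CB H Dv * H * tw H b.1 b.2 := by
      rintro ⟨k, k'⟩ hkk
      rw [Finset.mem_product, mem_KS, mem_KS] at hkk
      obtain ⟨⟨z1, z2⟩, ⟨z3, z4⟩⟩ := hkk
      set X := S1.filter (fun l => (K l, K (φ l)) = (k, k')) with hX
      have hHy : Hy H ρ k k' (fun l l' => l ∈ X ∧ l' = φ l) := by
        refine ⟨hs, hρ, z2.1.1, z2.1.2, z4.1.1, z4.1.2, Ir_of_not_Rt hH z2.2.1, Ir_of_not_Rt hH z4.2.1, ?_⟩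
        rintro l l' ⟨hl, rfl⟩
        rw [hX, Finset.mem_filter] at hl
        obtain ⟨w1, w2⟩ := hS1m l hl.1
        have ek1 : K l = k := congrArg Prod.fst hl.2
        have ek1' : K (φ l) = k' := congrArg Prod.snd hl.2
        refine ⟨?_, ?_, w1, hφ1 l hl.1, hφ4 l hl.1⟩
        · rw [← ek1]; exact hK1 l w1 w2
        · rw [← ek1']; exact hK1 (φ l) (hφ1 l hl.1) (hφ2 l hl.1)
      have hneX : ∀ l ∈ X, φ l ≠ l := by
        intro l hl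
        rw [hX, Finset.mem_filter] at hl
        exact hφ3 l hl.1
      exact X_bound2 X φ H ρ k k' hH hHy hneX hDv
    refine (Finset.sum_le_sum e3).trans ?_
    rw [← Finset.mul_sum, Finset.sum_product]
  have h6 := Finset.card_le_card hcover
  have h7 := Finset.card_union_le (B ∪ S2) S1
  have h8 := Finset.card_union_le B S2
  have h9 : (NU H).card ≤ 2 * B.card + S1.card := by omega
  have h10 : ((NU H).card : ℝ) ≤ 2 * B.card + S1.card := by exact_mod_cast h9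
  linarith


end

end Pool.Agent.TH913.MK
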