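import Mathlib
import Pool.Agent.TH913.MK.P6
import Pool.Agent.TH913.MK.N12

set_option autoImplicit false

namespace Pool.Agent.TH913.MK

open Pool.Agent.H499R2

noncomputable section

theorem NU_main6 : ∃ C : ℝ, 0 < C ∧ ∀ H Dv : ℕ, 1 ≤ H → 1 ≤ Dv →
    (∀ x : ℕ, 1 ≤ x → x ≤ H ^ 4 → x.divisors.card ≤ Dv) →
    ((NU H).card : ℝ) ≤ C * (Dv * ((Nat.log 2 H + 1 : ℕ) : ℝ) ^ 11) * H := by
  refine ⟨28 * 44 ^ 2 + 2100 * 5120 * 8 * 54 * 44 ^ 7, by positivity, ?_⟩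
  intro H Dv hH hD hDv
  have hH1 : (1 : ℝ) ≤ H := by exact_mod_cast hH
  have hH0 : (0 : ℝ) < H := by linarith
  have hDr : (1 : ℝ) ≤ Dv := by exact_mod_cast hD
  set L := Nat.log 2 H + 1 with hL
  have hL1 : (1 : ℝ) ≤ (L : ℝ) := by exact_mod_cast (by omega : 1 ≤ L)
  have hup : H < 2 ^ L := Nat.lt_pow_succ_log_self (by norm_num) H
  have hs : (10 : ℝ) ^ 20 * (H : ℝ) ^ 20 ≤ 4 ^ (44 * L) := hs_of (by omega) hup
  have hρ : 2 ≤ 44 * L := by omega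
  have h1 := NU_card3 hs hρ hH hDv
  have h2 := Bd5_card hs hρ hH
  have h3 := total_sum hs hρ hH
  have h4 := KS_wm hs hH (le_refl H) hH
  have h5 : ∑ k ∈ KS H (44 * L) H, wm k = ∑ k ∈ KS H (44 * L) H, 1 / (mm k : ℝ) := rfl
  rw [← h5] at h4
  have hW : WW (44 * L) H ≤ 54 * ((44 * L : ℕ) : ℝ) ^ 2 * (L : ℝ) := WW_le (by omega) H
  have hW0 := WW_nonneg (44 * L) H
  have hE : 3 * Real.log (2 * H) + 2 ≤ 8 * (L : ℝ) := by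
    have h6 := log_le_L hH
    rw [← hL] at h6
    have h7 : Real.log 2 ≤ 1 := by
      have := Real.log_two_lt_d9; linarith
    rw [Real.log_mul (by norm_num) hH0.ne']
    linarith
  have hW1 : ∑ k ∈ KS H (44 * L) H, wm k ≤ 8 * (L : ℝ) * (54 * ((44 * L : ℕ) : ℝ) ^ 2 * (L : ℝ)) := by
    refine h4.trans ?_
    exact mul_le_mul hE hW hW0 (by positivity)
  have hCB := CB_le (H := H) (L := L) hH hL hD
  have hCB0 := CB_pos H Dv hH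
  have hsum : ∑ k ∈ KS H (44 * L) H, ∑ k' ∈ KS H (44 * L) H, tw H k k' ≤
      5120 * 8 * 54 * 44 ^ 7 * (L : ℝ) ^ 9 := by
    refine h3.trans ?_
    calc 5120 * ((44 * L : ℕ) : ℝ) ^ 5 * ∑ k ∈ KS H (44 * L) H, wm k ≤
        5120 * ((44 * L : ℕ) : ℝ) ^ 5 * (8 * (L : ℝ) * (54 * ((44 * L : ℕ) : ℝ) ^ 2 * (L : ℝ))) :=
          mul_le_mul_of_nonneg_left hW1 (by positivity)
      _ = 5120 * 8 * 54 * 44 ^ 7 * (L : ℝ) ^ 9 := by push_cast; ring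
  have hmain : CB H Dv * H * ∑ k ∈ KS H (44 * L) H, ∑ k' ∈ KS H (44 * L) H, tw H k k' ≤
      2100 * 5120 * 8 * 54 * 44 ^ 7 * (Dv * (L : ℝ) ^ 11) * H := by
    calc CB H Dv * H * ∑ k ∈ KS H (44 * L) H, ∑ k' ∈ KS H (44 * L) H, tw H k k' ≤
        CB H Dv * H * (5120 * 8 * 54 * 44 ^ 7 * (L : ℝ) ^ 9) :=
          mul_le_mul_of_nonneg_left hsum (by positivity)
      _ ≤ (2100 * (Dv * (L : ℝ) ^ 2)) * H * (5120 * 8 * 54 * 44 ^ 7 * (L : ℝ) ^ 9) := by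
          apply mul_le_mul_of_nonneg_right _ (by positivity)
          exact mul_le_mul_of_nonneg_right hCB hH0.le
      _ = 2100 * 5120 * 8 * 54 * 44 ^ 7 * (Dv * (L : ℝ) ^ 11) * H := by ring
  have hbad : 2 * ((Bd5 H (44 * L)).card : ℝ) ≤ 28 * 44 ^ 2 * (Dv * (L : ℝ) ^ 11) * H := by
    have e1 : (L : ℝ) ^ 2 ≤ (L : ℝ) ^ 11 := pow_le_pow_right₀ hL1 (by norm_num)
    have e2 : (L : ℝ) ^ 11 ≤ Dv * (L : ℝ) ^ 11 := le_mul_of_one_le_left (by positivity) hDr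
    calc 2 * ((Bd5 H (44 * L)).card : ℝ) ≤ 2 * (7 * ((44 * L : ℕ) : ℝ) ^ 2 * (H + 1)) := by linarith
      _ ≤ 2 * (7 * ((44 * L : ℕ) : ℝ) ^ 2 * (2 * H)) := by
          apply mul_le_mul_of_nonneg_left _ (by norm_num)
          apply mul_le_mul_of_nonneg_left _ (by positivity)
          linarith
      _ = 28 * 44 ^ 2 * (L : ℝ) ^ 2 * H := by push_cast; ring
      _ ≤ 28 * 44 ^ 2 * (Dv * (L : ℝ) ^ 11) * H := by
          apply mul_le_mul_of_nonneg_right _ hH0.le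
          apply mul_le_mul_of_nonneg_left (e1.trans e2) (by norm_num)
  have e3 : (28 * 44 ^ 2 + 2100 * 5120 * 8 * 54 * 44 ^ 7) * (Dv * (L : ℝ) ^ 11) * H =
      28 * 44 ^ 2 * (Dv * (L : ℝ) ^ 11) * H + 2100 * 5120 * 8 * 54 * 44 ^ 7 * (Dv * (L : ℝ) ^ 11) * H := by ring
  rw [e3]
  linarith

theorem NU_theta1 (δ : ℝ) (hδ : 0 < δ) : ∃ C : ℝ, 0 < C ∧ ∀ H : ℕ, 1 ≤ H →
    ((NU H).card : ℝ) ≤ C * (H : ℝ) ^ (1 + δ) := by
  obtain ⟨C1, hC1, hmain⟩ := NU_main6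
  obtain ⟨D, hD, hdiv⟩ := Pool.Agent.H510R2.divisor_bound (δ / 8) (by positivity)
  set K : ℝ := (1 + 2 / (δ / 22)) ^ 11 with hK
  have hK0 : 0 < K := by positivity
  refine ⟨C1 * (D * K), by positivity, ?_⟩
  intro H hH
  have hH1 : (1 : ℝ) ≤ H := by exact_mod_cast hH
  have hH0 : (0 : ℝ) < H := by linarith
  have hpow4 : ((H : ℝ) ^ 4) ^ (δ / 8) = (H : ℝ) ^ (δ / 2) := by
    rw [← Real.rpow_natCast, ← Real.rpow_mul hH0.le]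
    congr 1
    push_cast
    ring
  have hd : ∀ x : ℕ, 1 ≤ x → x ≤ H ^ 4 → (x.divisors.card : ℝ) ≤ D * (H : ℝ) ^ (δ / 2) := by
    intro x hx1 hx4
    have h1 := hdiv x hx1
    have h2 : (x : ℝ) ^ (δ / 8) ≤ ((H : ℝ) ^ 4) ^ (δ / 8) := by
      apply Real.rpow_le_rpow (by positivity) _ (by positivity)
      exact_mod_cast hx4
    rw [hpow4] at h2
    exact h1.trans (mul_le_mul_of_nonneg_left h2 hD.le)
  set Dv : ℕ := ⌊D * (H : ℝ) ^ (δ / 2)⌋₊ with hDv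
  have hd' : ∀ x : ℕ, 1 ≤ x → x ≤ H ^ 4 → x.divisors.card ≤ Dv := fun x h1 h2 => Nat.le_floor (hd x h1 h2)
  have hD1 : 1 ≤ Dv := by
    have := hd' 1 (le_refl _) (Nat.one_le_pow _ _ hH)
    simpa using this
  have hDle : (Dv : ℝ) ≤ D * (H : ℝ) ^ (δ / 2) := Nat.floor_le (by positivity)
  have h1 := hmain H Dv hH hD1 hd'
  have h2 : ((Nat.log 2 H + 1 : ℕ) : ℝ) ^ 11 ≤ K * (H : ℝ) ^ (δ / 2) := by
    have h3 := L_le_rpow (δ := δ / 22) (by positivity) hH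
    have h4 : ((Nat.log 2 H + 1 : ℕ) : ℝ) ^ 11 ≤ ((1 + 2 / (δ / 22)) * (H : ℝ) ^ (δ / 22)) ^ 11 :=
      pow_le_pow_left₀ (by positivity) h3 11
    rw [mul_pow, ← hK] at h4
    have h5 : ((H : ℝ) ^ (δ / 22)) ^ 11 = (H : ℝ) ^ (δ / 2) := by
      rw [← Real.rpow_natCast, ← Real.rpow_mul hH0.le]
      congr 1
      push_cast
      ring
    rw [h5] at h4
    exact h4
  have h6 : (H : ℝ) ^ (δ / 2) * (H : ℝ) ^ (δ / 2) * H = (H : ℝ) ^ (1 + δ) := by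
    rw [← Real.rpow_add hH0]
    nth_rewrite 2 [← Real.rpow_one (H : ℝ)]
    rw [← Real.rpow_add hH0]
    congr 1
    ring
  have hr1 : 0 ≤ (H : ℝ) ^ (δ / 2) := Real.rpow_nonneg hH0.le _
  calc ((NU H).card : ℝ) ≤ C1 * (Dv * ((Nat.log 2 H + 1 : ℕ) : ℝ) ^ 11) * H := h1
    _ ≤ C1 * ((D * (H : ℝ) ^ (δ / 2)) * (K * (H : ℝ) ^ (δ / 2))) * H := by
        apply mul_le_mul_of_nonneg_right _ hH0.le
        apply mul_le_mul_of_nonneg_left _ hC1.le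
        exact mul_le_mul hDle h2 (by positivity) (by positivity)
    _ = C1 * (D * K) * ((H : ℝ) ^ (δ / 2) * (H : ℝ) ^ (δ / 2) * H) := by ring
    _ = C1 * (D * K) * (H : ℝ) ^ (1 + δ) := by rw [h6]

/-- the number of exceptions -/
theorem exN_count (δ : ℝ) (hδ : 0 < δ) : ∃ C : ℝ, 0 < C ∧ ∀ N : ℕ, 16 ≤ N →
    (exN N : ℝ) ≤ C * (Real.log N) ^ (1 + δ) ∧
    (exN N : ℝ) ≤ C * (Real.log N) ^ (-1 + δ) * mkN N := by
  obtain ⟨C, hC, hmain⟩ := NU_theta1 δ hδ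
  obtain ⟨c, hc, hlow⟩ := mkN_lower
  refine ⟨C * 4 ^ (1 + δ) + C * 4 ^ (1 + δ) / c, by positivity, ?_⟩
  intro N hN
  have hNr : (16 : ℝ) ≤ N := by exact_mod_cast hN
  have hlog2 := Real.log_two_gt_d9
  set y := Real.log N with hy
  have hy1 : 1 ≤ y := by
    have h1 : Real.log 16 ≤ y := Real.log_le_log (by norm_num) hNr
    have h2 : Real.log 16 = 4 * Real.log 2 := by
      rw [show (16 : ℝ) = 2 ^ 4 by norm_num, Real.log_pow]; norm_num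
    linarith
  have hy0 : 0 < y := by linarith
  have h3N : Real.log (3 * N) ≤ 2 * y := by
    rw [Real.log_mul (by norm_num) (by linarith)]
    have : Real.log 3 ≤ Real.log N := Real.log_le_log (by norm_num) (by linarith)
    linarith
  have h3N' : y ≤ Real.log (3 * N) := Real.log_le_log (by linarith) (by linarith)
  set H := ⌊2 * Real.log (3 * N)⌋₊ with hH
  have f1 : (H : ℝ) ≤ 2 * Real.log (3 * N) := Nat.floor_le (by linarith)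
  have f2 : 2 * Real.log (3 * N) < H + 1 := Nat.lt_floor_add_one _
  have hH1 : 1 ≤ H := by
    have : (0 : ℝ) < H := by linarith
    exact_mod_cast this
  have hH0 : (0 : ℝ) < H := by exact_mod_cast hH1
  have g1 : exN N ≤ (NU H).card := Ex_card N H (by omega) f2
  have g2 := hmain H hH1
  have hH4 : (H : ℝ) ≤ 4 * y := by linarith
  have g3 : (H : ℝ) ^ (1 + δ) ≤ 4 ^ (1 + δ) * y ^ (1 + δ) := by
    calc (H : ℝ) ^ (1 + δ) ≤ (4 * y) ^ (1 + δ) := Real.rpow_le_rpow hH0.le hH4 (by linarith)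
      _ = 4 ^ (1 + δ) * y ^ (1 + δ) := Real.mul_rpow (by norm_num) hy0.le
  have hyp : 0 ≤ y ^ (1 + δ) := Real.rpow_nonneg hy0.le _
  have hc4 : (0 : ℝ) < 4 ^ (1 + δ) := Real.rpow_pos_of_pos (by norm_num) _
  have g4 : (exN N : ℝ) ≤ C * 4 ^ (1 + δ) * y ^ (1 + δ) := by
    calc (exN N : ℝ) ≤ (NU H).card := by exact_mod_cast g1
      _ ≤ C * (H : ℝ) ^ (1 + δ) := g2
      _ ≤ C * (4 ^ (1 + δ) * y ^ (1 + δ)) := mul_le_mul_of_nonneg_left g3 hC.le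
      _ = _ := by ring
  constructor
  · refine g4.trans ?_
    apply mul_le_mul_of_nonneg_right _ hyp
    have : 0 < C * 4 ^ (1 + δ) / c := by positivity
    linarith
  · have g6 := hlow N (by omega)
    rw [← hy] at g6
    have e2 : y ^ (-1 + δ) * y ^ 2 = y ^ (1 + δ) := by
      rw [← Real.rpow_natCast, ← Real.rpow_add hy0]; congr 1; push_cast; ring
    have hyq : 0 < y ^ (-1 + δ) := Real.rpow_pos_of_pos hy0 _
    have hmk0 : (0 : ℝ) ≤ mkN N := by positivity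
    calc (exN N : ℝ) ≤ C * 4 ^ (1 + δ) * y ^ (1 + δ) := g4
      _ = C * 4 ^ (1 + δ) / c * y ^ (-1 + δ) * (c * y ^ 2) := by
          rw [← e2]; field_simp
      _ ≤ C * 4 ^ (1 + δ) / c * y ^ (-1 + δ) * mkN N := mul_le_mul_of_nonneg_left g6 (by positivity)
      _ ≤ (C * 4 ^ (1 + δ) + C * 4 ^ (1 + δ) / c) * y ^ (-1 + δ) * mkN N := by
          apply mul_le_mul_of_nonneg_right _ hmk0
          apply mul_le_mul_of_nonneg_right _ hyq.le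
          have : 0 < C * (4 : ℝ) ^ (1 + δ) := by positivity
          linarith

/-- the same with explicit sets -/
theorem count_set (ε : ℝ) (hε : 0 < ε) : ∃ C : ℝ, 0 < C ∧ ∀ N : ℕ, 16 ≤ N →
    ({m : ℕ | 1 ≤ m ∧ m ≤ N ∧ ∃ p q : ℕ × ℕ, p ≠ q ∧
        (1 ≤ p.1 ∧ p.1 ≤ p.2 ∧ p.2 ≤ m ∧ p.1 ^ 2 + p.2 ^ 2 + m ^ 2 = 3 * p.1 * p.2 * m) ∧
        (1 ≤ q.1 ∧ q.1 ≤ q.2 ∧ q.2 ≤ m ∧ q.1 ^ 2 + q.2 ^ 2 + m ^ 2 = 3 * q.1 * q.2 * m)}.ncard : ℝ) ≤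
      C * (Real.log N) ^ (1 + ε) ∧
    ({m : ℕ | 1 ≤ m ∧ m ≤ N ∧ ∃ p q : ℕ × ℕ, p ≠ q ∧
        (1 ≤ p.1 ∧ p.1 ≤ p.2 ∧ p.2 ≤ m ∧ p.1 ^ 2 + p.2 ^ 2 + m ^ 2 = 3 * p.1 * p.2 * m) ∧
        (1 ≤ q.1 ∧ q.1 ≤ q.2 ∧ q.2 ≤ m ∧ q.1 ^ 2 + q.2 ^ 2 + m ^ 2 = 3 * q.1 * q.2 * m)}.ncard : ℝ) ≤
      C * (Real.log N) ^ (-1 + ε) *
        ({m : ℕ | 1 ≤ m ∧ m ≤ N ∧ ∃ x y : ℕ, 0 < x ∧ 0 < y ∧ x ^ 2 + y ^ 2 + m ^ 2 = 3 * x * y * m}.ncard : ℝ) := by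
  classical
  obtain ⟨C, hC, h⟩ := exN_count ε hε
  refine ⟨C, hC, fun N hN => ?_⟩
  have h1 := h N hN
  have e1 : {m : ℕ | 1 ≤ m ∧ m ≤ N ∧ ∃ p q : ℕ × ℕ, p ≠ q ∧
        (1 ≤ p.1 ∧ p.1 ≤ p.2 ∧ p.2 ≤ m ∧ p.1 ^ 2 + p.2 ^ 2 + m ^ 2 = 3 * p.1 * p.2 * m) ∧
        (1 ≤ q.1 ∧ q.1 ≤ q.2 ∧ q.2 ≤ m ∧ q.1 ^ 2 + q.2 ^ 2 + m ^ 2 = 3 * q.1 * q.2 * m)}.ncard = exN N := by
    unfold exN
    rw [← Set.ncard_coe_finset]
    congr 1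
    ext m
    simp only [Set.mem_ofPred_eq, Finset.coe_filter, Finset.mem_Icc, Pool.Agent.H499R2.Ex, and_assoc]
  have e2 : {m : ℕ | 1 ≤ m ∧ m ≤ N ∧ ∃ x y : ℕ, 0 < x ∧ 0 < y ∧ x ^ 2 + y ^ 2 + m ^ 2 = 3 * x * y * m}.ncard = mkN N := by
    unfold mkN
    rw [← Set.ncard_coe_finset]
    congr 1
    ext m
    simp only [Set.mem_ofPred_eq, Finset.coe_filter, Finset.mem_Icc, Mk, and_assoc]
  rw [e1, e2]
  exact h1

end

end Pool.Agent.TH913.MK
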