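import Mathlib
import Pool.Agent.TH913.MK.P7

set_option autoImplicit false

namespace Pool.Agent.TH913.MK

open Pool.Agent.H499R2

noncomputable section

lemma exN_le (N : ℕ) : exN N ≤ N := by
  classical
  unfold exN
  refine (Finset.card_filter_le _ _).trans ?_
  rw [Nat.card_Icc]; omega

lemma mkN_one {N : ℕ} (hN : 1 ≤ N) : 1 ≤ mkN N := by
  classical
  unfold mkN
  rw [Nat.one_le_iff_ne_zero, Ne, Finset.card_eq_zero]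
  intro h
  have h1 : (1 : ℕ) ∈ (Finset.Icc 1 N).filter Mk := by
    rw [Finset.mem_filter, Finset.mem_Icc]
    refine ⟨⟨le_refl _, hN⟩, ?_⟩
    exact ⟨1, 1, by norm_num, by norm_num, by norm_num⟩
  rw [h] at h1
  exact absurd h1 (Finset.notMem_empty _)

/-- the number of exceptions, all `N ≥ 3` -/
theorem exN_count3 (δ : ℝ) (hδ : 0 < δ) : ∃ C : ℝ, 0 < C ∧ ∀ N : ℕ, 3 ≤ N →
    (exN N : ℝ) ≤ C * (Real.log N) ^ (1 + δ) ∧
    (exN N : ℝ) ≤ C * (Real.log N) ^ (-1 + δ) * mkN N := by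
  obtain ⟨C, hC, h⟩ := exN_count δ hδ
  refine ⟨C + 45, by positivity, ?_⟩
  intro N hN
  have hNr : (3 : ℝ) ≤ N := by exact_mod_cast hN
  have hy1 : 1 ≤ Real.log N := by
    rw [Real.le_log_iff_exp_le (by linarith)]
    have := Real.exp_one_lt_d9
    linarith
  have hy0 : 0 < Real.log N := by linarith
  have hp1 : 0 < (Real.log N) ^ (1 + δ) := Real.rpow_pos_of_pos hy0 _
  have hp2 : 0 < (Real.log N) ^ (-1 + δ) := Real.rpow_pos_of_pos hy0 _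
  have hmk : (1 : ℝ) ≤ mkN N := by exact_mod_cast mkN_one (by omega : 1 ≤ N)
  by_cases h16 : 16 ≤ N
  · obtain ⟨h1, h2⟩ := h N h16
    constructor
    · refine h1.trans ?_
      apply mul_le_mul_of_nonneg_right _ hp1.le
      linarith
    · refine h2.trans ?_
      apply mul_le_mul_of_nonneg_right _ (by linarith)
      apply mul_le_mul_of_nonneg_right _ hp2.le
      linarith
  · push Not at h16
    have h15 : (exN N : ℝ) ≤ 15 := by exact_mod_cast (exN_le N).trans (by omega)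
    have hN16 : (N : ℝ) ≤ 16 := by exact_mod_cast (by omega : N ≤ 16)
    have hy3 : Real.log N ≤ 3 := by
      have h1 : Real.log N ≤ Real.log 16 := Real.log_le_log (by linarith) hN16
      have h2 : Real.log 16 = 4 * Real.log 2 := by
        rw [show (16 : ℝ) = 2 ^ 4 by norm_num, Real.log_pow]; norm_num
      have h3 := Real.log_two_lt_d9
      linarith
    have q1 : 1 ≤ (Real.log N) ^ (1 + δ) := Real.one_le_rpow hy1 (by linarith)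
    have q2 : 1 / 3 ≤ (Real.log N) ^ (-1 + δ) := by
      have h1 : (Real.log N) ^ (-1 : ℝ) ≤ (Real.log N) ^ (-1 + δ) :=
        Real.rpow_le_rpow_of_exponent_le hy1 (by linarith)
      have h2 : 1 / 3 ≤ (Real.log N) ^ (-1 : ℝ) := by
        rw [Real.rpow_neg_one, ← one_div]
        exact one_div_le_one_div_of_le hy0 hy3
      linarith
    constructor
    · nlinarith
    · have h4 : (C + 45) * (1 / 3) ≤ (C + 45) * (Real.log N) ^ (-1 + δ) :=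
        mul_le_mul_of_nonneg_left q2 (by linarith)
      have h5 : (C + 45) * (Real.log N) ^ (-1 + δ) ≤ (C + 45) * (Real.log N) ^ (-1 + δ) * mkN N :=
        le_mul_of_one_le_right (by positivity) hmk
      linarith

/-- the same with explicit sets -/
theorem count_set3 (ε : ℝ) (hε : 0 < ε) : ∃ C : ℝ, 0 < C ∧ ∀ N : ℕ, 3 ≤ N →
    ({m : ℕ | 1 ≤ m ∧ m ≤ N ∧ ∃ p q : ℕ × ℕ, p ≠ q ∧
        (1 ≤ p.1 ∧ p.1 ≤ p.2 ∧ p.2 ≤ m ∧ p.1 ^ 2 + p.2 ^ 2 + m ^ 2 = 3 * p.1 * p.2 * m) ∧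
        (1 ≤ q.1 ∧ q.1 ≤ q.2 ∧ q.2 ≤ m ∧ q.1 ^ 2 + q.2 ^ 2 + m ^ 2 = 3 * q.1 * q.2 * m)}.ncard : ℝ) ≤
      C * (Real.log N) ^ (1 + ε) ∧
    ({m : ℕ | 1 ≤ m ∧ m ≤ N ∧ ∃ p q : ℕ × ℕ, p ≠ q ∧
        (1 ≤ p.1 ∧ p.1 ≤ p.2 ∧ p.2 ≤ m ∧ p.1 ^ 2 + p.2 ^ 2 + m ^ 2 = 3 * p.1 * p.2 * m) ∧
        (1 ≤ q.1 ∧ q.1 ≤ q.2 ∧ q.2 ≤ m ∧ q.1 ^ 2 + q.2 ^ 2 + m ^ 2 = 3 * q.1 * q.2 * m)}.ncard : ℝ) ≤
      C * (Real.log N) ^ (-1 + ε) *
        ({m : ℕ | 1 ≤ m ∧ m ≤ N ∧ ∃ x y : ℕ, 0 < x ∧ 0 < y ∧ x ^ 2 + y ^ 2 + m ^ 2 = 3 * x * y * m}.ncard : ℝ) := by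
  classical
  obtain ⟨C, hC, h⟩ := exN_count3 ε hε
  refine ⟨C, hC, fun N hN => ?_⟩
  have h1 := h N hN
  have e1 : {m : ℕ | 1 ≤ m ∧ m ≤ N ∧ ∃ p q : ℕ × ℕ, p ≠ q ∧
        (1 ≤ p.1 ∧ p.1 ≤ p.2 ∧ p.2 ≤ m ∧ p.1 ^ 2 + p.2 ^ 2 + m ^ 2 = 3 * p.1 * p.2 * m) ∧
        (1 ≤ q.1 ∧ q.1 ≤ q.2 ∧ q.2 ≤ m ∧ q.1 ^ 2 + q.2 ^ 2 + m ^ 2 = 3 * q.1 * q.2 * m)}.ncard = exN N := by
    unfold exN
    rw [← Set.ncard_coe_finset]
    congr 1
    ext m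
    simp only [Set.mem_ofPred_eq, Finset.coe_filter, Finset.mem_Icc, Pool.Agent.H499R2.Ex, and_assoc]
  have e2 : {m : ℕ | 1 ≤ m ∧ m ≤ N ∧ ∃ x y : ℕ, 0 < x ∧ 0 < y ∧ x ^ 2 + y ^ 2 + m ^ 2 = 3 * x * y * m}.ncard = mkN N := by
    unfold mkN
    rw [← Set.ncard_coe_finset]
    congr 1
    ext m
    simp only [Set.mem_ofPred_eq, Finset.coe_filter, Finset.mem_Icc, Mk, and_assoc]
  rw [e1, e2]
  exact h1

end

end Pool.Agent.TH913.MK
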