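import Pool.Agent.H609R3.NM.Fin
import Pool.Agent.TH913.MK.P8

set_option autoImplicit false

/-! The size of the `n`th Markoff number, with the exponent `ε` (adapted from TH880.MK.M16). -/

namespace Pool.Agent.TH913.MK.NN

open Filter Asymptotics Pool.Agent.H499R2 Pool.Agent.H609R3.NM

theorem exN_up (ε : ℝ) (hε : 0 < ε) : ∃ C : ℝ, 0 < C ∧ ∀ N : ℕ, 3 ≤ N →
    (exN N : ℝ) ≤ C * (Real.log N) ^ (1 + ε) := by
  obtain ⟨C, hC, h⟩ := Pool.Agent.TH913.MK.exN_count3 ε hε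
  exact ⟨C, hC, fun N hN => (h N hN).1⟩

/-- the excess is at most `(log)^(1 + ε)` -/
theorem E_up (ε : ℝ) (hε : 0 < ε) : ∃ K : ℝ, ∀ᶠ n : ℕ in atTop, E n ≤ K * L n ^ (1 + ε) := by
  obtain ⟨C, hC, h1⟩ := exN_up (ε / 2) (by positivity)
  have h2 : Tendsto (fun n => Real.log (mk n : ℝ)) atTop atTop :=
    Real.tendsto_log_atTop.comp (tendsto_natCast_atTop_atTop.comp mk_tendsto)
  obtain ⟨δ, hδ'⟩ : ∃ δ : ℝ, δ = ε / 2 := ⟨_, rfl⟩
  have hδ : 0 < δ := by rw [hδ']; positivity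
  -- (log y)² ≤ y^δ
  have h3 : ∀ᶠ y : ℝ in atTop, 7 * Real.log y ^ 2 + 77 ≤ y ^ δ := by
    have a1 := (isLittleO_log_rpow_atTop (half_pos hδ)).def (show (0 : ℝ) < 1 / 4 by norm_num)
    have a2 := (tendsto_rpow_atTop hδ).eventually_ge_atTop 154
    filter_upwards [a1, a2, eventually_ge_atTop 1] with y b1 b2 b3
    have hy0 : 0 < y := by linarith
    have hly : 0 ≤ Real.log y := Real.log_nonneg b3
    rw [Real.norm_eq_abs, Real.norm_eq_abs, abs_of_nonneg hly,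
      abs_of_nonneg (Real.rpow_nonneg hy0.le _)] at b1
    have e1 : (y ^ (δ / 2)) ^ 2 = y ^ δ := by
      rw [← Real.rpow_natCast, ← Real.rpow_mul hy0.le]
      congr 1
      push_cast
      ring
    have b4 : Real.log y ^ 2 ≤ 1 / 16 * y ^ δ := by
      rw [← e1]
      have := pow_le_pow_left₀ hly b1 2
      calc Real.log y ^ 2 ≤ _ := this
        _ = _ := by ring
    linarith
  refine ⟨C, ?_⟩
  filter_upwards [h2.eventually h3, h2.eventually_ge_atTop 1, mk_tendsto.eventually_ge_atTop 3]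
    with n b1 b2 b3
  have b4 := excess_le (mk n) b3
  have b5 := h1 (mk n) b3
  set y := Real.log (mk n : ℝ) with hy
  have hy0 : 0 < y := by linarith
  have b6 : 0 ≤ 7 * Real.log y ^ 2 + 77 := by positivity
  unfold E
  calc (tri (mk n) : ℝ) - mkN (mk n) ≤ exN (mk n) * (7 * Real.log y ^ 2 + 77) := b4
    _ ≤ C * y ^ (1 + ε / 2) * y ^ δ := by
        apply mul_le_mul b5 b1 b6
        positivity
    _ = C * y ^ (1 + ε) := by
        rw [mul_assoc, ← Real.rpow_add hy0, hδ']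
        congr 2
        ring
    _ ≤ C * L n ^ (1 + ε) := by
        apply mul_le_mul_of_nonneg_left _ hC.le
        exact Real.rpow_le_rpow hy0.le (logmk_le n) (by positivity)

theorem log_mk (ε : ℝ) (hε : 0 < ε) {c : ℝ} (hc : 0 < c)
    (h : (fun N : ℕ => (tri N : ℝ) - c * Real.log (3 * N) ^ 2) =o[atTop] (fun N : ℕ => Real.log N)) :
    ∃ K : ℝ, ∀ n : ℕ, 1 ≤ n → |Real.log (mk n) - Real.sqrt n / Real.sqrt c| ≤ K * (n : ℝ) ^ ε := by
  -- reduce to small ε
  wlog hε1 : ε ≤ 1 / 8 generalizing ε with H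
  · obtain ⟨K, hK⟩ := H (1 / 8) (by norm_num) le_rfl
    refine ⟨|K|, fun n hn => ?_⟩
    have hn' : (1 : ℝ) ≤ n := by exact_mod_cast hn
    have h1 := hK n hn
    have h2 : (n : ℝ) ^ (1 / 8 : ℝ) ≤ (n : ℝ) ^ ε :=
      Real.rpow_le_rpow_of_exponent_le hn' (by linarith)
    have h3 : 0 ≤ (n : ℝ) ^ (1 / 8 : ℝ) := by positivity
    calc |Real.log (mk n) - Real.sqrt n / Real.sqrt c| ≤ K * (n : ℝ) ^ (1 / 8 : ℝ) := h1
      _ ≤ |K| * (n : ℝ) ^ (1 / 8 : ℝ) := mul_le_mul_of_nonneg_right (le_abs_self K) h3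
      _ ≤ |K| * (n : ℝ) ^ ε := mul_le_mul_of_nonneg_left h2 (abs_nonneg K)
  have hR := R_small h
  have hE : ∀ᶠ n in atTop, 0 ≤ E n := Eventually.of_forall E_nonneg
  have hb := basic c
  obtain ⟨K0, hK0⟩ := E_up (2 * ε) (by positivity)
  have hK0' : ∀ᶠ n : ℕ in atTop, E n ≤ K0 * L n ^ (2 - (1 - 2 * ε)) := by
    filter_upwards [hK0] with n hn
    have e : (2 : ℝ) - (1 - 2 * ε) = 1 + 2 * ε := by ring
    rw [e]; exact hn
  obtain ⟨K', hK'⟩ := upper hc L_tendsto hR hb K0 (1 - 2 * ε) (by linarith) (by linarith) hK0'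
  have h1 := lower hc L_tendsto hE hR hb 1 one_pos
  obtain ⟨n0, hn0⟩ := eventually_atTop.1 (h1.and hK')
  set f : ℕ → ℝ := fun n => |Real.log (mk n) - Real.sqrt n / Real.sqrt c| with hf
  refine ⟨|K'| + 3 + ∑ i ∈ Finset.range n0, f i, ?_⟩
  intro n hn
  have hn' : (1 : ℝ) ≤ n := by exact_mod_cast hn
  have hpow : (1 : ℝ) ≤ (n : ℝ) ^ ε :=
    Real.one_le_rpow hn' (by positivity)
  have hS : 0 ≤ ∑ i ∈ Finset.range n0, f i := Finset.sum_nonneg fun i _ => abs_nonneg _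
  rcases lt_or_ge n n0 with hlt | hge
  · have h2 : f n ≤ ∑ i ∈ Finset.range n0, f i :=
      Finset.single_le_sum (f := f) (fun i _ => abs_nonneg _) (Finset.mem_range.2 hlt)
    have h3 : 0 ≤ |K'| := abs_nonneg _
    calc f n ≤ ∑ i ∈ Finset.range n0, f i := h2
      _ ≤ (|K'| + 3 + ∑ i ∈ Finset.range n0, f i) * 1 := by linarith
      _ ≤ _ := mul_le_mul_of_nonneg_left hpow (by positivity)
  · obtain ⟨h2, h3⟩ := hn0 n hge
    have e1 : Real.sqrt n / Real.sqrt c = Real.sqrt (n / c) := (Real.sqrt_div' _ hc.le).symm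
    have e2 : ((1 : ℝ) - (1 - 2 * ε)) / 2 = ε := by ring
    rw [e2] at h3
    have hm : (0 : ℝ) < mk n := by exact_mod_cast mk_pos n
    have e3 : L n = Real.log 3 + Real.log (mk n) := by
      unfold L
      rw [Real.log_mul (by norm_num) hm.ne']
    have h4 : 0 ≤ Real.log 3 := Real.log_nonneg (by norm_num)
    have h5 : Real.log 3 ≤ 2 := by
      rw [Real.log_le_iff_le_exp (by norm_num)]
      have := Real.add_one_le_exp (2 : ℝ)
      linarith
    have h6 : K' * (n : ℝ) ^ ε ≤ |K'| * (n : ℝ) ^ ε :=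
      mul_le_mul_of_nonneg_right (le_abs_self K') (by linarith)
    have h7 : 0 ≤ |K'| * (n : ℝ) ^ ε := by positivity
    have h8 : 0 ≤ (∑ i ∈ Finset.range n0, f i) * (n : ℝ) ^ ε := by positivity
    rw [e1, abs_le]
    constructor
    · nlinarith
    · nlinarith

/-- the number of Markoff numbers -/
theorem mkN_asymp (ε : ℝ) (hε : 0 < ε) {c : ℝ} (hc : 0 < c)
    (h : (fun N : ℕ => (tri N : ℝ) - c * Real.log (3 * N) ^ 2) =o[atTop] (fun N : ℕ => Real.log N)) :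
    ∃ K : ℝ, ∀ N : ℕ, 3 ≤ N → |(mkN N : ℝ) - c * Real.log N ^ 2| ≤ K * (Real.log N) ^ (1 + ε) := by
  obtain ⟨C, hC, h1⟩ := exN_up (ε / 2) (by positivity)
  obtain ⟨δ, hδ'⟩ : ∃ δ : ℝ, δ = ε / 2 := ⟨_, rfl⟩
  have hδ : 0 < δ := by rw [hδ']; positivity
  have hlog : Tendsto (fun N : ℕ => Real.log (N : ℝ)) atTop atTop :=
    Real.tendsto_log_atTop.comp tendsto_natCast_atTop_atTop
  have h3 : ∀ᶠ y : ℝ in atTop, 7 * Real.log y ^ 2 + 77 ≤ y ^ δ := by
    have a1 := (isLittleO_log_rpow_atTop (half_pos hδ)).def (show (0 : ℝ) < 1 / 4 by norm_num)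
    have a2 := (tendsto_rpow_atTop hδ).eventually_ge_atTop 154
    filter_upwards [a1, a2, eventually_ge_atTop 1] with y b1 b2 b3
    have hy0 : 0 < y := by linarith
    have hly : 0 ≤ Real.log y := Real.log_nonneg b3
    rw [Real.norm_eq_abs, Real.norm_eq_abs, abs_of_nonneg hly,
      abs_of_nonneg (Real.rpow_nonneg hy0.le _)] at b1
    have e1 : (y ^ (δ / 2)) ^ 2 = y ^ δ := by
      rw [← Real.rpow_natCast, ← Real.rpow_mul hy0.le]
      congr 1
      push_cast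
      ring
    have b4 : Real.log y ^ 2 ≤ 1 / 16 * y ^ δ := by
      rw [← e1]
      have := pow_le_pow_left₀ hly b1 2
      calc Real.log y ^ 2 ≤ _ := this
        _ = _ := by ring
    linarith
  obtain ⟨N0, hN0⟩ := eventually_atTop.1 ((h.def one_pos).and (hlog.eventually h3))
  obtain ⟨f, hf⟩ : ∃ f : ℕ → ℝ, f = fun N => |(mkN N : ℝ) - c * Real.log N ^ 2| := ⟨_, rfl⟩
  have hf0 : ∀ N, 0 ≤ f N := fun N => by rw [hf]; exact abs_nonneg _
  have hS : 0 ≤ ∑ i ∈ Finset.range N0, f i := Finset.sum_nonneg fun i _ => hf0 i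
  refine ⟨C + 1 + 8 * c + ∑ i ∈ Finset.range N0, f i, ?_⟩
  intro N hN
  have hNr : (3 : ℝ) ≤ N := by exact_mod_cast hN
  have hy1 : 1 ≤ Real.log N := by
    rw [Real.le_log_iff_exp_le (by linarith)]
    have := Real.exp_one_lt_d9
    linarith
  have hpow : 1 ≤ (Real.log N) ^ (1 + ε) := Real.one_le_rpow hy1 (by positivity)
  have hpow0 : 0 ≤ (Real.log N) ^ (1 + ε) := by linarith
  have hyp : Real.log N ≤ (Real.log N) ^ (1 + ε) := by
    calc Real.log N = (Real.log N) ^ (1 : ℝ) := (Real.rpow_one _).symm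
      _ ≤ _ := Real.rpow_le_rpow_of_exponent_le hy1 (by linarith)
  show |(mkN N : ℝ) - c * Real.log N ^ 2| ≤ _
  rcases lt_or_ge N N0 with hlt | hge
  · have h2 : f N ≤ ∑ i ∈ Finset.range N0, f i :=
      Finset.single_le_sum (f := f) (fun i _ => hf0 i) (Finset.mem_range.2 hlt)
    have e : |(mkN N : ℝ) - c * Real.log N ^ 2| = f N := by rw [hf]
    rw [e]
    calc f N ≤ (∑ i ∈ Finset.range N0, f i) * 1 := by linarith
      _ ≤ (C + 1 + 8 * c + ∑ i ∈ Finset.range N0, f i) * 1 := by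
        apply mul_le_mul_of_nonneg_right _ zero_le_one
        linarith
      _ ≤ _ := mul_le_mul_of_nonneg_left hpow (by positivity)
  · obtain ⟨b1, b2⟩ := hN0 N hge
    rw [Real.norm_eq_abs, Real.norm_eq_abs, abs_of_nonneg (by linarith : 0 ≤ Real.log (N : ℝ)), one_mul] at b1
    have b4 := excess_le N hN
    have b5 := h1 N hN
    have b7 : (mkN N : ℝ) ≤ tri N := by exact_mod_cast mkN_le_tri N
    set y := Real.log (N : ℝ) with hy
    have hy0 : 0 < y := by linarith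
    have b6 : 0 ≤ 7 * Real.log y ^ 2 + 77 := by positivity
    have b8 : (tri N : ℝ) - mkN N ≤ C * y ^ (1 + ε) := by
      calc (tri N : ℝ) - mkN N ≤ exN N * (7 * Real.log y ^ 2 + 77) := b4
        _ ≤ C * y ^ (1 + ε / 2) * y ^ δ := by
            apply mul_le_mul b5 b2 b6
            positivity
        _ = C * y ^ (1 + ε) := by
            rw [mul_assoc, ← Real.rpow_add hy0, hδ']
            congr 2
            ring
    have b9 : Real.log (3 * N) = Real.log 3 + y := by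
      rw [Real.log_mul (by norm_num) (by linarith)]
    have b10 : 0 ≤ Real.log 3 := Real.log_nonneg (by norm_num)
    have b11 : Real.log 3 ≤ 2 := by
      rw [Real.log_le_iff_le_exp (by norm_num)]
      have := Real.add_one_le_exp (2 : ℝ)
      linarith
    have b12 : 0 ≤ Real.log (3 * N) ^ 2 - y ^ 2 := by rw [b9]; nlinarith
    have b13 : Real.log (3 * N) ^ 2 - y ^ 2 ≤ 8 * y := by rw [b9]; nlinarith
    have b14 : c * (Real.log (3 * N) ^ 2 - y ^ 2) ≤ c * (8 * y) := mul_le_mul_of_nonneg_left b13 hc.le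
    have b15 : 0 ≤ c * (Real.log (3 * N) ^ 2 - y ^ 2) := mul_nonneg hc.le b12
    obtain ⟨b16, b17⟩ := abs_le.1 b1
    have b18 : |(mkN N : ℝ) - c * y ^ 2| ≤ C * y ^ (1 + ε) + y + c * (8 * y) := by
      have b19 : 0 ≤ C * y ^ (1 + ε) := by positivity
      rw [abs_le]
      constructor <;> nlinarith
    have b20 : c * (8 * y) ≤ 8 * c * y ^ (1 + ε) := by nlinarith
    have b21 : 0 ≤ (∑ i ∈ Finset.range N0, f i) * y ^ (1 + ε) := by positivity
    calc |(mkN N : ℝ) - c * y ^ 2| ≤ C * y ^ (1 + ε) + y + c * (8 * y) := b18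
      _ ≤ C * y ^ (1 + ε) + y ^ (1 + ε) + 8 * c * y ^ (1 + ε) +
          (∑ i ∈ Finset.range N0, f i) * y ^ (1 + ε) := by linarith
      _ = _ := by ring

end Pool.Agent.TH913.MK.NN
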